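import Mathlib

/-!
Elementary lemmas: log-convex sequences and the Cauchy-Schwarz inequality for real integrals.
-/

namespace Berry67

open MeasureTheory

/-- Log-convex sequences: `w n ^ (n+1) ≤ w 0 * w (n+1) ^ n`. -/
lemma logconvex_pow (w : ℕ → ℝ) (h0 : ∀ k, 0 ≤ w k)
    (hw : ∀ k, w (k + 1) ^ 2 ≤ w k * w (k + 2)) (n : ℕ) :
    w n ^ (n + 1) ≤ w 0 * w (n + 1) ^ n := by
  induction n with
  | zero => simp
  | succ n ih =>
    rcases (h0 (n + 1)).eq_or_lt with h | h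
    · rw [← h]
      simp only [ne_eq, Nat.add_eq_zero_iff, one_ne_zero, and_false, not_false_eq_true, zero_pow]
      exact mul_nonneg (h0 0) (pow_nonneg (h0 _) _)
    · have h1 : (w (n + 1) ^ 2) ^ (n + 1) ≤ (w n * w (n + 2)) ^ (n + 1) :=
        pow_le_pow_left₀ (by positivity) (hw n) _
      have h2 : (w n * w (n + 2)) ^ (n + 1) ≤ (w 0 * w (n + 1) ^ n) * w (n + 2) ^ (n + 1) := by
        rw [mul_pow]
        exact mul_le_mul_of_nonneg_right ih (pow_nonneg (h0 _) _)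
      have h3 : w (n + 1) ^ n * w (n + 1) ^ (n + 2) ≤ w (n + 1) ^ n * (w 0 * w (n + 2) ^ (n + 1)) := by
        calc w (n + 1) ^ n * w (n + 1) ^ (n + 2) = (w (n + 1) ^ 2) ^ (n + 1) := by ring
          _ ≤ _ := h1.trans h2
          _ = _ := by ring
      exact le_of_mul_le_mul_left h3 (pow_pos h _)

/-- If `X ^ (n+1) ≤ C * Y ^ n` for all `n`, then `X ≤ Y`. -/
lemma le_of_pow_bound (X Y C : ℝ) (hX : 0 ≤ X) (hY : 0 ≤ Y)
    (h : ∀ n : ℕ, X ^ (n + 1) ≤ C * Y ^ n) : X ≤ Y := by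
  by_contra hlt
  push Not at hlt
  have hXpos : 0 < X := lt_of_le_of_lt hY hlt
  have hq : Y / X < 1 := (div_lt_one hXpos).2 hlt
  have hq0 : 0 ≤ Y / X := div_nonneg hY hX
  have hlim : Filter.Tendsto (fun n : ℕ => C * (Y / X) ^ n) Filter.atTop (nhds (C * 0)) :=
    (tendsto_pow_atTop_nhds_zero_of_lt_one hq0 hq).const_mul C
  have hle : ∀ n : ℕ, X ≤ C * (Y / X) ^ n := by
    intro n
    have := h n
    rw [div_pow, ← mul_div_assoc, le_div_iff₀ (pow_pos hXpos n)]
    calc X * X ^ n = X ^ (n + 1) := by ring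
      _ ≤ _ := this
  have := ge_of_tendsto' hlim hle
  simp at this
  linarith

/-- Cauchy-Schwarz for real integrals. -/
lemma integral_mul_sq_le {α : Type*} [MeasurableSpace α] {μ : Measure α} {f g : α → ℝ}
    (hf : MemLp f 2 μ) (hg : MemLp g 2 μ) :
    (∫ x, f x * g x ∂μ) ^ 2 ≤ (∫ x, f x ^ 2 ∂μ) * (∫ x, g x ^ 2 ∂μ) := by
  have hf2 : Integrable (fun x => f x ^ 2) μ := hf.integrable_sq
  have hg2 : Integrable (fun x => g x ^ 2) μ := hg.integrable_sq
  have hfg : Integrable (fun x => f x * g x) μ := hf.integrable_mul hg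
  have key : ∀ t : ℝ, 0 ≤ (∫ x, g x ^ 2 ∂μ) * (t * t) + (2 * ∫ x, f x * g x ∂μ) * t
      + ∫ x, f x ^ 2 ∂μ := by
    intro t
    have h1 : 0 ≤ ∫ x, (f x + t * g x) ^ 2 ∂μ := integral_nonneg fun x => sq_nonneg _
    have h2 : ∫ x, (f x + t * g x) ^ 2 ∂μ = (∫ x, g x ^ 2 ∂μ) * (t * t)
        + (2 * ∫ x, f x * g x ∂μ) * t + ∫ x, f x ^ 2 ∂μ := by
      have e : (fun x => (f x + t * g x) ^ 2)
          = fun x => ((t * t) * (g x ^ 2) + (2 * t) * (f x * g x)) + f x ^ 2 := by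
        funext x; ring
      have i1 : Integrable (fun x => (t * t) * (g x ^ 2)) μ := hg2.const_mul _
      have i2 : Integrable (fun x => (2 * t) * (f x * g x)) μ := hfg.const_mul _
      have i3 : Integrable (fun x => (t * t) * (g x ^ 2) + (2 * t) * (f x * g x)) μ := i1.add i2
      rw [e, integral_add i3 hf2, integral_add i1 i2, integral_const_mul, integral_const_mul]
      ring
    rw [← h2]; exact h1
  have := discrim_le_zero key
  unfold discrim at this
  nlinarith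

/-- Jensen for squares under a probability measure. -/
lemma integral_sq_le {α : Type*} [MeasurableSpace α] {μ : Measure α} [IsProbabilityMeasure μ]
    {f : α → ℝ} (hf : MemLp f 2 μ) : (∫ x, f x ∂μ) ^ 2 ≤ ∫ x, f x ^ 2 ∂μ := by
  have := integral_mul_sq_le hf (memLp_const (μ := μ) (1 : ℝ))
  simpa using this

end Berry67
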