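import Pool.Agent.Lib_helper67.Berry.Gauss2
import Pool.Agent.Lib_helper67.Berry.Seq

/-!
Gaussian averages along a measure preserving action of a Euclidean space.
-/

namespace Berry67

set_option linter.unusedSectionVars false

open MeasureTheory ProbabilityTheory

variable {E : Type*} [NormedAddCommGroup E] [InnerProductSpace ℝ E] [FiniteDimensional ℝ E]
  [MeasurableSpace E] [BorelSpace E]
variable {Ω : Type*} [MeasurableSpace Ω] {P : Measure Ω}

/-- A jointly measurable, measure preserving action of the additive group `E` on `(Ω, P)`. -/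
structure IsFlow (P : Measure Ω) (T : E → Ω → Ω) : Prop where
  meas : Measurable (Function.uncurry T)
  mp : ∀ x, MeasurePreserving (T x) P P
  add : ∀ x y ω, T x (T y ω) = T (x + y) ω
  zero : ∀ ω, T 0 ω = ω

/-- Gaussian average of `A` along the orbits, at scale `r`. -/
noncomputable def avg (T : E → Ω → Ω) (r : ℝ) (A : Ω → ℝ) (ω : Ω) : ℝ :=
  ∫ x, A (T (r • x) ω) ∂(stdGaussian E)

section
variable {T : E → Ω → Ω}

lemma IsFlow.meas_smul (H : IsFlow P T) (r : ℝ) :
    Measurable (fun p : E × Ω => T (r • p.1) p.2) :=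
  H.meas.comp ((measurable_fst.const_smul r).prodMk measurable_snd)

lemma IsFlow.mp_prod [IsProbabilityMeasure P] (H : IsFlow P T) (r : ℝ) :
    MeasurePreserving (fun p : E × Ω => T (r • p.1) p.2) ((stdGaussian E).prod P) P := by
  have h1 : MeasurePreserving (fun p : E × Ω => (id p.1, T (r • p.1) p.2))
      ((stdGaussian E).prod P) ((stdGaussian E).prod P) := by
    refine MeasurePreserving.skew_product (g := fun x ω => T (r • x) ω)
      (MeasurePreserving.id _) (H.meas_smul r) ?_
    exact Filter.Eventually.of_forall fun x => (H.mp (r • x)).map_eq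
  exact measurePreserving_snd.comp h1

lemma IsFlow.integrable_comp [IsProbabilityMeasure P] (H : IsFlow P T) (r : ℝ) {A : Ω → ℝ}
    (hA : Integrable A P) :
    Integrable (fun p : E × Ω => A (T (r • p.1) p.2)) ((stdGaussian E).prod P) :=
  (H.mp_prod r).integrable_comp_of_integrable hA

lemma IsFlow.memLp_comp [IsProbabilityMeasure P] (H : IsFlow P T) (r : ℝ) {A : Ω → ℝ} {q : ENNReal}
    (hA : MemLp A q P) :
    MemLp (fun p : E × Ω => A (T (r • p.1) p.2)) q ((stdGaussian E).prod P) :=
  hA.comp_measurePreserving (H.mp_prod r)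

/-- for a.e. `ω` the orbit function is integrable -/
lemma IsFlow.ae_integrable [IsProbabilityMeasure P] (H : IsFlow P T) (r : ℝ) {A : Ω → ℝ}
    (hA : Integrable A P) :
    ∀ᵐ ω ∂P, Integrable (fun x : E => A (T (r • x) ω)) (stdGaussian E) :=
  (H.integrable_comp r hA).prod_left_ae

lemma IsFlow.ae_memLp_two [IsProbabilityMeasure P] (H : IsFlow P T) (r : ℝ) {A : Ω → ℝ}
    (hm : Measurable A) (hA : MemLp A 2 P) :
    ∀ᵐ ω ∂P, MemLp (fun x : E => A (T (r • x) ω)) 2 (stdGaussian E) := by
  have h := H.ae_integrable r hA.integrable_sq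
  filter_upwards [h] with ω hω
  rw [memLp_two_iff_integrable_sq]
  · exact hω
  · exact (hm.comp ((H.meas_smul r).comp (measurable_id.prodMk measurable_const))).aestronglyMeasurable

lemma IsFlow.avg_stronglyMeasurable (H : IsFlow P T) (r : ℝ) {A : Ω → ℝ}
    (hm : Measurable A) : StronglyMeasurable (avg T r A) := by
  have : StronglyMeasurable (fun p : E × Ω => A (T (r • p.1) p.2)) :=
    (hm.comp (H.meas_smul r)).stronglyMeasurable
  exact this.integral_prod_left'

lemma IsFlow.avg_measurable (H : IsFlow P T) (r : ℝ) {A : Ω → ℝ}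
    (hm : Measurable A) : Measurable (avg T r A) := (H.avg_stronglyMeasurable r hm).measurable

lemma IsFlow.avg_integrable [IsProbabilityMeasure P] (H : IsFlow P T) (r : ℝ) {A : Ω → ℝ}
    (hA : Integrable A P) : Integrable (avg T r A) P :=
  (H.integrable_comp r hA).integral_prod_right

lemma IsFlow.integral_avg [IsProbabilityMeasure P] (H : IsFlow P T) (r : ℝ) {A : Ω → ℝ}
    (hA : Integrable A P) : ∫ ω, avg T r A ω ∂P = ∫ ω, A ω ∂P := by
  have h1 := integral_prod_symm _ (H.integrable_comp r hA)
  have h2 : ∫ p : E × Ω, A (T (r • p.1) p.2) ∂((stdGaussian E).prod P) = ∫ ω, A ω ∂P := by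
    have h3 := integral_map (μ := (stdGaussian E).prod P)
      (H.mp_prod r).measurable.aemeasurable (f := A) (by
        rw [(H.mp_prod r).map_eq]; exact hA.aestronglyMeasurable)
    rw [(H.mp_prod r).map_eq] at h3
    exact h3.symm
  rw [h2] at h1
  exact h1.symm

lemma IsFlow.avg_congr [IsProbabilityMeasure P] (H : IsFlow P T) (r : ℝ) {A B : Ω → ℝ}
    (hAB : A =ᵐ[P] B) : avg T r A =ᵐ[P] avg T r B := by
  have h1 : ∀ᵐ p ∂((stdGaussian E).prod P), A (T (r • p.1) p.2) = B (T (r • p.1) p.2) :=
    (H.mp_prod r).quasiMeasurePreserving.ae hAB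
  have h2 : ∀ᵐ p ∂(P.prod (stdGaussian E)), A (T (r • p.2) p.1) = B (T (r • p.2) p.1) := by
    have hs : MeasurePreserving Prod.swap (P.prod (stdGaussian E)) ((stdGaussian E).prod P) :=
      Measure.measurePreserving_swap
    exact hs.quasiMeasurePreserving.ae h1
  have h3 := Measure.ae_ae_of_ae_prod h2
  filter_upwards [h3] with ω hω
  exact integral_congr_ae hω

lemma IsFlow.avg_sq_le [IsProbabilityMeasure P] (H : IsFlow P T) (r : ℝ) {A : Ω → ℝ}
    (hm : Measurable A) (hA : MemLp A 2 P) :
    ∀ᵐ ω ∂P, avg T r A ω ^ 2 ≤ avg T r (fun ω => A ω ^ 2) ω := by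
  filter_upwards [H.ae_memLp_two r hm hA] with ω hω
  exact integral_sq_le hω

lemma IsFlow.avg_memLp_two [IsProbabilityMeasure P] (H : IsFlow P T) (r : ℝ) {A : Ω → ℝ}
    (hm : Measurable A) (hA : MemLp A 2 P) : MemLp (avg T r A) 2 P := by
  rw [memLp_two_iff_integrable_sq (H.avg_stronglyMeasurable r hm).aestronglyMeasurable]
  refine (H.avg_integrable r hA.integrable_sq).mono'
    ((H.avg_stronglyMeasurable r hm).pow 2).aestronglyMeasurable ?_
  filter_upwards [H.avg_sq_le r hm hA] with ω hω
  rw [Real.norm_of_nonneg (sq_nonneg _)]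
  exact hω

lemma IsFlow.integral_avg_sq_le [IsProbabilityMeasure P] (H : IsFlow P T) (r : ℝ) {A : Ω → ℝ}
    (hm : Measurable A) (hA : MemLp A 2 P) : ∫ ω, avg T r A ω ^ 2 ∂P ≤ ∫ ω, A ω ^ 2 ∂P := by
  rw [← H.integral_avg r hA.integrable_sq]
  exact integral_mono_ae (H.avg_memLp_two r hm hA).integrable_sq
    (H.avg_integrable r hA.integrable_sq) (H.avg_sq_le r hm hA)

/-- The averages are symmetric, general form. -/
lemma IsFlow.avg_symm_aux [IsProbabilityMeasure P] (H : IsFlow P T) (r : ℝ) {A B : Ω → ℝ}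
    (hmA : Measurable A) (hmB : Measurable B)
    (i1 : Integrable (fun p : E × Ω => A (T (r • p.1) p.2) * B p.2) ((stdGaussian E).prod P))
    (i2 : Integrable (fun p : E × Ω => A p.2 * B (T (r • p.1) p.2)) ((stdGaussian E).prod P)) :
    ∫ ω, avg T r A ω * B ω ∂P = ∫ ω, A ω * avg T r B ω ∂P := by
  have e1 : ∫ ω, avg T r A ω * B ω ∂P
      = ∫ x, ∫ ω, A (T (r • x) ω) * B ω ∂P ∂(stdGaussian E) := by
    have h1 := integral_prod_symm _ i1
    have h2 := integral_prod _ i1
    rw [h2] at h1
    rw [h1]
    refine integral_congr_ae (Filter.Eventually.of_forall fun ω => ?_)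
    simp only [avg]
    rw [integral_mul_const]
  have e2 : ∫ ω, A ω * avg T r B ω ∂P
      = ∫ x, ∫ ω, A ω * B (T (r • x) ω) ∂P ∂(stdGaussian E) := by
    have h1 := integral_prod_symm _ i2
    have h2 := integral_prod _ i2
    rw [h2] at h1
    rw [h1]
    refine integral_congr_ae (Filter.Eventually.of_forall fun ω => ?_)
    simp only [avg]
    rw [integral_const_mul]
  rw [e1, e2]
  -- substitute `ω ↦ T (-(r x)) ω`
  have e3 : ∀ x : E, ∫ ω, A (T (r • x) ω) * B ω ∂P = ∫ ω, A ω * B (T (r • (-x)) ω) ∂P := by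
    intro x
    have h3 := integral_map (μ := P) (H.mp (r • (-x))).measurable.aemeasurable
      (f := fun ω => A (T (r • x) ω) * B ω) (by
        apply Measurable.aestronglyMeasurable
        exact (hmA.comp (H.mp (r • x)).measurable).mul hmB)
    rw [(H.mp (r • (-x))).map_eq] at h3
    rw [h3]
    refine integral_congr_ae (Filter.Eventually.of_forall fun ω => ?_)
    simp only [H.add]
    rw [← smul_add]
    simp [H.zero]
  simp_rw [e3]
  have h4 := integral_map (μ := stdGaussian E) (φ := fun x => -x) (by fun_prop)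
    (f := fun x => ∫ ω, A ω * B (T (r • x) ω) ∂P) (by
      rw [map_neg_stdGaussian]
      exact i2.integral_prod_left.aestronglyMeasurable)
  rw [map_neg_stdGaussian] at h4
  exact h4.symm

/-- The averages are symmetric. -/
lemma IsFlow.avg_symm [IsProbabilityMeasure P] (H : IsFlow P T) (r : ℝ) {A B : Ω → ℝ}
    (hmA : Measurable A) (hmB : Measurable B) (hA : MemLp A 2 P) (hB : MemLp B 2 P) :
    ∫ ω, avg T r A ω * B ω ∂P = ∫ ω, A ω * avg T r B ω ∂P := by
  have hA' := H.memLp_comp r hA
  have hB' := H.memLp_comp r hB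
  have hA2 : MemLp (fun p : E × Ω => A p.2) 2 ((stdGaussian E).prod P) :=
    hA.comp_measurePreserving measurePreserving_snd
  have hB2 : MemLp (fun p : E × Ω => B p.2) 2 ((stdGaussian E).prod P) :=
    hB.comp_measurePreserving measurePreserving_snd
  exact H.avg_symm_aux r hmA hmB (hA'.integrable_mul hB2) (hA2.integrable_mul hB')

/-- Semigroup law. -/
lemma IsFlow.avg_avg [IsProbabilityMeasure P] (H : IsFlow P T) (r s : ℝ) {A : Ω → ℝ}
    (hm : Measurable A) (hA : Integrable A P) :
    avg T r (avg T s A) =ᵐ[P] avg T (Real.sqrt (r ^ 2 + s ^ 2)) A := by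
  -- integrability of the double orbit function for a.e. ω
  have hmp : MeasurePreserving (fun p : (E × E) × Ω => T (r • p.1.1 + s • p.1.2) p.2)
      (((stdGaussian E).prod (stdGaussian E)).prod P) P := by
    have h1 : MeasurePreserving (fun p : (E × E) × Ω => (id p.1, T (r • p.1.1 + s • p.1.2) p.2))
        (((stdGaussian E).prod (stdGaussian E)).prod P)
        (((stdGaussian E).prod (stdGaussian E)).prod P) := by
      refine MeasurePreserving.skew_product
        (g := fun (x : E × E) ω => T (r • x.1 + s • x.2) ω)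
        (MeasurePreserving.id _) ?_ ?_
      · exact H.meas.comp (Measurable.prodMk (by fun_prop) measurable_snd)
      · exact Filter.Eventually.of_forall fun x => (H.mp _).map_eq
    exact measurePreserving_snd.comp h1
  have hint := (hmp.integrable_comp_of_integrable hA).prod_left_ae
  filter_upwards [hint] with ω hω
  have hω' : Integrable (fun p : E × E => A (T (r • p.1 + s • p.2) ω))
    ((stdGaussian E).prod (stdGaussian E)) := hω
  have e1 : avg T r (avg T s A) ω
      = ∫ p : E × E, A (T (r • p.1 + s • p.2) ω) ∂((stdGaussian E).prod (stdGaussian E)) := by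
    rw [integral_prod _ hω']
    refine integral_congr_ae (Filter.Eventually.of_forall fun x => ?_)
    simp only [avg]
    refine integral_congr_ae (Filter.Eventually.of_forall fun y => ?_)
    simp only [H.add]
    rw [add_comm]
  have hm2 : Measurable (fun z : E => A (T z ω)) :=
    hm.comp (H.meas.comp (measurable_id.prodMk measurable_const))
  have e2 := integral_map (μ := (stdGaussian E).prod (stdGaussian E))
    (φ := fun p : E × E => r • p.1 + s • p.2) (by fun_prop)
    (f := fun z => A (T z ω)) hm2.aestronglyMeasurable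
  have e3 := integral_map (μ := stdGaussian E)
    (φ := fun z : E => Real.sqrt (r ^ 2 + s ^ 2) • z) (by fun_prop)
    (f := fun z => A (T z ω)) hm2.aestronglyMeasurable
  rw [e1, ← e2, map_add_smul_stdGaussian, e3]
  rfl

end

end Berry67
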