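import Mathlib

/-!
The recursive polynomials of the moment inequality.
-/

namespace Berry67

set_option linter.unusedSectionVars false

/-- the mean of `cos^(2n)`. -/
noncomputable def cm2 : ℕ → ℝ
  | 0 => 1
  | n + 1 => cm2 n * (2 * n + 1) / (2 * n + 2)

lemma cm2_pos (n : ℕ) : 0 < cm2 n := by
  induction n with
  | zero => simp [cm2]
  | succ n ih => rw [cm2]; positivity

lemma cm2_eq (n : ℕ) : cm2 n * 4 ^ n = (Nat.centralBinom n : ℝ) := by
  induction n with
  | zero => simp [cm2]
  | succ n ih =>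
    have h := Nat.succ_mul_centralBinom_succ n
    have h' : ((n : ℝ) + 1) * (Nat.centralBinom (n + 1) : ℝ)
        = 2 * (2 * n + 1) * (Nat.centralBinom n : ℝ) := by exact_mod_cast h
    have hn : (0 : ℝ) < (n : ℝ) + 1 := by positivity
    have h2 : ((n : ℝ) + 1) * (cm2 (n + 1) * 4 ^ (n + 1))
        = ((n : ℝ) + 1) * (Nat.centralBinom (n + 1) : ℝ) := by
      rw [h', ← ih, cm2, pow_succ]
      field_simp
      ring
    exact mul_left_cancel₀ hn.ne' h2

noncomputable def An (n : ℕ) : ℝ := 1 / ((2 * n + 1) * cm2 n)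

noncomputable def kn (n : ℕ) : ℝ := An n / (2 * (n + 1) * (n + 2))

lemma An_pos (n : ℕ) : 0 < An n := by
  have := cm2_pos n
  unfold An; positivity

lemma kn_pos (n : ℕ) : 0 < kn n := by
  have := An_pos n
  unfold kn; positivity

noncomputable def gP : ℕ → ℝ → ℝ → ℝ
  | 0, _, _ => 1
  | n + 1, F, S => S * gP n F S + (n + 2) * F ^ (2 * n + 2)
noncomputable def gF : ℕ → ℝ → ℝ → ℝ
  | 0, _, _ => 0
  | n + 1, F, S => S * gF n F S + (n + 2) * ((2 * n + 2) * F ^ (2 * n + 1))
noncomputable def gS : ℕ → ℝ → ℝ → ℝ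
  | 0, _, _ => 0
  | n + 1, F, S => gP n F S + S * gS n F S

noncomputable def eP : ℕ → ℝ → ℝ → ℝ
  | 0, _, _ => 0
  | n + 1, F, S => S * eP n F S - kn n * gP n F S
noncomputable def eF : ℕ → ℝ → ℝ → ℝ
  | 0, _, _ => 0
  | n + 1, F, S => S * eF n F S - kn n * gF n F S
noncomputable def eS : ℕ → ℝ → ℝ → ℝ
  | 0, _, _ => 0
  | n + 1, F, S => eP n F S + S * eS n F S - kn n * gS n F S

noncomputable def aP : ℕ → ℝ → ℝ → ℝ
  | 0, _, _ => 0
  | n + 1, F, S => S * aP n F S - An n * F ^ (2 * n + 1)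
noncomputable def aF : ℕ → ℝ → ℝ → ℝ
  | 0, _, _ => 0
  | n + 1, F, S => S * aF n F S - An n * ((2 * n + 1) * F ^ (2 * n))
noncomputable def aS : ℕ → ℝ → ℝ → ℝ
  | 0, _, _ => 0
  | n + 1, F, S => aP n F S + S * aS n F S

noncomputable def cP : ℕ → ℝ → ℝ → ℝ
  | 0, _, _ => 0
  | n + 1, F, S => S * cP n F S + eP n F S
noncomputable def cF : ℕ → ℝ → ℝ → ℝ
  | 0, _, _ => 0
  | n + 1, F, S => S * cF n F S + eF n F S
noncomputable def cS : ℕ → ℝ → ℝ → ℝ
  | 0, _, _ => 0
  | n + 1, F, S => cP n F S + S * cS n F S + eS n F S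

/-- total derivative along a curve -/
lemma hasDerivAt_gP (n : ℕ) {f s : ℝ → ℝ} {f' s' t : ℝ} (hf : HasDerivAt f f' t)
    (hs : HasDerivAt s s' t) :
    HasDerivAt (fun u => gP n (f u) (s u)) (gF n (f t) (s t) * f' + gS n (f t) (s t) * s') t := by
  induction n with
  | zero => simpa [gP, gF, gS] using hasDerivAt_const t (1 : ℝ)
  | succ n ih =>
    have h := (hs.mul ih).add ((hf.pow (2 * n + 2)).const_mul ((n : ℝ) + 2))
    refine HasDerivAt.congr_deriv (f := fun u => gP (n + 1) (f u) (s u)) h ?_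
    simp only [gF, gS, show 2 * n + 2 - 1 = 2 * n + 1 by omega]
    push_cast
    ring

lemma hasDerivAt_eP (n : ℕ) {f s : ℝ → ℝ} {f' s' t : ℝ} (hf : HasDerivAt f f' t)
    (hs : HasDerivAt s s' t) :
    HasDerivAt (fun u => eP n (f u) (s u)) (eF n (f t) (s t) * f' + eS n (f t) (s t) * s') t := by
  induction n with
  | zero => simpa [eP, eF, eS] using hasDerivAt_const t (0 : ℝ)
  | succ n ih =>
    have h := (hs.mul ih).sub ((hasDerivAt_gP n hf hs).const_mul (kn n))
    refine HasDerivAt.congr_deriv (f := fun u => eP (n + 1) (f u) (s u)) h ?_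
    simp only [eF, eS]
    ring

lemma hasDerivAt_aP (n : ℕ) {f s : ℝ → ℝ} {f' s' t : ℝ} (hf : HasDerivAt f f' t)
    (hs : HasDerivAt s s' t) :
    HasDerivAt (fun u => aP n (f u) (s u)) (aF n (f t) (s t) * f' + aS n (f t) (s t) * s') t := by
  induction n with
  | zero => simpa [aP, aF, aS] using hasDerivAt_const t (0 : ℝ)
  | succ n ih =>
    have h := (hs.mul ih).sub ((hf.pow (2 * n + 1)).const_mul (An n))
    refine HasDerivAt.congr_deriv (f := fun u => aP (n + 1) (f u) (s u)) h ?_
    simp only [aF, aS, show 2 * n + 1 - 1 = 2 * n by omega]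
    push_cast
    ring

lemma hasDerivAt_cP (n : ℕ) {f s : ℝ → ℝ} {f' s' t : ℝ} (hf : HasDerivAt f f' t)
    (hs : HasDerivAt s s' t) :
    HasDerivAt (fun u => cP n (f u) (s u)) (cF n (f t) (s t) * f' + cS n (f t) (s t) * s') t := by
  induction n with
  | zero => simpa [cP, cF, cS] using hasDerivAt_const t (0 : ℝ)
  | succ n ih =>
    have h := (hs.mul ih).add (hasDerivAt_eP n hf hs)
    refine HasDerivAt.congr_deriv (f := fun u => cP (n + 1) (f u) (s u)) h ?_
    simp only [cF, cS]
    ring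

/-! identities -/

lemma g_ident (n : ℕ) (F S : ℝ) :
    4 * F * gP n F S - (S - F ^ 2) * gF n F S = 2 * (n + 1) * (n + 2) * F ^ (2 * n + 1) := by
  induction n with
  | zero => norm_num [gP, gF]
  | succ n ih =>
    simp only [gP, gF]
    have e : 2 * (n + 1) + 1 = 2 * n + 3 := by ring
    rw [e]
    push_cast
    linear_combination S * ih

lemma e_ident (n : ℕ) (F S : ℝ) :
    4 * F * eP n F S - (S - F ^ 2) * eF n F S = aP n F S := by
  induction n with
  | zero => simp [eP, eF, aP]
  | succ n ih =>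
    simp only [eP, eF, aP]
    have hk : kn n * (2 * (n + 1) * (n + 2)) = An n := by
      unfold kn
      field_simp
    linear_combination S * ih - kn n * g_ident n F S - F ^ (2 * n + 1) * hk

lemma c_ident (n : ℕ) (F S : ℝ) :
    4 * F * cP n F S - (S - F ^ 2) * cF n F S = aS n F S := by
  induction n with
  | zero => simp [cP, cF, aS]
  | succ n ih =>
    simp only [cP, cF, aS]
    linear_combination S * ih + e_ident n F S

lemma a_ident (n : ℕ) (F S : ℝ) :
    (S - F ^ 2) * aF n F S - F * aP n F S = F ^ (2 * n) / cm2 n - S ^ n := by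
  induction n with
  | zero => simp [aP, aF, cm2]
  | succ n ih =>
    simp only [aP, aF]
    have hc := cm2_pos n
    have hA : An n * (2 * n + 1) = 1 / cm2 n := by
      unfold An
      field_simp
    have hc1 : 1 / cm2 (n + 1) = 1 / cm2 n + An n := by
      rw [cm2]
      unfold An
      field_simp
      ring
    have e1 : F ^ (2 * n) / cm2 n = F ^ (2 * n) * (1 / cm2 n) := by ring
    have e2 : F ^ (2 * (n + 1)) / cm2 (n + 1) = F ^ (2 * (n + 1)) * (1 / cm2 (n + 1)) := by ring
    rw [e2, hc1]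
    rw [e1] at ih
    have e3 : F ^ (2 * (n + 1)) = F ^ (2 * n) * F ^ 2 := by ring
    rw [e3]
    linear_combination S * ih - (S - F ^ 2) * F ^ (2 * n) * hA

/-! signs -/

lemma gP_nonneg (n : ℕ) (F : ℝ) {S : ℝ} (hS : 0 ≤ S) : 0 ≤ gP n F S := by
  induction n with
  | zero => simp [gP]
  | succ n ih =>
    simp only [gP]
    have : 0 ≤ F ^ (2 * n + 2) := by
      have : F ^ (2 * n + 2) = (F ^ (n + 1)) ^ 2 := by ring
      rw [this]; positivity
    positivity

lemma gS_nonneg (n : ℕ) (F : ℝ) {S : ℝ} (hS : 0 ≤ S) : 0 ≤ gS n F S := by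
  induction n with
  | zero => simp [gS]
  | succ n ih =>
    simp only [gS]
    have := gP_nonneg n F hS
    positivity

lemma eP_nonpos (n : ℕ) (F : ℝ) {S : ℝ} (hS : 0 ≤ S) : eP n F S ≤ 0 := by
  induction n with
  | zero => simp [eP]
  | succ n ih =>
    simp only [eP]
    have h1 := gP_nonneg n F hS
    have h2 := kn_pos n
    nlinarith [mul_nonneg hS (neg_nonneg.2 ih), mul_nonneg h2.le h1]

lemma eS_nonpos (n : ℕ) (F : ℝ) {S : ℝ} (hS : 0 ≤ S) : eS n F S ≤ 0 := by
  induction n with
  | zero => simp [eS]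
  | succ n ih =>
    simp only [eS]
    have h1 := gS_nonneg n F hS
    have h2 := kn_pos n
    have h3 := eP_nonpos n F hS
    nlinarith [mul_nonneg hS (neg_nonneg.2 ih), mul_nonneg h2.le h1]

lemma cP_nonpos (n : ℕ) (F : ℝ) {S : ℝ} (hS : 0 ≤ S) : cP n F S ≤ 0 := by
  induction n with
  | zero => simp [cP]
  | succ n ih =>
    simp only [cP]
    have h3 := eP_nonpos n F hS
    nlinarith [mul_nonneg hS (neg_nonneg.2 ih)]

lemma cS_nonpos (n : ℕ) (F : ℝ) {S : ℝ} (hS : 0 ≤ S) : cS n F S ≤ 0 := by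
  induction n with
  | zero => simp [cS]
  | succ n ih =>
    simp only [cS]
    have h3 := eS_nonpos n F hS
    have h4 := cP_nonpos n F hS
    nlinarith [mul_nonneg hS (neg_nonneg.2 ih)]

/-! sizes -/

/-- All the polynomials are homogeneous: bounds by powers of `R` when `|F| ≤ R`, `|S| ≤ R²`. -/
lemma size_bound (n : ℕ) : ∃ C : ℝ, 0 ≤ C ∧ ∀ F S R : ℝ, 0 ≤ R → |F| ≤ R → |S| ≤ R ^ 2 →
    |gP n F S| ≤ C * R ^ (2 * n) ∧ |gF n F S| * R ≤ C * R ^ (2 * n) ∧
    |gS n F S| * R ^ 2 ≤ C * R ^ (2 * n) ∧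
    |eP n F S| * R ^ 2 ≤ C * R ^ (2 * n) ∧ |eF n F S| * R ^ 3 ≤ C * R ^ (2 * n) ∧
    |eS n F S| * R ^ 4 ≤ C * R ^ (2 * n) ∧
    |aP n F S| * R ≤ C * R ^ (2 * n) ∧ |aF n F S| * R ^ 2 ≤ C * R ^ (2 * n) ∧
    |aS n F S| * R ^ 3 ≤ C * R ^ (2 * n) ∧
    |cP n F S| * R ^ 4 ≤ C * R ^ (2 * n) ∧ |cF n F S| * R ^ 5 ≤ C * R ^ (2 * n) ∧
    |cS n F S| * R ^ 6 ≤ C * R ^ (2 * n) := by
  induction n with
  | zero =>
    refine ⟨1, zero_le_one, fun F S R hR _ _ => ?_⟩
    simp [gP, gF, gS, eP, eF, eS, aP, aF, aS, cP, cF, cS]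
  | succ n ih =>
    obtain ⟨C, hC, h⟩ := ih
    have hk := (kn_pos n).le
    have hA := (An_pos n).le
    refine ⟨(3 + kn n + An n) * C + ((n : ℝ) + 2) * (2 * n + 2) + ((n : ℝ) + 2)
      + An n * (2 * n + 1) + An n, by positivity, fun F S R hR hF hS => ?_⟩
    obtain ⟨g1, g2, g3, e1, e2, e3, a1, a2, a3, c1, c2, c3⟩ := h F S R hR hF hS
    have hRn : 0 ≤ R ^ (2 * n) := pow_nonneg hR _
    have hR1 : R ^ (2 * (n + 1)) = R ^ 2 * R ^ (2 * n) := by ring
    have f0 : |F ^ (2 * n)| ≤ R ^ (2 * n) := by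
      rw [abs_pow]; exact pow_le_pow_left₀ (abs_nonneg _) hF _
    have f1 : |F ^ (2 * n + 1)| ≤ R ^ (2 * n) * R := by
      rw [abs_pow, ← pow_succ]; exact pow_le_pow_left₀ (abs_nonneg _) hF _
    have f2 : |F ^ (2 * n + 2)| ≤ R ^ (2 * n) * R ^ 2 := by
      rw [abs_pow, ← pow_add]; exact pow_le_pow_left₀ (abs_nonneg _) hF _
    set U := R ^ 2 * R ^ (2 * n) with hU
    have hU0 : 0 ≤ U := by positivity
    have hCU : 0 ≤ C * U := by positivity
    have hn2 : (0 : ℝ) ≤ (n : ℝ) + 2 := by positivity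
    have hn3 : (0 : ℝ) ≤ 2 * (n : ℝ) + 2 := by positivity
    have hn4 : (0 : ℝ) ≤ 2 * (n : ℝ) + 1 := by positivity
    have key : ∀ x : ℝ, x ≤ (3 + kn n + An n) * (C * U) + ((n : ℝ) + 2) * (2 * n + 2) * U
        + ((n : ℝ) + 2) * U + An n * (2 * n + 1) * U + An n * U →
        x ≤ ((3 + kn n + An n) * C + ((n : ℝ) + 2) * (2 * n + 2) + ((n : ℝ) + 2)
      + An n * (2 * n + 1) + An n) * R ^ (2 * (n + 1)) := by
      intro x hx
      rw [hR1]
      refine hx.trans (le_of_eq ?_)
      ring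
    -- multiplication by `S`
    have mulS : ∀ x k : ℝ, 0 ≤ k → |x| * k ≤ C * R ^ (2 * n) → |S * x| * k ≤ C * U := by
      intro x k hk0 hx
      rw [abs_mul]
      calc |S| * |x| * k = |S| * (|x| * k) := by ring
        _ ≤ R ^ 2 * (C * R ^ (2 * n)) :=
          mul_le_mul hS hx (mul_nonneg (abs_nonneg _) hk0) (by positivity)
        _ = C * U := by rw [hU]; ring
    -- multiplication by `R²`
    have mulR : ∀ x k : ℝ, |x| * k ≤ C * R ^ (2 * n) → |x| * (k * R ^ 2) ≤ C * U := by
      intro x k hx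
      calc |x| * (k * R ^ 2) = R ^ 2 * (|x| * k) := by ring
        _ ≤ R ^ 2 * (C * R ^ (2 * n)) := mul_le_mul_of_nonneg_left hx (by positivity)
        _ = C * U := by rw [hU]; ring
    have p1 : 0 ≤ kn n * (C * U) := by positivity
    have p2 : 0 ≤ An n * (C * U) := by positivity
    have p3 : 0 ≤ ((n : ℝ) + 2) * (2 * n + 2) * U := by positivity
    have p4 : 0 ≤ ((n : ℝ) + 2) * U := by positivity
    have p5 : 0 ≤ An n * (2 * n + 1) * U := by positivity
    have p6 : 0 ≤ An n * U := by positivity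
    refine ⟨key _ ?_, key _ ?_, key _ ?_, key _ ?_, key _ ?_, key _ ?_, key _ ?_, key _ ?_,
      key _ ?_, key _ ?_, key _ ?_, key _ ?_⟩
    · simp only [gP]
      have h1 := mulS _ 1 zero_le_one (by simpa using g1)
      rw [mul_one] at h1
      have h2 : |((n : ℝ) + 2) * F ^ (2 * n + 2)| ≤ ((n : ℝ) + 2) * U := by
        rw [abs_mul, abs_of_nonneg hn2]
        refine mul_le_mul_of_nonneg_left (f2.trans (le_of_eq ?_)) hn2
        rw [hU]; ring
      have := abs_add_le (S * gP n F S) (((n : ℝ) + 2) * F ^ (2 * n + 2))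
      linarith
    · simp only [gF]
      have h1 := mulS _ R hR g2
      have h2 : |((n : ℝ) + 2) * ((2 * n + 2) * F ^ (2 * n + 1))| * R
          ≤ ((n : ℝ) + 2) * (2 * n + 2) * U := by
        rw [abs_mul, abs_mul, abs_of_nonneg hn2, abs_of_nonneg hn3]
        calc ((n : ℝ) + 2) * ((2 * n + 2) * |F ^ (2 * n + 1)|) * R
            ≤ ((n : ℝ) + 2) * ((2 * n + 2) * (R ^ (2 * n) * R)) * R := by gcongr
          _ = _ := by rw [hU]; ring
      have := abs_add_le (S * gF n F S) (((n : ℝ) + 2) * ((2 * n + 2) * F ^ (2 * n + 1)))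
      have h3 := mul_le_mul_of_nonneg_right this hR
      rw [add_mul (|S * gF n F S|)] at h3
      linarith
    · simp only [gS]
      have h1 := mulS _ (R ^ 2) (by positivity) g3
      have h2 := mulR _ 1 (by simpa using g1)
      rw [one_mul] at h2
      have := abs_add_le (gP n F S) (S * gS n F S)
      have h3 := mul_le_mul_of_nonneg_right this (sq_nonneg R)
      rw [add_mul] at h3
      linarith
    · simp only [eP]
      have h1 := mulS _ (R ^ 2) (by positivity) e1
      have h2 := mulR _ 1 (by simpa using g1)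
      rw [one_mul] at h2
      have h4 : |kn n * gP n F S| * R ^ 2 ≤ kn n * (C * U) := by
        rw [abs_mul, abs_of_nonneg hk, mul_assoc]
        exact mul_le_mul_of_nonneg_left h2 hk
      have := abs_sub (S * eP n F S) (kn n * gP n F S)
      have h3 := mul_le_mul_of_nonneg_right this (sq_nonneg R)
      rw [add_mul] at h3
      linarith
    · simp only [eF]
      have h1 := mulS _ (R ^ 3) (by positivity) e2
      have h2 := mulR _ R g2
      have h4 : |kn n * gF n F S| * R ^ 3 ≤ kn n * (C * U) := by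
        rw [abs_mul, abs_of_nonneg hk, mul_assoc]
        refine mul_le_mul_of_nonneg_left ?_ hk
        refine le_trans (le_of_eq ?_) h2
        ring
      have := abs_sub (S * eF n F S) (kn n * gF n F S)
      have h3 := mul_le_mul_of_nonneg_right this (pow_nonneg hR 3)
      rw [add_mul] at h3
      linarith
    · simp only [eS]
      have h1 := mulS _ (R ^ 4) (by positivity) e3
      have h5 := mulR _ (R ^ 2) e1
      have h2 := mulR _ (R ^ 2) g3
      have h4 : |kn n * gS n F S| * R ^ 4 ≤ kn n * (C * U) := by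
        rw [abs_mul, abs_of_nonneg hk, mul_assoc]
        refine mul_le_mul_of_nonneg_left ?_ hk
        refine le_trans (le_of_eq ?_) h2
        ring
      have h6 := abs_sub (eP n F S + S * eS n F S) (kn n * gS n F S)
      have h7 := abs_add_le (eP n F S) (S * eS n F S)
      have h3 := mul_le_mul_of_nonneg_right (h6.trans (add_le_add_left h7 _))
        (pow_nonneg hR 4)
      have h8 : |eP n F S| * R ^ 4 ≤ C * U := by
        refine le_trans (le_of_eq ?_) h5
        ring
      rw [add_mul, add_mul] at h3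
      linarith
    · simp only [aP]
      have h1 := mulS _ R hR a1
      have h2 : |An n * F ^ (2 * n + 1)| * R ≤ An n * U := by
        rw [abs_mul, abs_of_nonneg hA]
        calc An n * |F ^ (2 * n + 1)| * R ≤ An n * (R ^ (2 * n) * R) * R := by gcongr
          _ = _ := by rw [hU]; ring
      have := abs_sub (S * aP n F S) (An n * F ^ (2 * n + 1))
      have h3 := mul_le_mul_of_nonneg_right this hR
      rw [add_mul] at h3
      linarith
    · simp only [aF]
      have h1 := mulS _ (R ^ 2) (by positivity) a2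
      have h2 : |An n * ((2 * n + 1) * F ^ (2 * n))| * R ^ 2 ≤ An n * (2 * n + 1) * U := by
        rw [abs_mul, abs_mul, abs_of_nonneg hA, abs_of_nonneg hn4]
        calc An n * ((2 * n + 1) * |F ^ (2 * n)|) * R ^ 2
            ≤ An n * ((2 * n + 1) * R ^ (2 * n)) * R ^ 2 := by gcongr
          _ = _ := by rw [hU]; ring
      have := abs_sub (S * aF n F S) (An n * ((2 * n + 1) * F ^ (2 * n)))
      have h3 := mul_le_mul_of_nonneg_right this (sq_nonneg R)
      rw [add_mul (|S * aF n F S|)] at h3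
      linarith
    · simp only [aS]
      have h1 := mulS _ (R ^ 3) (by positivity) a3
      have h2 := mulR _ R a1
      have h4 : |aP n F S| * R ^ 3 ≤ C * U := by
        refine le_trans (le_of_eq ?_) h2
        ring
      have := abs_add_le (aP n F S) (S * aS n F S)
      have h3 := mul_le_mul_of_nonneg_right this (pow_nonneg hR 3)
      rw [add_mul] at h3
      linarith
    · simp only [cP]
      have h1 := mulS _ (R ^ 4) (by positivity) c1
      have h2 := mulR _ (R ^ 2) e1
      have h4 : |eP n F S| * R ^ 4 ≤ C * U := by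
        refine le_trans (le_of_eq ?_) h2
        ring
      have := abs_add_le (S * cP n F S) (eP n F S)
      have h3 := mul_le_mul_of_nonneg_right this (pow_nonneg hR 4)
      rw [add_mul] at h3
      linarith
    · simp only [cF]
      have h1 := mulS _ (R ^ 5) (by positivity) c2
      have h2 := mulR _ (R ^ 3) e2
      have h4 : |eF n F S| * R ^ 5 ≤ C * U := by
        refine le_trans (le_of_eq ?_) h2
        ring
      have := abs_add_le (S * cF n F S) (eF n F S)
      have h3 := mul_le_mul_of_nonneg_right this (pow_nonneg hR 5)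
      rw [add_mul] at h3
      linarith
    · simp only [cS]
      have h1 := mulS _ (R ^ 6) (by positivity) c3
      have h5 := mulR _ (R ^ 4) c1
      have h2 := mulR _ (R ^ 4) e3
      have h4 : |eS n F S| * R ^ 6 ≤ C * U := by
        refine le_trans (le_of_eq ?_) h2
        ring
      have h8 : |cP n F S| * R ^ 6 ≤ C * U := by
        refine le_trans (le_of_eq ?_) h5
        ring
      have h6 := abs_add_le (cP n F S + S * cS n F S) (eS n F S)
      have h7 := abs_add_le (cP n F S) (S * cS n F S)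
      have h3 := mul_le_mul_of_nonneg_right (h6.trans (add_le_add_left h7 _))
        (pow_nonneg hR 6)
      rw [add_mul, add_mul] at h3
      linarith

end Berry67
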