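import Pool.Agent.Lib_helper67.Berry.Action

/-!
Bernstein inequality for the square of an eigenfunction of the Gaussian averages.
-/

namespace Berry67

set_option linter.unusedSectionVars false

open MeasureTheory ProbabilityTheory

variable {E : Type*} [NormedAddCommGroup E] [InnerProductSpace ℝ E] [FiniteDimensional ℝ E]
  [MeasurableSpace E] [BorelSpace E]
variable {Ω : Type*} [MeasurableSpace Ω] {P : Measure Ω} {T : E → Ω → Ω}

/-- `⟨avg r A, avg s A⟩` depends only on `r² + s²`. -/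
lemma IsFlow.inner_avg_avg [IsProbabilityMeasure P] (H : IsFlow P T) (r s : ℝ) {A : Ω → ℝ}
    (hm : Measurable A) (hA : MemLp A 2 P) :
    ∫ ω, avg T r A ω * avg T s A ω ∂P
      = ∫ ω, A ω * avg T (Real.sqrt (r ^ 2 + s ^ 2)) A ω ∂P := by
  rw [H.avg_symm r hm (H.avg_measurable s hm) hA (H.avg_memLp_two s hm hA)]
  refine integral_congr_ae ?_
  filter_upwards [H.avg_avg r s hm (hA.integrable (by norm_num))] with ω hω
  rw [hω]

/-- the squared norm of `avg (r √k) A` is a log-convex sequence. -/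
lemma IsFlow.avg_logconvex [IsProbabilityMeasure P] (H : IsFlow P T) (r : ℝ) {A : Ω → ℝ}
    (hm : Measurable A) (hA : MemLp A 2 P) (k : ℕ) :
    (∫ ω, avg T (r * Real.sqrt (k + 1 : ℕ)) A ω ^ 2 ∂P) ^ 2
      ≤ (∫ ω, avg T (r * Real.sqrt (k : ℕ)) A ω ^ 2 ∂P)
        * (∫ ω, avg T (r * Real.sqrt (k + 2 : ℕ)) A ω ^ 2 ∂P) := by
  have h1 : ∫ ω, avg T (r * Real.sqrt (k + 1 : ℕ)) A ω ^ 2 ∂P
      = ∫ ω, avg T (r * Real.sqrt (k : ℕ)) A ω * avg T (r * Real.sqrt (k + 2 : ℕ)) A ω ∂P := by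
    simp_rw [pow_two (avg T (r * Real.sqrt (k + 1 : ℕ)) A _)]
    rw [H.inner_avg_avg _ _ hm hA, H.inner_avg_avg _ _ hm hA]
    congr 1
    funext ω
    congr 3
    rw [mul_pow, mul_pow, mul_pow, Real.sq_sqrt (by positivity), Real.sq_sqrt (by positivity),
      Real.sq_sqrt (by positivity)]
    push_cast
    ring
  rw [h1]
  exact integral_mul_sq_le (H.avg_memLp_two _ hm hA) (H.avg_memLp_two _ hm hA)

lemma IsFlow.avg_neg (H : IsFlow P T) (u : ℝ) {A : Ω → ℝ} (hm : Measurable A) :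
    avg T (-u) A = avg T u A := by
  funext ω
  have hm2 : Measurable (fun z : E => A (T (u • z) ω)) :=
    hm.comp (H.meas.comp ((measurable_id.const_smul u).prodMk measurable_const))
  have h5 := integral_map (μ := stdGaussian E) (φ := fun x => -x) (by fun_prop)
    (f := fun x => A (T (u • x) ω)) hm2.aestronglyMeasurable
  rw [map_neg_stdGaussian] at h5
  simp only [avg, neg_smul]
  rw [h5]
  simp

/-- **Growth lemma.** If `G = ρⁿ avg (r√n) (a n)` a.e. with `‖a n‖² ≤ C` for all `n`, then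
`‖G‖² ≤ ρ² ‖avg r G‖²`. -/
lemma IsFlow.growth [IsProbabilityMeasure P] (H : IsFlow P T) (r ρ C : ℝ)
    {G : Ω → ℝ} (a : ℕ → Ω → ℝ)
    (hm : ∀ n, Measurable (a n)) (ha : ∀ n, MemLp (a n) 2 P)
    (hC : ∀ n, ∫ ω, a n ω ^ 2 ∂P ≤ C)
    (hrep : ∀ n : ℕ, G =ᵐ[P] fun ω => ρ ^ n * avg T (r * Real.sqrt (n : ℕ)) (a n) ω) :
    ∫ ω, G ω ^ 2 ∂P ≤ ρ ^ 2 * ∫ ω, avg T r G ω ^ 2 ∂P := by
  refine le_of_pow_bound _ _ C (integral_nonneg fun ω => sq_nonneg _)
    (mul_nonneg (sq_nonneg _) (integral_nonneg fun ω => sq_nonneg _)) (fun n => ?_)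
  set w : ℕ → ℝ := fun k => ∫ ω, avg T (r * Real.sqrt (k : ℕ)) (a n) ω ^ 2 ∂P with hw
  have hw0 : ∀ k, 0 ≤ w k := fun k => integral_nonneg fun ω => sq_nonneg _
  have hconv : w n ^ (n + 1) ≤ w 0 * w (n + 1) ^ n :=
    logconvex_pow w hw0 (fun k => H.avg_logconvex r (hm n) (ha n) k) n
  have hw00 : w 0 ≤ C := by
    refine le_trans ?_ (hC n)
    exact H.integral_avg_sq_le _ (hm n) (ha n)
  have hX : ∫ ω, G ω ^ 2 ∂P = (ρ ^ 2) ^ n * w n := by
    have : ∫ ω, G ω ^ 2 ∂P = ∫ ω, (ρ ^ 2) ^ n * avg T (r * Real.sqrt (n : ℕ)) (a n) ω ^ 2 ∂P := by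
      refine integral_congr_ae ?_
      filter_upwards [hrep n] with ω hω
      rw [hω]; ring
    rw [this, integral_const_mul]
  have hY : ∫ ω, avg T r G ω ^ 2 ∂P = (ρ ^ 2) ^ n * w (n + 1) := by
    have h1 : avg T r G =ᵐ[P] fun ω => ρ ^ n * avg T (r * Real.sqrt ((n + 1 : ℕ) : ℝ)) (a n) ω := by
      have h2 := H.avg_congr r (hrep n)
      have h3 : avg T r (fun ω => ρ ^ n * avg T (r * Real.sqrt (n : ℕ)) (a n) ω)
          = fun ω => ρ ^ n * avg T r (avg T (r * Real.sqrt (n : ℕ)) (a n)) ω := by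
        funext ω
        simp only [avg]
        rw [integral_const_mul]
      have h4 := H.avg_avg r (r * Real.sqrt (n : ℕ)) (hm n) ((ha n).integrable (by norm_num))
      have habs : ∀ u : ℝ, avg T |u| (a n) = avg T u (a n) := by
        intro u
        rcases le_total 0 u with hu | hu
        · rw [abs_of_nonneg hu]
        · rw [abs_of_nonpos hu, H.avg_neg u (hm n)]
      have h6 : Real.sqrt (r ^ 2 + (r * Real.sqrt (n : ℕ)) ^ 2)
          = |r * Real.sqrt ((n + 1 : ℕ) : ℝ)| := by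
        rw [← Real.sqrt_sq_eq_abs]
        congr 1
        rw [mul_pow, mul_pow, Real.sq_sqrt (by positivity), Real.sq_sqrt (by positivity)]
        push_cast; ring
      rw [h6, habs] at h4
      filter_upwards [h2, h4] with ω e2 e4
      rw [e2, h3]
      simp only
      rw [e4]
    have : ∫ ω, avg T r G ω ^ 2 ∂P
        = ∫ ω, (ρ ^ 2) ^ n * avg T (r * Real.sqrt ((n + 1 : ℕ) : ℝ)) (a n) ω ^ 2 ∂P := by
      refine integral_congr_ae ?_
      filter_upwards [h1] with ω hω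
      rw [hω]; ring
    rw [this, integral_const_mul]
  rw [hX, hY]
  have hρ : 0 ≤ ρ ^ 2 := sq_nonneg ρ
  calc ((ρ ^ 2) ^ n * w n) ^ (n + 1) = (ρ ^ 2) ^ (n * (n + 1)) * w n ^ (n + 1) := by
        rw [mul_pow, ← pow_mul]
    _ ≤ (ρ ^ 2) ^ (n * (n + 1)) * (w 0 * w (n + 1) ^ n) :=
        mul_le_mul_of_nonneg_left hconv (pow_nonneg hρ _)
    _ ≤ (ρ ^ 2) ^ (n * (n + 1)) * (C * w (n + 1) ^ n) :=
        mul_le_mul_of_nonneg_left (mul_le_mul_of_nonneg_right hw00 (pow_nonneg (hw0 _) _))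
          (pow_nonneg hρ _)
    _ = C * (ρ ^ 2 * ((ρ ^ 2) ^ n * w (n + 1))) ^ n := by
        simp only [mul_pow, ← pow_mul]
        ring

/-- The product average `∫ F(T(ρ v)ω) F(T(-ρ v)ω) dγ(v)`. -/
noncomputable def prodA (T : E → Ω → Ω) (ρ : ℝ) (F : Ω → ℝ) (ω : Ω) : ℝ :=
  ∫ v, F (T (ρ • v) ω) * F (T (-(ρ • v)) ω) ∂(stdGaussian E)

lemma IsFlow.prodA_stronglyMeasurable (H : IsFlow P T) (ρ : ℝ) {F : Ω → ℝ} (hm : Measurable F) :
    StronglyMeasurable (prodA T ρ F) := by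
  have : StronglyMeasurable (fun p : E × Ω => F (T (ρ • p.1) p.2) * F (T (-(ρ • p.1)) p.2)) := by
    refine (Measurable.mul (hm.comp (H.meas_smul ρ)) (hm.comp ?_)).stronglyMeasurable
    exact H.meas.comp (((measurable_fst.const_smul ρ).neg).prodMk measurable_snd)
  exact this.integral_prod_left'

/-- product formula -/
lemma IsFlow.avg_prodA [IsProbabilityMeasure P] (H : IsFlow P T) (ρ : ℝ) {F : Ω → ℝ}
    (hm : Measurable F) (hF : Integrable F P) :
    avg T ρ (prodA T ρ F) =ᵐ[P] fun ω => avg T (Real.sqrt 2 * ρ) F ω ^ 2 := by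
  filter_upwards [H.ae_integrable (Real.sqrt 2 * ρ) hF, H.ae_integrable (-(Real.sqrt 2 * ρ)) hF]
    with ω h1 h2
  set f : E → ℝ := fun z => F (T (ρ • z) ω) with hf
  have hmf : Measurable f :=
    hm.comp (H.meas.comp ((measurable_id.const_smul ρ).prodMk measurable_const))
  set g : E × E → ℝ := fun p => f (Real.sqrt 2 • p.1) * f (-(Real.sqrt 2 • p.2)) with hg
  set R : E × E → E × E := fun p => (Real.cos (Real.pi / 4) • p.1 + Real.sin (Real.pi / 4) • p.2,
        - Real.sin (Real.pi / 4) • p.1 + Real.cos (Real.pi / 4) • p.2) with hR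
  have hRm : Measurable R := by fun_prop
  have hRmp : MeasurePreserving R ((stdGaussian E).prod (stdGaussian E))
      ((stdGaussian E).prod (stdGaussian E)) := ⟨hRm, map_rotation_stdGaussian _⟩
  have i1 : Integrable (fun x : E => f (Real.sqrt 2 • x)) (stdGaussian E) := by
    refine h1.congr (Filter.Eventually.of_forall fun x => ?_)
    simp only [hf, smul_smul, mul_comm]
  have i2 : Integrable (fun x : E => f (-(Real.sqrt 2 • x))) (stdGaussian E) := by
    refine h2.congr (Filter.Eventually.of_forall fun x => ?_)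
    simp only [hf, smul_smul, mul_comm, smul_neg, neg_smul]
  have ig : Integrable g ((stdGaussian E).prod (stdGaussian E)) := i1.mul_prod i2
  have igR : Integrable (g ∘ R) ((stdGaussian E).prod (stdGaussian E)) :=
    hRmp.integrable_comp_of_integrable ig
  have hss : Real.sqrt 2 * (Real.sqrt 2 / 2) = 1 := by
    have : Real.sqrt 2 * Real.sqrt 2 = 2 := Real.mul_self_sqrt (by norm_num)
    linarith
  have hgR : ∀ p : E × E, (g ∘ R) p = f (p.1 + p.2) * f (p.1 - p.2) := by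
    intro p
    simp only [hg, hR, Function.comp_apply, Real.cos_pi_div_four, Real.sin_pi_div_four, smul_add,
      smul_smul, neg_smul, smul_neg, hss, one_smul]
    rw [neg_add, neg_neg, ← sub_eq_add_neg]
  have e1 : avg T ρ (prodA T ρ F) ω
      = ∫ p, (g ∘ R) p ∂((stdGaussian E).prod (stdGaussian E)) := by
    rw [integral_prod _ igR]
    refine integral_congr_ae (Filter.Eventually.of_forall fun u => ?_)
    simp only [prodA]
    refine integral_congr_ae (Filter.Eventually.of_forall fun v => ?_)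
    simp only [hgR, H.add, hf, smul_add, smul_sub]
    rw [add_comm (ρ • v), add_comm (-(ρ • v)), ← sub_eq_add_neg]
  have e2 : ∫ p, (g ∘ R) p ∂((stdGaussian E).prod (stdGaussian E))
      = ∫ p, g p ∂((stdGaussian E).prod (stdGaussian E)) := by
    have hgm : AEStronglyMeasurable g
        (Measure.map R ((stdGaussian E).prod (stdGaussian E))) := by
      rw [hRmp.map_eq]; exact ig.aestronglyMeasurable
    have h3 := integral_map (μ := (stdGaussian E).prod (stdGaussian E)) hRm.aemeasurable hgm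
    rw [hRmp.map_eq] at h3
    exact h3.symm
  have e3 : ∫ p, g p ∂((stdGaussian E).prod (stdGaussian E))
      = (∫ x, f (Real.sqrt 2 • x) ∂(stdGaussian E))
        * ∫ x, f (-(Real.sqrt 2 • x)) ∂(stdGaussian E) :=
    integral_prod_mul (fun x : E => f (Real.sqrt 2 • x)) (fun x : E => f (-(Real.sqrt 2 • x)))
  have e4 : ∫ x, f (Real.sqrt 2 • x) ∂(stdGaussian E) = avg T (Real.sqrt 2 * ρ) F ω := by
    refine integral_congr_ae (Filter.Eventually.of_forall fun x => ?_)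
    simp only [hf, smul_smul, mul_comm]
  have e5 : ∫ x, f (-(Real.sqrt 2 • x)) ∂(stdGaussian E) = avg T (Real.sqrt 2 * ρ) F ω := by
    rw [← H.avg_neg (Real.sqrt 2 * ρ) hm]
    refine integral_congr_ae (Filter.Eventually.of_forall fun x => ?_)
    simp only [hf, smul_smul, mul_comm, smul_neg, neg_smul]
  rw [e1, e2, e3, e4, e5, pow_two]

/-- bound on the product average -/
lemma IsFlow.prodA_sq_le [IsProbabilityMeasure P] (H : IsFlow P T) (ρ : ℝ) {F : Ω → ℝ}
    (hm : Measurable F) (hF : Integrable (fun ω => F ω ^ 4) P) :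
    ∀ᵐ ω ∂P, prodA T ρ F ω ^ 2 ≤ (1 / 2 : ℝ) * (avg T ρ (fun ω => F ω ^ 4) ω
      + avg T (-ρ) (fun ω => F ω ^ 4) ω) := by
  filter_upwards [H.ae_integrable ρ hF, H.ae_integrable (-ρ) hF] with ω h1 h2
  have h2' : Integrable (fun x : E => F (T (-(ρ • x)) ω) ^ 4) (stdGaussian E) := by
    simpa only [neg_smul] using h2
  have m1 : Measurable (fun x : E => F (T (ρ • x) ω)) :=
    hm.comp (H.meas.comp ((measurable_id.const_smul ρ).prodMk measurable_const))
  have m2 : Measurable (fun x : E => F (T (-(ρ • x)) ω)) :=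
    hm.comp (H.meas.comp ((measurable_id.const_smul ρ).neg.prodMk measurable_const))
  have hb : ∀ x : E, (F (T (ρ • x) ω) * F (T (-(ρ • x)) ω)) ^ 2
      ≤ (1 / 2 : ℝ) * (F (T (ρ • x) ω) ^ 4 + F (T (-(ρ • x)) ω) ^ 4) := by
    intro x
    nlinarith [sq_nonneg (F (T (ρ • x) ω) ^ 2 - F (T (-(ρ • x)) ω) ^ 2)]
  have i3 : Integrable (fun x : E => (1 / 2 : ℝ) * (F (T (ρ • x) ω) ^ 4 + F (T (-(ρ • x)) ω) ^ 4))
    (stdGaussian E) := (h1.add h2').const_mul _
  have i4 : Integrable (fun x : E => (F (T (ρ • x) ω) * F (T (-(ρ • x)) ω)) ^ 2)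
      (stdGaussian E) := by
    refine i3.mono' ((m1.mul m2).pow_const 2).aestronglyMeasurable
      (Filter.Eventually.of_forall fun x => ?_)
    rw [Real.norm_of_nonneg (sq_nonneg _)]
    exact hb x
  have hL : MemLp (fun x : E => F (T (ρ • x) ω) * F (T (-(ρ • x)) ω)) 2 (stdGaussian E) :=
    (memLp_two_iff_integrable_sq (m1.mul m2).aestronglyMeasurable).2 i4
  calc prodA T ρ F ω ^ 2 ≤ ∫ x, (F (T (ρ • x) ω) * F (T (-(ρ • x)) ω)) ^ 2 ∂(stdGaussian E) :=
        integral_sq_le hL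
    _ ≤ ∫ x, (1 / 2 : ℝ) * (F (T (ρ • x) ω) ^ 4 + F (T (-(ρ • x)) ω) ^ 4) ∂(stdGaussian E) :=
        integral_mono i4 i3 hb
    _ = _ := by
        rw [integral_const_mul, integral_add h1 h2']
        simp only [avg, neg_smul]

lemma IsFlow.prodA_memLp [IsProbabilityMeasure P] (H : IsFlow P T) (ρ : ℝ) {F : Ω → ℝ}
    (hm : Measurable F) (hF : Integrable (fun ω => F ω ^ 4) P) : MemLp (prodA T ρ F) 2 P := by
  rw [memLp_two_iff_integrable_sq (H.prodA_stronglyMeasurable ρ hm).aestronglyMeasurable]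
  refine (((H.avg_integrable ρ hF).add (H.avg_integrable (-ρ) hF)).const_mul (1 / 2 : ℝ)).mono'
    ((H.prodA_stronglyMeasurable ρ hm).pow 2).aestronglyMeasurable ?_
  filter_upwards [H.prodA_sq_le ρ hm hF] with ω hω
  rw [Real.norm_of_nonneg (sq_nonneg _)]
  exact hω

lemma IsFlow.integral_prodA_sq_le [IsProbabilityMeasure P] (H : IsFlow P T) (ρ : ℝ) {F : Ω → ℝ}
    (hm : Measurable F) (hF : Integrable (fun ω => F ω ^ 4) P) :
    ∫ ω, prodA T ρ F ω ^ 2 ∂P ≤ ∫ ω, F ω ^ 4 ∂P := by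
  have i1 := H.avg_integrable ρ hF
  have i2 := H.avg_integrable (-ρ) hF
  calc ∫ ω, prodA T ρ F ω ^ 2 ∂P
      ≤ ∫ ω, (1 / 2 : ℝ) * (avg T ρ (fun ω => F ω ^ 4) ω
        + avg T (-ρ) (fun ω => F ω ^ 4) ω) ∂P :=
        integral_mono_ae (H.prodA_memLp ρ hm hF).integrable_sq ((i1.add i2).const_mul _)
          (H.prodA_sq_le ρ hm hF)
    _ = ∫ ω, F ω ^ 4 ∂P := by
        rw [integral_const_mul, integral_add i1 i2, H.integral_avg ρ hF, H.integral_avg (-ρ) hF]
        ring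

end Berry67
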