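import Mathlib

/-!
Directional derivatives of smooth functions and the class of smooth solutions of the Helmholtz
equation.
-/

namespace Berry67

set_option linter.unusedSectionVars false

open InnerProductSpace Laplacian
open scoped ContDiff RealInnerProductSpace

variable {E : Type*} [NormedAddCommGroup E] [InnerProductSpace ℝ E] [FiniteDimensional ℝ E]

/-- the standard basis -/
noncomputable abbrev bE (E : Type*) [NormedAddCommGroup E] [InnerProductSpace ℝ E]
    [FiniteDimensional ℝ E] : OrthonormalBasis (Fin (Module.finrank ℝ E)) ℝ E :=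
  stdOrthonormalBasis ℝ E

/-- derivative of `f` in direction `v`, as a function -/
noncomputable def D (v : E) (f : E → ℝ) : E → ℝ := fun x => fderiv ℝ f x v

lemma contDiff_D {f : E → ℝ} (hf : ContDiff ℝ ∞ f) (v : E) : ContDiff ℝ ∞ (D v f) :=
  (hf.fderiv_right (m := ∞) (le_refl _)).clm_apply contDiff_const

lemma diff_fderiv {f : E → ℝ} (hf : ContDiff ℝ ∞ f) : Differentiable ℝ (fderiv ℝ f) :=
  (hf.fderiv_right (m := ∞) (le_refl _)).differentiable (by simp)

lemma D_D_apply {f : E → ℝ} (hf : ContDiff ℝ ∞ f) (u u' x : E) :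
    D u (D u' f) x = fderiv ℝ (fderiv ℝ f) x u u' := by
  have h : HasFDerivAt (fun y => fderiv ℝ f y u') _ x :=
    (diff_fderiv hf x).hasFDerivAt.clm_apply (hasFDerivAt_const u' x)
  change fderiv ℝ (fun y => fderiv ℝ f y u') x u = _
  rw [h.fderiv]
  simp

lemma D_comm {f : E → ℝ} (hf : ContDiff ℝ ∞ f) (v w : E) : D v (D w f) = D w (D v f) := by
  funext x
  have hsymm : IsSymmSndFDerivAt ℝ f x := by
    have hf2 : ContDiff ℝ 2 f := by exact_mod_cast contDiff_infty.1 hf 2
    apply ContDiffAt.isSymmSndFDerivAt (n := 2) hf2.contDiffAt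
    rw [minSmoothness_of_isRCLikeNormedField]
  rw [D_D_apply hf, D_D_apply hf]
  exact hsymm v w

lemma laplacian_eq_sum_D {f : E → ℝ} (hf : ContDiff ℝ ∞ f) (x : E) :
    (Δ f) x = ∑ i, D (stdOrthonormalBasis ℝ E i) (D (stdOrthonormalBasis ℝ E i) f) x := by
  rw [laplacian_eq_iteratedFDeriv_stdOrthonormalBasis]
  refine Finset.sum_congr rfl fun i _ => ?_
  rw [iteratedFDeriv_two_apply, D_D_apply hf]
  simp

/-- smooth solutions of the Helmholtz equation -/
def Helm (f : E → ℝ) : Prop := ContDiff ℝ ∞ f ∧ ∀ x, (Δ f) x = -f x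

lemma D_add_fun {ι : Type*} (s : Finset ι) (f : ι → E → ℝ) (hf : ∀ i, ContDiff ℝ ∞ (f i)) (v : E) :
    D v (fun x => ∑ i ∈ s, f i x) = fun x => ∑ i ∈ s, D v (f i) x := by
  funext x
  simp only [D]
  rw [fderiv_fun_sum (fun i _ => ((hf i).differentiable (by simp)) x)]
  simp

lemma Helm.D {f : E → ℝ} (hf : Helm f) (v : E) : Helm (D v f) := by
  refine ⟨contDiff_D hf.1 v, fun x => ?_⟩
  have h1 : (Δ f) = fun x => -f x := funext hf.2
  have h2 : (Δ f) = fun x => ∑ i, Berry67.D (stdOrthonormalBasis ℝ E i)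
      (Berry67.D (stdOrthonormalBasis ℝ E i) f) x := funext (laplacian_eq_sum_D hf.1)
  have h3 : Berry67.D v (fun x => -f x) = fun x => -Berry67.D v f x := by
    funext x
    simp only [Berry67.D]
    rw [fderiv_fun_neg]
    rfl
  rw [laplacian_eq_sum_D (contDiff_D hf.1 v)]
  have h4 : ∀ i, Berry67.D (stdOrthonormalBasis ℝ E i) (Berry67.D (stdOrthonormalBasis ℝ E i)
      (Berry67.D v f)) = Berry67.D v (Berry67.D (stdOrthonormalBasis ℝ E i)
        (Berry67.D (stdOrthonormalBasis ℝ E i) f)) := by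
    intro i
    rw [D_comm hf.1 (stdOrthonormalBasis ℝ E i) v,
      D_comm (contDiff_D hf.1 (stdOrthonormalBasis ℝ E i)) (stdOrthonormalBasis ℝ E i) v]
  simp_rw [h4]
  have h5 := D_add_fun Finset.univ (fun i => Berry67.D (stdOrthonormalBasis ℝ E i)
        (Berry67.D (stdOrthonormalBasis ℝ E i) f))
        (fun i => contDiff_D (contDiff_D hf.1 _) _) v
  have h6 := congrFun h5 x
  rw [← h6, ← h2, h1, h3]

end Berry67
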