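import Pool.Agent.Lib_helper67.Berry.PolyRep

/-!
Signs of the multipliers for polynomials in a cone.
-/

namespace Berry67

set_option linter.unusedSectionVars false

open MeasureTheory Filter Topology

/-- `y ^ (3/2)` -/
noncomputable def g32 (y : ℝ) : ℝ := y * Real.sqrt y

lemma g32_mul {x : ℝ} (hx : 0 ≤ x) (y : ℝ) : g32 (x * y) = g32 x * g32 y := by
  unfold g32
  rw [Real.sqrt_mul hx]
  ring

lemma g32_mono {x y : ℝ} (hx : 0 ≤ x) (h : x ≤ y) : g32 x ≤ g32 y :=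
  mul_le_mul h (Real.sqrt_le_sqrt h) (Real.sqrt_nonneg _) (hx.trans h)

lemma g32_pos {x : ℝ} (hx : 0 < x) : 0 < g32 x := mul_pos hx (Real.sqrt_pos.2 hx)

lemma hasDerivAt_g32 {x : ℝ} (hx : 0 < x) : HasDerivAt g32 (3 / 2 * Real.sqrt x) x := by
  have h := (hasDerivAt_id x).mul (Real.hasDerivAt_sqrt hx.ne')
  refine HasDerivAt.congr_deriv (f := g32) h ?_
  have h1 : 0 < Real.sqrt x := Real.sqrt_pos.2 hx
  have h2 : x = Real.sqrt x * Real.sqrt x := (Real.mul_self_sqrt hx.le).symm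
  simp only [id]
  field_simp
  rw [Real.sq_sqrt hx.le]
  ring

/-- second derivative of the polynomial with coefficients `a` -/
noncomputable def P2 (a : ℕ → ℝ) (N : ℕ) (y : ℝ) : ℝ :=
  ∑ n ∈ Finset.range N, a n * ((n : ℝ) * (n - 1) * y ^ (n - 2))

@[fun_prop]
lemma continuous_P2 (a : ℕ → ℝ) (N : ℕ) : Continuous (P2 a N) := by
  unfold P2; fun_prop

/-- the interpolation point -/
def Xf (F S : ℝ) (p : ℝ × ℝ) (u : ℝ) : ℝ := Tf F S p + u * (S - Tf F S p)

lemma cP_rep' (F S : ℝ) (n : ℕ) : cP n F S = -(1 / 2) * ∫ p, p.1 *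
    (∫ u, u * ((n : ℝ) * (n - 1) * (Xf F S p u) ^ (n - 2)) ∂μI) ∂(μI.prod μI) := by
  match n with
  | 0 => simp [cP]
  | 1 => simp [cP, eP]
  | m + 2 =>
    rw [cP_rep]
    have e : ∀ p : ℝ × ℝ, HH m S (Tf F S p) = ∫ u, u * (((m + 2 : ℕ) : ℝ) * (((m + 2 : ℕ) : ℝ) - 1)
        * (Xf F S p u) ^ (m + 2 - 2)) ∂μI := by
      intro p
      unfold HH Xf
      congr 1
      funext u
      rw [Nat.add_sub_cancel]
      push_cast
      ring
    simp only [e]

lemma continuous_inner (F S : ℝ) (n : ℕ) : Continuous fun p : ℝ × ℝ =>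
    p.1 * (∫ u, u * ((n : ℝ) * (n - 1) * (Xf F S p u) ^ (n - 2)) ∂μI) := by
  match n with
  | 0 => simp only [Nat.cast_zero, zero_mul, mul_zero, integral_zero]; exact continuous_const
  | 1 =>
    simp only [Nat.cast_one, sub_self, mul_zero, zero_mul, integral_zero]; exact continuous_const
  | m + 2 =>
    have e : ∀ p : ℝ × ℝ, (∫ u, u * (((m + 2 : ℕ) : ℝ) * (((m + 2 : ℕ) : ℝ) - 1)
        * (Xf F S p u) ^ (m + 2 - 2)) ∂μI) = HH m S (Tf F S p) := by
      intro p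
      unfold HH Xf
      congr 1
      funext u
      rw [Nat.add_sub_cancel]
      push_cast
      ring
    simp only [e]
    exact continuous_fst.mul ((continuous_HH m S).comp (continuous_Tf F S))

lemma sum_inner (a : ℕ → ℝ) (N : ℕ) (F S : ℝ) (p : ℝ × ℝ) :
    p.1 * (∫ u, u * P2 a N (Xf F S p u) ∂μI) = ∑ n ∈ Finset.range N, a n *
      (p.1 * (∫ u, u * ((n : ℝ) * (n - 1) * (Xf F S p u) ^ (n - 2)) ∂μI)) := by
  have e : ∀ u, u * P2 a N (Xf F S p u) = ∑ n ∈ Finset.range N, a n *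
      (u * ((n : ℝ) * (n - 1) * (Xf F S p u) ^ (n - 2))) := by
    intro u
    unfold P2
    rw [Finset.mul_sum]
    refine Finset.sum_congr rfl fun n _ => ?_
    ring
  simp only [e]
  rw [integral_finsetSum, Finset.mul_sum]
  · refine Finset.sum_congr rfl fun n _ => ?_
    rw [integral_const_mul]
    ring
  · intro n _
    refine Integrable.const_mul (integrable_μI ?_) _
    unfold Xf
    fun_prop

/-- integral representation of the multiplier of a polynomial -/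
lemma sum_cP (a : ℕ → ℝ) (N : ℕ) (F S : ℝ) : ∑ n ∈ Finset.range N, a n * cP n F S
    = -(1 / 2) * ∫ p, p.1 * (∫ u, u * P2 a N (Xf F S p u) ∂μI) ∂(μI.prod μI) := by
  simp only [sum_inner]
  rw [integral_finsetSum, Finset.mul_sum]
  · refine Finset.sum_congr rfl fun n _ => ?_
    rw [integral_const_mul, cP_rep' F S n]
    ring
  · intro n _
    exact (integrable_μ2 (continuous_inner F S n)).const_mul _

lemma integrable_outer (a : ℕ → ℝ) (N : ℕ) (F S : ℝ) :
    Integrable (fun p : ℝ × ℝ => p.1 * (∫ u, u * P2 a N (Xf F S p u) ∂μI)) (μI.prod μI) := by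
  simp only [sum_inner]
  exact integrable_finsetSum _ fun n _ => (integrable_μ2 (continuous_inner F S n)).const_mul _

lemma ae_μ2 : ∀ᵐ p ∂(μI.prod μI), (0 < p.1 ∧ p.1 ≤ 1) ∧ (0 < p.2 ∧ p.2 ≤ 1) := by
  have e : μI.prod μI = (volume : Measure (ℝ × ℝ)).restrict (Set.Ioc 0 1 ×ˢ Set.Ioc 0 1) := by
    rw [μI, Measure.prod_restrict]; rfl
  rw [e]
  filter_upwards [ae_restrict_mem (measurableSet_Ioc.prod measurableSet_Ioc)] with p hp
  exact ⟨hp.1, hp.2⟩

/-! ### the cone -/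

structure Cone (a : ℕ → ℝ) (N : ℕ) (L : ℝ) : Prop where
  nn : ∀ y, 0 ≤ y → y ≤ L → 0 ≤ P2 a N y
  mono : ∀ y1 y2, 0 < y1 → y1 ≤ y2 → y2 ≤ L → g32 y1 * P2 a N y1 ≤ g32 y2 * P2 a N y2

lemma P2_scale (a : ℕ → ℝ) (N : ℕ) (s y : ℝ) :
    P2 (fun n => a n * s ^ n) N y = s ^ 2 * P2 a N (s * y) := by
  unfold P2
  rw [Finset.mul_sum]
  refine Finset.sum_congr rfl fun n _ => ?_
  match n with
  | 0 => simp
  | 1 => simp
  | m + 2 =>
    rw [Nat.add_sub_cancel, mul_pow]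
    ring

variable {a : ℕ → ℝ} {N : ℕ} {L : ℝ}

lemma Cone.scale (h : Cone a N L) {s : ℝ} (hs : 0 ≤ s) (hs1 : s ≤ 1) :
    Cone (fun n => a n * s ^ n) N L := by
  have hle : ∀ y, 0 ≤ y → s * y ≤ y := fun y hy => by nlinarith
  refine ⟨fun y hy hyL => ?_, fun y1 y2 h1 h12 h2L => ?_⟩
  · rw [P2_scale]
    exact mul_nonneg (sq_nonneg s) (h.nn _ (mul_nonneg hs hy) ((hle y hy).trans hyL))
  · rw [P2_scale, P2_scale]
    rcases hs.eq_or_lt with h0 | h0
    · rw [← h0]; simp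
    · have h3 := h.mono (s * y1) (s * y2) (mul_pos h0 h1) (mul_le_mul_of_nonneg_left h12 hs)
        ((hle y2 (h1.le.trans h12)).trans h2L)
      rw [g32_mul hs, g32_mul hs] at h3
      have h4 := g32_pos h0
      have h5 : g32 y1 * P2 a N (s * y1) ≤ g32 y2 * P2 a N (s * y2) := by
        have h6 : g32 s * (g32 y1 * P2 a N (s * y1)) ≤ g32 s * (g32 y2 * P2 a N (s * y2)) := by
          linarith
        exact le_of_mul_le_mul_left h6 h4
      nlinarith [sq_nonneg s, mul_le_mul_of_nonneg_left h5 (sq_nonneg s)]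

/-! ### estimates of the interpolation point -/

lemma Tf_bounds {F S : ℝ} (hFS : F ^ 2 ≤ S) {p : ℝ × ℝ} (hp : (0 < p.1 ∧ p.1 ≤ 1) ∧
    (0 < p.2 ∧ p.2 ≤ 1)) : 0 ≤ Tf F S p ∧ Tf F S p ≤ S := by
  obtain ⟨⟨h1, h2⟩, h3, h4⟩ := hp
  have hF := sq_nonneg F
  have hS : 0 ≤ S := hF.trans hFS
  have ha : 0 ≤ S - p.1 * (S - F ^ 2) := by nlinarith
  have ha' : S - p.1 * (S - F ^ 2) ≤ S := by nlinarith
  have hb : 0 ≤ 1 - p.2 ^ 2 := by nlinarith
  have hb' : 1 - p.2 ^ 2 ≤ 1 := by nlinarith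
  unfold Tf
  exact ⟨mul_nonneg ha hb, by nlinarith⟩

lemma Xf_bounds {F S : ℝ} (hFS : F ^ 2 ≤ S) {p : ℝ × ℝ} (hp : (0 < p.1 ∧ p.1 ≤ 1) ∧
    (0 < p.2 ∧ p.2 ≤ 1)) {u : ℝ} (hu : 0 < u ∧ u ≤ 1) : u * S ≤ Xf F S p u ∧ Xf F S p u ≤ S := by
  obtain ⟨h1, h2⟩ := Tf_bounds hFS hp
  unfold Xf
  constructor <;> nlinarith [hu.1, hu.2]

lemma Cone.nonpos (h : Cone a N L) {F S : ℝ} (hFS : F ^ 2 ≤ S) (hSL : S ≤ L) :
    ∑ n ∈ Finset.range N, a n * cP n F S ≤ 0 := by
  rw [sum_cP]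
  have : 0 ≤ ∫ p, p.1 * (∫ u, u * P2 a N (Xf F S p u) ∂μI) ∂(μI.prod μI) := by
    apply integral_nonneg_of_ae
    filter_upwards [ae_μ2] with p hp
    refine mul_nonneg hp.1.1.le (integral_nonneg_of_ae ?_)
    filter_upwards [ae_μI] with u hu
    obtain ⟨h1, h2⟩ := Xf_bounds hFS hp hu
    have hS : 0 ≤ S := (sq_nonneg F).trans hFS
    exact mul_nonneg hu.1.le (h.nn _ ((mul_nonneg hu.1.le hS).trans h1) (h2.trans hSL))
  linarith

lemma integral_rsqrt : ∫ u, u ^ (-(1 / 2) : ℝ) ∂μI = 2 := by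
  rw [integral_μI, integral_rpow (Or.inl (by norm_num))]
  rw [Real.one_rpow, Real.zero_rpow (by norm_num)]
  norm_num

lemma integrable_rsqrt : Integrable (fun u : ℝ => u ^ (-(1 / 2) : ℝ)) μI := by
  have := intervalIntegral.intervalIntegrable_rpow' (a := 0) (b := 1) (r := -(1 / 2))
    (by norm_num)
  rw [intervalIntegrable_iff_integrableOn_Ioc_of_le zero_le_one] at this
  exact this

lemma div_g32 {u : ℝ} (hu : 0 < u) : u / g32 u = u ^ (-(1 / 2) : ℝ) := by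
  unfold g32
  rw [Real.rpow_neg hu.le, ← Real.sqrt_eq_rpow]
  have := Real.sqrt_pos.2 hu
  field_simp

lemma Cone.bound (h : Cone a N L) {F S : ℝ} (hFS : F ^ 2 ≤ S) (hS : 0 < S) (hSL : S ≤ L) :
    -∑ n ∈ Finset.range N, a n * cP n F S ≤ P2 a N S := by
  rw [sum_cP]
  have hP : 0 ≤ P2 a N S := h.nn S hS.le hSL
  have key : ∫ p, p.1 * (∫ u, u * P2 a N (Xf F S p u) ∂μI) ∂(μI.prod μI)
      ≤ ∫ _p, 2 * P2 a N S ∂(μI.prod μI) := by
    apply integral_mono_ae (integrable_outer a N F S) (integrable_const _)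
    filter_upwards [ae_μ2] with p hp
    have h1 : ∫ u, u * P2 a N (Xf F S p u) ∂μI ≤ ∫ u, u ^ (-(1 / 2) : ℝ) * P2 a N S ∂μI := by
      apply integral_mono_ae
      · apply integrable_μI
        unfold Xf
        fun_prop
      · exact integrable_rsqrt.mul_const _
      · filter_upwards [ae_μI] with u hu
        obtain ⟨h1, h2⟩ := Xf_bounds hFS hp hu
        have hu0 := g32_pos hu.1
        have hS0 := g32_pos hS
        have hX : 0 < Xf F S p u := lt_of_lt_of_le (mul_pos hu.1 hS) h1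
        have h3 := h.mono _ _ hX h2 hSL
        have h4 : g32 u * g32 S ≤ g32 (Xf F S p u) := by
          rw [← g32_mul hu.1.le]
          exact g32_mono (mul_pos hu.1 hS).le h1
        have h5 : 0 ≤ P2 a N (Xf F S p u) := h.nn _ hX.le (h2.trans hSL)
        have h6 : g32 S * (g32 u * P2 a N (Xf F S p u)) ≤ g32 S * P2 a N S := by
          calc g32 S * (g32 u * P2 a N (Xf F S p u))
              = (g32 u * g32 S) * P2 a N (Xf F S p u) := by ring
            _ ≤ g32 (Xf F S p u) * P2 a N (Xf F S p u) := mul_le_mul_of_nonneg_right h4 h5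
            _ ≤ _ := h3
        have h7 : g32 u * P2 a N (Xf F S p u) ≤ P2 a N S := le_of_mul_le_mul_left h6 hS0
        change u * P2 a N (Xf F S p u) ≤ u ^ (-(1 / 2) : ℝ) * P2 a N S
        rw [← div_g32 hu.1, div_mul_eq_mul_div, le_div_iff₀ hu0]
        calc u * P2 a N (Xf F S p u) * g32 u = u * (g32 u * P2 a N (Xf F S p u)) := by ring
          _ ≤ u * P2 a N S := mul_le_mul_of_nonneg_left h7 hu.1.le
    rw [integral_mul_const, integral_rsqrt] at h1
    have h2 : 0 ≤ ∫ u, u * P2 a N (Xf F S p u) ∂μI := by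
      apply integral_nonneg_of_ae
      filter_upwards [ae_μI] with u hu
      obtain ⟨h1, h2⟩ := Xf_bounds hFS hp hu
      exact mul_nonneg hu.1.le (h.nn _ ((mul_nonneg hu.1.le hS.le).trans h1) (h2.trans hSL))
    calc p.1 * ∫ u, u * P2 a N (Xf F S p u) ∂μI ≤ 1 * ∫ u, u * P2 a N (Xf F S p u) ∂μI :=
        mul_le_mul_of_nonneg_right hp.1.2 h2
      _ ≤ _ := by rw [one_mul]; exact h1
  rw [integral_const] at key
  simp only [probReal_univ, one_smul] at key
  linarith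

/-- monotonicity of the weighted multiplier -/
lemma Cone.mono_weighted (h : Cone a N L) {F Y1 Y2 : ℝ} (h1 : 0 < Y1) (h12 : Y1 ≤ Y2)
    (h2 : F ^ 2 + Y2 ≤ L) :
    g32 Y2 * ∑ n ∈ Finset.range N, a n * cP n F (F ^ 2 + Y2)
      ≤ g32 Y1 * ∑ n ∈ Finset.range N, a n * cP n F (F ^ 2 + Y1) := by
  rw [sum_cP, sum_cP]
  have key : g32 Y1 * ∫ p, p.1 * (∫ u, u * P2 a N (Xf F (F ^ 2 + Y1) p u) ∂μI) ∂(μI.prod μI)
      ≤ g32 Y2 * ∫ p, p.1 * (∫ u, u * P2 a N (Xf F (F ^ 2 + Y2) p u) ∂μI) ∂(μI.prod μI) := by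
    rw [← integral_const_mul, ← integral_const_mul]
    apply integral_mono_ae ((integrable_outer a N F _).const_mul _)
      ((integrable_outer a N F _).const_mul _)
    filter_upwards [ae_μ2] with p hp
    have h3 : g32 Y1 * ∫ u, u * P2 a N (Xf F (F ^ 2 + Y1) p u) ∂μI
        ≤ g32 Y2 * ∫ u, u * P2 a N (Xf F (F ^ 2 + Y2) p u) ∂μI := by
      rw [← integral_const_mul, ← integral_const_mul]
      have hint : ∀ Y, Integrable (fun u => g32 Y * (u * P2 a N (Xf F (F ^ 2 + Y) p u))) μI := by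
        intro Y
        apply integrable_μI
        unfold Xf
        fun_prop
      apply integral_mono_ae (hint _) (hint _)
      filter_upwards [ae_μI] with u hu
      have hF := sq_nonneg F
      have hY2 : 0 < Y2 := lt_of_lt_of_le h1 h12
      set α := (1 - u) * (1 - p.2 ^ 2) + u with hα
      set β := (1 - u) * ((1 - p.1) * (1 - p.2 ^ 2)) + u with hβ
      have hX : ∀ Y, Xf F (F ^ 2 + Y) p u = α * F ^ 2 + β * Y := by
        intro Y
        unfold Xf Tf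
        rw [hα, hβ]
        ring
      obtain ⟨⟨p1, p2⟩, p3, p4⟩ := hp
      obtain ⟨u1, u2⟩ := hu
      have hz : 0 ≤ 1 - p.2 ^ 2 := by nlinarith
      have hα0 : 0 ≤ α := by
        have := mul_nonneg (sub_nonneg.2 u2) hz
        linarith
      have hβ0 : 0 < β := by
        have := mul_nonneg (sub_nonneg.2 u2) (mul_nonneg (sub_nonneg.2 p2) hz)
        linarith
      have hX1 : 0 < Xf F (F ^ 2 + Y1) p u := by
        rw [hX]
        have := mul_nonneg hα0 hF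
        have := mul_pos hβ0 h1
        linarith
      have hX12 : Xf F (F ^ 2 + Y1) p u ≤ Xf F (F ^ 2 + Y2) p u := by
        rw [hX, hX]
        have := mul_le_mul_of_nonneg_left h12 hβ0.le
        linarith
      have hX2L : Xf F (F ^ 2 + Y2) p u ≤ L :=
        (Xf_bounds (F := F) (S := F ^ 2 + Y2) (by linarith) ⟨⟨p1, p2⟩, p3, p4⟩ ⟨u1, u2⟩).2.trans h2
      have hX2 := lt_of_lt_of_le hX1 hX12
      have h4 := h.mono _ _ hX1 hX12 hX2L
      have h5 : 0 ≤ P2 a N (Xf F (F ^ 2 + Y1) p u) := h.nn _ hX1.le (hX12.trans hX2L)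
      have h6 : g32 Y1 * g32 (Xf F (F ^ 2 + Y2) p u) ≤ g32 Y2 * g32 (Xf F (F ^ 2 + Y1) p u) := by
        rw [← g32_mul h1.le, ← g32_mul hY2.le]
        apply g32_mono (mul_pos h1 hX2).le
        rw [hX, hX]
        have := mul_nonneg hα0 hF
        nlinarith
      have h7 : g32 (Xf F (F ^ 2 + Y2) p u) * (g32 Y1 * P2 a N (Xf F (F ^ 2 + Y1) p u))
          ≤ g32 (Xf F (F ^ 2 + Y2) p u) * (g32 Y2 * P2 a N (Xf F (F ^ 2 + Y2) p u)) := by
        calc g32 (Xf F (F ^ 2 + Y2) p u) * (g32 Y1 * P2 a N (Xf F (F ^ 2 + Y1) p u))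
            = (g32 Y1 * g32 (Xf F (F ^ 2 + Y2) p u)) * P2 a N (Xf F (F ^ 2 + Y1) p u) := by ring
          _ ≤ (g32 Y2 * g32 (Xf F (F ^ 2 + Y1) p u)) * P2 a N (Xf F (F ^ 2 + Y1) p u) :=
              mul_le_mul_of_nonneg_right h6 h5
          _ = g32 Y2 * (g32 (Xf F (F ^ 2 + Y1) p u) * P2 a N (Xf F (F ^ 2 + Y1) p u)) := by ring
          _ ≤ g32 Y2 * (g32 (Xf F (F ^ 2 + Y2) p u) * P2 a N (Xf F (F ^ 2 + Y2) p u)) :=
              mul_le_mul_of_nonneg_left h4 (g32_pos hY2).le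
          _ = _ := by ring
      have h8 := le_of_mul_le_mul_left h7 (g32_pos hX2)
      change g32 Y1 * (u * P2 a N (Xf F (F ^ 2 + Y1) p u))
        ≤ g32 Y2 * (u * P2 a N (Xf F (F ^ 2 + Y2) p u))
      calc g32 Y1 * (u * P2 a N (Xf F (F ^ 2 + Y1) p u))
          = u * (g32 Y1 * P2 a N (Xf F (F ^ 2 + Y1) p u)) := by ring
        _ ≤ u * (g32 Y2 * P2 a N (Xf F (F ^ 2 + Y2) p u)) := mul_le_mul_of_nonneg_left h8 u1.le
        _ = _ := by ring
    change g32 Y1 * (p.1 * ∫ u, u * P2 a N (Xf F (F ^ 2 + Y1) p u) ∂μI)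
      ≤ g32 Y2 * (p.1 * ∫ u, u * P2 a N (Xf F (F ^ 2 + Y2) p u) ∂μI)
    calc g32 Y1 * (p.1 * ∫ u, u * P2 a N (Xf F (F ^ 2 + Y1) p u) ∂μI)
        = p.1 * (g32 Y1 * ∫ u, u * P2 a N (Xf F (F ^ 2 + Y1) p u) ∂μI) := by ring
      _ ≤ p.1 * (g32 Y2 * ∫ u, u * P2 a N (Xf F (F ^ 2 + Y2) p u) ∂μI) :=
          mul_le_mul_of_nonneg_left h3 hp.1.1.le
      _ = _ := by ring
  linarith

/-- the differential inequality -/
lemma Cone.deriv (h : Cone a N L) {F S : ℝ} (hFS : F ^ 2 ≤ S) (hSL : S < L) :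
    3 / 2 * ∑ n ∈ Finset.range N, a n * cP n F S
      + (S - F ^ 2) * ∑ n ∈ Finset.range N, a n * cS n F S ≤ 0 := by
  rcases hFS.eq_or_lt with h0 | h0
  · rw [h0, sub_self, zero_mul, add_zero]
    have := h.nonpos hFS hSL.le
    linarith
  · set Y := S - F ^ 2 with hY
    have hYpos : 0 < Y := by linarith
    have hYL : Y < L - F ^ 2 := by linarith
    have hmono : MonotoneOn (fun y => -(g32 y * ∑ n ∈ Finset.range N, a n * cP n F (F ^ 2 + y)))
        (Set.Ioo 0 (L - F ^ 2)) := by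
      intro y1 hy1 y2 hy2 h12
      have := h.mono_weighted (F := F) hy1.1 h12 (by linarith [hy2.2])
      simp only
      linarith
    have hSY : F ^ 2 + Y = S := by rw [hY]; ring
    have hd : HasDerivAt (fun y => -(g32 y * ∑ n ∈ Finset.range N, a n * cP n F (F ^ 2 + y)))
        (-(3 / 2 * Real.sqrt Y * ∑ n ∈ Finset.range N, a n * cP n F S
          + g32 Y * ∑ n ∈ Finset.range N, a n * cS n F S)) Y := by
      have h1 : HasDerivAt (fun y => ∑ n ∈ Finset.range N, a n * cP n F (F ^ 2 + y))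
          (∑ n ∈ Finset.range N, a n * cS n F S) Y := by
        apply HasDerivAt.fun_sum
        intro n _
        have h2 := hasDerivAt_cP n (hasDerivAt_const Y F) ((hasDerivAt_id Y).const_add (F ^ 2))
        have h3 := h2.const_mul (a n)
        refine h3.congr_deriv ?_
        simp only [id, hSY]
        ring
      have h2 := ((hasDerivAt_g32 hYpos).mul h1).neg
      refine HasDerivAt.congr_deriv h2 ?_
      rw [hSY]
    have hacc : AccPt Y (𝓟 (Set.Ioo 0 (L - F ^ 2))) := by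
      have : Y ∈ Set.Ioo 0 (L - F ^ 2) := ⟨hYpos, hYL⟩
      have h1 : AccPt Y (𝓟 (Set.univ : Set ℝ)) :=
        PerfectSpace.univ_preperfect Y (Set.mem_univ Y)
      have h2 := h1.nhds_inter (isOpen_Ioo.mem_nhds this)
      rwa [Set.inter_univ] at h2
    have h3 := hd.hasDerivWithinAt.nonneg_of_monotoneOn hacc hmono
    have h4 : 0 < Real.sqrt Y := Real.sqrt_pos.2 hYpos
    have h5 : -(3 / 2 * Real.sqrt Y * ∑ n ∈ Finset.range N, a n * cP n F S
          + g32 Y * ∑ n ∈ Finset.range N, a n * cS n F S)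
        = -(Real.sqrt Y * (3 / 2 * ∑ n ∈ Finset.range N, a n * cP n F S
          + Y * ∑ n ∈ Finset.range N, a n * cS n F S)) := by
      unfold g32
      ring
    rw [h5] at h3
    by_contra hcon
    push Not at hcon
    have := mul_pos h4 hcon
    linarith

end Berry67
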