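import Pool.Agent.Lib_helper67.Berry.Gam

/-!
A lower curvature bound for an elliptic operator on a compact set.
-/

namespace Berry67

set_option linter.unusedSectionVars false

open InnerProductSpace Filter Topology
open scoped ContDiff

variable {E : Type*} [NormedAddCommGroup E] [InnerProductSpace ℝ E] [FiniteDimensional ℝ E]
variable {ι : Type*} [Fintype ι]

namespace Coef

variable (c : Coef E ι) {f : E → ℝ}

lemma Lo_sum {κ : Type*} (s : Finset κ) (F : κ → E → ℝ) (hF : ∀ a, ContDiff ℝ ∞ (F a)) :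
    c.Lo (fun x => ∑ a ∈ s, F a x) = fun x => ∑ a ∈ s, c.Lo (F a) x := by
  classical
  induction s using Finset.induction_on with
  | empty => simpa using c.Lo_const 0
  | insert a s ha ih =>
    simp only [Finset.sum_insert ha]
    rw [c.Lo_add (hF a) (ContDiff.sum fun i _ => hF i), ih]

/-- the zero order part of the commutator of `∂_v` and `L` -/
noncomputable def Rem (v : E) (f : E → ℝ) (x : E) : ℝ :=
  ∑ k, ∑ l, D v (c.H k l) x * D (c.e k) (D (c.e l) f) x + ∑ k, D v (c.B k) x * D (c.e k) f x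

lemma D_Lo (hf : ContDiff ℝ ∞ f) (v : E) (x : E) :
    D v (c.Lo f) x = c.Lo (D v f) x + c.Rem v f x := by
  have s2 : ∀ k l, ContDiff ℝ ∞ (D (c.e k) (D (c.e l) f)) := fun k l =>
    contDiff_D (contDiff_D hf _) _
  have s3 : ∀ k l, ContDiff ℝ ∞ (fun x => c.H k l x * D (c.e k) (D (c.e l) f) x) := fun k l =>
    (c.sH k l).mul (s2 k l)
  have s4 : ∀ k, ContDiff ℝ ∞ (fun x => ∑ l, c.H k l x * D (c.e k) (D (c.e l) f) x) := fun k =>
    ContDiff.sum fun l _ => s3 k l
  have s5 : ∀ k, ContDiff ℝ ∞ (fun x => c.B k x * D (c.e k) f x) := fun k =>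
    (c.sB k).mul (contDiff_D hf _)
  have e1 : D v (c.Lo f) x = ∑ k, ∑ l, (D v (c.H k l) x * D (c.e k) (D (c.e l) f) x
      + c.H k l x * D v (D (c.e k) (D (c.e l) f)) x)
      + ∑ k, (D v (c.B k) x * D (c.e k) f x + c.B k x * D v (D (c.e k) f) x) := by
    unfold Lo
    rw [D_add (ContDiff.sum fun k _ => s4 k) (ContDiff.sum fun k _ => s5 k)]
    rw [D_add_fun _ _ s4, D_add_fun _ _ s5]
    simp only [D_add_fun _ _ (s3 _), D_mul (c.sH _ _) (s2 _ _),
      D_mul (c.sB _) (contDiff_D hf _)]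
  have e2 : ∀ k l, D v (D (c.e k) (D (c.e l) f)) = D (c.e k) (D (c.e l) (D v f)) := by
    intro k l
    rw [D_comm (contDiff_D hf _) v (c.e k), D_comm hf v (c.e l)]
  have e3 : ∀ k, D v (D (c.e k) f) = D (c.e k) (D v f) := fun k => D_comm hf _ _
  rw [e1]
  simp only [e2, e3, Finset.sum_add_distrib]
  unfold Lo Rem
  ring

/-- the quadratic form `Γ₂` in the first and second derivatives -/
noncomputable def Qf (x : E) (v : ι → ℝ) (M : ι → ι → ℝ) : ℝ :=
  ∑ i, ∑ j, (c.H i j x * (∑ k, ∑ l, c.H k l x * (M k i * M l j))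
    + c.Lo (c.H i j) x * (v i * v j) / 2
    + 2 * (v i * (∑ k, ∑ l, c.H k l x * (D (c.e k) (c.H i j) x * M l j)))
    - c.H i j x * (v i * (∑ k, ∑ l, D (c.e j) (c.H k l) x * M k l
      + ∑ k, D (c.e j) (c.B k) x * v k)))

lemma G2_eq_Qf (hf : ContDiff ℝ ∞ f) (x : E) :
    c.G2 f f x = c.Qf x (fun i => D (c.e i) f x) (fun i j => D (c.e i) (D (c.e j) f) x) := by
  have s1 : ∀ i, ContDiff ℝ ∞ (D (c.e i) f) := fun i => contDiff_D hf _
  have s2 : ∀ i j, ContDiff ℝ ∞ (fun x => D (c.e i) f x * D (c.e j) f x) := fun i j =>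
    (s1 i).mul (s1 j)
  have s3 : ∀ i j, ContDiff ℝ ∞ (fun x => c.H i j x * (D (c.e i) f x * D (c.e j) f x)) :=
    fun i j => (c.sH i j).mul (s2 i j)
  have s4 : ∀ i, ContDiff ℝ ∞ (fun x => ∑ j, c.H i j x * (D (c.e i) f x * D (c.e j) f x)) :=
    fun i => ContDiff.sum fun j _ => s3 i j
  have e1 : c.Lo (c.G f f) x = ∑ i, ∑ j, (c.H i j x * (D (c.e i) f x * c.Lo (D (c.e j) f) x
      + D (c.e j) f x * c.Lo (D (c.e i) f) x + 2 * c.G (D (c.e i) f) (D (c.e j) f) x)
      + (D (c.e i) f x * D (c.e j) f x) * c.Lo (c.H i j) x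
      + 2 * (D (c.e i) f x * c.G (c.H i j) (D (c.e j) f) x
        + D (c.e j) f x * c.G (c.H i j) (D (c.e i) f) x)) := by
    have : c.G f f = fun x => ∑ i, ∑ j, c.H i j x * (D (c.e i) f x * D (c.e j) f x) := rfl
    rw [this, c.Lo_sum _ _ s4]
    refine Finset.sum_congr rfl fun i _ => ?_
    rw [c.Lo_sum _ _ (s3 i)]
    refine Finset.sum_congr rfl fun j _ => ?_
    rw [c.Lo_mul (c.sH i j) (s2 i j), c.Lo_mul (s1 i) (s1 j), c.G_mul_right _ (s1 i) (s1 j)]
  have e2 : c.G f (c.Lo f) x = ∑ i, ∑ j, c.H i j x * (D (c.e i) f x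
      * (c.Lo (D (c.e j) f) x + c.Rem (c.e j) f x)) := by
    have : c.G f (c.Lo f) x
        = ∑ i, ∑ j, c.H i j x * (D (c.e i) f x * D (c.e j) (c.Lo f) x) := rfl
    rw [this]
    simp only [c.D_Lo hf]
  -- symmetrisation
  have sym1 : ∑ i, ∑ j, c.H i j x * (D (c.e j) f x * c.Lo (D (c.e i) f) x)
      = ∑ i, ∑ j, c.H i j x * (D (c.e i) f x * c.Lo (D (c.e j) f) x) := by
    rw [Finset.sum_comm]
    refine Finset.sum_congr rfl fun i _ => Finset.sum_congr rfl fun j _ => ?_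
    rw [c.symm j i x]
  have sym2 : ∑ i, ∑ j, D (c.e j) f x * c.G (c.H i j) (D (c.e i) f) x
      = ∑ i, ∑ j, D (c.e i) f x * c.G (c.H i j) (D (c.e j) f) x := by
    rw [Finset.sum_comm]
    refine Finset.sum_congr rfl fun i _ => Finset.sum_congr rfl fun j _ => ?_
    have : c.H j i = c.H i j := funext (c.symm j i)
    rw [this]
  have t1 : c.Lo (c.G f f) x = 2 * (∑ i, ∑ j, c.H i j x * (D (c.e i) f x * c.Lo (D (c.e j) f) x))
      + 2 * (∑ i, ∑ j, c.H i j x * c.G (D (c.e i) f) (D (c.e j) f) x)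
      + ∑ i, ∑ j, (D (c.e i) f x * D (c.e j) f x) * c.Lo (c.H i j) x
      + 4 * (∑ i, ∑ j, D (c.e i) f x * c.G (c.H i j) (D (c.e j) f) x) := by
    rw [e1]
    have : ∀ i j, (c.H i j x * (D (c.e i) f x * c.Lo (D (c.e j) f) x
      + D (c.e j) f x * c.Lo (D (c.e i) f) x + 2 * c.G (D (c.e i) f) (D (c.e j) f) x)
      + (D (c.e i) f x * D (c.e j) f x) * c.Lo (c.H i j) x
      + 2 * (D (c.e i) f x * c.G (c.H i j) (D (c.e j) f) x
        + D (c.e j) f x * c.G (c.H i j) (D (c.e i) f) x))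
        = c.H i j x * (D (c.e i) f x * c.Lo (D (c.e j) f) x)
        + c.H i j x * (D (c.e j) f x * c.Lo (D (c.e i) f) x)
        + 2 * (c.H i j x * c.G (D (c.e i) f) (D (c.e j) f) x)
        + (D (c.e i) f x * D (c.e j) f x) * c.Lo (c.H i j) x
        + 2 * (D (c.e i) f x * c.G (c.H i j) (D (c.e j) f) x)
        + 2 * (D (c.e j) f x * c.G (c.H i j) (D (c.e i) f) x) := fun i j => by ring
    simp only [this, Finset.sum_add_distrib]
    have h2 : ∀ F : ι → ι → ℝ, ∑ i, ∑ j, 2 * F i j = 2 * ∑ i, ∑ j, F i j := by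
      intro F; simp only [Finset.mul_sum]
    rw [h2, h2, h2, sym1, sym2]
    ring
  have t2 : c.G f (c.Lo f) x = ∑ i, ∑ j, c.H i j x * (D (c.e i) f x * c.Lo (D (c.e j) f) x)
      + ∑ i, ∑ j, c.H i j x * (D (c.e i) f x * c.Rem (c.e j) f x) := by
    rw [e2]
    simp only [mul_add, Finset.sum_add_distrib]
  unfold G2
  rw [t1, t2]
  have t3 : c.Qf x (fun i => D (c.e i) f x) (fun i j => D (c.e i) (D (c.e j) f) x)
      = ∑ i, ∑ j, c.H i j x * c.G (D (c.e i) f) (D (c.e j) f) x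
        + (∑ i, ∑ j, (D (c.e i) f x * D (c.e j) f x) * c.Lo (c.H i j) x) / 2
        + 2 * (∑ i, ∑ j, D (c.e i) f x * c.G (c.H i j) (D (c.e j) f) x)
        - ∑ i, ∑ j, c.H i j x * (D (c.e i) f x * c.Rem (c.e j) f x) := by
    rw [Finset.sum_div, Finset.mul_sum, ← Finset.sum_add_distrib, ← Finset.sum_add_distrib,
      ← Finset.sum_sub_distrib]
    unfold Qf
    refine Finset.sum_congr rfl fun i _ => ?_
    rw [Finset.sum_div, Finset.mul_sum, ← Finset.sum_add_distrib, ← Finset.sum_add_distrib,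
      ← Finset.sum_sub_distrib]
    refine Finset.sum_congr rfl fun j _ => ?_
    unfold G Rem
    ring
  rw [t3]
  ring

/-- positivity of the leading part -/
lemma lead_pos {ι : Type*} [Fintype ι] (H : ι → ι → ℝ) (hsymm : ∀ i j, H i j = H j i)
    (hpd : ∀ ξ : ι → ℝ, ξ ≠ 0 → 0 < ∑ i, ∑ j, H i j * (ξ i * ξ j))
    (M : ι → ι → ℝ) (hM : M ≠ 0) :
    0 < ∑ i, ∑ j, H i j * (∑ k, ∑ l, H k l * (M k i * M l j)) := by
  classical
  have hps : (Matrix.of H).PosDef := by
    rw [Matrix.posDef_iff_dotProduct_mulVec]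
    refine ⟨?_, fun ξ hξ => ?_⟩
    · ext i j
      simp [Matrix.conjTranspose_apply, hsymm j i]
    · have := hpd ξ hξ
      simp only [dotProduct, Matrix.mulVec, Matrix.of_apply, star_trivial, Finset.mul_sum]
      refine this.trans_le (le_of_eq ?_)
      refine Finset.sum_congr rfl fun i _ => Finset.sum_congr rfl fun j _ => ?_
      ring
  have hk := hps.kronecker hps
  have hw : (fun p : ι × ι => M p.2 p.1) ≠ 0 := by
    intro h
    apply hM
    funext k i
    exact congrFun h (i, k)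
  have := hk.dotProduct_mulVec_pos hw
  simp only [dotProduct, Matrix.mulVec, Matrix.kroneckerMap_apply, Matrix.of_apply, star_trivial,
    Finset.mul_sum] at this
  rw [Fintype.sum_prod_type] at this
  simp only [Fintype.sum_prod_type] at this
  refine this.trans_le (le_of_eq ?_)
  refine Finset.sum_congr rfl fun i _ => ?_
  simp only [Finset.mul_sum]
  rw [Finset.sum_comm]
  refine Finset.sum_congr rfl fun j _ => Finset.sum_congr rfl fun k _ =>
    Finset.sum_congr rfl fun l _ => ?_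
  ring

/-- the quadratic form of the carré du champ -/
noncomputable def qf (x : E) (v : ι → ℝ) : ℝ := ∑ i, ∑ j, c.H i j x * (v i * v j)

lemma continuous_Qf : Continuous (fun p : E × (ι → ℝ) × (ι → ι → ℝ) => c.Qf p.1 p.2.1 p.2.2) := by
  have h1 : ∀ i j, Continuous (c.H i j) := fun i j => (c.sH i j).continuous
  have h2 : ∀ i j, Continuous (c.Lo (c.H i j)) := fun i j => (c.smooth_Lo (c.sH i j)).continuous
  have h3 : ∀ k i j, Continuous (D (c.e k) (c.H i j)) := fun k i j =>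
    (contDiff_D (c.sH i j) _).continuous
  have h4 : ∀ k j, Continuous (D (c.e k) (c.B j)) := fun k j => (contDiff_D (c.sB j) _).continuous
  unfold Qf
  fun_prop

lemma continuous_qf : Continuous (fun p : E × (ι → ℝ) × (ι → ι → ℝ) => c.qf p.1 p.2.1) := by
  have h1 : ∀ i j, Continuous (c.H i j) := fun i j => (c.sH i j).continuous
  unfold qf
  fun_prop

lemma Qf_smul (x : E) (v : ι → ℝ) (M : ι → ι → ℝ) (t : ℝ) :
    c.Qf x (t • v) (t • M) = t ^ 2 * c.Qf x v M := by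
  unfold Qf
  rw [Finset.mul_sum]
  refine Finset.sum_congr rfl fun i _ => ?_
  rw [Finset.mul_sum]
  refine Finset.sum_congr rfl fun j _ => ?_
  have e1 : ∑ k, ∑ l, c.H k l x * ((t • M) k i * (t • M) l j)
      = t ^ 2 * ∑ k, ∑ l, c.H k l x * (M k i * M l j) := by
    simp only [Finset.mul_sum]
    refine Finset.sum_congr rfl fun k _ => Finset.sum_congr rfl fun l _ => ?_
    simp only [Pi.smul_apply, smul_eq_mul]; ring
  have e2 : ∑ k, ∑ l, c.H k l x * (D (c.e k) (c.H i j) x * (t • M) l j)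
      = t * ∑ k, ∑ l, c.H k l x * (D (c.e k) (c.H i j) x * M l j) := by
    simp only [Finset.mul_sum]
    refine Finset.sum_congr rfl fun k _ => Finset.sum_congr rfl fun l _ => ?_
    simp only [Pi.smul_apply, smul_eq_mul]; ring
  have e3 : ∑ k, ∑ l, D (c.e j) (c.H k l) x * (t • M) k l
      = t * ∑ k, ∑ l, D (c.e j) (c.H k l) x * M k l := by
    simp only [Finset.mul_sum]
    refine Finset.sum_congr rfl fun k _ => Finset.sum_congr rfl fun l _ => ?_
    simp only [Pi.smul_apply, smul_eq_mul]; ring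
  have e4 : ∑ k, D (c.e j) (c.B k) x * (t • v) k = t * ∑ k, D (c.e j) (c.B k) x * v k := by
    simp only [Finset.mul_sum]
    refine Finset.sum_congr rfl fun k _ => ?_
    simp only [Pi.smul_apply, smul_eq_mul]; ring
  rw [e1, e2, e3, e4]
  simp only [Pi.smul_apply, smul_eq_mul]
  ring

lemma qf_smul (x : E) (v : ι → ℝ) (t : ℝ) : c.qf x (t • v) = t ^ 2 * c.qf x v := by
  unfold qf
  simp only [Finset.mul_sum]
  refine Finset.sum_congr rfl fun k _ => Finset.sum_congr rfl fun l _ => ?_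
  simp only [Pi.smul_apply, smul_eq_mul]; ring

/-- **Curvature is bounded below on compact sets.** -/
theorem exists_curv_bound (hpd : ∀ x, ∀ ξ : ι → ℝ, ξ ≠ 0 → 0 < c.qf x ξ) {S : Set E}
    (hS : IsCompact S) :
    ∃ K : ℝ, 0 ≤ K ∧ ∀ x ∈ S, ∀ (v : ι → ℝ) (M : ι → ι → ℝ), 0 ≤ c.Qf x v M + K * c.qf x v := by
  classical
  set X : Set (E × (ι → ℝ) × (ι → ι → ℝ)) :=
    S ×ˢ Metric.sphere (0 : (ι → ℝ) × (ι → ι → ℝ)) 1 with hX
  have hXc : IsCompact X := hS.prod (isCompact_sphere _ _)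
  set Z : Set (E × (ι → ℝ) × (ι → ι → ℝ)) := X ∩ {p | c.Qf p.1 p.2.1 p.2.2 ≤ 0} with hZ
  have hZc : IsCompact Z := hXc.inter_right (isClosed_le c.continuous_Qf continuous_const)
  have hqnn : ∀ x v, 0 ≤ c.qf x v := by
    intro x v
    by_cases h : v = 0
    · rw [h]; simp [qf]
    · exact (hpd x v h).le
  -- reduction to the sphere
  suffices hsph : ∃ K : ℝ, 0 ≤ K ∧ ∀ p ∈ X, 0 ≤ c.Qf p.1 p.2.1 p.2.2 + K * c.qf p.1 p.2.1 by
    obtain ⟨K, hK, h⟩ := hsph
    refine ⟨K, hK, fun x hx v M => ?_⟩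
    by_cases h0 : (v, M) = (0 : (ι → ℝ) × (ι → ι → ℝ))
    · have hv : v = 0 := congrArg Prod.fst h0
      have hM : M = 0 := congrArg Prod.snd h0
      rw [hv, hM]
      simp [Qf, qf]
    · set r := ‖(v, M)‖ with hr
      have hr0 : 0 < r := norm_pos_iff.2 h0
      have hmem : (x, (r⁻¹ • v, r⁻¹ • M)) ∈ X := by
        refine ⟨hx, ?_⟩
        rw [mem_sphere_zero_iff_norm]
        have : (r⁻¹ • v, r⁻¹ • M) = r⁻¹ • (v, M) := rfl
        simp only
        rw [this, norm_smul, norm_inv, Real.norm_of_nonneg hr0.le, ← hr, inv_mul_cancel₀ hr0.ne']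
      have h1 := h _ hmem
      simp only at h1
      rw [c.Qf_smul, c.qf_smul] at h1
      have h2 : 0 ≤ (r⁻¹) ^ 2 * (c.Qf x v M + K * c.qf x v) := by linarith
      have h3 : 0 < (r⁻¹) ^ 2 := by positivity
      exact nonneg_of_mul_nonneg_right h2 h3
  rcases Z.eq_empty_or_nonempty with hZe | hZne
  · refine ⟨0, le_rfl, fun p hp => ?_⟩
    have : p ∉ Z := by rw [hZe]; exact Set.notMem_empty p
    have h1 : ¬ c.Qf p.1 p.2.1 p.2.2 ≤ 0 := fun h => this ⟨hp, h⟩
    rw [zero_mul, add_zero]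
    exact (not_le.1 h1).le
  · obtain ⟨p0, hp0, hmin⟩ := hZc.exists_isMinOn hZne c.continuous_qf.continuousOn
    obtain ⟨p1, hp1, hmin1⟩ := hZc.exists_isMinOn hZne c.continuous_Qf.continuousOn
    have hδ : 0 < c.qf p0.1 p0.2.1 := by
      apply hpd
      intro hv
      have hne : p0.2.2 ≠ 0 := by
        intro hM
        have h1 := hp0.1.2
        rw [mem_sphere_zero_iff_norm] at h1
        have : p0.2 = 0 := Prod.ext hv hM
        rw [this, norm_zero] at h1
        exact zero_ne_one h1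
      have h1 := lead_pos (fun i j => c.H i j p0.1) (fun i j => c.symm i j p0.1)
        (fun ξ hξ => hpd p0.1 ξ hξ) p0.2.2 hne
      have h2 : c.Qf p0.1 p0.2.1 p0.2.2
          = ∑ i, ∑ j, c.H i j p0.1 * (∑ k, ∑ l, c.H k l p0.1 * (p0.2.2 k i * p0.2.2 l j)) := by
        unfold Qf
        rw [hv]
        refine Finset.sum_congr rfl fun i _ => Finset.sum_congr rfl fun j _ => ?_
        simp only [Pi.zero_apply]
        ring
      have h3 : c.Qf p0.1 p0.2.1 p0.2.2 ≤ 0 := hp0.2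
      rw [h2] at h3
      exact absurd h1 (not_lt.2 h3)
    set δ := c.qf p0.1 p0.2.1 with hδd
    set m := c.Qf p1.1 p1.2.1 p1.2.2 with hm
    have hm0 : m ≤ 0 := hp1.2
    refine ⟨-m / δ, div_nonneg (by linarith) hδ.le, fun p hp => ?_⟩
    by_cases h : c.Qf p.1 p.2.1 p.2.2 ≤ 0
    · have hpZ : p ∈ Z := ⟨hp, h⟩
      have h1 : δ ≤ c.qf p.1 p.2.1 := hmin hpZ
      have h2 : m ≤ c.Qf p.1 p.2.1 p.2.2 := hmin1 hpZ
      have h3 : -m / δ * δ ≤ -m / δ * c.qf p.1 p.2.1 :=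
        mul_le_mul_of_nonneg_left h1 (div_nonneg (by linarith) hδ.le)
      rw [div_mul_cancel₀ _ hδ.ne'] at h3
      linarith
    · have h1 := hqnn p.1 p.2.1
      have h2 : 0 ≤ -m / δ * c.qf p.1 p.2.1 :=
        mul_nonneg (div_nonneg (by linarith) hδ.le) h1
      linarith [not_le.1 h]

end Coef

end Berry67
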