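import Pool.Agent.Lib_helper67.Berry.Lipschitz

/-!
Derivatives along the orbits of a measure preserving action of a Euclidean space.
-/

namespace Berry67

set_option linter.unusedSectionVars false

open MeasureTheory ProbabilityTheory Filter Topology

variable {E : Type*} [NormedAddCommGroup E] [InnerProductSpace ℝ E] [FiniteDimensional ℝ E]
  [MeasurableSpace E] [BorelSpace E]
variable {Ω : Type*} [MeasurableSpace Ω] {P : Measure Ω} {T : E → Ω → Ω}

/-- `G'` is the derivative of `G` along the orbits in direction `e`. -/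
def IsD (T : E → Ω → Ω) (e : E) (G G' : Ω → ℝ) : Prop :=
  ∀ ω, HasDerivAt (fun s : ℝ => G (T (s • e) ω)) (G' ω) 0

section calculus

variable {e : E} {G G' A A' B B' : Ω → ℝ}

lemma IsD.congr_deriv (h : IsD T e G G') (hh : ∀ ω, G' ω = A' ω) : IsD T e G A' := by
  intro ω
  rw [← hh ω]; exact h ω

lemma IsD.add (hA : IsD T e A A') (hB : IsD T e B B') :
    IsD T e (fun ω => A ω + B ω) (fun ω => A' ω + B' ω) := fun ω => (hA ω).add (hB ω)

lemma IsD.sub (hA : IsD T e A A') (hB : IsD T e B B') :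
    IsD T e (fun ω => A ω - B ω) (fun ω => A' ω - B' ω) := fun ω => (hA ω).sub (hB ω)

lemma IsD.const_mul (c : ℝ) (hA : IsD T e A A') :
    IsD T e (fun ω => c * A ω) (fun ω => c * A' ω) := fun ω => (hA ω).const_mul c

lemma IsD.sum {ι : Type*} (s : Finset ι) {A A' : ι → Ω → ℝ}
    (h : ∀ i ∈ s, IsD T e (A i) (A' i)) :
    IsD T e (fun ω => ∑ i ∈ s, A i ω) (fun ω => ∑ i ∈ s, A' i ω) := fun ω =>
  HasDerivAt.fun_sum (fun i hi => h i hi ω)

end calculus

section flow

variable {e : E} {G G' A A' B B' : Ω → ℝ}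

lemma IsFlow.isD_mul (H : IsFlow P T) (hA : IsD T e A A') (hB : IsD T e B B') :
    IsD T e (fun ω => A ω * B ω) (fun ω => A' ω * B ω + A ω * B' ω) := by
  intro ω
  have h := (hA ω).mul (hB ω)
  simp only [zero_smul, H.zero] at h
  exact h

lemma IsFlow.isD_at (H : IsFlow P T) (h : IsD T e G G') (ω : Ω) (s : ℝ) :
    HasDerivAt (fun u : ℝ => G (T (u • e) ω)) (G' (T (s • e) ω)) s := by
  have h1 := h (T (s • e) ω)
  have h2 : (fun u : ℝ => G (T (u • e) (T (s • e) ω)))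
      = fun u : ℝ => (fun v : ℝ => G (T (v • e) ω)) (u + s) := by
    funext u
    simp only
    rw [H.add, ← add_smul]
  rw [h2] at h1
  have h3 : HasDerivAt (fun u : ℝ => (fun v : ℝ => G (T (v • e) ω)) (u + s))
      (G' (T (s • e) ω)) (s - s) := by rw [sub_self]; exact h1
  have h5 := HasDerivAt.comp_sub_const s s h3
  refine h5.congr_of_eventuallyEq (Eventually.of_forall fun u => ?_)
  simp

/-- **Divergence lemma.** The derivative along the orbits has mean zero. -/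
lemma IsFlow.integral_isD_eq_zero [IsProbabilityMeasure P] (H : IsFlow P T)
    (hG : Integrable G P) (hG' : Integrable G' P)
    (h : IsD T e G G') : ∫ ω, G' ω ∂P = 0 := by
  set ν : Measure ℝ := volume.restrict (Set.Ioc (0 : ℝ) 1) with hν
  have : IsFiniteMeasure ν := by rw [hν]; infer_instance
  have hν1 : ν.real Set.univ = 1 := by
    rw [hν, measureReal_def]; simp
  have hmeas : Measurable (fun p : ℝ × Ω => T (p.1 • e) p.2) :=
    H.meas.comp ((measurable_fst.smul_const e).prodMk measurable_snd)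
  have hΦ : MeasurePreserving (fun p : ℝ × Ω => (id p.1, T (p.1 • e) p.2)) (ν.prod P)
      (ν.prod P) := by
    refine MeasurePreserving.skew_product (g := fun s ω => T (s • e) ω)
      (MeasurePreserving.id _) hmeas ?_
    exact Eventually.of_forall fun s => (H.mp _).map_eq
  have j1 : Integrable (fun p : ℝ × Ω => G' p.2) (ν.prod P) := hG'.comp_snd ν
  have j2 : Integrable (fun p : ℝ × Ω => G' (T (p.1 • e) p.2)) (ν.prod P) :=
    hΦ.integrable_comp_of_integrable j1
  have e1 : ∀ᵐ ω ∂P, ∫ s in (0 : ℝ)..1, G' (T (s • e) ω) = G (T e ω) - G ω := by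
    filter_upwards [j2.prod_left_ae] with ω hω
    have hi : IntervalIntegrable (fun s : ℝ => G' (T (s • e) ω)) volume 0 1 := by
      rw [intervalIntegrable_iff_integrableOn_Ioc_of_le zero_le_one]
      exact hω
    have := intervalIntegral.integral_eq_sub_of_hasDerivAt
      (f := fun s : ℝ => G (T (s • e) ω)) (fun s _ => H.isD_at h ω s) hi
    simp only [one_smul, zero_smul, H.zero] at this
    exact this
  have e2 : ∫ ω, (∫ s in (0 : ℝ)..1, G' (T (s • e) ω)) ∂P = ∫ ω, (G (T e ω) - G ω) ∂P :=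
    integral_congr_ae e1
  have e3 : ∫ ω, (G (T e ω) - G ω) ∂P = 0 := by
    have i1 : Integrable (fun ω => G (T e ω)) P := (H.mp e).integrable_comp_of_integrable hG
    rw [integral_sub i1 hG]
    have h3 := integral_map (μ := P) (H.mp e).measurable.aemeasurable (f := G)
      (by rw [(H.mp e).map_eq]; exact hG.aestronglyMeasurable)
    rw [(H.mp e).map_eq] at h3
    rw [← h3, sub_self]
  have e4 : ∫ ω, (∫ s in (0 : ℝ)..1, G' (T (s • e) ω)) ∂P
      = ∫ s, (∫ ω, G' (T (s • e) ω) ∂P) ∂ν := by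
    simp_rw [intervalIntegral.integral_of_le (zero_le_one : (0 : ℝ) ≤ 1)]
    have h1 := integral_prod_symm _ j2
    have h2 := integral_prod _ j2
    rw [h2] at h1
    exact h1.symm
  have e5 : ∀ s : ℝ, ∫ ω, G' (T (s • e) ω) ∂P = ∫ ω, G' ω ∂P := by
    intro s
    have h3 := integral_map (μ := P) (H.mp (s • e)).measurable.aemeasurable (f := G')
      (by rw [(H.mp (s • e)).map_eq]; exact hG'.aestronglyMeasurable)
    rw [(H.mp (s • e)).map_eq] at h3
    exact h3.symm
  rw [e4] at e2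
  simp_rw [e5] at e2
  rw [integral_const, hν1, one_smul, e3] at e2
  exact e2

end flow

/-! ### Higher moments of the increments -/

lemma integral_sq_pow_le {α : Type*} [MeasurableSpace α] {μ : Measure α} [IsProbabilityMeasure μ]
    {f : α → ℝ} (n : ℕ) (h2 : Integrable (fun x => f x ^ 2) μ)
    (hn : Integrable (fun x => f x ^ (2 * n)) μ) :
    (∫ x, f x ^ 2 ∂μ) ^ n ≤ ∫ x, f x ^ (2 * n) ∂μ := by
  have hc : ConvexOn ℝ (Set.Ici (0 : ℝ)) (fun x : ℝ => x ^ n) := convexOn_pow n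
  have hcont : ContinuousOn (fun x : ℝ => x ^ n) (Set.Ici (0 : ℝ)) :=
    (continuous_pow n).continuousOn
  have := hc.map_integral_le hcont isClosed_Ici
    (Eventually.of_forall fun x => (sq_nonneg (f x) : (0:ℝ) ≤ f x ^ 2)) h2
    (by
      refine hn.congr (Eventually.of_forall fun x => ?_)
      simp only [Function.comp_apply]
      rw [← pow_mul])
  refine this.trans (le_of_eq ?_)
  refine integral_congr_ae (Eventually.of_forall fun x => ?_)
  simp only
  rw [← pow_mul]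

lemma pow_le_of_even {a : ℝ} {m n : ℕ} (h : m ≤ n) : a ^ (2 * m) ≤ 1 + a ^ (2 * n) := by
  rw [pow_mul, pow_mul]
  rcases le_total (a ^ 2) 1 with h1 | h1
  · have : (a ^ 2) ^ m ≤ 1 := pow_le_one₀ (sq_nonneg a) h1
    have : 0 ≤ (a ^ 2) ^ n := by positivity
    linarith
  · have : (a ^ 2) ^ m ≤ (a ^ 2) ^ n := pow_le_pow_right₀ h1 h
    linarith

lemma integrable_even_of_le {α : Type*} [MeasurableSpace α] {μ : Measure α} [IsFiniteMeasure μ]
    {f : α → ℝ} (hm : Measurable f) {m n : ℕ} (h : m ≤ n)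
    (hn : Integrable (fun x => f x ^ (2 * n)) μ) : Integrable (fun x => f x ^ (2 * m)) μ := by
  refine ((integrable_const (1 : ℝ)).add hn).mono' (hm.pow_const _).aestronglyMeasurable
    (Eventually.of_forall fun x => ?_)
  have h0 : 0 ≤ f x ^ (2 * m) := by rw [pow_mul]; positivity
  rw [Real.norm_of_nonneg h0]
  exact pow_le_of_even h

lemma IsFlow.increment_le_pow [IsProbabilityMeasure P] (H : IsFlow P T) {F : Ω → ℝ} (n : ℕ)
    (hn : 2 ≤ n)
    (hm : Measurable F) (hF : Integrable (fun ω => F ω ^ (2 * n)) P) (hE : IsEigen P T F) (h : E) :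
    ∀ᵐ ω ∂P, (F (T h ω) - F ω) ^ (2 * n)
      ≤ Real.exp n * ((Real.exp (‖h‖ ^ 2) - 1) ^ n * avg T 1 (fun ω => F ω ^ (2 * n)) ω) := by
  have hF4 : Integrable (fun ω => F ω ^ 4) P := integrable_even_of_le (m := 2) hm hn hF
  have hF2 : MemLp F 2 P := memLp_two_of_four hm hF4
  have hE1 := hE 1
  have hE2 : ∀ᵐ ω ∂P, avg T 1 F (T h ω) = Real.exp (-(1 ^ 2) / 2) * F (T h ω) :=
    (H.mp h).quasiMeasurePreserving.ae hE1
  filter_upwards [hE1, hE2, H.ae_memLp_two 1 hm hF2, H.ae_integrable 1 hF] with ω h1 h2 h3 h4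
  set f : E → ℝ := fun x => F (T ((1 : ℝ) • x) ω) with hf
  have hmf : Measurable f :=
    hm.comp (H.meas.comp ((measurable_id.const_smul (1 : ℝ)).prodMk measurable_const))
  have i1 : Integrable f (stdGaussian E) := h3.integrable (by norm_num)
  have i2 : Integrable (fun x => f x * cm h x) (stdGaussian E) := h3.integrable_mul (memLp_cm h)
  have e1 : avg T 1 F (T h ω) = ∫ x, f x * cm h x ∂(stdGaussian E) := by
    rw [← integral_shift h f]
    refine integral_congr_ae (Filter.Eventually.of_forall fun x => ?_)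
    simp only [hf, H.add, one_smul]
  have e2 : avg T 1 F ω = ∫ x, f x ∂(stdGaussian E) := rfl
  have e3 : Real.exp (-(1 ^ 2) / 2) * (F (T h ω) - F ω)
      = ∫ x, f x * (cm h x - 1) ∂(stdGaussian E) := by
    rw [mul_sub, ← h2, ← h1, e1, e2, ← integral_sub i2 i1]
    refine integral_congr_ae (Filter.Eventually.of_forall fun x => ?_)
    simp only
    ring
  have c1 : (∫ x, f x * (cm h x - 1) ∂(stdGaussian E)) ^ 2
      ≤ (∫ x, f x ^ 2 ∂(stdGaussian E)) * (Real.exp (‖h‖ ^ 2) - 1) := by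
    rw [← integral_cm_sub_one_sq h]
    exact integral_mul_sq_le h3 (memLp_cm_sub_one h)
  have c2 : (∫ x, f x ^ 2 ∂(stdGaussian E)) ^ n ≤ ∫ x, f x ^ (2 * n) ∂(stdGaussian E) :=
    integral_sq_pow_le n h3.integrable_sq h4
  have c4 : 0 ≤ Real.exp (‖h‖ ^ 2) - 1 := by
    have := Real.add_one_le_exp (‖h‖ ^ 2)
    nlinarith [sq_nonneg ‖h‖]
  have c5 : ((∫ x, f x * (cm h x - 1) ∂(stdGaussian E)) ^ 2) ^ n
      ≤ (Real.exp (‖h‖ ^ 2) - 1) ^ n * ∫ x, f x ^ (2 * n) ∂(stdGaussian E) := by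
    calc ((∫ x, f x * (cm h x - 1) ∂(stdGaussian E)) ^ 2) ^ n
        ≤ ((∫ x, f x ^ 2 ∂(stdGaussian E)) * (Real.exp (‖h‖ ^ 2) - 1)) ^ n :=
          pow_le_pow_left₀ (sq_nonneg _) c1 n
      _ = (Real.exp (‖h‖ ^ 2) - 1) ^ n * (∫ x, f x ^ 2 ∂(stdGaussian E)) ^ n := by
          rw [mul_pow]; ring
      _ ≤ _ := mul_le_mul_of_nonneg_left c2 (pow_nonneg c4 _)
  rw [← e3] at c5
  have hexp : Real.exp (-(1 ^ 2) / 2) ^ (2 * n) * Real.exp n = 1 := by
    rw [← Real.exp_nat_mul, ← Real.exp_add]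
    have : ((2 * n : ℕ) : ℝ) * (-(1 ^ 2) / 2) + n = 0 := by push_cast; ring
    rw [this]; simp
  calc (F (T h ω) - F ω) ^ (2 * n) = Real.exp n *
        ((Real.exp (-(1 ^ 2) / 2) * (F (T h ω) - F ω)) ^ 2) ^ n := by
        have : Real.exp n * ((Real.exp (-(1 ^ 2) / 2) * (F (T h ω) - F ω)) ^ 2) ^ n
          = (Real.exp (-(1 ^ 2) / 2) ^ (2 * n) * Real.exp n) * (F (T h ω) - F ω) ^ (2 * n) := by
          rw [← pow_mul, mul_pow]; ring
        rw [this, hexp, one_mul]
    _ ≤ _ := mul_le_mul_of_nonneg_left c5 (Real.exp_pos _).le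

lemma sub_pow_even_le (x y : ℝ) (n : ℕ) :
    (x - y) ^ (2 * n) ≤ 2 ^ n * (2 ^ (n - 1) * (x ^ (2 * n) + y ^ (2 * n))) := by
  have h1 : (x - y) ^ 2 ≤ 2 * (x ^ 2 + y ^ 2) := by nlinarith [sq_nonneg (x + y)]
  calc (x - y) ^ (2 * n) = ((x - y) ^ 2) ^ n := by rw [pow_mul]
    _ ≤ (2 * (x ^ 2 + y ^ 2)) ^ n := pow_le_pow_left₀ (sq_nonneg _) h1 n
    _ = 2 ^ n * (x ^ 2 + y ^ 2) ^ n := by rw [mul_pow]
    _ ≤ 2 ^ n * (2 ^ (n - 1) * ((x ^ 2) ^ n + (y ^ 2) ^ n)) :=
      mul_le_mul_of_nonneg_left (add_pow_le (sq_nonneg x) (sq_nonneg y) n) (by positivity)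
    _ = _ := by rw [← pow_mul, ← pow_mul]

lemma IsFlow.integrable_increment_pow [IsProbabilityMeasure P] (H : IsFlow P T) {F : Ω → ℝ}
    (n : ℕ) (hm : Measurable F) (hF : Integrable (fun ω => F ω ^ (2 * n)) P) (h : E) :
    Integrable (fun ω => (F (T h ω) - F ω) ^ (2 * n)) P := by
  have i1 : Integrable (fun ω => F (T h ω) ^ (2 * n)) P :=
    (H.mp h).integrable_comp_of_integrable hF
  refine (((i1.add hF).const_mul ((2 : ℝ) ^ (n - 1))).const_mul ((2 : ℝ) ^ n)).mono'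
    (((hm.comp (H.mp h).measurable).sub hm).pow_const _).aestronglyMeasurable
    (Filter.Eventually.of_forall fun ω => ?_)
  have h0 : 0 ≤ (F (T h ω) - F ω) ^ (2 * n) := by rw [pow_mul]; positivity
  rw [Real.norm_of_nonneg h0]
  exact sub_pow_even_le _ _ n

lemma IsFlow.integral_increment_pow_le [IsProbabilityMeasure P] (H : IsFlow P T) {F : Ω → ℝ}
    (n : ℕ) (hn : 2 ≤ n)
    (hm : Measurable F) (hF : Integrable (fun ω => F ω ^ (2 * n)) P) (hE : IsEigen P T F) (h : E)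
    (hh : ‖h‖ ≤ 1) :
    ∫ ω, (F (T h ω) - F ω) ^ (2 * n) ∂P
      ≤ Real.exp n * (2 ^ n * ‖h‖ ^ (2 * n)) * ∫ ω, F ω ^ (2 * n) ∂P := by
  have hT0 : 0 ≤ ∫ ω, F ω ^ (2 * n) ∂P := integral_nonneg fun ω => by
    simp only [Pi.zero_apply]; rw [pow_mul]; positivity
  have i1 := H.avg_integrable 1 hF
  have hu : Real.exp (‖h‖ ^ 2) - 1 ≤ 2 * ‖h‖ ^ 2 := by
    have hb := Real.abs_exp_sub_one_le (x := ‖h‖ ^ 2) (by
      rw [abs_of_nonneg (sq_nonneg _)]; nlinarith [norm_nonneg h])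
    rw [abs_of_nonneg (sq_nonneg ‖h‖)] at hb
    exact (le_abs_self _).trans hb
  have c4 : 0 ≤ Real.exp (‖h‖ ^ 2) - 1 := by
    have := Real.add_one_le_exp (‖h‖ ^ 2)
    nlinarith [sq_nonneg ‖h‖]
  calc ∫ ω, (F (T h ω) - F ω) ^ (2 * n) ∂P
      ≤ ∫ ω, Real.exp n * ((Real.exp (‖h‖ ^ 2) - 1) ^ n
          * avg T 1 (fun ω => F ω ^ (2 * n)) ω) ∂P :=
        integral_mono_ae (H.integrable_increment_pow n hm hF h) ((i1.const_mul _).const_mul _)
          (H.increment_le_pow n hn hm hF hE h)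
    _ = Real.exp n * ((Real.exp (‖h‖ ^ 2) - 1) ^ n * ∫ ω, F ω ^ (2 * n) ∂P) := by
        rw [integral_const_mul, integral_const_mul, H.integral_avg 1 hF]
    _ ≤ Real.exp n * ((2 * ‖h‖ ^ 2) ^ n * ∫ ω, F ω ^ (2 * n) ∂P) := by
        gcongr
    _ = _ := by rw [mul_pow, ← pow_mul]; ring

/-- the derivative of an eigenfunction has the same moments. -/
lemma IsFlow.integrable_deriv_pow [IsProbabilityMeasure P] (H : IsFlow P T) {F F' : Ω → ℝ} {e : E}
    (n : ℕ) (hn : 2 ≤ n) (he : ‖e‖ ≤ 1)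
    (hm : Measurable F) (hm' : Measurable F')
    (hF : Integrable (fun ω => F ω ^ (2 * n)) P) (hE : IsEigen P T F)
    (hD : IsD T e F F') : Integrable (fun ω => F' ω ^ (2 * n)) P := by
  set I := ∫ ω, F ω ^ (2 * n) ∂P with hI
  set C := Real.exp n * 2 ^ n * I with hC
  -- difference quotients
  set q : ℕ → Ω → ℝ := fun k ω => ((k : ℝ) + 1) *
    (F (T ((1 / ((k : ℝ) + 1)) • e) ω) - F ω) with hq
  have hqm : ∀ k, Measurable (q k) := fun k =>
    (((hm.comp (H.mp _).measurable).sub hm).const_mul _)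
  have hqlim : ∀ ω, Tendsto (fun k => q k ω) atTop (𝓝 (F' ω)) := by
    intro ω
    have h1 := (hD ω).tendsto_slope_zero
    have h2 : Tendsto (fun k : ℕ => 1 / ((k : ℝ) + 1)) atTop (𝓝[≠] 0) := by
      rw [tendsto_nhdsWithin_iff]
      refine ⟨tendsto_one_div_add_atTop_nhds_zero_nat, Eventually.of_forall fun k => ?_⟩
      have : (0 : ℝ) < 1 / ((k : ℝ) + 1) := by positivity
      exact this.ne'
    have h3 := h1.comp h2
    refine h3.congr fun k => ?_
    simp only [Function.comp_apply, hq, zero_add, zero_smul, H.zero, smul_eq_mul, one_div,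
      inv_inv]
  have hqint : ∀ k, ∫⁻ ω, ENNReal.ofReal (q k ω ^ (2 * n)) ∂P ≤ ENNReal.ofReal C := by
    intro k
    have hk : (0 : ℝ) < (k : ℝ) + 1 := by positivity
    set t : ℝ := 1 / ((k : ℝ) + 1) with ht
    have ht0 : 0 < t := by positivity
    have htk : ((k : ℝ) + 1) * t = 1 := by rw [ht]; field_simp
    have ht1 : t ≤ 1 := by
      rw [ht, div_le_one hk]; linarith [(Nat.cast_nonneg k : (0:ℝ) ≤ k)]
    have hnorm : ‖t • e‖ ≤ t := by
      rw [norm_smul, Real.norm_of_nonneg ht0.le]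
      exact mul_le_of_le_one_right ht0.le he
    have hb := H.integral_increment_pow_le n hn hm hF hE (t • e) (hnorm.trans ht1)
    have hqi : Integrable (fun ω => q k ω ^ (2 * n)) P := by
      have := (H.integrable_increment_pow n hm hF (t • e)).const_mul (((k : ℝ) + 1) ^ (2 * n))
      refine this.congr (Eventually.of_forall fun ω => ?_)
      simp only [hq, mul_pow]
      rfl
    rw [← ofReal_integral_eq_lintegral_ofReal hqi
      (Eventually.of_forall fun ω => by simp only [Pi.zero_apply]; rw [pow_mul]; positivity)]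
    apply ENNReal.ofReal_le_ofReal
    have e1 : ∫ ω, q k ω ^ (2 * n) ∂P
        = ((k : ℝ) + 1) ^ (2 * n) * ∫ ω, (F (T (t • e) ω) - F ω) ^ (2 * n) ∂P := by
      rw [← integral_const_mul]
      refine integral_congr_ae (Eventually.of_forall fun ω => ?_)
      simp only [hq, mul_pow]
      rfl
    rw [e1]
    have hI0 : 0 ≤ I := integral_nonneg fun ω => by
      simp only [Pi.zero_apply]; rw [pow_mul]; positivity
    have h5 : ‖t • e‖ ^ (2 * n) ≤ t ^ (2 * n) := pow_le_pow_left₀ (norm_nonneg _) hnorm _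
    calc ((k : ℝ) + 1) ^ (2 * n) * ∫ ω, (F (T (t • e) ω) - F ω) ^ (2 * n) ∂P
        ≤ ((k : ℝ) + 1) ^ (2 * n) * (Real.exp n * (2 ^ n * ‖t • e‖ ^ (2 * n)) * I) :=
          mul_le_mul_of_nonneg_left hb (by positivity)
      _ ≤ ((k : ℝ) + 1) ^ (2 * n) * (Real.exp n * (2 ^ n * t ^ (2 * n)) * I) := by
          gcongr
      _ = (((k : ℝ) + 1) * t) ^ (2 * n) * C := by rw [mul_pow, hC]; ring
      _ = C := by rw [htk, one_pow, one_mul]
  refine ⟨(hm'.pow_const _).aestronglyMeasurable, ?_⟩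
  rw [hasFiniteIntegral_iff_ofReal (Eventually.of_forall fun ω => by
    simp only [Pi.zero_apply]; rw [pow_mul]; positivity)]
  have hlim : ∀ ω, ENNReal.ofReal (F' ω ^ (2 * n))
      = liminf (fun k => ENNReal.ofReal (q k ω ^ (2 * n))) atTop := by
    intro ω
    refine (Tendsto.liminf_eq ?_).symm
    exact (ENNReal.continuous_ofReal.tendsto _).comp ((hqlim ω).pow _)
  calc ∫⁻ ω, ENNReal.ofReal (F' ω ^ (2 * n)) ∂P
      = ∫⁻ ω, liminf (fun k => ENNReal.ofReal (q k ω ^ (2 * n))) atTop ∂P := by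
        simp_rw [hlim]
    _ ≤ liminf (fun k => ∫⁻ ω, ENNReal.ofReal (q k ω ^ (2 * n)) ∂P) atTop :=
        lintegral_liminf_le (fun k => ((hqm k).pow_const _).ennreal_ofReal)
    _ ≤ ENNReal.ofReal C := by
        refine liminf_le_of_le (by isBoundedDefault) fun b hb => ?_
        obtain ⟨k, hk⟩ := hb.exists
        exact hk.trans (hqint k)
    _ < ⊤ := ENNReal.ofReal_lt_top

end Berry67
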