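import Pool.Agent.Lib_helper67.Berry.Curv
import Pool.Agent.Lib_helper67.Berry.Alg

/-!
The even moment inequality for eigenfunctions of a second order operator, given the Green
identities.
-/

namespace Berry67

set_option linter.unusedSectionVars false

open InnerProductSpace Filter Topology MeasureTheory
open scoped ContDiff

variable {E : Type*} [NormedAddCommGroup E] [InnerProductSpace ℝ E] [FiniteDimensional ℝ E]
variable {ι : Type*} [Fintype ι]

/-! ### chain rules -/

lemma D_of_line {F : E → ℝ} (hF : ContDiff ℝ ∞ F) {v x : E} {d : ℝ}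
    (h : HasDerivAt (fun t : ℝ => F (x + t • v)) d 0) : D v F x = d := by
  have h1 := hasDerivAt_line hF x v 0
  simp only [zero_smul, add_zero] at h1
  exact h1.unique h

lemma contDiff_poly {f s : E → ℝ} (hf : ContDiff ℝ ∞ f) (hs : ContDiff ℝ ∞ s) (n : ℕ) :
    ContDiff ℝ ∞ (fun x => gP n (f x) (s x)) ∧ ContDiff ℝ ∞ (fun x => eP n (f x) (s x)) ∧
    ContDiff ℝ ∞ (fun x => aP n (f x) (s x)) ∧ ContDiff ℝ ∞ (fun x => cP n (f x) (s x)) := by
  induction n with
  | zero => simp only [gP, eP, aP, cP]; exact ⟨contDiff_const, contDiff_const, contDiff_const,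
      contDiff_const⟩
  | succ n ih =>
    obtain ⟨h1, h2, h3, h4⟩ := ih
    simp only [gP, eP, aP, cP]
    exact ⟨(hs.mul h1).add (contDiff_const.mul (hf.pow _)), (hs.mul h2).sub (contDiff_const.mul h1),
      (hs.mul h3).sub (contDiff_const.mul (hf.pow _)), (hs.mul h4).add h2⟩

lemma D_aP {f s : E → ℝ} (hf : ContDiff ℝ ∞ f) (hs : ContDiff ℝ ∞ s) (n : ℕ) (v x : E) :
    D v (fun x => aP n (f x) (s x)) x
      = aF n (f x) (s x) * D v f x + aS n (f x) (s x) * D v s x := by
  refine D_of_line (contDiff_poly hf hs n).2.2.1 ?_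
  have h1 := hasDerivAt_line hf x v 0
  have h2 := hasDerivAt_line hs x v 0
  have := hasDerivAt_aP n h1 h2
  simp only [zero_smul, add_zero] at this
  exact this

lemma D_cP {f s : E → ℝ} (hf : ContDiff ℝ ∞ f) (hs : ContDiff ℝ ∞ s) (n : ℕ) (v x : E) :
    D v (fun x => cP n (f x) (s x)) x
      = cF n (f x) (s x) * D v f x + cS n (f x) (s x) * D v s x := by
  refine D_of_line (contDiff_poly hf hs n).2.2.2 ?_
  have h1 := hasDerivAt_line hf x v 0
  have h2 := hasDerivAt_line hs x v 0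
  have := hasDerivAt_cP n h1 h2
  simp only [zero_smul, add_zero] at this
  exact this

namespace Coef

variable (c : Coef E ι)

lemma G_of_D {F f s u : E → ℝ} {p q : ℝ} {x : E}
    (h : ∀ v, D v F x = p * D v f x + q * D v s x) :
    c.G F u x = p * c.G f u x + q * c.G s u x := by
  unfold G
  simp only [h, Finset.mul_sum]
  rw [← Finset.sum_add_distrib]
  refine Finset.sum_congr rfl fun i _ => ?_
  rw [← Finset.sum_add_distrib]
  refine Finset.sum_congr rfl fun j _ => ?_
  ring

/-- energy density at frequency `lam` -/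
noncomputable def En (lam : ℝ) (f : E → ℝ) : E → ℝ := fun x => f x * f x + lam⁻¹ * c.G f f x

/-- second multiplier -/
noncomputable def bP (n : ℕ) (f s : E → ℝ) : E → ℝ := fun x =>
  cP n (f x) (s x) * (s x - f x * f x)

/-- the integrand of the Green identities -/
noncomputable def Zf (n : ℕ) (lam : ℝ) (f : E → ℝ) : E → ℝ := fun x =>
  (aP n (f x) (c.En lam f x) * c.Lo f x + c.G (fun x => aP n (f x) (c.En lam f x)) f x)
  + (bP n f (c.En lam f) x * c.Lo (c.En lam f) x + c.G (bP n f (c.En lam f)) (c.En lam f) x)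

variable {lam : ℝ} {f : E → ℝ}

lemma smooth_En (hf : ContDiff ℝ ∞ f) : ContDiff ℝ ∞ (c.En lam f) := by
  unfold En
  exact (hf.mul hf).add (contDiff_const.mul (c.smooth_G hf hf))

/-- **Pointwise inequality.** -/
theorem Zf_le {x : E} {K : ℝ} (hpos : ∀ f : E → ℝ, 0 ≤ c.G f f x)
    (hCD : ∀ f : E → ℝ, ContDiff ℝ ∞ f → 0 ≤ c.G2 f f x + K * c.G f f x)
    (hf : ContDiff ℝ ∞ f) (hlam : 0 < lam) (hL : c.Lo f = fun x => -lam * f x) (n : ℕ) :
    c.Zf n lam f x ≤ lam * (f x ^ (2 * n) / cm2 n - c.En lam f x ^ n)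
      + 2 * K * (-cP n (f x) (c.En lam f x)) * (c.En lam f x - f x ^ 2) ^ 2 := by
  set s := c.En lam f with hs
  have ss : ContDiff ℝ ∞ s := c.smooth_En hf
  have sff := c.smooth_G hf hf
  have hs0 : 0 ≤ s x := by
    rw [hs]; unfold En
    exact add_nonneg (mul_self_nonneg _) (mul_nonneg (inv_nonneg.2 hlam.le) (hpos f))
  -- values
  have hG : c.G f f x = lam * (s x - f x ^ 2) := by
    rw [hs]; unfold En
    field_simp
    ring
  have hY0 : 0 ≤ s x - f x ^ 2 := by
    have h1 := hpos f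
    rw [hG] at h1
    exact nonneg_of_mul_nonneg_right h1 hlam
  have hLs : c.Lo s x = -2 * lam * f x ^ 2 + 2 / lam * c.G2 f f x := by
    have e1 : c.Lo s = fun x => (f x * c.Lo f x + f x * c.Lo f x + 2 * c.G f f x)
        + lam⁻¹ * c.Lo (c.G f f) x := by
      rw [hs]; unfold En
      rw [c.Lo_add (hf.mul hf) (contDiff_const.mul sff), c.Lo_mul hf hf, c.Lo_const_mul sff]
    have e2 : c.Lo (c.G f f) x = 2 * c.G2 f f x - 2 * lam * c.G f f x := by
      unfold G2
      rw [hL, c.G_const_mul_right f hf]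
      ring
    rw [e1]
    simp only [e2, hL]
    field_simp
    ring
  -- the gradient of `Γ(f, f)`
  have hgg : c.G (c.G f f) (c.G f f) x
      = lam ^ 2 * (c.G s s x - 4 * f x * c.G f s x + 4 * f x ^ 2 * c.G f f x) := by
    have e1 : c.G f f = fun x => lam * s x + (-lam) * (f x * f x) := by
      funext y
      rw [hs]; unfold En
      field_simp
      ring
    have hD : ∀ v, D v (c.G f f) x = lam * D v s x + (-(2 * lam * f x)) * D v f x := by
      intro v
      rw [e1, D_add (contDiff_const.mul ss) (contDiff_const.mul (hf.mul hf)), D_const_mul ss,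
        D_const_mul (hf.mul hf), D_mul hf hf]
      ring
    have e2 : ∀ u, c.G (c.G f f) u x = lam * c.G s u x + (-(2 * lam * f x)) * c.G f u x :=
      fun u => c.G_of_D hD
    have e3 : ∀ w, c.G w (c.G f f) x = lam * c.G w s x + (-(2 * lam * f x)) * c.G w f x := by
      intro w
      rw [c.G_symm w, e2, c.G_symm w s, c.G_symm w f]
    rw [e2, e3, e3, c.G_symm s f]
    ring
  have hbak := c.bakry hpos hCD hf
  rw [hgg] at hbak
  -- chain rules
  have ha : c.G (fun x => aP n (f x) (s x)) f x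
      = aF n (f x) (s x) * c.G f f x + aS n (f x) (s x) * c.G f s x := by
    rw [c.G_of_D (fun v => D_aP hf ss n v x), c.G_symm s f]
  have hc : ∀ u, c.G (fun x => cP n (f x) (s x)) u x
      = cF n (f x) (s x) * c.G f u x + cS n (f x) (s x) * c.G s u x := fun u =>
    c.G_of_D (fun v => D_cP hf ss n v x)
  have hb : c.G (bP n f s) s x = (s x - f x ^ 2) * (cF n (f x) (s x) * c.G f s x
      + cS n (f x) (s x) * c.G s s x)
      + cP n (f x) (s x) * (c.G s s x - 2 * f x * c.G f s x) := by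
    unfold bP
    have scp := (contDiff_poly hf ss n).2.2.2
    rw [c.G_mul_left s scp (ss.sub (hf.mul hf))]
    have e1 : c.G (fun x => s x - f x * f x) s x = c.G s s x - 2 * f x * c.G f s x := by
      have hD : ∀ v, D v (fun x => s x - f x * f x) x
          = 1 * D v s x + (-(2 * f x)) * D v f x := by
        intro v
        rw [D_sub ss (hf.mul hf), D_mul hf hf]
        ring
      rw [c.G_of_D hD]
      ring
    simp only [e1, hc]
    ring
  have i1 := a_ident n (f x) (s x)
  have i2 := c_ident n (f x) (s x)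
  have hcn := cP_nonpos n (f x) hs0
  have hsn := cS_nonpos n (f x) hs0
  have hGs := hpos s
  set F := f x
  set S := s x
  set c0 := cP n F S
  set Q2 := c.G2 f f x
  set g1 := c.G f s x
  set g2 := c.G s s x
  have hZ : c.Zf n lam f x = aP n F S * (-lam * F) + (aF n F S * c.G f f x + aS n F S * g1)
      + (c0 * (S - F * F) * (-2 * lam * F ^ 2 + 2 / lam * Q2)
        + ((S - F ^ 2) * (cF n F S * g1 + cS n F S * g2) + c0 * (g2 - 2 * F * g1))) := by
    unfold Zf
    rw [← hs, ha, hb, hLs, hL]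
    rfl
  rw [hZ, hG]
  rw [hG] at hbak
  set Y := S - F ^ 2 with hY
  have hYF : S - F * F = Y := by rw [hY]; ring
  rw [hYF]
  -- multiply the Bakry inequality by `-c0 / (2 λ²)`
  have h1 : (-c0) * ((g2 - 4 * F * g1 + 4 * F ^ 2 * (lam * Y)) / 2)
      ≤ (-c0) * (2 / lam * (Y * Q2) + 2 * K * Y ^ 2) := by
    apply mul_le_mul_of_nonneg_left _ (by linarith)
    have hl2 : 0 < 2 * lam ^ 2 := by positivity
    have h3 : 2 * lam ^ 2 * ((g2 - 4 * F * g1 + 4 * F ^ 2 * (lam * Y)) / 2)
        ≤ 2 * lam ^ 2 * (2 / lam * (Y * Q2) + 2 * K * Y ^ 2) := by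
      have e1 : 2 * lam ^ 2 * (2 / lam * (Y * Q2) + 2 * K * Y ^ 2)
          = 4 * (lam * Y) * (Q2 + K * (lam * Y)) := by
        field_simp
        ring
      rw [e1]
      linarith
    exact le_of_mul_le_mul_left h3 hl2
  have h2 : 0 ≤ (-c0 * (3 / 2) - cS n F S * Y) * g2 := by
    apply mul_nonneg _ hGs
    have : 0 ≤ -(cS n F S * Y) := by
      rw [← neg_mul]; exact mul_nonneg (by linarith) hY0
    linarith
  have h3 : lam * (F ^ (2 * n) / cm2 n - S ^ n) = lam * (Y * aF n F S - F * aP n F S) := by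
    rw [i1]
  rw [h3]
  have h4 : aS n F S = 4 * F * c0 - Y * cF n F S := i2.symm
  rw [h4]
  have e1 : c0 * Y * (-2 * lam * F ^ 2 + 2 / lam * Q2)
      = -2 * lam * F ^ 2 * c0 * Y + c0 * (2 / lam * (Y * Q2)) := by ring
  rw [e1]
  nlinarith [h1, h2]

/-! ### integration -/

lemma bernoulli_tangent (n : ℕ) {a t : ℝ} (ha : 0 ≤ a) (ht : 0 ≤ t) :
    0 ≤ a ^ (n + 1) - t ^ (n + 1) - (n + 1) * t ^ n * (a - t) := by
  induction n with
  | zero => simp
  | succ n ih =>
    have e : a ^ (n + 1 + 1) - t ^ (n + 1 + 1) - ((n + 1 : ℕ) + 1) * t ^ (n + 1) * (a - t)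
        = a * (a ^ (n + 1) - t ^ (n + 1) - (n + 1) * t ^ n * (a - t))
          + (n + 1) * t ^ n * (a - t) ^ 2 := by
      push_cast
      ring
    rw [e]
    have : 0 ≤ t ^ n := pow_nonneg ht n
    positivity

/-- Jensen for a weight -/
lemma jensen_weight {α : Type*} [MeasurableSpace α] {μ : Measure α} {w S : α → ℝ} (n : ℕ)
    (hw : ∀ x, 0 ≤ w x) (hS : ∀ x, 0 < w x → 0 ≤ S x) (i0 : Integrable w μ)
    (i1 : Integrable (fun x => w x * S x) μ)
    (i2 : Integrable (fun x => w x * S x ^ (n + 1)) μ) :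
    (∫ x, w x * S x ∂μ) ^ (n + 1) ≤ (∫ x, w x ∂μ) ^ n * ∫ x, w x * S x ^ (n + 1) ∂μ := by
  set V := ∫ x, w x ∂μ with hV
  set I := ∫ x, w x * S x ∂μ with hI
  have hV0 : 0 ≤ V := integral_nonneg hw
  have hwS : ∀ x, 0 ≤ w x * S x := by
    intro x
    rcases (hw x).eq_or_lt with h | h
    · rw [← h]; simp
    · exact mul_nonneg h.le (hS x h)
  have hI0 : 0 ≤ I := integral_nonneg hwS
  rcases hV0.eq_or_lt with hV00 | hVpos
  · -- total mass zero
    have h1 : w =ᵐ[μ] 0 := (integral_eq_zero_iff_of_nonneg hw i0).1 hV00.symm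
    have h2 : I = 0 := by
      rw [hI]
      have : (fun x => w x * S x) =ᵐ[μ] fun _ => 0 := by
        filter_upwards [h1] with x hx
        rw [hx]; simp
      rw [integral_congr_ae this]; simp
    have h3 : ∫ x, w x * S x ^ (n + 1) ∂μ = 0 := by
      have : (fun x => w x * S x ^ (n + 1)) =ᵐ[μ] fun _ => 0 := by
        filter_upwards [h1] with x hx
        rw [hx]; simp
      rw [integral_congr_ae this]; simp
    rw [h2, h3]; simp
  · set t := I / V with ht
    have ht0 : 0 ≤ t := div_nonneg hI0 hVpos.le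
    have hpt : ∀ x, w x * (t ^ (n + 1) + (n + 1) * t ^ n * (S x - t)) ≤ w x * S x ^ (n + 1) := by
      intro x
      rcases (hw x).eq_or_lt with h | h
      · rw [← h]; simp
      · apply mul_le_mul_of_nonneg_left _ h.le
        have := bernoulli_tangent n (hS x h) ht0
        linarith
    have e1 : (fun x => w x * (t ^ (n + 1) + (n + 1) * t ^ n * (S x - t)))
        = fun x => (t ^ (n + 1) - (n + 1) * t ^ n * t) * w x + ((n + 1) * t ^ n) * (w x * S x) := by
      funext x; ring
    have i3 : Integrable (fun x => w x * (t ^ (n + 1) + (n + 1) * t ^ n * (S x - t))) μ := by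
      rw [e1]; exact (i0.const_mul _).add (i1.const_mul _)
    have h4 := integral_mono i3 i2 hpt
    rw [e1, integral_add (i0.const_mul _) (i1.const_mul _), integral_const_mul,
      integral_const_mul, ← hV, ← hI] at h4
    have hIt : I = t * V := by rw [ht]; field_simp
    have h5 : t ^ (n + 1) * V ≤ ∫ x, w x * S x ^ (n + 1) ∂μ := by
      refine le_trans (le_of_eq ?_) h4
      rw [hIt]; ring
    calc I ^ (n + 1) = V ^ n * (t ^ (n + 1) * V) := by rw [hIt]; ring
      _ ≤ _ := mul_le_mul_of_nonneg_left h5 (pow_nonneg hV0 n)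

lemma cP_bound (n : ℕ) : ∃ C : ℝ, 0 ≤ C ∧ ∀ F S : ℝ, F ^ 2 ≤ S →
    -cP n F S * (S - F ^ 2) ^ 2 ≤ C * S ^ n := by
  obtain ⟨C, hC, h⟩ := size_bound n
  refine ⟨C, hC, fun F S hFS => ?_⟩
  have hS : 0 ≤ S := (sq_nonneg F).trans hFS
  have hR := Real.sq_sqrt hS
  have hF : |F| ≤ Real.sqrt S := Real.abs_le_sqrt hFS
  have h1 := (h F S (Real.sqrt S) (Real.sqrt_nonneg S) hF (by rw [hR, abs_of_nonneg hS])).2.2.2.2.2.2.2.2.2.1
  have h2 : Real.sqrt S ^ 4 = S ^ 2 := by
    rw [show (4 : ℕ) = 2 * 2 from rfl, pow_mul, hR]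
  rw [h2, pow_mul, hR] at h1
  have h3 := cP_nonpos n F hS
  rw [abs_of_nonpos h3] at h1
  have h4 : (S - F ^ 2) ^ 2 ≤ S ^ 2 := by
    apply pow_le_pow_left₀ (by linarith)
    linarith [sq_nonneg F]
  exact (mul_le_mul_of_nonneg_left h4 (by linarith)).trans h1

variable [MeasurableSpace E] [BorelSpace E]

/-- **Even moments of an eigenfunction, from the Green identities.** -/
theorem moments_of_green {n : ℕ} {C K : ℝ} (hC : 0 ≤ C) (hK : 0 ≤ K)
    (hCb : ∀ F S : ℝ, F ^ 2 ≤ S → -cP (n + 1) F S * (S - F ^ 2) ^ 2 ≤ C * S ^ (n + 1))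
    {w : E → ℝ} (hwc : Continuous w) (hws : HasCompactSupport w) (hw : ∀ x, 0 ≤ w x)
    (hpos : ∀ x, ∀ f : E → ℝ, 0 ≤ c.G f f x)
    (hCD : ∀ x, 0 < w x → ∀ f : E → ℝ, ContDiff ℝ ∞ f → 0 ≤ c.G2 f f x + K * c.G f f x)
    (hf : ContDiff ℝ ∞ f) (hlam : 0 < lam) (hL : c.Lo f = fun x => -lam * f x)
    (hG1 : ∫ x, w x * (f x * c.Lo f x + c.G f f x) = 0)
    (hG2 : ∫ x, w x * c.Zf (n + 1) lam f x = 0) :
    cm2 (n + 1) * (1 - 2 * K * C / lam) * (2 * ∫ x, w x * f x ^ 2) ^ (n + 1)
      ≤ (∫ x, w x) ^ n * ∫ x, w x * f x ^ (2 * (n + 1)) := by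
  set s := c.En lam f with hs
  have ss : ContDiff ℝ ∞ s := c.smooth_En hf
  have hcm := cm2_pos (n + 1)
  have hFS : ∀ x, f x ^ 2 ≤ s x := by
    intro x
    rw [hs]; unfold En
    have := mul_nonneg (inv_nonneg.2 hlam.le) (hpos x f)
    nlinarith
  have hs0 : ∀ x, 0 ≤ s x := fun x => (sq_nonneg _).trans (hFS x)
  have integ : ∀ {g : E → ℝ}, Continuous g → Integrable (fun x => w x * g x) := fun {g} hg =>
    (hwc.mul hg).integrable_of_hasCompactSupport hws.mul_right
  have cf := hf.continuous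
  have cs := ss.continuous
  have i0 : Integrable w := hwc.integrable_of_hasCompactSupport hws
  have iS : Integrable (fun x => w x * s x) := integ cs
  have iSn : Integrable (fun x => w x * s x ^ (n + 1)) := integ (cs.pow _)
  have iF2 : Integrable (fun x => w x * f x ^ 2) := integ (cf.pow _)
  have iFn : Integrable (fun x => w x * f x ^ (2 * (n + 1))) := integ (cf.pow _)
  have cG : Continuous (c.G f f) := (c.smooth_G hf hf).continuous
  -- mean of the energy
  have hmean : ∫ x, w x * s x = 2 * ∫ x, w x * f x ^ 2 := by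
    have e1 : (fun x => w x * (f x * c.Lo f x + c.G f f x))
        = fun x => lam * (w x * s x) - (2 * lam) * (w x * f x ^ 2) := by
      funext x
      rw [hL, hs]; unfold En
      field_simp
      ring
    rw [e1, integral_sub (iS.const_mul _) (iF2.const_mul _), integral_const_mul,
      integral_const_mul] at hG1
    have h1 : lam * ((∫ x, w x * s x) - 2 * ∫ x, w x * f x ^ 2) = 0 := by linarith
    rcases mul_eq_zero.1 h1 with h | h
    · exact absurd h hlam.ne'
    · linarith
  -- main inequality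
  have hmain : (1 - 2 * K * C / lam) * ∫ x, w x * s x ^ (n + 1)
      ≤ (∫ x, w x * f x ^ (2 * (n + 1))) / cm2 (n + 1) := by
    have hpt : ∀ x, w x * c.Zf (n + 1) lam f x
        ≤ (lam / cm2 (n + 1)) * (w x * f x ^ (2 * (n + 1)))
          + (2 * K * C - lam) * (w x * s x ^ (n + 1)) := by
      intro x
      rcases (hw x).eq_or_lt with h | h
      · rw [← h]; simp
      · have h1 := c.Zf_le (hpos x) (hCD x h) hf hlam hL (n + 1)
        have h2 := hCb (f x) (s x) (hFS x)
        have h3 : 2 * K * (-cP (n + 1) (f x) (s x)) * (s x - f x ^ 2) ^ 2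
            ≤ 2 * K * (C * s x ^ (n + 1)) := by
          rw [mul_assoc (2 * K)]
          exact mul_le_mul_of_nonneg_left h2 (by positivity)
        have h4 : c.Zf (n + 1) lam f x ≤ lam * (f x ^ (2 * (n + 1)) / cm2 (n + 1) - s x ^ (n + 1))
            + 2 * K * (C * s x ^ (n + 1)) := h1.trans (by linarith)
        refine (mul_le_mul_of_nonneg_left h4 h.le).trans (le_of_eq ?_)
        ring
    have scp := contDiff_poly hf ss (n + 1)
    have sb : ContDiff ℝ ∞ (bP (n + 1) f s) := by
      unfold bP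
      exact scp.2.2.2.mul (ss.sub (hf.mul hf))
    have cZ : Continuous (c.Zf (n + 1) lam f) := by
      unfold Zf
      rw [← hs]
      have h1 := (c.smooth_Lo hf).continuous
      have h2 := (c.smooth_G scp.2.2.1 hf).continuous
      have h3 := (c.smooth_Lo ss).continuous
      have h4 := (c.smooth_G sb ss).continuous
      exact ((scp.2.2.1.continuous.mul h1).add h2).add ((sb.continuous.mul h3).add h4)
    have h5 := integral_mono (integ cZ) ((iFn.const_mul _).add (iSn.const_mul _)) hpt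
    simp only [Pi.add_apply] at h5
    rw [hG2, integral_add (iFn.const_mul _) (iSn.const_mul _), integral_const_mul,
      integral_const_mul] at h5
    rw [le_div_iff₀ hcm]
    have h6 : 0 ≤ (∫ x, w x * f x ^ (2 * (n + 1)))
        - (1 - 2 * K * C / lam) * (∫ x, w x * s x ^ (n + 1)) * cm2 (n + 1) := by
      have h7 : 0 ≤ (cm2 (n + 1) / lam) * (lam / cm2 (n + 1) * (∫ x, w x * f x ^ (2 * (n + 1)))
          + (2 * K * C - lam) * ∫ x, w x * s x ^ (n + 1)) := by
        apply mul_nonneg (by positivity) h5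
      refine h7.trans (le_of_eq ?_)
      field_simp
      ring
    linarith
  -- Jensen
  have hjen := jensen_weight n hw (fun x _ => hs0 x) i0 iS iSn
  rw [hmean] at hjen
  have hV0 : 0 ≤ (∫ x, w x) ^ n := pow_nonneg (integral_nonneg hw) n
  have hI0 : 0 ≤ ∫ x, w x * f x ^ (2 * (n + 1)) := integral_nonneg fun x => by
    have : 0 ≤ f x ^ (2 * (n + 1)) := by rw [pow_mul]; positivity
    exact mul_nonneg (hw x) this
  rcases le_total (1 - 2 * K * C / lam) 0 with hneg | hpos'
  · have h1 : cm2 (n + 1) * (1 - 2 * K * C / lam) * (2 * ∫ x, w x * f x ^ 2) ^ (n + 1) ≤ 0 := by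
      have h2 : 0 ≤ (2 * ∫ x, w x * f x ^ 2) ^ (n + 1) := by
        have : 0 ≤ ∫ x, w x * f x ^ 2 := integral_nonneg fun x => mul_nonneg (hw x) (sq_nonneg _)
        positivity
      exact mul_nonpos_of_nonpos_of_nonneg (mul_nonpos_of_nonneg_of_nonpos hcm.le hneg) h2
    exact h1.trans (mul_nonneg hV0 hI0)
  · calc cm2 (n + 1) * (1 - 2 * K * C / lam) * (2 * ∫ x, w x * f x ^ 2) ^ (n + 1)
        ≤ cm2 (n + 1) * (1 - 2 * K * C / lam)
          * ((∫ x, w x) ^ n * ∫ x, w x * s x ^ (n + 1)) :=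
          mul_le_mul_of_nonneg_left hjen (mul_nonneg hcm.le hpos')
      _ = (∫ x, w x) ^ n * cm2 (n + 1)
          * ((1 - 2 * K * C / lam) * ∫ x, w x * s x ^ (n + 1)) := by ring
      _ ≤ (∫ x, w x) ^ n * cm2 (n + 1) * ((∫ x, w x * f x ^ (2 * (n + 1))) / cm2 (n + 1)) :=
          mul_le_mul_of_nonneg_left hmain (mul_nonneg hV0 hcm.le)
      _ = _ := by field_simp

end Coef

end Berry67
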