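import Pool.Agent.Lib_helper67.Berry.Helm

/-!
Gaussian averages of a bounded weak solution of the Helmholtz equation.
-/

namespace Berry67

set_option linter.unusedSectionVars false

open MeasureTheory ProbabilityTheory Filter Topology
open scoped RealInnerProductSpace

variable {E : Type*} [NormedAddCommGroup E] [InnerProductSpace ℝ E] [FiniteDimensional ℝ E]
  [MeasurableSpace E] [BorelSpace E]

/-- derivative of `b ↦ ∫ C e^{-b‖x‖²}` -/
lemma hasDerivAt_gauss {C : E → ℝ} (hm : Measurable C) {K : ℝ} (hK : ∀ x, |C x| ≤ K)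
    {b : ℝ} (hb : 0 < b) :
    HasDerivAt (fun b => ∫ x : E, C x * Real.exp (-b * ‖x‖ ^ 2))
      (∫ x : E, C x * (-‖x‖ ^ 2 * Real.exp (-b * ‖x‖ ^ 2))) b := by
  have hK0 : 0 ≤ K := (abs_nonneg _).trans (hK 0)
  refine (hasDerivAt_integral_of_dominated_loc_of_deriv_le (μ := volume)
    (F := fun b (x : E) => C x * Real.exp (-b * ‖x‖ ^ 2))
    (F' := fun b (x : E) => C x * (-‖x‖ ^ 2 * Real.exp (-b * ‖x‖ ^ 2)))
    (s := Set.Ioi (b / 2)) (bound := fun x => K * (‖x‖ ^ 2 * Real.exp (-(b / 2) * ‖x‖ ^ 2)))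
    (Ioi_mem_nhds (half_lt_self hb)) ?_ ?_ ?_ ?_ ?_ ?_).2
  · refine Eventually.of_forall fun c => hm.aestronglyMeasurable.mul ?_
    exact Continuous.aestronglyMeasurable (by fun_prop)
  · refine ((integrable_exp_neg_mul (E := E) hb).const_mul K).mono'
      (hm.aestronglyMeasurable.mul (Continuous.aestronglyMeasurable (by fun_prop)))
      (Eventually.of_forall fun x => ?_)
    rw [norm_mul, Real.norm_eq_abs, Real.norm_of_nonneg (Real.exp_pos _).le]
    exact mul_le_mul_of_nonneg_right (hK x) (Real.exp_pos _).le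
  · exact hm.aestronglyMeasurable.mul (Continuous.aestronglyMeasurable (by fun_prop))
  · refine Eventually.of_forall fun x c hc => ?_
    rw [norm_mul, Real.norm_eq_abs]
    apply mul_le_mul (hK x) _ (norm_nonneg _) hK0
    rw [norm_mul, norm_neg, Real.norm_of_nonneg (sq_nonneg _),
      Real.norm_of_nonneg (Real.exp_pos _).le]
    apply mul_le_mul_of_nonneg_left _ (sq_nonneg _)
    apply Real.exp_le_exp.2
    have : b / 2 < c := hc
    nlinarith [sq_nonneg ‖x‖]
  · exact (integrable_sq_mul_exp (half_pos hb)).const_mul K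
  · refine Eventually.of_forall fun x c _ => ?_
    have h1 : HasDerivAt (fun c : ℝ => -c * ‖x‖ ^ 2) (-‖x‖ ^ 2) c := by
      have := ((hasDerivAt_id c).neg).mul_const (‖x‖ ^ 2)
      simpa using this
    have h2 := (h1.exp).const_mul (C x)
    have e : C x * (-‖x‖ ^ 2 * Real.exp (-c * ‖x‖ ^ 2))
        = C x * (Real.exp (-c * ‖x‖ ^ 2) * -‖x‖ ^ 2) := by ring
    rw [e]
    exact h2

/-- the renormalised Gaussian integral is constant -/
lemma renorm_const {C : E → ℝ} (hm : Measurable C) {K : ℝ} (hK : ∀ x, |C x| ≤ K)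
    (hw : ∀ h : ℝ → ℝ, ContDiff ℝ 2 h → HasCompactSupport h → ∫ x, C x * radOp h x = 0)
    {b c : ℝ} (hb : 0 < b) (hc : 0 < c) :
    b ^ ((Module.finrank ℝ E : ℝ) / 2) * Real.exp (1 / (4 * b))
        * ∫ x : E, C x * Real.exp (-b * ‖x‖ ^ 2)
      = c ^ ((Module.finrank ℝ E : ℝ) / 2) * Real.exp (1 / (4 * c))
        * ∫ x : E, C x * Real.exp (-c * ‖x‖ ^ 2) := by
  set d : ℝ := (Module.finrank ℝ E : ℝ) with hd
  set W : ℝ → ℝ := fun b => ∫ x : E, C x * Real.exp (-b * ‖x‖ ^ 2) with hW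
  set Z : ℝ → ℝ := fun b => b ^ (d / 2) * Real.exp (1 / (4 * b)) * W b with hZ
  have hK0 : 0 ≤ K := (abs_nonneg _).trans (hK 0)
  have hWd : ∀ b : ℝ, 0 < b → HasDerivAt W (-((2 * d * b - 1) / (4 * b ^ 2)) * W b) b := by
    intro b hb
    have h1 := hasDerivAt_gauss hm hK hb
    have h2 := weak_gaussian hm hK hw hb
    have i1 : Integrable (fun x : E => C x * (‖x‖ ^ 2 * Real.exp (-b * ‖x‖ ^ 2))) := by
      refine ((integrable_sq_mul_exp (E := E) hb).const_mul K).mono'
        (hm.aestronglyMeasurable.mul (Continuous.aestronglyMeasurable (by fun_prop)))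
        (Eventually.of_forall fun x => ?_)
      rw [norm_mul, Real.norm_eq_abs, Real.norm_of_nonneg (by positivity)]
      exact mul_le_mul_of_nonneg_right (hK x) (by positivity)
    have i2 : Integrable (fun x : E => C x * Real.exp (-b * ‖x‖ ^ 2)) := by
      refine ((integrable_exp_neg_mul (E := E) hb).const_mul K).mono'
        (hm.aestronglyMeasurable.mul (Continuous.aestronglyMeasurable (by fun_prop)))
        (Eventually.of_forall fun x => ?_)
      rw [norm_mul, Real.norm_eq_abs, Real.norm_of_nonneg (Real.exp_pos _).le]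
      exact mul_le_mul_of_nonneg_right (hK x) (Real.exp_pos _).le
    have e : (fun x : E => C x * ((4 * b ^ 2 * ‖x‖ ^ 2 - 2 * (Module.finrank ℝ E) * b + 1)
      * Real.exp (-b * ‖x‖ ^ 2)))
        = fun x => (4 * b ^ 2) * (C x * (‖x‖ ^ 2 * Real.exp (-b * ‖x‖ ^ 2)))
          - (2 * d * b - 1) * (C x * Real.exp (-b * ‖x‖ ^ 2)) := by
      funext x; rw [← hd]; ring
    rw [e, integral_sub (i1.const_mul _) (i2.const_mul _), integral_const_mul,
      integral_const_mul] at h2
    have e3 : ∫ x : E, C x * (-‖x‖ ^ 2 * Real.exp (-b * ‖x‖ ^ 2))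
        = - ∫ x : E, C x * (‖x‖ ^ 2 * Real.exp (-b * ‖x‖ ^ 2)) := by
      rw [← integral_neg]
      refine integral_congr_ae (Eventually.of_forall fun x => ?_)
      simp only
      ring
    rw [e3] at h1
    have hI : ∫ x : E, C x * (‖x‖ ^ 2 * Real.exp (-b * ‖x‖ ^ 2))
        = (2 * d * b - 1) / (4 * b ^ 2) * W b := by
      rw [div_mul_eq_mul_div, eq_div_iff (by positivity)]
      simp only [hW]
      linarith
    rw [hI] at h1
    have e4 : -((2 * d * b - 1) / (4 * b ^ 2)) * W b = -((2 * d * b - 1) / (4 * b ^ 2) * W b) := by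
      ring
    rw [e4]
    exact h1
  have hZd : ∀ b : ℝ, 0 < b → HasDerivAt Z 0 b := by
    intro b hb
    have h1 : HasDerivAt (fun b : ℝ => b ^ (d / 2)) ((d / 2) * b ^ (d / 2 - 1)) b :=
      Real.hasDerivAt_rpow_const (Or.inl hb.ne')
    have h2 : HasDerivAt (fun b : ℝ => 1 / (4 * b)) (-(1 / (4 * b ^ 2))) b := by
      have h3 : HasDerivAt (fun b : ℝ => (4 * b)) 4 b := by
        simpa using (hasDerivAt_id b).const_mul (4 : ℝ)
      have h4 : HasDerivAt (fun b : ℝ => (4 * b)⁻¹) (-4 / (4 * b) ^ 2) b :=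
        h3.inv (by positivity)
      have e : (fun b : ℝ => 1 / (4 * b)) = fun b => (4 * b)⁻¹ := by
        funext x; rw [one_div]
      have e2 : -(1 / (4 * b ^ 2)) = -4 / (4 * b) ^ 2 := by
        field_simp
      rw [e, e2]
      exact h4
    have h12 : HasDerivAt (fun b : ℝ => b ^ (d / 2) * Real.exp (1 / (4 * b)))
        ((d / 2) * b ^ (d / 2 - 1) * Real.exp (1 / (4 * b))
          + b ^ (d / 2) * (Real.exp (1 / (4 * b)) * -(1 / (4 * b ^ 2)))) b := h1.mul h2.exp
    have h5 : HasDerivAt Z (((d / 2) * b ^ (d / 2 - 1) * Real.exp (1 / (4 * b))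
          + b ^ (d / 2) * (Real.exp (1 / (4 * b)) * -(1 / (4 * b ^ 2)))) * W b
          + (b ^ (d / 2) * Real.exp (1 / (4 * b))) * (-((2 * d * b - 1) / (4 * b ^ 2)) * W b)) b :=
      h12.mul (hWd b hb)
    have hr : b ^ (d / 2 - 1) = b ^ (d / 2) / b := by
      rw [Real.rpow_sub hb, Real.rpow_one]
    have hval : ((d / 2) * b ^ (d / 2 - 1) * Real.exp (1 / (4 * b))
          + b ^ (d / 2) * (Real.exp (1 / (4 * b)) * -(1 / (4 * b ^ 2)))) * W b
          + (b ^ (d / 2) * Real.exp (1 / (4 * b))) * (-((2 * d * b - 1) / (4 * b ^ 2)) * W b)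
          = 0 := by
      rw [hr]
      have h6 : ((d / 2) * (b ^ (d / 2) / b) * Real.exp (1 / (4 * b))
          + b ^ (d / 2) * (Real.exp (1 / (4 * b)) * -(1 / (4 * b ^ 2)))) * W b
          + (b ^ (d / 2) * Real.exp (1 / (4 * b))) * (-((2 * d * b - 1) / (4 * b ^ 2)) * W b)
          = (b ^ (d / 2) * Real.exp (1 / (4 * b)) * W b)
            * (d / 2 * (1 / b) - 1 / (4 * b ^ 2) - (2 * d * b - 1) / (4 * b ^ 2)) := by
        ring
      have h7 : d / 2 * (1 / b) - 1 / (4 * b ^ 2) - (2 * d * b - 1) / (4 * b ^ 2) = 0 := by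
        field_simp
        ring
      rw [h6, h7, mul_zero]
    rw [hval] at h5
    exact h5
  have hopen : IsOpen (Set.Ioi (0 : ℝ)) := isOpen_Ioi
  have hpre : IsPreconnected (Set.Ioi (0 : ℝ)) := isPreconnected_Ioi
  have := hopen.is_const_of_deriv_eq_zero hpre
    (f := Z) (fun x hx => (hZd x hx).differentiableAt.differentiableWithinAt)
    (fun x hx => (hZd x hx).deriv) hb hc
  exact this

lemma gaussian_avg_of_weak {C : E → ℝ} (hm : Measurable C) {K : ℝ} (hK : ∀ x, |C x| ≤ K)
    (h0 : ContinuousAt C 0)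
    (hw : ∀ h : ℝ → ℝ, ContDiff ℝ 2 h → HasCompactSupport h → ∫ x, C x * radOp h x = 0)
    (r : ℝ) : ∫ x, C (r • x) ∂(stdGaussian E) = Real.exp (-(r ^ 2) / 2) * C 0 := by
  set d : ℝ := (Module.finrank ℝ E : ℝ) with hd
  set W : ℝ → ℝ := fun b => ∫ x : E, C x * Real.exp (-b * ‖x‖ ^ 2) with hW
  -- scaling
  have hV : ∀ r : ℝ, 0 < r → Real.exp (r ^ 2 / 2) * ∫ x, C (r • x) ∂(stdGaussian E)
      = Real.pi ^ (-(d / 2)) * ((1 / (2 * r ^ 2)) ^ (d / 2)
        * Real.exp (1 / (4 * (1 / (2 * r ^ 2)))) * W (1 / (2 * r ^ 2))) := by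
    intro r hr
    have e1 : ∫ x, C (r • x) ∂(stdGaussian E)
        = (2 * Real.pi) ^ (-(d / 2)) * ((r ^ (Module.finrank ℝ E))⁻¹ * W (1 / (2 * r ^ 2))) := by
      rw [integral_stdGaussian_eq]
      have e2 := MeasureTheory.Measure.integral_comp_smul (volume : Measure E)
        (fun y : E => C y * Real.exp (-(1 / (2 * r ^ 2)) * ‖y‖ ^ 2)) r
      rw [abs_of_pos (by positivity), smul_eq_mul] at e2
      simp only [hW]
      rw [← e2, ← integral_const_mul]
      refine integral_congr_ae (Eventually.of_forall fun x => ?_)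
      simp only [gd]
      have : Real.exp (-‖x‖ ^ 2 / 2) = Real.exp (-(1 / (2 * r ^ 2)) * ‖r • x‖ ^ 2) := by
        congr 1
        rw [norm_smul, mul_pow, Real.norm_eq_abs, sq_abs]
        field_simp
      rw [this, ← hd]
      ring
    rw [e1]
    have e3 : (1 / (4 * (1 / (2 * r ^ 2))) : ℝ) = r ^ 2 / 2 := by field_simp; ring
    rw [e3]
    have e4 : ((1 / (2 * r ^ 2)) ^ (d / 2) : ℝ)
        = (2 : ℝ) ^ (-(d / 2)) * (r ^ (Module.finrank ℝ E))⁻¹ := by
      rw [one_div, Real.inv_rpow (by positivity), Real.mul_rpow (by norm_num) (by positivity),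
        mul_inv, Real.rpow_neg (by norm_num)]
      congr 2
      rw [← Real.rpow_natCast r 2, ← Real.rpow_mul hr.le]
      have : ((2 : ℕ) : ℝ) * (d / 2) = d := by push_cast; ring
      rw [this, hd, Real.rpow_natCast]
    rw [e4, Real.mul_rpow (by norm_num) Real.pi_pos.le]
    ring
  -- constancy
  have hconst : ∀ r s : ℝ, 0 < r → 0 < s →
      Real.exp (r ^ 2 / 2) * ∫ x, C (r • x) ∂(stdGaussian E)
        = Real.exp (s ^ 2 / 2) * ∫ x, C (s • x) ∂(stdGaussian E) := by
    intro r s hr hs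
    rw [hV r hr, hV s hs]
    congr 1
    exact renorm_const hm hK hw (by positivity) (by positivity)
  -- limit at zero
  have hK0 : 0 ≤ K := (abs_nonneg _).trans (hK 0)
  let u : ℕ → ℝ := fun n => 1 / ((n : ℝ) + 1)
  have hu0 : ∀ n, 0 < u n := fun n => by positivity
  have hulim : Tendsto u atTop (𝓝 0) := tendsto_one_div_add_atTop_nhds_zero_nat
  have hlimI : Tendsto (fun n => ∫ x : E, C (u n • x) ∂(stdGaussian E)) atTop
      (𝓝 (∫ _x : E, C 0 ∂(stdGaussian E))) := by
    refine tendsto_integral_of_dominated_convergence (fun _ => K) ?_ (integrable_const _) ?_ ?_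
    · intro n
      exact (hm.comp (measurable_id.const_smul (u n))).aestronglyMeasurable
    · intro n
      exact Eventually.of_forall fun x => hK _
    · refine Eventually.of_forall fun x => ?_
      have h1 : Tendsto (fun n => u n • x) atTop (𝓝 ((0 : ℝ) • x)) := hulim.smul_const x
      rw [zero_smul] at h1
      exact h0.tendsto.comp h1
  have hlimE : Tendsto (fun n => Real.exp ((u n) ^ 2 / 2)) atTop (𝓝 1) := by
    have : Continuous (fun t : ℝ => Real.exp (t ^ 2 / 2)) := by fun_prop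
    have h1 := (this.tendsto 0).comp hulim
    simpa [Function.comp_def] using h1
  have hlim := hlimE.mul hlimI
  simp only [integral_const, probReal_univ, smul_eq_mul, one_mul] at hlim
  have hpos : ∀ r : ℝ, 0 < r → ∫ x, C (r • x) ∂(stdGaussian E)
      = Real.exp (-(r ^ 2) / 2) * C 0 := by
    intro r hr
    have h1 : Tendsto (fun n : ℕ => Real.exp (r ^ 2 / 2) * ∫ x, C (r • x) ∂(stdGaussian E))
        atTop (𝓝 (C 0)) := by
      refine hlim.congr fun n => ?_
      exact hconst (u n) r (hu0 n) hr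
    have h2 := tendsto_nhds_unique h1 tendsto_const_nhds
    rw [h2, ← mul_assoc, ← Real.exp_add]
    have : -r ^ 2 / 2 + r ^ 2 / 2 = 0 := by ring
    rw [this]
    simp
  rcases lt_trichotomy r 0 with hr | hr | hr
  · have h1 := hpos (-r) (by linarith)
    have h2 := integral_map (μ := stdGaussian E) (φ := fun x => -x) (by fun_prop)
      (f := fun x => C (r • x)) (hm.comp (measurable_id.const_smul r)).aestronglyMeasurable
    rw [map_neg_stdGaussian] at h2
    rw [h2]
    simp only [smul_neg]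
    simp only [neg_smul] at h1
    rw [h1]
    ring_nf
  · subst hr
    simp
  · exact hpos r hr

end Berry67
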