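import Pool.Agent.Lib_helper67.Berry.Kurtosis
import Pool.Agent.Lib_helper67.Berry.Helm2

/-!
A stationary random field whose paths solve the Helmholtz equation is an eigenfunction of the
Gaussian averages.
-/

namespace Berry67

set_option linter.unusedSectionVars false

open MeasureTheory ProbabilityTheory Filter Topology InnerProductSpace Laplacian

variable {E : Type*} [NormedAddCommGroup E] [InnerProductSpace ℝ E] [FiniteDimensional ℝ E]
  [MeasurableSpace E] [BorelSpace E]
variable {Ω : Type*} [MeasurableSpace Ω] {P : Measure Ω} {T : E → Ω → Ω}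

/-- covariance function -/
noncomputable def cov (P : Measure Ω) (T : E → Ω → Ω) (F : Ω → ℝ) (x : E) : ℝ :=
  ∫ ω, F ω * F (T x ω) ∂P

lemma IsFlow.measurable_comp (H : IsFlow P T) {F : Ω → ℝ} (hm : Measurable F) :
    Measurable (fun p : E × Ω => F (T p.1 p.2)) :=
  hm.comp H.meas

lemma IsFlow.integral_comp (H : IsFlow P T) {A : Ω → ℝ} (hA : AEStronglyMeasurable A P) (x : E) :
    ∫ ω, A (T x ω) ∂P = ∫ ω, A ω ∂P := by
  have h3 := integral_map (μ := P) (H.mp x).measurable.aemeasurable
    (f := A) (by rw [(H.mp x).map_eq]; exact hA)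
  rw [(H.mp x).map_eq] at h3
  exact h3.symm

lemma IsFlow.cov_measurable [IsProbabilityMeasure P] (H : IsFlow P T) {F : Ω → ℝ}
    (hm : Measurable F) : Measurable (cov P T F) := by
  have : StronglyMeasurable (fun p : E × Ω => F p.2 * F (T p.1 p.2)) :=
    ((hm.comp measurable_snd).mul (H.measurable_comp hm)).stronglyMeasurable
  exact this.integral_prod_right'.measurable

lemma IsFlow.memLp_two_comp (H : IsFlow P T) {F : Ω → ℝ} (hF : MemLp F 2 P) (x : E) :
    MemLp (fun ω => F (T x ω)) 2 P := hF.comp_measurePreserving (H.mp x)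

lemma IsFlow.cov_le [IsProbabilityMeasure P] (H : IsFlow P T) {F : Ω → ℝ}
    (hm : Measurable F) (hF : MemLp F 2 P) (x : E) : |cov P T F x| ≤ ∫ ω, F ω ^ 2 ∂P := by
  have h1 := integral_mul_sq_le hF (H.memLp_two_comp hF x)
  have h2 : ∫ ω, F (T x ω) ^ 2 ∂P = ∫ ω, F ω ^ 2 ∂P :=
    H.integral_comp (A := fun ω => F ω ^ 2) (hm.pow_const 2).aestronglyMeasurable x
  rw [h2, ← pow_two] at h1
  exact abs_le_of_sq_le_sq h1 (integral_nonneg fun ω => sq_nonneg _)

lemma IsFlow.cov_continuousAt [IsProbabilityMeasure P] (H : IsFlow P T) {F : Ω → ℝ}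
    (hm : Measurable F) (hF : Integrable (fun ω => F ω ^ 4) P)
    (hc : ∀ᵐ ω ∂P, Continuous (fun x : E => F (T x ω))) :
    ContinuousAt (cov P T F) 0 := by
  have hF2 : MemLp F 2 P := memLp_two_of_four hm hF
  set m := ∫ ω, F ω ^ 2 ∂P with hmdef
  set T4 := ∫ ω, F ω ^ 4 ∂P with hT4
  have hT40 : 0 ≤ T4 := integral_nonneg fun ω => by positivity
  have hm0 : 0 ≤ m := integral_nonneg fun ω => sq_nonneg _
  -- L² continuity
  have hD : Tendsto (fun x : E => ∫ ω, (F (T x ω) - F ω) ^ 2 ∂P) (𝓝 0) (𝓝 0) := by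
    rw [Metric.tendsto_nhds]
    intro ε hε
    set M : ℝ := (32 * T4 + 1) / ε with hM
    have hMpos : 0 < M := by positivity
    have hmin : Tendsto (fun x : E => ∫ ω, min ((F (T x ω) - F ω) ^ 2) M ∂P) (𝓝 0) (𝓝 0) := by
      have h0 : (0 : ℝ) = ∫ _ω : Ω, (0 : ℝ) ∂P := by simp
      conv => rhs; rw [h0]
      refine tendsto_integral_filter_of_dominated_convergence (fun _ => M) ?_ ?_
        (integrable_const _) ?_
      · exact Eventually.of_forall fun x =>
          ((((hm.comp (H.mp x).measurable).sub hm).pow_const 2).min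
            measurable_const).aestronglyMeasurable
      · refine Eventually.of_forall fun x => Eventually.of_forall fun ω => ?_
        rw [Real.norm_of_nonneg (le_min (sq_nonneg _) hMpos.le)]
        exact min_le_right _ _
      · filter_upwards [hc] with ω hω
        have h1 : Tendsto (fun x : E => F (T x ω)) (𝓝 0) (𝓝 (F ω)) := by
          have := hω.tendsto 0
          rwa [H.zero] at this
        have h2 : Tendsto (fun x : E => min ((F (T x ω) - F ω) ^ 2) M) (𝓝 0)
            (𝓝 (min ((F ω - F ω) ^ 2) M)) :=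
          (((h1.sub_const (F ω)).pow 2).min tendsto_const_nhds)
        simpa [hMpos.le] using h2
    have hev := (Metric.tendsto_nhds.1 hmin) (ε / 2) (half_pos hε)
    filter_upwards [hev] with x hx
    have hpt : ∀ ω, (F (T x ω) - F ω) ^ 2
        ≤ min ((F (T x ω) - F ω) ^ 2) M + (F (T x ω) - F ω) ^ 4 / M := by
      intro ω
      rcases le_total ((F (T x ω) - F ω) ^ 2) M with h | h
      · rw [min_eq_left h]
        have : 0 ≤ (F (T x ω) - F ω) ^ 4 / M := by positivity
        linarith
      · rw [min_eq_right h]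
        have : (F (T x ω) - F ω) ^ 2 ≤ (F (T x ω) - F ω) ^ 4 / M := by
          rw [le_div_iff₀ hMpos]
          nlinarith [sq_nonneg (F (T x ω) - F ω)]
        linarith
    have i0 : Integrable (fun ω => (F (T x ω) - F ω) ^ 2) P :=
      ((H.memLp_two_comp hF2 x).sub hF2).integrable_sq
    have i1 : Integrable (fun ω => min ((F (T x ω) - F ω) ^ 2) M) P := by
      refine (integrable_const M).mono' ((((hm.comp (H.mp x).measurable).sub hm).pow_const 2).min
            measurable_const).aestronglyMeasurable (Eventually.of_forall fun ω => ?_)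
      rw [Real.norm_of_nonneg (le_min (sq_nonneg _) hMpos.le)]
      exact min_le_right _ _
    have i2 := integrable_increment H hm hF x
    have h4 : ∫ ω, (F (T x ω) - F ω) ^ 4 ∂P ≤ 16 * T4 := by
      have j1 : Integrable (fun ω => F (T x ω) ^ 4) P := (H.mp x).integrable_comp_of_integrable hF
      have hb : ∀ ω, (F (T x ω) - F ω) ^ 4 ≤ 8 * (F (T x ω) ^ 4 + F ω ^ 4) := by
        intro ω
        nlinarith [sq_nonneg (F (T x ω) + F ω), sq_nonneg (F (T x ω) - F ω),
          sq_nonneg ((F (T x ω)) ^ 2 - F ω ^ 2), sq_nonneg (F (T x ω) * F ω),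
          mul_nonneg (sq_nonneg (F (T x ω) + F ω)) (sq_nonneg (F (T x ω) + F ω)),
          mul_nonneg (sq_nonneg (F (T x ω) + F ω)) (sq_nonneg (F (T x ω) - F ω))]
      calc ∫ ω, (F (T x ω) - F ω) ^ 4 ∂P ≤ ∫ ω, 8 * (F (T x ω) ^ 4 + F ω ^ 4) ∂P :=
            integral_mono i2 ((j1.add hF).const_mul _) hb
        _ = 16 * T4 := by
            rw [integral_const_mul, integral_add j1 hF,
              H.integral_comp (A := fun ω => F ω ^ 4) hF.aestronglyMeasurable x]
            ring
    have h5 : ∫ ω, (F (T x ω) - F ω) ^ 2 ∂P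
        ≤ ∫ ω, min ((F (T x ω) - F ω) ^ 2) M ∂P + (∫ ω, (F (T x ω) - F ω) ^ 4 ∂P) / M := by
      have i12 : Integrable (fun ω => min ((F (T x ω) - F ω) ^ 2) M
        + (F (T x ω) - F ω) ^ 4 / M) P := i1.add (i2.div_const M)
      have := integral_mono i0 i12 hpt
      rw [integral_add i1 (i2.div_const M), integral_div] at this
      exact this
    have h6 : (∫ ω, (F (T x ω) - F ω) ^ 4 ∂P) / M < ε / 2 := by
      rw [div_lt_iff₀ hMpos, hM]
      have : ε / 2 * ((32 * T4 + 1) / ε) = (32 * T4 + 1) / 2 := by field_simp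
      rw [this]; linarith
    rw [Real.dist_eq, sub_zero] at hx ⊢
    have h7 : 0 ≤ ∫ ω, min ((F (T x ω) - F ω) ^ 2) M ∂P :=
      integral_nonneg fun ω => le_min (sq_nonneg _) hMpos.le
    rw [abs_of_nonneg h7] at hx
    rw [abs_of_nonneg (integral_nonneg fun ω => sq_nonneg _)]
    linarith
  -- conclusion
  have hbound : ∀ x : E, |cov P T F x - cov P T F 0|
      ≤ Real.sqrt (m * ∫ ω, (F (T x ω) - F ω) ^ 2 ∂P) := by
    intro x
    have e : cov P T F x - cov P T F 0 = ∫ ω, F ω * (F (T x ω) - F ω) ∂P := by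
      have j1 : Integrable (fun ω => F ω * F (T x ω)) P :=
        hF2.integrable_mul (H.memLp_two_comp hF2 x)
      have j2 : Integrable (fun ω => F ω * F (T 0 ω)) P :=
        hF2.integrable_mul (H.memLp_two_comp hF2 0)
      simp only [cov]
      rw [← integral_sub j1 j2]
      refine integral_congr_ae (Eventually.of_forall fun ω => ?_)
      simp only [H.zero]
      ring
    rw [e]
    apply Real.abs_le_sqrt
    exact integral_mul_sq_le hF2 ((H.memLp_two_comp hF2 x).sub hF2)
  have hlim : Tendsto (fun x : E => Real.sqrt (m * ∫ ω, (F (T x ω) - F ω) ^ 2 ∂P)) (𝓝 0)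
      (𝓝 0) := by
    have h1 := (hD.const_mul m).sqrt
    simpa using h1
  have h2 : Tendsto (fun x : E => cov P T F x - cov P T F 0) (𝓝 0) (𝓝 0) :=
    squeeze_zero_norm (fun x => by rw [Real.norm_eq_abs]; exact hbound x) hlim
  have h3 := h2.add_const (cov P T F 0)
  simpa [ContinuousAt] using h3

lemma hasCompactSupport_comp_norm_sq {g : ℝ → ℝ} (hg : HasCompactSupport g) :
    HasCompactSupport (fun x : E => g (‖x‖ ^ 2)) := by
  obtain ⟨R, hR⟩ := hg.isCompact.isBounded.subset_closedBall (0 : ℝ)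
  refine HasCompactSupport.intro (isCompact_closedBall (0 : E) (|R| + 1)) fun x hx => ?_
  by_contra hne
  have h1 : ‖x‖ ^ 2 ∈ tsupport g := subset_tsupport _ (Function.mem_support.2 hne)
  have h2 := hR h1
  rw [Metric.mem_closedBall, dist_zero_right, Real.norm_of_nonneg (sq_nonneg _)] at h2
  rw [Metric.mem_closedBall, dist_zero_right] at hx
  push Not at hx
  have h3 : R ≤ |R| := le_abs_self R
  have h4 : 0 ≤ |R| := abs_nonneg R
  nlinarith [norm_nonneg x]

lemma radOp_eq (h : ℝ → ℝ) : (radOp h : E → ℝ)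
    = fun x => 4 * ‖x‖ ^ 2 * deriv (deriv h) (‖x‖ ^ 2)
    + 2 * (Module.finrank ℝ E) * deriv h (‖x‖ ^ 2) + h (‖x‖ ^ 2) := rfl

lemma continuous_radOp {h : ℝ → ℝ} (hh : ContDiff ℝ 2 h) : Continuous (radOp h : E → ℝ) := by
  have c0 := hh.continuous
  have hh1 : ContDiff ℝ 1 (deriv h) := by
    have := (contDiff_succ_iff_deriv (n := 1) (f := h)).1 (by exact_mod_cast hh)
    exact this.2.2
  have c1 := hh1.continuous
  have c2 : Continuous (deriv (deriv h)) := hh1.continuous_deriv (by norm_num)
  rw [radOp_eq]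
  fun_prop

lemma hasCompactSupport_radOp {h : ℝ → ℝ} (hs : HasCompactSupport h) :
    HasCompactSupport (radOp h : E → ℝ) := by
  have s0 := hasCompactSupport_comp_norm_sq (E := E) hs
  have s1 := hasCompactSupport_comp_norm_sq (E := E) hs.deriv
  have s2 := hasCompactSupport_comp_norm_sq (E := E) hs.deriv.deriv
  refine HasCompactSupport.intro ((s0.isCompact.union s1.isCompact).union s2.isCompact)
    fun x hx => ?_
  simp only [Set.mem_union, not_or] at hx
  have e0 := image_eq_zero_of_notMem_tsupport hx.1.1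
  have e1 := image_eq_zero_of_notMem_tsupport hx.1.2
  have e2 := image_eq_zero_of_notMem_tsupport hx.2
  simp only [radOp, e0, e1, e2, mul_zero, add_zero]

/-- pathwise weak equation -/
lemma pathwise_weak {ψ : E → ℝ} (hψ : ContDiff ℝ 2 ψ) (hH : ∀ x, (Δ ψ) x = -ψ x)
    {h : ℝ → ℝ} (hh : ContDiff ℝ 2 h) (hs : HasCompactSupport h) :
    ∫ x, ψ x * radOp h x = 0 := by
  have hn : ContDiff ℝ 2 (fun y : E => ‖y‖ ^ 2) := contDiff_norm_sq ℝ
  have hχ : ContDiff ℝ 2 (fun y : E => h (‖y‖ ^ 2)) := hh.comp hn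
  have sχ := hasCompactSupport_comp_norm_sq (E := E) hs
  have h1 := integral_mul_laplacian hψ hχ sχ
  have i0 : Integrable (fun x => ψ x * h (‖x‖ ^ 2)) :=
    (hψ.continuous.mul hχ.continuous).integrable_of_hasCompactSupport sχ.mul_left
  have i1 : Integrable (fun x => ψ x * radOp h x) :=
    (hψ.continuous.mul (continuous_radOp hh)).integrable_of_hasCompactSupport
      (hasCompactSupport_radOp hs).mul_left
  have e : (fun x => ψ x * (Δ (fun y : E => h (‖y‖ ^ 2))) x)
      = fun x => ψ x * radOp h x - ψ x * h (‖x‖ ^ 2) := by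
    funext x
    rw [← laplacian_radial hh x]; ring
  rw [e, integral_sub i1 i0] at h1
  have e2 : ∫ x, (Δ ψ) x * h (‖x‖ ^ 2) = - ∫ x, ψ x * h (‖x‖ ^ 2) := by
    rw [← integral_neg]
    refine integral_congr_ae (Eventually.of_forall fun x => ?_)
    simp only
    rw [hH]; ring
  rw [e2] at h1
  linarith

/-- the covariance is a weak solution -/
lemma IsFlow.cov_weak [IsProbabilityMeasure P] (H : IsFlow P T) {F : Ω → ℝ}
    (hm : Measurable F) (hF : MemLp F 2 P)
    (hH : ∀ᵐ ω ∂P, ContDiff ℝ 2 (fun x : E => F (T x ω)) ∧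
      ∀ x : E, (Δ (fun x : E => F (T x ω))) x = -F (T x ω))
    {h : ℝ → ℝ} (hh : ContDiff ℝ 2 h) (hs : HasCompactSupport h) :
    ∫ x : E, cov P T F x * radOp h x = 0 := by
  set k : E → ℝ := radOp h with hk
  have ck : Continuous k := continuous_radOp hh
  have sk : HasCompactSupport k := hasCompactSupport_radOp hs
  have ik : Integrable (fun x => |k x|) := (ck.integrable_of_hasCompactSupport sk).abs
  have hΦ : MeasurePreserving (fun p : E × Ω => (id p.1, T p.1 p.2))
      ((volume : Measure E).prod P) ((volume : Measure E).prod P) := by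
    refine MeasurePreserving.skew_product (g := fun x ω => T x ω)
      (MeasurePreserving.id _) H.meas ?_
    exact Eventually.of_forall fun x => (H.mp x).map_eq
  have j1 : Integrable (fun p : E × Ω => |k p.1| * F p.2 ^ 2) ((volume : Measure E).prod P) :=
    ik.mul_prod hF.integrable_sq
  have j2 : Integrable (fun p : E × Ω => |k p.1| * F (T p.1 p.2) ^ 2)
      ((volume : Measure E).prod P) := hΦ.integrable_comp_of_integrable j1
  have j3 : Integrable (fun p : E × Ω => F p.2 * F (T p.1 p.2) * k p.1)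
      ((volume : Measure E).prod P) := by
    refine (j1.add j2).mono' (((hm.comp measurable_snd).mul (H.measurable_comp hm)).mul
      (ck.measurable.comp measurable_fst)).aestronglyMeasurable
      (Eventually.of_forall fun p => ?_)
    rw [norm_mul, Real.norm_eq_abs, Real.norm_eq_abs]
    simp only [Pi.add_apply]
    have : |F p.2 * F (T p.1 p.2)| ≤ F p.2 ^ 2 + F (T p.1 p.2) ^ 2 := by
      rw [abs_le]
      constructor <;> nlinarith [sq_nonneg (F p.2 + F (T p.1 p.2)),
        sq_nonneg (F p.2 - F (T p.1 p.2)), sq_nonneg (F p.2), sq_nonneg (F (T p.1 p.2))]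
    calc |F p.2 * F (T p.1 p.2)| * |k p.1|
        ≤ (F p.2 ^ 2 + F (T p.1 p.2) ^ 2) * |k p.1| :=
          mul_le_mul_of_nonneg_right this (abs_nonneg _)
      _ = _ := by ring
  have e1 : ∫ x : E, cov P T F x * k x
      = ∫ p : E × Ω, F p.2 * F (T p.1 p.2) * k p.1 ∂((volume : Measure E).prod P) := by
    rw [integral_prod _ j3]
    refine integral_congr_ae (Eventually.of_forall fun x => ?_)
    simp only [cov]
    rw [integral_mul_const]
  rw [e1, integral_prod_symm _ j3]
  have e2 : ∀ᵐ ω ∂P, ∫ x : E, F ω * F (T x ω) * k x = 0 := by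
    filter_upwards [hH] with ω hω
    have h1 := pathwise_weak hω.1 hω.2 hh hs
    have : ∫ x : E, F ω * F (T x ω) * k x = F ω * ∫ x : E, F (T x ω) * k x := by
      rw [← integral_const_mul]
      refine integral_congr_ae (Eventually.of_forall fun x => ?_)
      simp only
      ring
    rw [this]
    rw [h1, mul_zero]
  rw [integral_congr_ae e2]
  simp

/-- **A stationary solution of the Helmholtz equation is an eigenfunction of the Gaussian
averages.** -/
theorem IsFlow.isEigen [IsProbabilityMeasure P] (H : IsFlow P T) {F : Ω → ℝ}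
    (hm : Measurable F) (hF : Integrable (fun ω => F ω ^ 4) P)
    (hH : ∀ᵐ ω ∂P, ContDiff ℝ 2 (fun x : E => F (T x ω)) ∧
      ∀ x : E, (Δ (fun x : E => F (T x ω))) x = -F (T x ω)) :
    IsEigen P T F := by
  have hF2 : MemLp F 2 P := memLp_two_of_four hm hF
  have hF1 : Integrable F P := hF2.integrable (by norm_num)
  have hc : ∀ᵐ ω ∂P, Continuous (fun x : E => F (T x ω)) := by
    filter_upwards [hH] with ω hω
    exact hω.1.continuous
  have hcov := gaussian_avg_of_weak (H.cov_measurable hm) (H.cov_le hm hF2)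
    (H.cov_continuousAt hm hF hc) (fun h hh hs => H.cov_weak hm hF2 hH hh hs)
  set m := ∫ ω, F ω ^ 2 ∂P with hmdef
  have hcov0 : cov P T F 0 = m := by
    simp only [cov, H.zero, hmdef]
    refine integral_congr_ae (Eventually.of_forall fun ω => ?_)
    simp only
    ring
  have hinner : ∀ r : ℝ, ∫ ω, F ω * avg T r F ω ∂P = Real.exp (-(r ^ 2) / 2) * m := by
    intro r
    rw [← hcov0, ← hcov r]
    have hL := H.memLp_comp r hF2
    have hL2 : MemLp (fun p : E × Ω => F p.2) 2 ((stdGaussian E).prod P) :=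
      hF2.comp_measurePreserving measurePreserving_snd
    have i2 : Integrable (fun p : E × Ω => F p.2 * F (T (r • p.1) p.2))
      ((stdGaussian E).prod P) := hL2.integrable_mul hL
    have h1 := integral_prod_symm _ i2
    have h2 := integral_prod _ i2
    rw [h2] at h1
    simp only [cov]
    rw [h1]
    refine integral_congr_ae (Eventually.of_forall fun ω => ?_)
    simp only [avg]
    rw [integral_const_mul]
  intro r
  have hA : MemLp (avg T r F) 2 P := H.avg_memLp_two r hm hF2
  have hAA : ∫ ω, avg T r F ω ^ 2 ∂P = Real.exp (-(r ^ 2)) * m := by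
    simp_rw [pow_two (avg T r F _)]
    rw [H.inner_avg_avg r r hm hF2, hinner]
    congr 2
    rw [Real.sq_sqrt (by positivity)]
    ring
  set c := Real.exp (-(r ^ 2) / 2) with hcdef
  have hc2 : c * c = Real.exp (-(r ^ 2)) := by
    rw [hcdef, ← Real.exp_add]; ring_nf
  have hzero : ∫ ω, (avg T r F ω - c * F ω) ^ 2 ∂P = 0 := by
    have e : (fun ω => (avg T r F ω - c * F ω) ^ 2)
        = fun ω => (avg T r F ω ^ 2 - (2 * c) * (F ω * avg T r F ω)) + (c * c) * F ω ^ 2 := by
      funext ω; ring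
    have k1 : Integrable (fun ω => avg T r F ω ^ 2) P := hA.integrable_sq
    have k2 : Integrable (fun ω => F ω * avg T r F ω) P := hF2.integrable_mul hA
    have k3 : Integrable (fun ω => avg T r F ω ^ 2 - (2 * c) * (F ω * avg T r F ω)) P :=
      k1.sub (k2.const_mul _)
    rw [e, integral_add k3 (hF2.integrable_sq.const_mul _), integral_sub k1 (k2.const_mul _),
      integral_const_mul, integral_const_mul, hAA, hinner, ← hmdef, ← hc2]
    ring
  have hint : Integrable (fun ω => (avg T r F ω - c * F ω) ^ 2) P :=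
    (hA.sub (hF2.const_mul c)).integrable_sq
  have h0 := (integral_eq_zero_iff_of_nonneg (fun ω => sq_nonneg _) hint).1 hzero
  filter_upwards [h0] with ω hω
  have h1 : (avg T r F ω - c * F ω) ^ 2 = 0 := hω
  have h2 : avg T r F ω - c * F ω = 0 := by
    rcases pow_eq_zero_iff (two_ne_zero) |>.1 h1 with h
    exact h
  linarith

/-- **The kurtosis inequality for measure preserving actions.** -/
theorem IsFlow.kurtosis_of_helmholtz [IsProbabilityMeasure P] (H : IsFlow P T) {F : Ω → ℝ}
    (hm : Measurable F) (hF : Integrable (fun ω => F ω ^ 4) P)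
    (hH : ∀ᵐ ω ∂P, ContDiff ℝ 2 (fun x : E => F (T x ω)) ∧
      ∀ x : E, (Δ (fun x : E => F (T x ω))) x = -F (T x ω)) :
    (3 / 2 : ℝ) * (∫ ω, F ω ^ 2 ∂P) ^ 3 + (9 / 8 : ℝ) * (∫ ω, F ω ^ 3 ∂P) ^ 2
      ≤ (∫ ω, F ω ^ 4 ∂P) * ∫ ω, F ω ^ 2 ∂P :=
  H.kurtosis hm hF (H.isEigen hm hF hH)

end Berry67
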