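import Pool.Agent.Lib_helper67.Berry.Calc

/-!
Rigidity: a smooth solution of the Helmholtz equation with constant energy density
`ψ² + |∇ψ|²` is a plane wave.
-/

namespace Berry67

set_option linter.unusedSectionVars false

open InnerProductSpace Laplacian Filter Topology
open scoped ContDiff

variable {E : Type*} [NormedAddCommGroup E] [InnerProductSpace ℝ E] [FiniteDimensional ℝ E]

lemma D_mul {f g : E → ℝ} (hf : ContDiff ℝ ∞ f) (hg : ContDiff ℝ ∞ g) (v : E) :
    D v (fun x => f x * g x) = fun x => D v f x * g x + f x * D v g x := by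
  funext x
  have h1 := (hf.differentiable (by simp)) x
  have h2 := (hg.differentiable (by simp)) x
  simp only [D]
  rw [fderiv_fun_mul h1 h2]
  simp only [_root_.add_apply, _root_.smul_apply, smul_eq_mul]
  ring

lemma D_add {f g : E → ℝ} (hf : ContDiff ℝ ∞ f) (hg : ContDiff ℝ ∞ g) (v : E) :
    D v (fun x => f x + g x) = fun x => D v f x + D v g x := by
  funext x
  have h1 := (hf.differentiable (by simp)) x
  have h2 := (hg.differentiable (by simp)) x
  simp only [D]
  rw [fderiv_fun_add h1 h2]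
  simp

lemma D_sub {f g : E → ℝ} (hf : ContDiff ℝ ∞ f) (hg : ContDiff ℝ ∞ g) (v : E) :
    D v (fun x => f x - g x) = fun x => D v f x - D v g x := by
  funext x
  have h1 := (hf.differentiable (by simp)) x
  have h2 := (hg.differentiable (by simp)) x
  simp only [D]
  rw [fderiv_fun_sub h1 h2]
  simp

lemma D_const (c : ℝ) (v : E) : D v (fun _ : E => c) = fun _ => 0 := by
  funext x
  simp [D]

lemma D_const_mul {f : E → ℝ} (hf : ContDiff ℝ ∞ f) (c : ℝ) (v : E) :
    D v (fun x => c * f x) = fun x => c * D v f x := by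
  rw [D_mul contDiff_const hf, D_const]
  funext x
  ring

/-- derivative along a line -/
lemma hasDerivAt_line {f : E → ℝ} (hf : ContDiff ℝ ∞ f) (x v : E) (t : ℝ) :
    HasDerivAt (fun s : ℝ => f (x + s • v)) (D v f (x + t • v)) t := by
  have h1 : HasFDerivAt f (fderiv ℝ f (x + t • v)) (x + t • v) :=
    ((hf.differentiable (by simp)) _).hasFDerivAt
  have h3 : HasDerivAt (fun s : ℝ => x + s • v) v t := by
    simpa using ((hasDerivAt_id t).smul_const v).const_add x
  exact h1.comp_hasDerivAt t h3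

/-- solution of `h'' = -h` -/
lemma ode_cos {h h' : ℝ → ℝ} (h1 : ∀ t, HasDerivAt h (h' t) t) (h2 : ∀ t, HasDerivAt h' (-h t) t)
    (t : ℝ) : h t = h 0 * Real.cos t + h' 0 * Real.sin t := by
  set u : ℝ → ℝ := fun t => h t - (h 0 * Real.cos t + h' 0 * Real.sin t) with hu
  set u' : ℝ → ℝ := fun t => h' t - (-(h 0 * Real.sin t) + h' 0 * Real.cos t) with hu'
  have d1 : ∀ t, HasDerivAt u (u' t) t := by
    intro t
    have := (h1 t).sub (((Real.hasDerivAt_cos t).const_mul (h 0)).add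
      ((Real.hasDerivAt_sin t).const_mul (h' 0)))
    refine this.congr_deriv ?_
    simp only [hu']
    ring
  have d2 : ∀ t, HasDerivAt u' (-u t) t := by
    intro t
    have := (h2 t).sub ((((Real.hasDerivAt_sin t).const_mul (h 0)).neg).add
      ((Real.hasDerivAt_cos t).const_mul (h' 0)))
    refine this.congr_deriv ?_
    simp only [hu]
    ring
  have d3 : ∀ t, HasDerivAt (fun t => u t * u t + u' t * u' t) 0 t := by
    intro t
    have := ((d1 t).mul (d1 t)).add ((d2 t).mul (d2 t))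
    refine this.congr_deriv ?_
    ring
  have d4 : ∀ t s, (fun t => u t * u t + u' t * u' t) t = (fun t => u t * u t + u' t * u' t) s :=
    fun t s => is_const_of_deriv_eq_zero (fun x => (d3 x).differentiableAt)
      (fun x => (d3 x).deriv) t s
  have h0 := d4 t 0
  have u0 : u 0 = 0 := by simp [hu]
  have u0' : u' 0 = 0 := by simp [hu']
  simp only [u0, u0', mul_zero, add_zero] at h0
  have : u t = 0 := by nlinarith [mul_self_nonneg (u t), mul_self_nonneg (u' t)]
  simp only [hu] at this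
  linarith

/-- **Rigidity.** -/
theorem plane_wave_of_const {ψ : E → ℝ} (hψ : Helm ψ) {A : ℝ} (hA : 0 < A)
    (hS : ∀ x, ψ x ^ 2 + ∑ j, D (bE E j) ψ x ^ 2 = A ^ 2) :
    ∃ (k : E) (θ : ℝ), ‖k‖ = 1 ∧ ∀ x, ψ x = A * Real.cos (⟪k, x⟫_ℝ + θ) := by
  have s0 := hψ.1
  have s1 : ∀ v, ContDiff ℝ ∞ (D v ψ) := fun v => contDiff_D s0 v
  have s2 : ∀ v w, ContDiff ℝ ∞ (D v (D w ψ)) := fun v w => contDiff_D (s1 w) v
  have hlap : ∀ x, ∑ i, D (bE E i) (D (bE E i) ψ) x = -ψ x := fun x => by
    rw [← laplacian_eq_sum_D s0]; exact hψ.2 x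
  have hlap1 : ∀ j x, ∑ i, D (bE E i) (D (bE E i) (D (bE E j) ψ)) x = -D (bE E j) ψ x := fun j x => by
    rw [← laplacian_eq_sum_D (s1 _)]; exact (hψ.D (bE E j)).2 x
  -- first derivative of the energy
  have hP : ∀ v x, ψ x * D v ψ x + ∑ j, D v (D (bE E j) ψ) x * D (bE E j) ψ x = 0 := by
    intro v x
    have e : (fun x => ψ x * ψ x + ∑ j, D (bE E j) ψ x * D (bE E j) ψ x) = fun _ => A ^ 2 := by
      funext x
      rw [← hS x]
      simp only [pow_two]
    have e2 := congrArg (D v) e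
    have sj : ∀ j, ContDiff ℝ ∞ (fun x => D (bE E j) ψ x * D (bE E j) ψ x) := fun j =>
      (s1 _).mul (s1 _)
    rw [D_const, D_add (s0.mul s0) (ContDiff.sum fun j _ => sj j), D_mul s0 s0,
      D_add_fun _ _ sj] at e2
    have e3 := congrFun e2 x
    simp only [D_mul (s1 _) (s1 _)] at e3
    have e4 : ∀ j, D v (D (bE E j) ψ) x * D (bE E j) ψ x + D (bE E j) ψ x * D v (D (bE E j) ψ) x
        = 2 * (D v (D (bE E j) ψ) x * D (bE E j) ψ x) := fun j => by ring
    simp only [e4, ← Finset.mul_sum] at e3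
    linarith
  -- trace of the second derivative
  have hH : ∀ x, ∑ i, ∑ j, D (bE E i) (D (bE E j) ψ) x ^ 2 = ψ x ^ 2 := by
    intro x
    have sij : ∀ i j, ContDiff ℝ ∞ (fun x => D (bE E i) (D (bE E j) ψ) x * D (bE E j) ψ x) := fun i j =>
      (s2 _ _).mul (s1 _)
    have e1 : ∀ i, D (bE E i) ψ x ^ 2 + ψ x * D (bE E i) (D (bE E i) ψ) x
        + ∑ j, (D (bE E i) (D (bE E i) (D (bE E j) ψ)) x * D (bE E j) ψ x + D (bE E i) (D (bE E j) ψ) x ^ 2) = 0 := by
      intro i
      have e : (fun x => ψ x * D (bE E i) ψ x + ∑ j, D (bE E i) (D (bE E j) ψ) x * D (bE E j) ψ x)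
          = fun _ => 0 := funext (hP (bE E i))
      have e2 := congrArg (D (bE E i)) e
      rw [D_const, D_add (s0.mul (s1 _)) (ContDiff.sum fun j _ => sij i j), D_mul s0 (s1 _),
        D_add_fun _ _ (sij i)] at e2
      have e3 := congrFun e2 x
      simp only [D_mul (s2 _ _) (s1 _)] at e3
      rw [← e3]
      congr 1
      · ring
      · refine Finset.sum_congr rfl fun j _ => ?_
        ring
    have e2 : ∑ i, (D (bE E i) ψ x ^ 2 + ψ x * D (bE E i) (D (bE E i) ψ) x
        + ∑ j, (D (bE E i) (D (bE E i) (D (bE E j) ψ)) x * D (bE E j) ψ x + D (bE E i) (D (bE E j) ψ) x ^ 2)) = 0 :=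
      Finset.sum_eq_zero fun i _ => e1 i
    simp only [Finset.sum_add_distrib, ← Finset.mul_sum, hlap] at e2
    rw [Finset.sum_comm (f := fun i j => D (bE E i) (D (bE E i) (D (bE E j) ψ)) x * D (bE E j) ψ x)] at e2
    simp only [← Finset.sum_mul, hlap1] at e2
    have e3 : ∀ j, -D (bE E j) ψ x * D (bE E j) ψ x = -D (bE E j) ψ x ^ 2 := fun j => by ring
    simp only [e3, Finset.sum_neg_distrib] at e2
    linarith
  have hY : ∀ x, ∑ j, D (bE E j) ψ x ^ 2 = A ^ 2 - ψ x ^ 2 := fun x => by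
    have := hS x; linarith
  -- the Hessian identity
  have hM : ∀ x i j, (A ^ 2 - ψ x ^ 2) * D (bE E i) (D (bE E j) ψ) x
      = -(ψ x * (D (bE E i) ψ x * D (bE E j) ψ x)) := by
    intro x i j
    set Y := A ^ 2 - ψ x ^ 2 with hYd
    have e1 : ∑ i, ∑ j, (Y * D (bE E i) (D (bE E j) ψ) x + ψ x * (D (bE E i) ψ x * D (bE E j) ψ x)) ^ 2 = 0 := by
      have e2 : ∀ i j, (Y * D (bE E i) (D (bE E j) ψ) x + ψ x * (D (bE E i) ψ x * D (bE E j) ψ x)) ^ 2
          = Y ^ 2 * D (bE E i) (D (bE E j) ψ) x ^ 2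
            + (2 * Y * ψ x * D (bE E i) ψ x) * (D (bE E i) (D (bE E j) ψ) x * D (bE E j) ψ x)
            + (ψ x ^ 2 * D (bE E i) ψ x ^ 2) * D (bE E j) ψ x ^ 2 := fun i j => by ring
      simp only [e2, Finset.sum_add_distrib, ← Finset.mul_sum]
      have e3 : ∀ i, ∑ j, D (bE E i) (D (bE E j) ψ) x * D (bE E j) ψ x = -(ψ x * D (bE E i) ψ x) := fun i => by
        have := hP (bE E i) x; linarith
      simp only [e3, hY, hH, ← hYd, ← Finset.sum_mul, ← Finset.mul_sum]
      have e4 : ∀ i, 2 * Y * ψ x * D (bE E i) ψ x * -(ψ x * D (bE E i) ψ x)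
          = -(2 * Y * ψ x ^ 2) * D (bE E i) ψ x ^ 2 := fun i => by ring
      simp only [e4, ← Finset.mul_sum, hY, ← hYd]
      ring
    have e5 := (Finset.sum_eq_zero_iff_of_nonneg (fun i _ => Finset.sum_nonneg fun j _ =>
      sq_nonneg _)).1 e1 i (Finset.mem_univ i)
    have e6 := (Finset.sum_eq_zero_iff_of_nonneg (fun j _ => sq_nonneg _)).1 e5 j (Finset.mem_univ j)
    have e7 := pow_eq_zero_iff (two_ne_zero) |>.1 e6
    linarith
  -- density of the noncritical set
  have hdense : Dense {x : E | A ^ 2 - ψ x ^ 2 ≠ 0} := by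
    intro x
    by_contra hx
    have h1 : ∀ᶠ y in 𝓝 x, A ^ 2 - ψ y ^ 2 = 0 := by
      have : (closure {x : E | A ^ 2 - ψ x ^ 2 ≠ 0})ᶜ ∈ 𝓝 x :=
        isClosed_closure.isOpen_compl.mem_nhds hx
      filter_upwards [this] with y hy
      by_contra hne
      exact hy (subset_closure hne)
    have h2 : ∀ j, ∀ᶠ y in 𝓝 x, D (bE E j) ψ y = 0 := by
      intro j
      filter_upwards [h1] with y hy
      have h3 := hY y
      rw [hy] at h3
      have h4 := (Finset.sum_eq_zero_iff_of_nonneg (fun i _ => sq_nonneg _)).1 h3 j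
        (Finset.mem_univ j)
      exact pow_eq_zero_iff (two_ne_zero) |>.1 h4
    have h3 : ∀ j, D (bE E j) (D (bE E j) ψ) x = 0 := by
      intro j
      have : (D (bE E j) ψ) =ᶠ[𝓝 x] fun _ => 0 := h2 j
      change fderiv ℝ (D (bE E j) ψ) x (bE E j) = 0
      rw [this.fderiv_eq]
      simp
    have h4 := hlap x
    simp only [h3, Finset.sum_const_zero] at h4
    have h5 := h1.self_of_nhds
    have h6 : ψ x = 0 := by linarith
    rw [h6] at h5
    have : A ^ 2 = 0 := by linarith
    exact (pow_pos hA 2).ne' this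
  -- the tensor `T`
  set Tn : Fin (Module.finrank ℝ E) → Fin (Module.finrank ℝ E) → E → ℝ := fun i j x =>
    D (bE E i) ψ x * D (bE E j) ψ x - ψ x * D (bE E i) (D (bE E j) ψ) x with hTn
  have sT : ∀ i j, ContDiff ℝ ∞ (Tn i j) := fun i j =>
    ((s1 _).mul (s1 _)).sub (s0.mul (s2 _ _))
  have hMfun : ∀ i j, (fun x => (A ^ 2 - ψ x * ψ x) * D (bE E i) (D (bE E j) ψ) x)
      = fun x => (-1) * (ψ x * (D (bE E i) ψ x * D (bE E j) ψ x)) := by
    intro i j
    funext x
    have := hM x i j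
    rw [← pow_two, this]; ring
  have hDT : ∀ (l i j) (x : E), D (bE E l) (Tn i j) x = 0 := by
    intro l i j
    have hz : ∀ x, x ∈ {x : E | A ^ 2 - ψ x ^ 2 ≠ 0} → D (bE E l) (Tn i j) x = 0 := by
      intro x hx
      have e1 : D (bE E l) (Tn i j) x
          = D (bE E l) (D (bE E i) ψ) x * D (bE E j) ψ x + D (bE E i) ψ x * D (bE E l) (D (bE E j) ψ) x
            - (D (bE E l) ψ x * D (bE E i) (D (bE E j) ψ) x
              + ψ x * D (bE E l) (D (bE E i) (D (bE E j) ψ)) x) := by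
        have := D_sub ((s1 (bE E i)).mul (s1 (bE E j))) (s0.mul (s2 (bE E i) (bE E j))) (bE E l)
        rw [D_mul (s1 _) (s1 _), D_mul s0 (s2 _ _)] at this
        exact congrFun this x
      have e2 := congrArg (D (bE E l)) (hMfun i j)
      have sA : ContDiff ℝ ∞ (fun x => A ^ 2 - ψ x * ψ x) := contDiff_const.sub (s0.mul s0)
      rw [D_mul sA (s2 _ _), D_sub contDiff_const (s0.mul s0), D_const, D_mul s0 s0,
        D_const_mul (s0.mul ((s1 _).mul (s1 _))), D_mul s0 ((s1 _).mul (s1 _)),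
        D_mul (s1 _) (s1 _)] at e2
      have e3 := congrFun e2 x
      simp only at e3
      have m1 := hM x i j
      have m2 := hM x l i
      have m3 := hM x l j
      have hne : A ^ 2 - ψ x ^ 2 ≠ 0 := hx
      set Y := A ^ 2 - ψ x ^ 2 with hYd
      have hY2 : A ^ 2 - ψ x * ψ x = Y := by rw [hYd]; ring
      rw [hY2] at e3
      have key : Y ^ 2 * D (bE E l) (Tn i j) x = 0 := by
        rw [e1]
        linear_combination (-(Y * D (bE E l) ψ x) - 2 * ψ x ^ 2 * D (bE E l) ψ x) * m1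
          + (Y * D (bE E j) ψ x + ψ x ^ 2 * D (bE E j) ψ x) * m2
          + (Y * D (bE E i) ψ x + ψ x ^ 2 * D (bE E i) ψ x) * m3 - ψ x * Y * e3
      rcases mul_eq_zero.1 key with h | h
      · exact absurd (pow_eq_zero_iff two_ne_zero |>.1 h) hne
      · exact h
    have hc1 : Continuous (D (bE E l) (Tn i j)) := (contDiff_D (sT i j) _).continuous
    have := hc1.ext_on hdense continuous_const (g := fun _ => (0 : ℝ)) hz
    exact fun x => congrFun this x
  have hTconst : ∀ i j (x y : E), Tn i j x = Tn i j y := by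
    intro i j x y
    apply is_const_of_fderiv_eq_zero (𝕜 := ℝ) ((sT i j).differentiable (by simp))
    intro z
    apply ContinuousLinearMap.ext
    intro w
    have e : fderiv ℝ (Tn i j) z w = ∑ l, (bE E).repr w l * fderiv ℝ (Tn i j) z (bE E l) := by
      conv_lhs => rw [← (bE E).sum_repr w]
      simp only [map_sum, map_smul, smul_eq_mul]
    rw [e]
    refine Finset.sum_eq_zero fun l _ => ?_
    have := hDT l i j z
    simp only [D] at this
    rw [this, mul_zero]
  have hTY : ∀ i j x, (A ^ 2 - ψ x ^ 2) * Tn i j x = A ^ 2 * (D (bE E i) ψ x * D (bE E j) ψ x) := by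
    intro i j x
    have := hM x i j
    simp only [hTn]
    linear_combination (-ψ x) * this
  -- base point
  obtain ⟨x0, hx0⟩ : ∃ x0 : E, A ^ 2 - ψ x0 ^ 2 ≠ 0 := by
    obtain ⟨x0, hx0, _⟩ := hdense.exists_mem_open isOpen_univ ⟨(0 : E), trivial⟩
    exact ⟨x0, hx0⟩
  set y0 := A ^ 2 - ψ x0 ^ 2 with hy0
  have hy0pos : 0 < y0 := by
    have h1 : 0 ≤ y0 := by
      rw [hy0, ← hY x0]; exact Finset.sum_nonneg fun _ _ => sq_nonneg _
    exact lt_of_le_of_ne h1 (Ne.symm hx0)
  set c := Real.sqrt y0 with hc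
  have hc0 : 0 < c := Real.sqrt_pos.2 hy0pos
  have hcc : c * c = y0 := Real.mul_self_sqrt hy0pos.le
  set κ : Fin (Module.finrank ℝ E) → ℝ := fun i => D (bE E i) ψ x0 / c with hκ
  have hκ1 : ∑ i, κ i ^ 2 = 1 := by
    simp only [hκ, div_pow]
    rw [← Finset.sum_div, hY x0, ← hy0, pow_two c, hcc, div_self hy0pos.ne']
  have hvv : ∀ i j x, D (bE E i) ψ x * D (bE E j) ψ x = (A ^ 2 - ψ x ^ 2) * (κ i * κ j) := by
    intro i j x
    have h1 := hTY i j x
    rw [hTconst i j x x0] at h1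
    have h2 := hTY i j x0
    rw [← hy0] at h2
    have h3 : κ i * κ j = D (bE E i) ψ x0 * D (bE E j) ψ x0 / y0 := by
      simp only [hκ]; rw [div_mul_div_comm, hcc]
    have h4 : Tn i j x0 = A ^ 2 * (κ i * κ j) := by
      rw [h3]
      field_simp
      linarith
    rw [h4] at h1
    have hA2 : A ^ 2 ≠ 0 := (pow_pos hA 2).ne'
    have h5 : A ^ 2 * (D (bE E i) ψ x * D (bE E j) ψ x) = A ^ 2 * ((A ^ 2 - ψ x ^ 2) * (κ i * κ j)) := by
      linarith
    exact mul_left_cancel₀ hA2 h5
  set k : E := ∑ i, κ i • bE E i with hk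
  have hkin : ∀ i, ⟪bE E i, k⟫_ℝ = κ i := by
    intro i
    rw [hk, inner_sum]
    simp only [inner_smul_right, orthonormal_iff_ite.1 (bE E).orthonormal]
    simp
  have hknorm : ‖k‖ = 1 := by
    have h1 : ‖k‖ ^ 2 = 1 := by
      rw [← (bE E).sum_sq_norm_inner_right k]
      simp only [hkin, Real.norm_eq_abs, sq_abs]
      exact hκ1
    have h2 := norm_nonneg k
    nlinarith
  -- the derivative in a general direction
  have hDw : ∀ (w x : E) (f : E → ℝ), D w f x = ∑ i, ⟪bE E i, w⟫_ℝ * D (bE E i) f x := by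
    intro w x f
    simp only [D]
    conv_lhs => rw [← (bE E).sum_repr w]
    simp only [map_sum, map_smul, smul_eq_mul, OrthonormalBasis.repr_apply_apply]
  have hDk : ∀ x, D k ψ x = ∑ j, κ j * D (bE E j) ψ x := by
    intro x
    rw [hDw k x ψ]
    simp only [hkin]
  have hDi : ∀ i x, D (bE E i) ψ x = κ i * D k ψ x := by
    intro i x
    set s := D k ψ x with hs
    have e1 : D (bE E i) ψ x * s = (A ^ 2 - ψ x ^ 2) * κ i := by
      rw [hs, hDk, Finset.mul_sum]
      have : ∀ j, D (bE E i) ψ x * (κ j * D (bE E j) ψ x) = (A ^ 2 - ψ x ^ 2) * κ i * κ j ^ 2 := by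
        intro j
        have := hvv i j x
        linear_combination κ j * this
      simp only [this, ← Finset.mul_sum, hκ1, mul_one]
    have e2 : s * s = A ^ 2 - ψ x ^ 2 := by
      conv_lhs => rw [hs]
      rw [hDk x, Finset.sum_mul]
      rw [← hDk x, ← hs]
      have : ∀ j, κ j * D (bE E j) ψ x * s = (A ^ 2 - ψ x ^ 2) * κ j ^ 2 := by
        intro j
        have e3 : D (bE E j) ψ x * s = (A ^ 2 - ψ x ^ 2) * κ j := by
          rw [hs, hDk, Finset.mul_sum]
          have : ∀ l, D (bE E j) ψ x * (κ l * D (bE E l) ψ x) = (A ^ 2 - ψ x ^ 2) * κ j * κ l ^ 2 := by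
            intro l
            have := hvv j l x
            linear_combination κ l * this
          simp only [this, ← Finset.mul_sum, hκ1, mul_one]
        linear_combination κ j * e3
      simp only [this, ← Finset.mul_sum, hκ1, mul_one]
    have e3 := hvv i i x
    have e4 : (D (bE E i) ψ x - κ i * s) * (D (bE E i) ψ x - κ i * s) = 0 := by
      linear_combination e3 - 2 * κ i * e1 + κ i ^ 2 * e2
    have := mul_self_eq_zero.1 e4
    linarith
  have hDwk : ∀ w x, D w ψ x = ⟪k, w⟫_ℝ * D k ψ x := by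
    intro w x
    rw [hDw w x ψ]
    have : ∀ i, ⟪bE E i, w⟫_ℝ * D (bE E i) ψ x = κ i * ⟪bE E i, w⟫_ℝ * D k ψ x := by
      intro i
      rw [hDi i x]; ring
    simp only [this, ← Finset.sum_mul]
    congr 1
    rw [hk, sum_inner]
    simp only [inner_smul_left, RCLike.conj_to_real]
  -- reduction to one variable
  have hred : ∀ x, ψ x = ψ (⟪k, x⟫_ℝ • k) := by
    intro x
    set w := x - ⟪k, x⟫_ℝ • k with hw
    have hkw : ⟪k, w⟫_ℝ = 0 := by
      rw [hw, inner_sub_right, inner_smul_right, real_inner_self_eq_norm_sq, hknorm]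
      ring
    have h1 : ∀ t, HasDerivAt (fun s : ℝ => ψ (⟪k, x⟫_ℝ • k + s • w)) 0 t := by
      intro t
      have := hasDerivAt_line s0 (⟪k, x⟫_ℝ • k) w t
      rw [hDwk, hkw, zero_mul] at this
      exact this
    have h2 := is_const_of_deriv_eq_zero (fun t => (h1 t).differentiableAt)
      (fun t => (h1 t).deriv) 1 0
    simp only [one_smul, zero_smul, add_zero] at h2
    rw [← h2, hw, add_sub_cancel]
  have hkk : ∀ x, D k (D k ψ) x = -ψ x := by
    intro x
    rw [← hlap x]
    have e1 : ∀ i, D (bE E i) ψ = fun x => κ i * D k ψ x := fun i => funext (hDi i)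
    have e2 : ∀ i, D (bE E i) (D (bE E i) ψ) x = κ i ^ 2 * D k (D k ψ) x := by
      intro i
      rw [e1 i, D_const_mul (s1 k), D_comm s0 (bE E i) k, e1 i, D_const_mul (s1 k)]
      ring
    simp only [e2, ← Finset.sum_mul, hκ1, one_mul]
  set h : ℝ → ℝ := fun t => ψ (0 + t • k) with hh
  set h' : ℝ → ℝ := fun t => D k ψ (0 + t • k) with hh'
  have o1 : ∀ t, HasDerivAt h (h' t) t := fun t => hasDerivAt_line s0 0 k t
  have o2 : ∀ t, HasDerivAt h' (-h t) t := by
    intro t
    have := hasDerivAt_line (s1 k) 0 k t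
    rw [hkk] at this
    exact this
  have hsol := ode_cos o1 o2
  -- amplitude
  have hamp : h 0 ^ 2 + h' 0 ^ 2 = A ^ 2 := by
    have e1 := hS (0 + (0 : ℝ) • k)
    have e2 : ∑ j, D (bE E j) ψ (0 + (0 : ℝ) • k) ^ 2 = h' 0 ^ 2 := by
      simp only [hDi, mul_pow, ← Finset.sum_mul, hκ1, one_mul, hh']
    rw [e2] at e1
    exact e1
  -- phase
  set z : ℂ := ⟨h 0, -h' 0⟩ with hz
  have hznorm : ‖z‖ = A := by
    have : ‖z‖ ^ 2 = A ^ 2 := by
      rw [← Complex.normSq_eq_norm_sq, Complex.normSq_mk]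
      rw [← hamp]; ring
    have h1 := norm_nonneg z
    nlinarith [sq_nonneg (‖z‖ - A)]
  refine ⟨k, Complex.arg z, hknorm, fun x => ?_⟩
  have hre : h 0 = A * Real.cos (Complex.arg z) := by
    rw [← hznorm, Complex.norm_mul_cos_arg]
  have him : -h' 0 = A * Real.sin (Complex.arg z) := by
    rw [← hznorm, Complex.norm_mul_sin_arg]
  have e1 : ψ x = h (⟪k, x⟫_ℝ) := by
    rw [hred x]
    simp only [hh, zero_add]
  rw [e1, hsol, Real.cos_add, hre]
  have him' : h' 0 = -(A * Real.sin (Complex.arg z)) := by linarith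
  rw [him']
  ring

end Berry67
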