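import Pool.Agent.Lib_helper67.Berry.Smooth
import Pool.Agent.Lib_helper67.Berry.Rigid

/-!
Even moments of stationary solutions of the Helmholtz equation.
-/

namespace Berry67

set_option linter.unusedSectionVars false

open MeasureTheory ProbabilityTheory Filter Topology InnerProductSpace Laplacian

variable {E : Type*} [NormedAddCommGroup E] [InnerProductSpace ℝ E] [FiniteDimensional ℝ E]
  [MeasurableSpace E] [BorelSpace E]
variable {Ω : Type*} [MeasurableSpace Ω] {P : Measure Ω}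

/-- the law of a stationary field on the space of smooth solutions -/
theorem exists_law_smooth [IsProbabilityMeasure P] (F : E → Ω → ℝ) (hm : ∀ x, Measurable (F x))
    (hstat : ∀ v : E, IdentDistrib (fun ω x => F (x + v) ω) (fun ω x => F x ω) P P)
    (hH : ∀ᵐ ω ∂P, Helm (fun x => F x ω)) :
    ∃ Q : Measure (SPath E), IsProbabilityMeasure Q ∧
      IsFlow Q (sshift : E → SPath E → SPath E) ∧
      ∃ Φ : Ω → SPath E, MeasurePreserving Φ P Q ∧ ∀ᵐ ω ∂P, ∀ x, (Φ ω).1 x = F x ω := by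
  classical
  -- measurable null set
  set bad : Set Ω := toMeasurable P {w | ¬ Helm (fun x => F x w)} with hbad
  have hbadm : MeasurableSet bad := measurableSet_toMeasurable _ _
  have hbad0 : P bad = 0 := by rw [hbad, measure_toMeasurable]; exact hH
  have hgood : ∀ ω, ω ∉ bad → Helm (fun x => F x ω) := by
    intro ω hω
    by_contra hne
    exact hω (subset_toMeasurable _ _ hne)
  have hzero : Helm (fun _ : E => (0 : ℝ)) := by
    refine ⟨contDiff_const, fun x => ?_⟩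
    simp [laplacian_const]
  let Φ : Ω → SPath E := fun ω => if h : ω ∈ bad then ⟨fun _ => 0, hzero⟩
    else ⟨fun x => F x ω, hgood ω h⟩
  have hΦval : ∀ ω x, (Φ ω).1 x = if ω ∈ bad then 0 else F x ω := by
    intro ω x
    by_cases h : ω ∈ bad
    · simp [Φ, h]
    · simp [Φ, h]
  have hΦm : Measurable Φ := by
    have h1 : Measurable (fun ω => ((Φ ω).1 : E → ℝ)) := by
      refine measurable_pi_iff.2 fun x => ?_
      simp_rw [hΦval]
      exact Measurable.ite hbadm measurable_const (hm x)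
    exact Measurable.subtype_mk h1
  have hae : ∀ᵐ ω ∂P, ∀ x, (Φ ω).1 x = F x ω := by
    have : ∀ᵐ ω ∂P, ω ∉ bad := by rw [ae_iff]; simpa using hbad0
    filter_upwards [this] with ω hω
    intro x
    rw [hΦval, if_neg hω]
  refine ⟨P.map Φ, Measure.isProbabilityMeasure_map hΦm.aemeasurable, ⟨measurable_sshift, ?_, ?_, ?_⟩,
    Φ, ⟨hΦm, rfl⟩, hae⟩
  · intro v
    have hsm : Measurable (sshift v : SPath E → SPath E) :=
      measurable_sshift.comp (measurable_const.prodMk measurable_id)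
    refine ⟨hsm, ?_⟩
    ext A hA
    obtain ⟨B, hB, rfl⟩ := hA
    rw [Measure.map_apply hsm ⟨B, hB, rfl⟩, Measure.map_apply hΦm (hsm ⟨B, hB, rfl⟩),
      Measure.map_apply hΦm ⟨B, hB, rfl⟩]
    have h1 : P (Φ ⁻¹' (sshift v ⁻¹' (Subtype.val ⁻¹' B)))
        = P ((fun ω x => F (x + v) ω) ⁻¹' B) := by
      apply measure_congr
      filter_upwards [hae] with ω hω
      have : (fun x => F (x + v) ω) = ((sshift v (Φ ω)).1 : E → ℝ) := by
        funext x; exact (hω (x + v)).symm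
      apply propext
      change (sshift v (Φ ω)).1 ∈ B ↔ (fun x => F (x + v) ω) ∈ B
      rw [this]
    have h2 : P (Φ ⁻¹' (Subtype.val ⁻¹' B)) = P ((fun ω x => F x ω) ⁻¹' B) := by
      apply measure_congr
      filter_upwards [hae] with ω hω
      have : (fun x => F x ω) = ((Φ ω).1 : E → ℝ) := by
        funext x; exact (hω x).symm
      apply propext
      change (Φ ω).1 ∈ B ↔ (fun x => F x ω) ∈ B
      rw [this]
    exact h1.trans (((hstat v).measure_mem_eq hB).trans h2.symm)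
  · intro x y f
    apply Subtype.ext
    funext z
    simp only [sshift]
    rw [add_assoc]
  · intro f
    apply Subtype.ext
    funext z
    simp only [sshift, add_zero]

/-! ### equality on path space -/

lemma D_cos (k : E) (A θ : ℝ) (w : E) :
    D w (fun x => A * Real.cos (⟪k, x⟫_ℝ + θ)) = fun x => -(A * ⟪k, w⟫_ℝ) * Real.sin (⟪k, x⟫_ℝ + θ) := by
  funext x
  have h1 : HasFDerivAt (fun x : E => ⟪k, x⟫_ℝ + θ) (innerSL ℝ k) x :=
    (innerSL ℝ k).hasFDerivAt.add_const θ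
  have h2 := (h1.cos).const_mul A
  simp only [D]
  rw [h2.fderiv]
  simp
  ring

lemma D_sin (k : E) (A θ : ℝ) (w : E) :
    D w (fun x => A * Real.sin (⟪k, x⟫_ℝ + θ)) = fun x => (A * ⟪k, w⟫_ℝ) * Real.cos (⟪k, x⟫_ℝ + θ) := by
  funext x
  have h1 : HasFDerivAt (fun x : E => ⟪k, x⟫_ℝ + θ) (innerSL ℝ k) x :=
    (innerSL ℝ k).hasFDerivAt.add_const θ
  have h2 := (h1.sin).const_mul A
  simp only [D]
  rw [h2.fderiv]
  simp
  ring

/-- the defect vanishes on plane waves -/
lemma Wf_plane_wave (n : ℕ) {f : SPath E} {k : E} (hk : ‖k‖ = 1) {A θ : ℝ}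
    (hf : ∀ x, f.1 x = A * Real.cos (⟪k, x⟫_ℝ + θ)) :
    energyDensity f = A ^ 2 ∧ Wf n (ev0 f) (fun j => ev0 (dmap (bE E j) f))
      (fun i j => ev0 (dmap (bE E i) (dmap (bE E j) f))) = 0 := by
  have hf' : f.1 = fun x => A * Real.cos (⟪k, x⟫_ℝ + θ) := funext hf
  set κ : Fin (Module.finrank ℝ E) → ℝ := fun i => ⟪k, bE E i⟫_ℝ with hκ
  have hκ1 : ∑ i, κ i ^ 2 = 1 := by
    have h1 := (bE E).sum_sq_norm_inner_left k
    rw [hk, one_pow] at h1
    rw [← h1]
    refine Finset.sum_congr rfl fun i _ => ?_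
    rw [Real.norm_eq_abs, sq_abs]
  have h0 : ev0 f = A * Real.cos θ := by
    simp only [ev0, hf, inner_zero_right, zero_add]
  have h1 : ∀ j, (dmap (bE E j) f).1 = fun x => -(A * κ j) * Real.sin (⟪k, x⟫_ℝ + θ) := by
    intro j
    simp only [dmap]
    rw [hf', D_cos]
  have h1' : ∀ j, ev0 (dmap (bE E j) f) = -(A * κ j) * Real.sin θ := by
    intro j
    simp only [ev0, h1, inner_zero_right, zero_add]
  have h2' : ∀ i j, ev0 (dmap (bE E i) (dmap (bE E j) f)) = -(A * κ i * κ j) * Real.cos θ := by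
    intro i j
    have : (dmap (bE E i) (dmap (bE E j) f)).1
        = fun x => (-(A * κ j) * κ i) * Real.cos (⟪k, x⟫_ℝ + θ) := by
      have e : (dmap (bE E i) (dmap (bE E j) f)).1 = D (bE E i) (dmap (bE E j) f).1 := rfl
      rw [e, h1, D_sin]
    simp only [ev0, this, inner_zero_right, zero_add]
    ring
  have hcs := Real.sin_sq_add_cos_sq θ
  have hS : Sf (ev0 f) (fun j => ev0 (dmap (bE E j) f)) = A ^ 2 := by
    simp only [Sf, h0, h1']
    have : ∀ j, (-(A * κ j) * Real.sin θ) ^ 2 = (A ^ 2 * Real.sin θ ^ 2) * κ j ^ 2 := fun j => by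
      ring
    simp only [this, ← Finset.mul_sum, hκ1]
    linear_combination A ^ 2 * hcs
  refine ⟨hS, ?_⟩
  have hMv : ∀ i, ∑ j, ev0 (dmap (bE E i) (dmap (bE E j) f)) * ev0 (dmap (bE E j) f)
      = A ^ 2 * Real.sin θ * Real.cos θ * κ i := by
    intro i
    simp only [h2', h1']
    have : ∀ j, -(A * κ i * κ j) * Real.cos θ * (-(A * κ j) * Real.sin θ)
        = (A ^ 2 * Real.sin θ * Real.cos θ * κ i) * κ j ^ 2 := fun j => by ring
    simp only [this, ← Finset.mul_sum, hκ1, mul_one]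
  have hP : ∀ i, Pf (ev0 f) (fun j => ev0 (dmap (bE E j) f))
      (fun i j => ev0 (dmap (bE E i) (dmap (bE E j) f))) i = 0 := by
    intro i
    simp only [Pf]
    rw [hMv, h0, h1']
    ring
  have hMM : ∑ i, ∑ j, ev0 (dmap (bE E i) (dmap (bE E j) f)) ^ 2 = A ^ 2 * Real.cos θ ^ 2 := by
    simp only [h2']
    have : ∀ i j, (-(A * κ i * κ j) * Real.cos θ) ^ 2
        = (A ^ 2 * Real.cos θ ^ 2 * κ i ^ 2) * κ j ^ 2 := fun i j => by ring
    simp only [this, ← Finset.mul_sum, hκ1, mul_one]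
  have hMv2 : ∑ i, (∑ j, ev0 (dmap (bE E i) (dmap (bE E j) f)) * ev0 (dmap (bE E j) f)) ^ 2
      = A ^ 4 * Real.sin θ ^ 2 * Real.cos θ ^ 2 := by
    simp only [hMv]
    have : ∀ i, (A ^ 2 * Real.sin θ * Real.cos θ * κ i) ^ 2
        = (A ^ 4 * Real.sin θ ^ 2 * Real.cos θ ^ 2) * κ i ^ 2 := fun i => by ring
    simp only [this, ← Finset.mul_sum, hκ1, mul_one]
  unfold Wf
  rw [hS, hMM, hMv2]
  have e : (A ^ 2 - ev0 f ^ 2) * (A ^ 2 * Real.cos θ ^ 2)
      - A ^ 4 * Real.sin θ ^ 2 * Real.cos θ ^ 2 = 0 := by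
    rw [h0]
    linear_combination (-(A ^ 4 * Real.cos θ ^ 2)) * hcs
  have e2 : ∑ i, Pf (ev0 f) (fun j => ev0 (dmap (bE E j) f))
      (fun i j => ev0 (dmap (bE E i) (dmap (bE E j) f))) i ^ 2 = 0 :=
    Finset.sum_eq_zero fun i _ => by rw [hP i]; ring
  rw [e, e2]
  ring

lemma energyDensity_sshift (f : SPath E) (x : E) :
    energyDensity (sshift x f) = f.1 x ^ 2 + ∑ j, D (bE E j) f.1 x ^ 2 := by
  simp only [energyDensity, Sf, ev0_sshift]
  congr 1
  refine Finset.sum_congr rfl fun j _ => ?_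
  rw [dmap_sshift, ev0_sshift]
  rfl

lemma measurable_energyDensity : Measurable (energyDensity : SPath E → ℝ) :=
  (isJet_path E).mS

/-- if the energy density is almost surely constant, the field is a plane wave -/
lemma plane_wave_of_ae_const {Q : Measure (SPath E)} [IsProbabilityMeasure Q]
    (H : IsFlow Q (sshift : E → SPath E → SPath E)) {a : ℝ} (ha : 0 < a)
    (hS : ∀ᵐ f ∂Q, energyDensity f = a) :
    ∀ᵐ f ∂Q, ∃ (k : E) (θ : ℝ), ‖k‖ = 1 ∧
      ∀ x, f.1 x = Real.sqrt a * Real.cos (⟪k, x⟫_ℝ + θ) := by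
  have h1 : ∀ᵐ f ∂Q, ∀ m : ℕ, energyDensity (sshift (TopologicalSpace.denseSeq E m) f) = a := by
    rw [ae_all_iff]
    intro m
    exact (H.mp _).quasiMeasurePreserving.ae hS
  filter_upwards [h1] with f hf
  have hcont : Continuous fun x : E => f.1 x ^ 2 + ∑ j, D (bE E j) f.1 x ^ 2 := by
    refine (f.2.1.continuous.pow 2).add ?_
    exact continuous_finsetSum _ fun j _ => ((contDiff_D f.2.1 _).continuous).pow 2
  have h2 : (fun x : E => f.1 x ^ 2 + ∑ j, D (bE E j) f.1 x ^ 2) = fun _ => a := by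
    refine hcont.ext_on (TopologicalSpace.denseRange_denseSeq E) continuous_const ?_
    rintro x ⟨m, rfl⟩
    have := hf m
    rw [energyDensity_sshift] at this
    exact this
  have hsq : Real.sqrt a ^ 2 = a := Real.sq_sqrt ha.le
  exact plane_wave_of_const f.2 (Real.sqrt_pos.2 ha) fun x => by
    rw [hsq]; exact congrFun h2 x

/-- **Equality case on path space.** -/
theorem equality_path {Q : Measure (SPath E)} [IsProbabilityMeasure Q]
    (H : IsFlow Q (sshift : E → SPath E → SPath E)) {n : ℕ} (hn : 2 ≤ n)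
    (hi : Integrable (fun f : SPath E => ev0 f ^ (2 * n)) Q)
    (hpos : 0 < ∫ f : SPath E, ev0 f ^ 2 ∂Q)
    (heq : ∫ f : SPath E, ev0 f ^ (2 * n) ∂Q = cm2 n * (2 * ∫ f : SPath E, ev0 f ^ 2 ∂Q) ^ n) :
    ∀ᵐ f ∂Q, ∃ (k : E) (θ : ℝ), ‖k‖ = 1 ∧
      ∀ x, f.1 x = Real.sqrt (2 * ∫ f : SPath E, ev0 f ^ 2 ∂Q) * Real.cos (⟪k, x⟫_ℝ + θ) := by
  obtain ⟨i2, h1, h2, h3⟩ := moments_path H hn hi
  have hc := cm2_pos n
  set a := 2 * ∫ f : SPath E, ev0 f ^ 2 ∂Q with ha
  have hapos : 0 < a := by positivity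
  apply plane_wave_of_ae_const H hapos
  have h4 : ∫ f : SPath E, energyDensity f ^ n ∂Q ≤ a ^ n := by
    rw [heq] at h3
    exact le_of_mul_le_mul_left h3 hc
  have hcvx : StrictConvexOn ℝ (Set.Ici (0 : ℝ)) (fun x : ℝ => x ^ n) :=
    strictConvexOn_pow hn
  have hcont : ContinuousOn (fun x : ℝ => x ^ n) (Set.Ici (0 : ℝ)) :=
    (continuous_pow n).continuousOn
  have i1 : Integrable (fun f : SPath E => energyDensity f) Q := by
    have := (energy_path H hn hi (m := 1) one_ne_zero (by omega)).1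
    refine this.congr (Eventually.of_forall fun f => ?_)
    simp only [pow_one]
    rfl
  have hmem : ∀ᵐ f ∂Q, energyDensity f ∈ Set.Ici (0 : ℝ) :=
    Eventually.of_forall fun f => Sf_nonneg _ _
  rcases hcvx.ae_eq_const_or_map_average_lt hcont isClosed_Ici hmem i1 i2 with h | h
  · filter_upwards [h] with f hf
    rw [hf]
    simp only [Function.const_apply, average_eq_integral, h1]
  · exfalso
    rw [average_eq_integral, average_eq_integral, h1] at h
    linarith

/-- the defect of a path -/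
noncomputable def defect (n : ℕ) (f : SPath E) : ℝ :=
  Wf n (ev0 f) (fun j => ev0 (dmap (bE E j) f))
      (fun i j => ev0 (dmap (bE E i) (dmap (bE E j) f)))

lemma measurable_defect (n : ℕ) : Measurable (defect n : SPath E → ℝ) := by
  have J := isJet_path E
  have h := measurable_poly_comp J.mF J.mS n
  have h1 := J.mF
  have h2 := J.mv
  have h3 := J.mM
  have h4 := J.mS
  have h5 := J.mP
  have h6 := h.2.2.2.2.2.2.2.2.2.1
  have h7 := h.2.2.2.2.2.2.2.2.2.2.2
  unfold defect Wf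
  refine Measurable.add (Measurable.mul ?_ (Measurable.sub (Measurable.mul ?_ ?_) ?_))
    (Measurable.mul ?_ ?_)
  · exact (h6.const_mul 2).neg
  · exact h4.sub (h1.pow_const 2)
  · exact Finset.measurable_sum _ fun i _ => Finset.measurable_sum _ fun j _ =>
      (h3 i j).pow_const 2
  · exact Finset.measurable_sum _ fun i _ => (Finset.measurable_sum _ fun j _ =>
      (h3 i j).mul (h2 j)).pow_const 2
  · exact ((h6.const_mul 6).neg).sub ((h7.const_mul 4).mul (h4.sub (h1.pow_const 2)))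
  · exact Finset.measurable_sum _ fun i _ => (h5 i).pow_const 2

theorem equality_path_conv {Q : Measure (SPath E)} [IsProbabilityMeasure Q]
    (H : IsFlow Q (sshift : E → SPath E → SPath E)) {n : ℕ} (hn : 2 ≤ n)
    (hi : Integrable (fun f : SPath E => ev0 f ^ (2 * n)) Q) {a : ℝ}
    (hS : ∀ᵐ f ∂Q, energyDensity f = a) (hW : ∀ᵐ f ∂Q, defect n f = 0) :
    ∫ f : SPath E, ev0 f ^ (2 * n) ∂Q = cm2 n * a ^ n := by
  have hc := cm2_pos n
  obtain ⟨_, _, h5⟩ := energy_path H hn hi (m := n) (by omega) le_rfl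
  have e1 : ∫ f : SPath E, Sf (ev0 f) (fun j => ev0 (dmap (bE E j) f)) ^ n ∂Q = a ^ n := by
    have : ∀ᵐ f ∂Q, Sf (ev0 f) (fun j => ev0 (dmap (bE E j) f)) ^ n = a ^ n := by
      filter_upwards [hS] with f hf
      have e : Sf (ev0 f) (fun j => ev0 (dmap (bE E j) f)) = a := hf
      rw [e]
    rw [integral_congr_ae this]
    simp
  have e2 : ∫ f : SPath E, Wf n (ev0 f) (fun j => ev0 (dmap (bE E j) f))
      (fun i j => ev0 (dmap (bE E i) (dmap (bE E j) f))) ∂Q = 0 := by
    have : ∀ᵐ f ∂Q, Wf n (ev0 f) (fun j => ev0 (dmap (bE E j) f))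
        (fun i j => ev0 (dmap (bE E i) (dmap (bE E j) f))) = 0 := hW
    rw [integral_congr_ae this]
    simp
  rw [e1, e2, add_zero, div_eq_iff hc.ne'] at h5
  rw [h5]; ring

/-- **Even moments of a stationary solution of the Helmholtz equation.** -/
theorem even_moments_random_field [IsProbabilityMeasure P] (F : E → Ω → ℝ)
    (hm : ∀ x, Measurable (F x))
    (hstat : ∀ v : E, IdentDistrib (fun ω x => F (x + v) ω) (fun ω x => F x ω) P P)
    (hH : ∀ᵐ ω ∂P, Helm (fun x => F x ω)) {n : ℕ} (hn : 2 ≤ n)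
    (hi : Integrable (fun ω => F 0 ω ^ (2 * n)) P) :
    Integrable (fun ω => (F 0 ω ^ 2 + ‖gradient (fun x => F x ω) 0‖ ^ 2) ^ n) P ∧
    cm2 n * ∫ ω, (F 0 ω ^ 2 + ‖gradient (fun x => F x ω) 0‖ ^ 2) ^ n ∂P
      ≤ ∫ ω, F 0 ω ^ (2 * n) ∂P ∧
    (2 * ∫ ω, F 0 ω ^ 2 ∂P) ^ n ≤ ∫ ω, (F 0 ω ^ 2 + ‖gradient (fun x => F x ω) 0‖ ^ 2) ^ n ∂P ∧
    (0 < ∫ ω, F 0 ω ^ 2 ∂P →
      (∫ ω, F 0 ω ^ (2 * n) ∂P = cm2 n * (2 * ∫ ω, F 0 ω ^ 2 ∂P) ^ n ↔
        ∀ᵐ ω ∂P, ∃ (k : E) (θ : ℝ), ‖k‖ = 1 ∧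
          ∀ x, F x ω = Real.sqrt (2 * ∫ ω, F 0 ω ^ 2 ∂P) * Real.cos (⟪k, x⟫_ℝ + θ))) := by
  obtain ⟨Q, hQ, hflow, Φ, hΦ, hae⟩ := exists_law_smooth F hm hstat hH
  have hpow : ∀ m : ℕ, ∫ f : SPath E, ev0 f ^ m ∂Q = ∫ ω, F 0 ω ^ m ∂P := by
    intro m
    have h1 := integral_map (μ := P) hΦ.measurable.aemeasurable (f := fun f : SPath E => ev0 f ^ m)
      (measurable_ev0.pow_const m).aestronglyMeasurable
    rw [hΦ.map_eq] at h1
    rw [h1]
    refine integral_congr_ae ?_
    filter_upwards [hae] with ω hω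
    rw [← hω 0]
    rfl
  have hint : Integrable (fun f : SPath E => ev0 f ^ (2 * n)) Q := by
    rw [← hΦ.map_eq, integrable_map_measure (measurable_ev0.pow_const _).aestronglyMeasurable
      hΦ.measurable.aemeasurable]
    refine hi.congr ?_
    filter_upwards [hae] with ω hω
    simp only [Function.comp_apply]
    rw [← hω 0]
    rfl
  have hen : ∀ᵐ ω ∂P, energyDensity (Φ ω)
      = F 0 ω ^ 2 + ‖gradient (fun x => F x ω) 0‖ ^ 2 := by
    filter_upwards [hae] with ω hω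
    rw [energyDensity_eq]
    have : (Φ ω).1 = fun x => F x ω := funext hω
    rw [this]
  obtain ⟨i2, h1, h2, h3⟩ := moments_path hflow hn hint
  have i2' : Integrable (fun ω => energyDensity (Φ ω) ^ n) P :=
    hΦ.integrable_comp_of_integrable i2
  have hei : ∫ f : SPath E, energyDensity f ^ n ∂Q
      = ∫ ω, (F 0 ω ^ 2 + ‖gradient (fun x => F x ω) 0‖ ^ 2) ^ n ∂P := by
    have h1 := integral_map (μ := P) hΦ.measurable.aemeasurable
      (f := fun f : SPath E => energyDensity f ^ n)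
      (measurable_energyDensity.pow_const n).aestronglyMeasurable
    rw [hΦ.map_eq] at h1
    rw [h1]
    refine integral_congr_ae ?_
    filter_upwards [hen] with ω hω
    rw [hω]
  refine ⟨?_, ?_, ?_, ?_⟩
  · refine i2'.congr ?_
    filter_upwards [hen] with ω hω
    rw [hω]
  · rw [← hei, ← hpow]
    exact h3
  · rw [← hei, ← hpow, ← h1]
    exact h2
  · intro hpos
    constructor
    · intro heq
      rw [← hpow, ← hpow] at heq
      rw [← hpow] at hpos ⊢
      have h4 := hΦ.quasiMeasurePreserving.ae (equality_path hflow hn hint hpos heq)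
      filter_upwards [h4, hae] with ω h1 h2
      obtain ⟨k, θ, hk, hx⟩ := h1
      exact ⟨k, θ, hk, fun x => by rw [← h2 x]; exact hx x⟩
    · intro hpw
      have hsq : Real.sqrt (2 * ∫ ω, F 0 ω ^ 2 ∂P) ^ 2 = 2 * ∫ ω, F 0 ω ^ 2 ∂P :=
        Real.sq_sqrt (by positivity)
      have h6 : ∀ᵐ ω ∂P, energyDensity (Φ ω) = 2 * ∫ ω, F 0 ω ^ 2 ∂P ∧ defect n (Φ ω) = 0 := by
        filter_upwards [hpw, hae] with ω h1 h2
        obtain ⟨k, θ, hk, hx⟩ := h1
        have h7 : ∀ x, (Φ ω).1 x = Real.sqrt (2 * ∫ ω, F 0 ω ^ 2 ∂P)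
            * Real.cos (⟪k, x⟫_ℝ + θ) := fun x => by rw [h2 x]; exact hx x
        have h8 := Wf_plane_wave n hk h7
        rw [hsq] at h8
        exact h8
      have h7 : ∀ᵐ f ∂Q, energyDensity f = 2 * ∫ ω, F 0 ω ^ 2 ∂P := by
        rw [← hΦ.map_eq, ae_map_iff hΦ.measurable.aemeasurable
          (measurableSet_eq_fun measurable_energyDensity measurable_const)]
        filter_upwards [h6] with ω h using h.1
      have h8 : ∀ᵐ f ∂Q, defect n f = 0 := by
        rw [← hΦ.map_eq, ae_map_iff hΦ.measurable.aemeasurable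
          (measurableSet_eq_fun (measurable_defect n) measurable_const)]
        filter_upwards [h6] with ω h using h.2
      rw [← hpow]
      exact equality_path_conv hflow hn hint h7 h8

end Berry67
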