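import Pool.Agent.Lib_helper67.Berry.Rigid

/-!
Calculus of a second order operator `L = H_ij ∂_i ∂_j + B_j ∂_j` on a Euclidean space and of its
carré du champ `Γ(f, h) = H_ij ∂_i f ∂_j h`; the iterated carré du champ and the self-improvement
of a lower curvature bound.
-/

namespace Berry67

set_option linter.unusedSectionVars false

open InnerProductSpace Filter Topology
open scoped ContDiff

variable {E : Type*} [NormedAddCommGroup E] [InnerProductSpace ℝ E] [FiniteDimensional ℝ E]
variable {ι : Type*} [Fintype ι]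

/-- coefficients of a second order operator -/
structure Coef (E : Type*) [NormedAddCommGroup E] [InnerProductSpace ℝ E] (ι : Type*) where
  e : ι → E
  H : ι → ι → E → ℝ
  B : ι → E → ℝ
  sH : ∀ i j, ContDiff ℝ ∞ (H i j)
  sB : ∀ j, ContDiff ℝ ∞ (B j)
  symm : ∀ i j x, H i j x = H j i x

namespace Coef

variable (c : Coef E ι)

/-- carré du champ -/
noncomputable def G (f h : E → ℝ) : E → ℝ := fun x =>
  ∑ i, ∑ j, c.H i j x * (D (c.e i) f x * D (c.e j) h x)

/-- the operator -/
noncomputable def Lo (f : E → ℝ) : E → ℝ := fun x =>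
  ∑ i, ∑ j, c.H i j x * D (c.e i) (D (c.e j) f) x + ∑ j, c.B j x * D (c.e j) f x

variable {f h u : E → ℝ}

lemma smooth_G (hf : ContDiff ℝ ∞ f) (hh : ContDiff ℝ ∞ h) : ContDiff ℝ ∞ (c.G f h) := by
  unfold G
  exact ContDiff.sum fun i _ => ContDiff.sum fun j _ =>
    (c.sH i j).mul ((contDiff_D hf _).mul (contDiff_D hh _))

lemma smooth_Lo (hf : ContDiff ℝ ∞ f) : ContDiff ℝ ∞ (c.Lo f) := by
  unfold Lo
  exact (ContDiff.sum fun i _ => ContDiff.sum fun j _ =>
    (c.sH i j).mul (contDiff_D (contDiff_D hf _) _)).add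
      (ContDiff.sum fun j _ => (c.sB j).mul (contDiff_D hf _))

lemma G_symm (f h : E → ℝ) : c.G f h = c.G h f := by
  funext x
  unfold G
  rw [Finset.sum_comm]
  refine Finset.sum_congr rfl fun i _ => Finset.sum_congr rfl fun j _ => ?_
  rw [c.symm j i x]; ring

lemma G_add_right (f : E → ℝ) (hh : ContDiff ℝ ∞ h) (hu : ContDiff ℝ ∞ u) :
    c.G f (fun x => h x + u x) = fun x => c.G f h x + c.G f u x := by
  funext x
  unfold G
  rw [← Finset.sum_add_distrib]
  refine Finset.sum_congr rfl fun i _ => ?_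
  rw [← Finset.sum_add_distrib]
  refine Finset.sum_congr rfl fun j _ => ?_
  rw [D_add hh hu]; ring

lemma G_add_left (f : E → ℝ) (hh : ContDiff ℝ ∞ h) (hu : ContDiff ℝ ∞ u) :
    c.G (fun x => h x + u x) f = fun x => c.G h f x + c.G u f x := by
  rw [c.G_symm, c.G_add_right f hh hu, c.G_symm f h, c.G_symm f u]

lemma G_const_mul_right (f : E → ℝ) (hh : ContDiff ℝ ∞ h) (t : ℝ) :
    c.G f (fun x => t * h x) = fun x => t * c.G f h x := by
  funext x
  unfold G
  rw [Finset.mul_sum]
  refine Finset.sum_congr rfl fun i _ => ?_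
  rw [Finset.mul_sum]
  refine Finset.sum_congr rfl fun j _ => ?_
  rw [D_const_mul hh]; ring

lemma G_const_mul_left (f : E → ℝ) (hh : ContDiff ℝ ∞ h) (t : ℝ) :
    c.G (fun x => t * h x) f = fun x => t * c.G h f x := by
  rw [c.G_symm, c.G_const_mul_right f hh, c.G_symm f h]

lemma G_const_right (f : E → ℝ) (t : ℝ) : c.G f (fun _ => t) = fun _ => 0 := by
  funext x
  unfold G
  refine Finset.sum_eq_zero fun i _ => Finset.sum_eq_zero fun j _ => ?_
  rw [D_const]; ring

lemma G_mul_right (f : E → ℝ) (hh : ContDiff ℝ ∞ h) (hu : ContDiff ℝ ∞ u) :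
    c.G f (fun x => h x * u x) = fun x => h x * c.G f u x + u x * c.G f h x := by
  funext x
  unfold G
  rw [Finset.mul_sum, Finset.mul_sum, ← Finset.sum_add_distrib]
  refine Finset.sum_congr rfl fun i _ => ?_
  rw [Finset.mul_sum, Finset.mul_sum, ← Finset.sum_add_distrib]
  refine Finset.sum_congr rfl fun j _ => ?_
  rw [D_mul hh hu]; ring

lemma G_mul_left (f : E → ℝ) (hh : ContDiff ℝ ∞ h) (hu : ContDiff ℝ ∞ u) :
    c.G (fun x => h x * u x) f = fun x => h x * c.G u f x + u x * c.G h f x := by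
  rw [c.G_symm, c.G_mul_right f hh hu, c.G_symm f h, c.G_symm f u]

lemma Lo_add (hf : ContDiff ℝ ∞ f) (hh : ContDiff ℝ ∞ h) :
    c.Lo (fun x => f x + h x) = fun x => c.Lo f x + c.Lo h x := by
  funext x
  unfold Lo
  have e1 : ∀ j, D (c.e j) (fun x => f x + h x) = fun x => D (c.e j) f x + D (c.e j) h x :=
    fun j => D_add hf hh _
  have e2 : ∀ i j, D (c.e i) (D (c.e j) (fun x => f x + h x)) x
      = D (c.e i) (D (c.e j) f) x + D (c.e i) (D (c.e j) h) x := by
    intro i j
    rw [e1, D_add (contDiff_D hf _) (contDiff_D hh _)]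
  have e3 : ∀ i j, c.H i j x * D (c.e i) (D (c.e j) (fun x => f x + h x)) x
      = c.H i j x * D (c.e i) (D (c.e j) f) x + c.H i j x * D (c.e i) (D (c.e j) h) x := by
    intro i j; rw [e2]; ring
  have e4 : ∀ j, c.B j x * D (c.e j) (fun x => f x + h x) x
      = c.B j x * D (c.e j) f x + c.B j x * D (c.e j) h x := by
    intro j; rw [e1]; ring
  simp only [e3, e4, Finset.sum_add_distrib]
  ring

lemma Lo_const_mul (hf : ContDiff ℝ ∞ f) (t : ℝ) :
    c.Lo (fun x => t * f x) = fun x => t * c.Lo f x := by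
  funext x
  unfold Lo
  rw [mul_add, Finset.mul_sum, Finset.mul_sum]
  congr 1
  · refine Finset.sum_congr rfl fun i _ => ?_
    rw [Finset.mul_sum]
    refine Finset.sum_congr rfl fun j _ => ?_
    rw [D_const_mul hf, D_const_mul (contDiff_D hf _)]; ring
  · refine Finset.sum_congr rfl fun j _ => ?_
    rw [D_const_mul hf]; ring

lemma Lo_const (t : ℝ) : c.Lo (fun _ => t) = fun _ => 0 := by
  funext x
  unfold Lo
  simp only [D_const, mul_zero, Finset.sum_const_zero, add_zero]

lemma Lo_mul (hf : ContDiff ℝ ∞ f) (hh : ContDiff ℝ ∞ h) :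
    c.Lo (fun x => f x * h x) = fun x => f x * c.Lo h x + h x * c.Lo f x + 2 * c.G f h x := by
  funext x
  have e1 : ∀ j, D (c.e j) (fun x => f x * h x)
      = fun x => D (c.e j) f x * h x + f x * D (c.e j) h x := fun j => D_mul hf hh _
  have e2 : ∀ i j, D (c.e i) (D (c.e j) (fun x => f x * h x)) x
      = D (c.e i) (D (c.e j) f) x * h x + D (c.e j) f x * D (c.e i) h x
        + (D (c.e i) f x * D (c.e j) h x + f x * D (c.e i) (D (c.e j) h) x) := by
    intro i j
    rw [e1, D_add ((contDiff_D hf _).mul hh) (hf.mul (contDiff_D hh _)),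
      D_mul (contDiff_D hf _) hh, D_mul hf (contDiff_D hh _)]
  have hG : ∑ i, ∑ j, c.H i j x * (D (c.e j) f x * D (c.e i) h x) = c.G f h x := by
    rw [Finset.sum_comm]
    unfold G
    refine Finset.sum_congr rfl fun i _ => Finset.sum_congr rfl fun j _ => ?_
    rw [c.symm j i x]
  have hG' : ∑ i, ∑ j, c.H i j x * (D (c.e i) f x * D (c.e j) h x) = c.G f h x := rfl
  have e3 : ∀ i j, c.H i j x * D (c.e i) (D (c.e j) (fun x => f x * h x)) x
      = f x * (c.H i j x * D (c.e i) (D (c.e j) h) x)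
        + h x * (c.H i j x * D (c.e i) (D (c.e j) f) x)
        + c.H i j x * (D (c.e j) f x * D (c.e i) h x)
        + c.H i j x * (D (c.e i) f x * D (c.e j) h x) := by
    intro i j
    rw [e2]; ring
  have e4 : ∀ j, c.B j x * D (c.e j) (fun x => f x * h x) x
      = f x * (c.B j x * D (c.e j) h x) + h x * (c.B j x * D (c.e j) f x) := by
    intro j
    rw [e1]; ring
  unfold Lo
  simp only [e3, e4, Finset.sum_add_distrib, ← Finset.mul_sum]
  rw [hG, hG']
  ring

/-- iterated carré du champ -/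
noncomputable def G2 (f h : E → ℝ) : E → ℝ := fun x =>
  (c.Lo (c.G f h) x - c.G f (c.Lo h) x - c.G h (c.Lo f) x) / 2

lemma G2_symm (f h : E → ℝ) : c.G2 f h = c.G2 h f := by
  funext x
  unfold G2
  rw [c.G_symm f h]; ring

/-- `G2` is a quadratic form. -/
lemma G2_quad (hf : ContDiff ℝ ∞ f) (hu : ContDiff ℝ ∞ u) (t : ℝ) (x : E) :
    c.G2 (fun x => f x + t * u x) (fun x => f x + t * u x) x
      = c.G2 f f x + 2 * t * c.G2 f u x + t ^ 2 * c.G2 u u x := by
  have htu : ContDiff ℝ ∞ (fun x => t * u x) := contDiff_const.mul hu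
  have g1 : c.G (fun x => f x + t * u x) (fun x => f x + t * u x)
      = fun x => (c.G f f x + 2 * t * c.G f u x) + t ^ 2 * c.G u u x := by
    rw [c.G_add_left _ hf htu]
    rw [c.G_add_right f hf htu, c.G_const_mul_right f hu, c.G_const_mul_left _ hu,
      c.G_add_right u hf htu, c.G_const_mul_right u hu, c.G_symm u f]
    funext x
    simp only
    ring
  have l1 : c.Lo (fun x => f x + t * u x) = fun x => c.Lo f x + t * c.Lo u x := by
    rw [c.Lo_add hf htu, c.Lo_const_mul hu]
  have sLf := c.smooth_Lo hf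
  have sLu := c.smooth_Lo hu
  have stLu : ContDiff ℝ ∞ (fun x => t * c.Lo u x) := contDiff_const.mul sLu
  have g2 : c.G (fun x => f x + t * u x) (fun x => c.Lo f x + t * c.Lo u x) x
      = c.G f (c.Lo f) x + t * c.G f (c.Lo u) x + t * c.G u (c.Lo f) x
        + t ^ 2 * c.G u (c.Lo u) x := by
    rw [c.G_add_left _ hf htu, c.G_add_right f sLf stLu, c.G_const_mul_right f sLu,
      c.G_const_mul_left _ hu, c.G_add_right u sLf stLu, c.G_const_mul_right u sLu]
    ring
  have sff := c.smooth_G hf hf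
  have sfu := c.smooth_G hf hu
  have suu := c.smooth_G hu hu
  have l2 : c.Lo (fun x => (c.G f f x + 2 * t * c.G f u x) + t ^ 2 * c.G u u x) x
      = c.Lo (c.G f f) x + 2 * t * c.Lo (c.G f u) x + t ^ 2 * c.Lo (c.G u u) x := by
    rw [c.Lo_add (sff.add (contDiff_const.mul sfu)) (contDiff_const.mul suu),
      c.Lo_add sff (contDiff_const.mul sfu), c.Lo_const_mul sfu, c.Lo_const_mul suu]
  unfold G2
  rw [g1, l1, l2, g2]
  ring

/-- values at a common zero of two functions -/
lemma G2_mul_zero {f g h : E → ℝ} (hf : ContDiff ℝ ∞ f) (hg : ContDiff ℝ ∞ g)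
    (hh : ContDiff ℝ ∞ h) {x : E} (g0 : g x = 0) (h0 : h x = 0) :
    c.G2 f (fun x => g x * h x) x
      = c.G g (c.G f h) x + c.G h (c.G f g) x - c.G f (c.G g h) x ∧
    c.G2 (fun x => g x * h x) (fun x => g x * h x) x
      = 2 * (c.G g g x * c.G h h x + c.G g h x ^ 2) := by
  have sgh := c.smooth_G hg hh
  have sfh := c.smooth_G hf hh
  have sfg := c.smooth_G hf hg
  have sgg := c.smooth_G hg hg
  have shh := c.smooth_G hh hh
  have sLg := c.smooth_Lo hg
  have sLh := c.smooth_Lo hh
  have sLf := c.smooth_Lo hf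
  have su : ContDiff ℝ ∞ (fun x => g x * h x) := hg.mul hh
  have lu : c.Lo (fun x => g x * h x)
      = fun x => g x * c.Lo h x + h x * c.Lo g x + 2 * c.G g h x := c.Lo_mul hg hh
  have slu1 : ContDiff ℝ ∞ (fun x => g x * c.Lo h x) := hg.mul sLh
  have slu2 : ContDiff ℝ ∞ (fun x => h x * c.Lo g x) := hh.mul sLg
  have slu3 : ContDiff ℝ ∞ (fun x => 2 * c.G g h x) := contDiff_const.mul sgh
  -- `Γ(w, Lu)` at `x`
  have gLu : ∀ w : E → ℝ, c.G w (c.Lo (fun x => g x * h x)) x
      = c.G w g x * c.Lo h x + c.G w h x * c.Lo g x + 2 * c.G w (c.G g h) x := by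
    intro w
    rw [lu, c.G_add_right w (slu1.add slu2) slu3, c.G_add_right w slu1 slu2,
      c.G_mul_right w hg sLh, c.G_mul_right w hh sLg, c.G_const_mul_right w sgh]
    simp only [g0, h0]
    ring
  -- `Γ(w, u)` at `x`
  have gu : ∀ w : E → ℝ, c.G w (fun x => g x * h x) = fun x => g x * c.G w h x + h x * c.G w g x :=
    fun w => c.G_mul_right w hg hh
  have gu' : ∀ w : E → ℝ, c.G (fun x => g x * h x) w x = 0 := by
    intro w
    rw [c.G_symm, gu]
    simp only [g0, h0]
    ring
  constructor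
  · unfold G2
    rw [gLu f, gu' (c.Lo f), gu f, c.Lo_add (hg.mul sfh) (hh.mul sfg), c.Lo_mul hg sfh,
      c.Lo_mul hh sfg]
    simp only [g0, h0]
    ring
  · unfold G2
    rw [gu' (c.Lo (fun x => g x * h x)), gu (fun x => g x * h x)]
    have e1 : (fun x => g x * c.G (fun x => g x * h x) h x + h x * c.G (fun x => g x * h x) g x)
        = fun x => (g x * g x) * c.G h h x + (2 * (g x * h x)) * c.G g h x
          + (h x * h x) * c.G g g x := by
      rw [c.G_mul_left h hg hh, c.G_mul_left g hg hh]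
      funext y
      simp only
      rw [c.G_symm h g]
      ring
    have s1 : ContDiff ℝ ∞ (fun x => g x * g x) := hg.mul hg
    have s2 : ContDiff ℝ ∞ (fun x => h x * h x) := hh.mul hh
    have s3 : ContDiff ℝ ∞ (fun x => 2 * (g x * h x)) := contDiff_const.mul su
    rw [e1, c.Lo_add ((s1.mul shh).add (s3.mul sgh)) (s2.mul sgg),
      c.Lo_add (s1.mul shh) (s3.mul sgh), c.Lo_mul s1 shh, c.Lo_mul s3 sgh, c.Lo_mul s2 sgg,
      c.Lo_mul hg hg, c.Lo_mul hh hh, c.Lo_const_mul su, c.Lo_mul hg hh,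
      c.G_mul_left _ hg hg, c.G_mul_left _ hh hh, c.G_const_mul_left _ su, c.G_mul_left _ hg hh]
    simp only [g0, h0]
    ring

/-- **Self-improvement** (Bakry). If `Γ₂(f) + K Γ(f) ≥ 0` at `x` for all smooth `f`, then
`Γ(Γ(f)) ≤ 4 Γ(f) (Γ₂(f) + K Γ(f))` at `x`. -/
theorem bakry {x : E} {K : ℝ} (hpos : ∀ f : E → ℝ, 0 ≤ c.G f f x)
    (hCD : ∀ f : E → ℝ, ContDiff ℝ ∞ f → 0 ≤ c.G2 f f x + K * c.G f f x)
    (hf : ContDiff ℝ ∞ f) :
    c.G (c.G f f) (c.G f f) x ≤ 4 * c.G f f x * (c.G2 f f x + K * c.G f f x) := by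
  set h : E → ℝ := fun y => c.G f f y - c.G f f x with hh
  set g : E → ℝ := fun y => f y - f x with hg
  have sff := c.smooth_G hf hf
  have sg : ContDiff ℝ ∞ g := hf.sub contDiff_const
  have sh : ContDiff ℝ ∞ h := sff.sub contDiff_const
  have g0 : g x = 0 := by simp [hg]
  have h0 : h x = 0 := by simp [hh]
  have Dg : ∀ v, D v g = D v f := by
    intro v; rw [hg, D_sub hf contDiff_const, D_const]; funext y; ring
  have Dh : ∀ v, D v h = D v (c.G f f) := by
    intro v; rw [hh, D_sub sff contDiff_const, D_const]; funext y; ring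
  have Gg : ∀ w, c.G w g = c.G w f := by
    intro w; unfold G; simp only [Dg]
  have Gh : ∀ w, c.G w h = c.G w (c.G f f) := by
    intro w
    have : ∀ w, c.G w h = fun x => ∑ i, ∑ j, c.H i j x * (D (c.e i) w x * D (c.e j) h x) :=
      fun w => rfl
    rw [this]; simp only [Dh]; rfl
  have Gg' : ∀ w, c.G g w = c.G f w := by
    intro w; rw [c.G_symm, Gg, c.G_symm]
  have Gh' : ∀ w, c.G h w = c.G (c.G f f) w := by
    intro w; rw [c.G_symm, Gh, c.G_symm]
  obtain ⟨q1, q2⟩ := c.G2_mul_zero hf sg sh g0 h0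
  set β := c.G (c.G f f) (c.G f f) x with hβ
  set Q := c.G2 f f x + K * c.G f f x with hQ
  have hβ0 : 0 ≤ β := hpos _
  have q1' : c.G2 f (fun x => g x * h x) x = β := by
    rw [q1, Gg', Gg', Gh', Gg]
    ring
  rw [Gg, Gg', Gh', Gh, Gg', Gh] at q2
  -- the quadratic polynomial
  have hpoly : ∀ t : ℝ, 0 ≤ Q + 2 * t * β
      + t ^ 2 * (2 * (c.G f f x * β + c.G f (c.G f f) x ^ 2)) := by
    intro t
    have su : ContDiff ℝ ∞ (fun x => g x * h x) := sg.mul sh
    have h1 := hCD (fun x => f x + t * (g x * h x)) (hf.add (contDiff_const.mul su))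
    rw [c.G2_quad hf su, q1', q2] at h1
    have h2 : c.G (fun x => f x + t * (g x * h x)) (fun x => f x + t * (g x * h x)) x
        = c.G f f x := by
      have e : ∀ w, c.G w (fun x => g x * h x) x = 0 := by
        intro w
        rw [c.G_mul_right w sg sh]
        simp only [g0, h0]; ring
      have e' : ∀ w, c.G (fun x => g x * h x) w x = 0 := by
        intro w; rw [c.G_symm]; exact e w
      rw [c.G_add_left _ hf (contDiff_const.mul su), c.G_add_right f hf (contDiff_const.mul su),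
        c.G_const_mul_right f su, c.G_const_mul_left _ su]
      simp only [e, e']
      ring
    rw [h2] at h1
    linarith
  -- Cauchy-Schwarz
  have hCS : c.G f (c.G f f) x ^ 2 ≤ c.G f f x * β := by
    have hq : ∀ t : ℝ, 0 ≤ c.G f f x * (t * t) + 2 * c.G f (c.G f f) x * t + β := by
      intro t
      have h1 := hpos (fun x => t * f x + c.G f f x)
      rw [c.G_add_left _ (contDiff_const.mul hf) sff, c.G_add_right _ (contDiff_const.mul hf) sff,
        c.G_const_mul_left _ hf, c.G_const_mul_right _ hf,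
        c.G_add_right _ (contDiff_const.mul hf) sff, c.G_const_mul_right _ hf,
        c.G_symm (c.G f f) f] at h1
      have e : c.G (fun x => t * f x) (c.G f f) x = t * c.G f (c.G f f) x := by
        rw [c.G_const_mul_left _ hf]
      simp only [e] at h1
      nlinarith [h1]
    have := discrim_le_zero hq
    unfold discrim at this
    nlinarith [this]
  have hG0 : 0 ≤ c.G f f x := hpos f
  have hdisc : β ^ 2 ≤ Q * (2 * (c.G f f x * β + c.G f (c.G f f) x ^ 2)) := by
    have hq : ∀ t : ℝ, 0 ≤ (2 * (c.G f f x * β + c.G f (c.G f f) x ^ 2)) * (t * t)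
        + 2 * β * t + Q := by
      intro t
      have := hpoly t
      nlinarith [this]
    have := discrim_le_zero hq
    unfold discrim at this
    nlinarith [this]
  have hQ0 : 0 ≤ Q := hCD f hf
  rcases hβ0.eq_or_lt with h | h
  · rw [← h]; positivity
  · have h1 : β ^ 2 ≤ Q * (2 * (c.G f f x * β + c.G f f x * β)) :=
      hdisc.trans (mul_le_mul_of_nonneg_left (by linarith) hQ0)
    have h2 : β * β ≤ (4 * c.G f f x * Q) * β := by nlinarith [h1]
    exact le_of_mul_le_mul_right h2 h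

end Coef

end Berry67
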