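import Mathlib

/-!
Facts on the standard Gaussian measure of a Euclidean space.
-/

namespace Berry67

set_option linter.unusedSectionVars false

open MeasureTheory ProbabilityTheory Complex
open scoped RealInnerProductSpace

variable {E : Type*} [NormedAddCommGroup E] [InnerProductSpace ℝ E] [FiniteDimensional ℝ E]
  [MeasurableSpace E] [BorelSpace E]

lemma map_neg_stdGaussian : (stdGaussian E).map (fun x => -x) = stdGaussian E := by
  have := stdGaussian_map (LinearIsometryEquiv.neg ℝ (E := E))
  simpa using this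

/-- Rotation invariance of `γ ⊗ γ`. -/
lemma map_rotation_stdGaussian (θ : ℝ) :
    ((stdGaussian E).prod (stdGaussian E)).map
      (fun p : E × E => (Real.cos θ • p.1 + Real.sin θ • p.2,
        - Real.sin θ • p.1 + Real.cos θ • p.2))
      = (stdGaussian E).prod (stdGaussian E) := by
  have h : (stdGaussian E)[id] = 0 := by simp
  have := IsGaussian.map_rotation_eq_self (μ := stdGaussian E) h θ
  convert this using 2
  funext p
  simp [ContinuousLinearMap.rotation_apply]

/-- The law of `r x + s y` under `γ ⊗ γ` is that of `√(r²+s²) z`. -/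
lemma map_add_smul_stdGaussian (r s : ℝ) :
    ((stdGaussian E).prod (stdGaussian E)).map (fun p : E × E => r • p.1 + s • p.2)
      = (stdGaussian E).map (fun z => Real.sqrt (r ^ 2 + s ^ 2) • z) := by
  set ρ := Real.sqrt (r ^ 2 + s ^ 2) with hρ
  have hρ2 : ρ ^ 2 = r ^ 2 + s ^ 2 := Real.sq_sqrt (by positivity)
  obtain ⟨θ, hc, hs⟩ : ∃ θ : ℝ, r = ρ * Real.cos θ ∧ s = ρ * Real.sin θ := by
    refine ⟨Complex.arg ⟨r, s⟩, ?_, ?_⟩
    · have h := Complex.norm_mul_cos_arg (⟨r, s⟩ : ℂ)
      have h2 : ‖(⟨r, s⟩ : ℂ)‖ = ρ := by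
        rw [hρ, Complex.norm_def, Complex.normSq_mk]; ring_nf
      rw [h2] at h; simpa using h.symm
    · have h := Complex.norm_mul_sin_arg (⟨r, s⟩ : ℂ)
      have h2 : ‖(⟨r, s⟩ : ℂ)‖ = ρ := by
        rw [hρ, Complex.norm_def, Complex.normSq_mk]; ring_nf
      rw [h2] at h; simpa using h.symm
  have hfac : (fun p : E × E => r • p.1 + s • p.2)
      = (fun z : E => ρ • z) ∘ (fun p : E × E => p.1) ∘
        (fun p : E × E => (Real.cos θ • p.1 + Real.sin θ • p.2,
        - Real.sin θ • p.1 + Real.cos θ • p.2)) := by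
    funext p
    simp only [Function.comp_apply, smul_add, smul_smul, ← hc, ← hs]
  rw [hfac, ← Measure.map_map (by fun_prop) (by fun_prop),
    ← Measure.map_map (by fun_prop) (by fun_prop), map_rotation_stdGaussian,
    Measure.map_fst_prod]
  simp

/-- Lebesgue density of the standard Gaussian. -/
noncomputable def gd (x : E) : ℝ :=
  (2 * Real.pi) ^ (-(Module.finrank ℝ E / 2 : ℝ)) * Real.exp (-(‖x‖ ^ 2) / 2)

lemma gd_nonneg (x : E) : 0 ≤ gd x := by unfold gd; positivity

lemma gd_pos (x : E) : 0 < gd x := by unfold gd; positivity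

lemma continuous_gd : Continuous (gd : E → ℝ) := by
  unfold gd; fun_prop

lemma integrable_gd : Integrable (gd : E → ℝ) volume := by
  unfold gd
  apply Integrable.const_mul
  have h := GaussianFourier.integrable_cexp_neg_mul_sq_norm_add (V := E) (b := (1 / 2 : ℂ))
    (by norm_num) 0 0
  have h2 := h.re
  refine h2.congr (Filter.Eventually.of_forall fun x => ?_)
  simp only [inner_zero_left, Complex.ofReal_zero, mul_zero, add_zero]
  have : (-(1 / 2 : ℂ) * (‖x‖ : ℂ) ^ 2) = ((-(‖x‖ ^ 2) / 2 : ℝ) : ℂ) := by push_cast; ring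
  rw [this]
  exact Complex.exp_ofReal_re _

lemma stdGaussian_eq_withDensity :
    stdGaussian E = (volume : Measure E).withDensity (fun x => ENNReal.ofReal (gd x)) := by
  have : IsFiniteMeasure ((volume : Measure E).withDensity (fun x => ENNReal.ofReal (gd x))) :=
    isFiniteMeasure_withDensity_ofReal integrable_gd.2
  apply Measure.ext_of_charFun
  ext t
  rw [charFun_stdGaussian, charFun_apply,
    integral_withDensity_eq_integral_toReal_smul (by
      exact (continuous_gd.measurable.ennreal_ofReal)) (by simp)]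
  have h := GaussianFourier.integral_cexp_neg_mul_sq_norm_add (V := E) (b := (1 / 2 : ℂ))
    (by norm_num) Complex.I t
  have e : (fun x : E => (ENNReal.ofReal (gd x)).toReal • Complex.exp (⟪x, t⟫ * Complex.I))
      = fun x : E => (((2 * Real.pi) ^ (-(Module.finrank ℝ E / 2 : ℝ)) : ℝ) : ℂ) *
        Complex.exp (-(1 / 2 : ℂ) * ‖x‖ ^ 2 + Complex.I * ⟪t, x⟫) := by
    funext x
    rw [ENNReal.toReal_ofReal (gd_nonneg x), Complex.exp_add, real_inner_comm, Complex.real_smul]
    unfold gd
    push_cast
    rw [mul_comm Complex.I]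
    ring_nf
  rw [e, integral_const_mul, h]
  have hpi : ((Real.pi : ℂ) / (1 / 2)) = ((2 * Real.pi : ℝ) : ℂ) := by push_cast; ring
  rw [hpi]
  have hexp : ((Module.finrank ℝ E : ℂ) / 2) = ((Module.finrank ℝ E / 2 : ℝ) : ℂ) := by
    push_cast; ring
  rw [hexp, ← Complex.ofReal_cpow (by positivity), ← mul_assoc, ← Complex.ofReal_mul,
    ← Real.rpow_add (by positivity)]
  simp
  ring_nf

end Berry67
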