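import Pool.Agent.Lib_helper67.Berry.Gauss

/-!
Cameron-Martin formula and related integrals for the standard Gaussian measure.
-/

namespace Berry67

set_option linter.unusedSectionVars false

open MeasureTheory ProbabilityTheory
open scoped RealInnerProductSpace

variable {E : Type*} [NormedAddCommGroup E] [InnerProductSpace ℝ E] [FiniteDimensional ℝ E]
  [MeasurableSpace E] [BorelSpace E]

lemma integral_stdGaussian_eq (f : E → ℝ) :
    ∫ x, f x ∂(stdGaussian E) = ∫ x, gd x * f x := by
  rw [stdGaussian_eq_withDensity, integral_withDensity_eq_integral_toReal_smul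
    (continuous_gd.measurable.ennreal_ofReal) (by simp)]
  refine integral_congr_ae (Filter.Eventually.of_forall fun x => ?_)
  simp [ENNReal.toReal_ofReal (gd_nonneg x)]

lemma integrable_stdGaussian_iff (f : E → ℝ) :
    Integrable f (stdGaussian E) ↔ Integrable (fun x => gd x * f x) := by
  rw [stdGaussian_eq_withDensity, integrable_withDensity_iff_integrable_smul'
    (continuous_gd.measurable.ennreal_ofReal) (by simp)]
  refine integrable_congr (Filter.Eventually.of_forall fun x => ?_)
  simp [ENNReal.toReal_ofReal (gd_nonneg x)]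

/-- Cameron-Martin weight. -/
noncomputable def cm (h x : E) : ℝ := Real.exp (⟪x, h⟫ - ‖h‖ ^ 2 / 2)

lemma cm_nonneg (h x : E) : 0 ≤ cm h x := (Real.exp_pos _).le

lemma gd_sub (h x : E) : gd (x - h) = gd x * cm h x := by
  unfold gd cm
  rw [mul_assoc, ← Real.exp_add, norm_sub_sq_real]
  ring_nf

lemma continuous_cm (h : E) : Continuous (cm h : E → ℝ) := by
  unfold cm; fun_prop

lemma integral_shift (h : E) (f : E → ℝ) :
    ∫ x, f (x + h) ∂(stdGaussian E) = ∫ x, f x * cm h x ∂(stdGaussian E) := by
  rw [integral_stdGaussian_eq, integral_stdGaussian_eq]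
  have h1 : ∫ x, gd x * f (x + h) = ∫ x : E, (fun y => gd (y - h) * f y) (x + h) := by
    refine integral_congr_ae (Filter.Eventually.of_forall fun x => ?_)
    simp
  rw [h1, integral_add_right_eq_self (fun y => gd (y - h) * f y) h]
  refine integral_congr_ae (Filter.Eventually.of_forall fun x => ?_)
  simp only [gd_sub]
  ring

lemma integrable_cm (h : E) : Integrable (cm h) (stdGaussian E) := by
  rw [integrable_stdGaussian_iff]
  have : (fun x : E => gd x * cm h x) = fun x => gd (x - h) := by
    funext x; rw [gd_sub]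
  rw [this]
  exact integrable_gd.comp_sub_right h

lemma integral_cm (h : E) : ∫ x, cm h x ∂(stdGaussian E) = 1 := by
  have := integral_shift h (fun _ => (1 : ℝ))
  simpa using this.symm

lemma cm_sq (h x : E) : cm h x ^ 2 = Real.exp (‖h‖ ^ 2) * cm ((2 : ℝ) • h) x := by
  unfold cm
  rw [← Real.exp_add, ← Real.exp_nat_mul, real_inner_smul_right, norm_smul]
  congr 1
  simp
  ring

lemma memLp_cm (h : E) : MemLp (cm h) 2 (stdGaussian E) := by
  rw [memLp_two_iff_integrable_sq (continuous_cm h).aestronglyMeasurable]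
  simp_rw [cm_sq]
  exact (integrable_cm _).const_mul _

lemma integral_cm_sub_one_sq (h : E) :
    ∫ x, (cm h x - 1) ^ 2 ∂(stdGaussian E) = Real.exp (‖h‖ ^ 2) - 1 := by
  have e : (fun x : E => (cm h x - 1) ^ 2)
      = fun x => (Real.exp (‖h‖ ^ 2) * cm ((2 : ℝ) • h) x - 2 * cm h x) + 1 := by
    funext x; rw [← cm_sq]; ring
  have i1 : Integrable (fun x : E => Real.exp (‖h‖ ^ 2) * cm ((2 : ℝ) • h) x) (stdGaussian E) :=
    (integrable_cm _).const_mul _
  have i2 : Integrable (fun x : E => 2 * cm h x) (stdGaussian E) := (integrable_cm _).const_mul _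
  have i3 : Integrable (fun x : E => Real.exp (‖h‖ ^ 2) * cm ((2 : ℝ) • h) x - 2 * cm h x)
    (stdGaussian E) := i1.sub i2
  rw [e, integral_add i3 (integrable_const _), integral_sub i1 i2, integral_const_mul,
    integral_const_mul, integral_cm, integral_cm]
  simp
  ring

lemma memLp_cm_sub_one (h : E) : MemLp (fun x => cm h x - 1) 2 (stdGaussian E) :=
  (memLp_cm h).sub (memLp_const 1)

lemma integrable_norm_pow_four : Integrable (fun x : E => ‖x‖ ^ 4) (stdGaussian E) := by
  have h := IsGaussian.memLp_id (stdGaussian E) 4 (by simp)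
  have h2 := h.integrable_norm_pow (p := 4) (by norm_num)
  simpa using h2

/-- The key weight bound. -/
lemma exp_sub_one_sq_le {u : ℝ} (h0 : 0 ≤ u) (h1 : u ≤ 1) : (Real.exp u - 1) ^ 2 ≤ 4 * u ^ 2 := by
  have h2 : Real.exp u ≤ 1 + u + u ^ 2 := by
    have := Real.abs_exp_sub_one_sub_id_le (x := u) (by rw [abs_of_nonneg h0]; exact h1)
    have := (abs_le.1 this).2
    linarith
  have h3 : Real.exp u - 1 ≤ 2 * u := by nlinarith
  have h4 : 0 ≤ Real.exp u - 1 := by
    have := Real.add_one_le_exp u
    linarith
  nlinarith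

end Berry67
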