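import Mathlib

/-!
Integration by parts against radial test functions for solutions of the Helmholtz equation.
-/

namespace Berry67

set_option linter.unusedSectionVars false

open MeasureTheory InnerProductSpace Laplacian
open scoped RealInnerProductSpace

variable {E : Type*} [NormedAddCommGroup E] [InnerProductSpace ℝ E] [FiniteDimensional ℝ E]
  [MeasurableSpace E] [BorelSpace E]

lemma laplacian_eq_sum_fderiv {f : E → ℝ} (hf : ContDiff ℝ 2 f) (x : E) :
    (Δ f) x = ∑ i, fderiv ℝ (fun y => fderiv ℝ f y (stdOrthonormalBasis ℝ E i)) x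
      (stdOrthonormalBasis ℝ E i) := by
  rw [laplacian_eq_iteratedFDeriv_stdOrthonormalBasis]
  refine Finset.sum_congr rfl fun i _ => ?_
  rw [iteratedFDeriv_two_apply]
  have hd : DifferentiableAt ℝ (fderiv ℝ f) x :=
    ((hf.fderiv_right (m := 1) (by norm_num)).differentiable (by norm_num)) x
  rw [fderiv_clm_apply hd (differentiableAt_const _)]
  simp

lemma contDiff_fderiv_apply {f : E → ℝ} (hf : ContDiff ℝ 2 f) (v : E) :
    ContDiff ℝ 1 (fun y => fderiv ℝ f y v) :=
  (hf.fderiv_right (m := 1) (by norm_num)).clm_apply contDiff_const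

/-- Integration by parts twice. -/
lemma integral_mul_fderiv_fderiv {f g : E → ℝ} (hf : ContDiff ℝ 2 f) (hg : ContDiff ℝ 2 g)
    (hs : HasCompactSupport g) (v : E) :
    ∫ x, f x * fderiv ℝ (fun y => fderiv ℝ g y v) x v
      = ∫ x, fderiv ℝ (fun y => fderiv ℝ f y v) x v * g x := by
  have hf1 := contDiff_fderiv_apply hf v
  have hg1 := contDiff_fderiv_apply hg v
  have cf : Continuous f := hf.continuous
  have cg : Continuous g := hg.continuous
  have cf1 : Continuous (fun y => fderiv ℝ f y v) := hf1.continuous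
  have cg1 : Continuous (fun y => fderiv ℝ g y v) := hg1.continuous
  have cf2 : Continuous (fun x => fderiv ℝ (fun y => fderiv ℝ f y v) x v) :=
    (hf1.continuous_fderiv (by norm_num)).clm_apply continuous_const
  have cg2 : Continuous (fun x => fderiv ℝ (fun y => fderiv ℝ g y v) x v) :=
    (hg1.continuous_fderiv (by norm_num)).clm_apply continuous_const
  have sg1 : HasCompactSupport (fun y => fderiv ℝ g y v) := hs.fderiv_apply (𝕜 := ℝ) v
  have sg2 : HasCompactSupport (fun x => fderiv ℝ (fun y => fderiv ℝ g y v) x v) :=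
    sg1.fderiv_apply (𝕜 := ℝ) v
  have i1 : Integrable (fun x => fderiv ℝ f x v * fderiv ℝ g x v) :=
    (cf1.mul cg1).integrable_of_hasCompactSupport sg1.mul_left
  have i2 : Integrable (fun x => f x * fderiv ℝ (fun y => fderiv ℝ g y v) x v) :=
    (cf.mul cg2).integrable_of_hasCompactSupport sg2.mul_left
  have i3 : Integrable (fun x => f x * fderiv ℝ g x v) :=
    (cf.mul cg1).integrable_of_hasCompactSupport sg1.mul_left
  have i4 : Integrable (fun x => fderiv ℝ (fun y => fderiv ℝ f y v) x v * g x) :=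
    (cf2.mul cg).integrable_of_hasCompactSupport hs.mul_left
  have i5 : Integrable (fun x => fderiv ℝ f x v * g x) :=
    (cf1.mul cg).integrable_of_hasCompactSupport hs.mul_left
  have h1 : ∫ x, f x * fderiv ℝ (fun y => fderiv ℝ g y v) x v
      = - ∫ x, fderiv ℝ f x v * fderiv ℝ g x v :=
    integral_mul_fderiv_eq_neg_fderiv_mul_of_integrable i1 i2 i3
      (fun x _ => (hf.differentiable (by norm_num)) x)
      (fun x _ => (hg1.differentiable (by norm_num)) x)
  have h2 : ∫ x, fderiv ℝ f x v * fderiv ℝ g x v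
      = - ∫ x, fderiv ℝ (fun y => fderiv ℝ f y v) x v * g x :=
    integral_mul_fderiv_eq_neg_fderiv_mul_of_integrable i4 i1 i5
      (fun x _ => (hf1.differentiable (by norm_num)) x)
      (fun x _ => (hg.differentiable (by norm_num)) x)
  rw [h1, h2, neg_neg]

/-- Green's formula against a compactly supported function. -/
lemma integral_mul_laplacian {f g : E → ℝ} (hf : ContDiff ℝ 2 f) (hg : ContDiff ℝ 2 g)
    (hs : HasCompactSupport g) :
    ∫ x, f x * (Δ g) x = ∫ x, (Δ f) x * g x := by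
  have cf : Continuous f := hf.continuous
  have cg : Continuous g := hg.continuous
  simp_rw [laplacian_eq_sum_fderiv hf, laplacian_eq_sum_fderiv hg, Finset.mul_sum, Finset.sum_mul]
  rw [integral_finsetSum, integral_finsetSum]
  · refine Finset.sum_congr rfl fun i _ => ?_
    exact integral_mul_fderiv_fderiv hf hg hs _
  · intro i _
    have hf1 := contDiff_fderiv_apply hf (stdOrthonormalBasis ℝ E i)
    have cf2 := (hf1.continuous_fderiv (by norm_num)).clm_apply
      (continuous_const (y := stdOrthonormalBasis ℝ E i))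
    exact (cf2.mul cg).integrable_of_hasCompactSupport hs.mul_left
  · intro i _
    have hg1 := contDiff_fderiv_apply hg (stdOrthonormalBasis ℝ E i)
    have cg2 := (hg1.continuous_fderiv (by norm_num)).clm_apply
      (continuous_const (y := stdOrthonormalBasis ℝ E i))
    have sg1 : HasCompactSupport (fun y => fderiv ℝ g y (stdOrthonormalBasis ℝ E i)) :=
      hs.fderiv_apply (𝕜 := ℝ) _
    exact (cf.mul cg2).integrable_of_hasCompactSupport (sg1.fderiv_apply (𝕜 := ℝ) _).mul_left

/-- `Δ + 1` applied to the radial function `x ↦ h (‖x‖²)`. -/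
noncomputable def radOp (h : ℝ → ℝ) (x : E) : ℝ :=
  4 * ‖x‖ ^ 2 * deriv (deriv h) (‖x‖ ^ 2)
    + 2 * (Module.finrank ℝ E) * deriv h (‖x‖ ^ 2) + h (‖x‖ ^ 2)

lemma hasFDerivAt_norm_sq (x : E) :
    HasFDerivAt (fun y : E => ‖y‖ ^ 2) ((2 : ℝ) • innerSL ℝ x) x := by
  have := (hasStrictFDerivAt_norm_sq x).hasFDerivAt
  convert this using 1
  ext y
  simp [two_smul]

lemma laplacian_radial {h : ℝ → ℝ} (hh : ContDiff ℝ 2 h) (x : E) :
    (Δ (fun y : E => h (‖y‖ ^ 2))) x + h (‖x‖ ^ 2) = radOp h x := by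
  have hn : ContDiff ℝ 2 (fun y : E => ‖y‖ ^ 2) := contDiff_norm_sq ℝ
  have hf : ContDiff ℝ 2 (fun y : E => h (‖y‖ ^ 2)) := hh.comp hn
  rw [laplacian_eq_sum_fderiv hf]
  have hd : Differentiable ℝ h := hh.differentiable (by norm_num)
  have hh1 : ContDiff ℝ 1 (deriv h) := by
    have := (contDiff_succ_iff_deriv (n := 1) (f := h)).1 (by exact_mod_cast hh)
    exact this.2.2
  have hd1 : Differentiable ℝ (deriv h) := hh1.differentiable (by norm_num)
  have e1 : ∀ v : E, (fun y : E => fderiv ℝ (fun y : E => h (‖y‖ ^ 2)) y v)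
      = fun y => deriv h (‖y‖ ^ 2) * (2 * ⟪y, v⟫) := by
    intro v
    funext y
    have h1 : HasFDerivAt (fun y : E => h (‖y‖ ^ 2))
        (deriv h (‖y‖ ^ 2) • ((2 : ℝ) • innerSL ℝ y)) y :=
      (hd _).hasDerivAt.comp_hasFDerivAt y (hasFDerivAt_norm_sq y)
    rw [h1.fderiv]
    simp
  have e2 : ∀ v : E, fderiv ℝ (fun y : E => fderiv ℝ (fun y : E => h (‖y‖ ^ 2)) y v) x v
      = deriv (deriv h) (‖x‖ ^ 2) * (2 * ⟪x, v⟫) ^ 2 + deriv h (‖x‖ ^ 2) * (2 * ‖v‖ ^ 2) := by
    intro v
    rw [e1 v]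
    have h1 : HasFDerivAt (fun y : E => deriv h (‖y‖ ^ 2))
        (deriv (deriv h) (‖x‖ ^ 2) • ((2 : ℝ) • innerSL ℝ x)) x :=
      (hd1 _).hasDerivAt.comp_hasFDerivAt x (hasFDerivAt_norm_sq x)
    have h2 : HasFDerivAt (fun y : E => 2 * ⟪y, v⟫) ((2 : ℝ) • (innerSL ℝ v)) x := by
      have h3 : HasFDerivAt (fun y : E => ⟪v, y⟫) (innerSL ℝ v) x := (innerSL ℝ v).hasFDerivAt
      have h4 : (fun y : E => 2 * ⟪y, v⟫) = fun y => (2 : ℝ) • ⟪v, y⟫ := by
        funext y; rw [real_inner_comm]; simp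
      rw [h4]
      exact h3.const_smul (2 : ℝ)
    have h5 : HasFDerivAt (fun y : E => deriv h (‖y‖ ^ 2) * (2 * ⟪y, v⟫)) _ x := h1.mul h2
    rw [h5.fderiv]
    simp
    ring
  simp_rw [e2]
  rw [Finset.sum_add_distrib, ← Finset.mul_sum, ← Finset.mul_sum]
  have hb : ∑ i, (2 * ⟪x, stdOrthonormalBasis ℝ E i⟫) ^ 2 = 4 * ‖x‖ ^ 2 := by
    have := (stdOrthonormalBasis ℝ E).sum_sq_inner_left x
    simp_rw [mul_pow]
    rw [← Finset.mul_sum, this]
    norm_num
  rw [hb]
  simp [radOp]
  ring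

end Berry67
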