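import Pool.Agent.Lib_helper67.Berry.Gauss2
import Pool.Agent.Lib_helper67.Berry.Green

/-!
A bounded function satisfying the Helmholtz equation against radial test functions has the
expected Gaussian averages.
-/

namespace Berry67

set_option linter.unusedSectionVars false

open MeasureTheory ProbabilityTheory Filter Topology
open scoped RealInnerProductSpace

variable {E : Type*} [NormedAddCommGroup E] [InnerProductSpace ℝ E] [FiniteDimensional ℝ E]
  [MeasurableSpace E] [BorelSpace E]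

lemma integrable_exp_neg_mul {b : ℝ} (hb : 0 < b) :
    Integrable (fun x : E => Real.exp (-b * ‖x‖ ^ 2)) := by
  have h := GaussianFourier.integrable_cexp_neg_mul_sq_norm_add (V := E) (b := (b : ℂ))
    (by simpa using hb) 0 0
  refine h.re.congr (Filter.Eventually.of_forall fun x => ?_)
  simp only [inner_zero_left, Complex.ofReal_zero, mul_zero, add_zero]
  have : (-(b : ℂ) * (‖x‖ : ℂ) ^ 2) = ((-b * ‖x‖ ^ 2 : ℝ) : ℂ) := by push_cast; ring
  rw [this]
  exact Complex.exp_ofReal_re _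

lemma sq_mul_exp_le {b t : ℝ} (hb : 0 < b) :
    t * Real.exp (-b * t) ≤ (2 / b) * Real.exp (-(b / 2) * t) := by
  have h1 : b / 2 * t ≤ Real.exp (b / 2 * t) := by
    have := Real.add_one_le_exp (b / 2 * t); linarith
  have h2 : Real.exp (-b * t) = Real.exp (-(b / 2) * t) * Real.exp (-(b / 2) * t) := by
    rw [← Real.exp_add]; ring_nf
  have h3 : Real.exp (b / 2 * t) * Real.exp (-(b / 2) * t) = 1 := by
    rw [← Real.exp_add]; ring_nf; simp
  have h4 : 0 < Real.exp (-(b / 2) * t) := Real.exp_pos _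
  rw [h2]
  have h5 : t * Real.exp (-(b / 2) * t) ≤ 2 / b := by
    rw [le_div_iff₀ hb]
    have := mul_le_mul_of_nonneg_right h1 h4.le
    rw [h3] at this
    linarith
  calc t * (Real.exp (-(b / 2) * t) * Real.exp (-(b / 2) * t))
      = (t * Real.exp (-(b / 2) * t)) * Real.exp (-(b / 2) * t) := by ring
    _ ≤ _ := mul_le_mul_of_nonneg_right h5 h4.le

lemma integrable_sq_mul_exp {b : ℝ} (hb : 0 < b) :
    Integrable (fun x : E => ‖x‖ ^ 2 * Real.exp (-b * ‖x‖ ^ 2)) := by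
  refine ((integrable_exp_neg_mul (E := E) (half_pos hb)).const_mul (2 / b)).mono'
    (by fun_prop) (Filter.Eventually.of_forall fun x => ?_)
  rw [Real.norm_of_nonneg (by positivity)]
  exact sq_mul_exp_le hb

/-- derivative of `g(εt) e^{-bt}` -/
lemma deriv_scaled {g : ℝ → ℝ} (hg : Differentiable ℝ g) (ε b : ℝ) :
    deriv (fun t => g (ε * t) * Real.exp (-b * t))
      = fun t => (ε * deriv g (ε * t) - b * g (ε * t)) * Real.exp (-b * t) := by
  funext t
  have h1 : HasDerivAt (fun t => g (ε * t)) (deriv g (ε * t) * ε) t := by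
    have h2 : HasDerivAt (fun t : ℝ => ε * t) ε t := by
      simpa using (hasDerivAt_id t).const_mul ε
    exact (hg _).hasDerivAt.comp t h2
  have h3 : HasDerivAt (fun t => Real.exp (-b * t)) (Real.exp (-b * t) * (-b)) t := by
    have h4 : HasDerivAt (fun t : ℝ => -b * t) (-b) t := by
      simpa using (hasDerivAt_id t).const_mul (-b)
    exact h4.exp
  have h5 : HasDerivAt (fun t => g (ε * t) * Real.exp (-b * t)) _ t := h1.mul h3
  rw [h5.deriv]
  ring

/-- The weak equation extends to Gaussians. -/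
lemma weak_gaussian {C : E → ℝ} (hm : Measurable C) {K : ℝ} (hK : ∀ x, |C x| ≤ K)
    (hw : ∀ h : ℝ → ℝ, ContDiff ℝ 2 h → HasCompactSupport h → ∫ x, C x * radOp h x = 0)
    {b : ℝ} (hb : 0 < b) :
    ∫ x : E, C x * ((4 * b ^ 2 * ‖x‖ ^ 2 - 2 * (Module.finrank ℝ E) * b + 1)
      * Real.exp (-b * ‖x‖ ^ 2)) = 0 := by
  -- the bump
  let φ : ContDiffBump (0 : ℝ) := ⟨1, 2, by norm_num, by norm_num⟩
  have hφ : ContDiff ℝ (⊤ : ℕ∞) (φ : ℝ → ℝ) := φ.contDiff
  have hφd : Differentiable ℝ (φ : ℝ → ℝ) := hφ.differentiable (by simp)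
  have hφ1 : ContDiff ℝ (⊤ : ℕ∞) (deriv (φ : ℝ → ℝ)) := by
    have := (contDiff_infty_iff_deriv (f := (φ : ℝ → ℝ))).1 hφ
    exact this.2
  have hφ1d : Differentiable ℝ (deriv (φ : ℝ → ℝ)) := hφ1.differentiable (by simp)
  have hφ2 : ContDiff ℝ (⊤ : ℕ∞) (deriv (deriv (φ : ℝ → ℝ))) := by
    have := (contDiff_infty_iff_deriv (f := deriv (φ : ℝ → ℝ))).1 hφ1
    exact this.2
  obtain ⟨M0, hM0⟩ := hφ.continuous.bounded_above_of_compact_support φ.hasCompactSupport
  obtain ⟨M1, hM1⟩ := hφ1.continuous.bounded_above_of_compact_support φ.hasCompactSupport.deriv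
  obtain ⟨M2, hM2⟩ := hφ2.continuous.bounded_above_of_compact_support
    φ.hasCompactSupport.deriv.deriv
  set p0 : ℝ → ℝ := ⇑φ with hp0
  set p1 : ℝ → ℝ := deriv p0 with hp1
  set p2 : ℝ → ℝ := deriv p1 with hp2
  have hM0' : 0 ≤ M0 := (norm_nonneg _).trans (hM0 0)
  have hM1' : 0 ≤ M1 := (norm_nonneg _).trans (hM1 0)
  have hM2' : 0 ≤ M2 := (norm_nonneg _).trans (hM2 0)
  have hφ0 : p0 0 = 1 := φ.eventuallyEq_one.self_of_nhds
  -- explicit form of the operator
  set d : ℝ := (Module.finrank ℝ E : ℝ) with hd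
  have hd0 : 0 ≤ d := Nat.cast_nonneg _
  let J : ℝ → E → ℝ := fun ε x =>
    (4 * ‖x‖ ^ 2 * (ε * (ε * p2 (ε * ‖x‖ ^ 2) - b * p1 (ε * ‖x‖ ^ 2))
        - b * (ε * p1 (ε * ‖x‖ ^ 2) - b * p0 (ε * ‖x‖ ^ 2)))
      + 2 * d * (ε * p1 (ε * ‖x‖ ^ 2) - b * p0 (ε * ‖x‖ ^ 2)) + p0 (ε * ‖x‖ ^ 2))
      * Real.exp (-b * ‖x‖ ^ 2)
  have hJ : ∀ (ε : ℝ) (x : E), radOp (fun t => p0 (ε * t) * Real.exp (-b * t)) x = J ε x := by
    intro ε x
    have e1 := deriv_scaled hφd ε b
    have hg1 : Differentiable ℝ (fun u => ε * p1 u - b * p0 u) :=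
      (hφ1d.const_mul ε).sub (hφd.const_mul b)
    have e2 := deriv_scaled hg1 ε b
    have e3 : deriv (fun u => ε * p1 u - b * p0 u) = fun u => ε * p2 u - b * p1 u := by
      funext u
      have h1 : HasDerivAt (fun u => ε * p1 u - b * p0 u) (ε * deriv p1 u - b * deriv p0 u) u :=
        ((hφ1d u).hasDerivAt.const_mul ε).sub ((hφd u).hasDerivAt.const_mul b)
      rw [h1.deriv]
    rw [e3] at e2
    simp only [radOp]
    rw [e1, e2]
    simp only [J]
    ring
  -- the sequence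
  let u : ℕ → ℝ := fun n => 1 / ((n : ℝ) + 1)
  have hu0 : ∀ n, 0 < u n := fun n => by positivity
  have hu1 : ∀ n, u n ≤ 1 := fun n => by
    simp only [u]
    rw [div_le_one (by positivity)]
    have : (0 : ℝ) ≤ n := Nat.cast_nonneg n
    linarith
  have hulim : Tendsto u atTop (𝓝 0) := tendsto_one_div_add_atTop_nhds_zero_nat
  have hzero : ∀ n, ∫ x, C x * J (u n) x = 0 := by
    intro n
    have hcd : ContDiff ℝ 2 (fun t => p0 (u n * t) * Real.exp (-b * t)) := by
      have h1 : ContDiff ℝ 2 (fun t => p0 (u n * t)) :=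
        (φ.contDiff (n := 2)).comp (contDiff_const.mul contDiff_id)
      have h2 : ContDiff ℝ 2 (fun t : ℝ => Real.exp (-b * t)) :=
        (contDiff_const.mul contDiff_id).exp
      exact h1.mul h2
    have hcs : HasCompactSupport (fun t => p0 (u n * t) * Real.exp (-b * t)) := by
      have h1 : HasCompactSupport (fun t => p0 (u n • t)) :=
        φ.hasCompactSupport.comp_smul (hu0 n).ne'
      exact h1.mul_right
    have := hw _ hcd hcs
    rw [← this]
    refine integral_congr_ae (Eventually.of_forall fun x => ?_)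
    simp only
    rw [hJ]
  -- dominated convergence
  have hcont : ∀ n, AEStronglyMeasurable (fun x => C x * J (u n) x) volume := by
    intro n
    refine hm.aestronglyMeasurable.mul (Continuous.aestronglyMeasurable ?_)
    have c0 := hφ.continuous
    have c1 := hφ1.continuous
    have c2 := hφ2.continuous
    simp only [J]
    fun_prop
  have hbound : ∀ n, ∀ᵐ x : E, ‖C x * J (u n) x‖
      ≤ K * ((4 * ‖x‖ ^ 2 * (1 * (1 * M2 + b * M1) + b * (1 * M1 + b * M0))
        + 2 * d * (1 * M1 + b * M0) + M0) * Real.exp (-b * ‖x‖ ^ 2)) := by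
    intro n
    refine Eventually.of_forall fun x => ?_
    have k0 : |p0 (u n * ‖x‖ ^ 2)| ≤ M0 := hM0 _
    have k1 : |p1 (u n * ‖x‖ ^ 2)| ≤ M1 := hM1 _
    have k2 : |p2 (u n * ‖x‖ ^ 2)| ≤ M2 := hM2 _
    have ku : |u n| ≤ 1 := by rw [abs_of_pos (hu0 n)]; exact hu1 n
    rw [norm_mul, Real.norm_eq_abs, Real.norm_eq_abs]
    apply mul_le_mul (hK x) _ (abs_nonneg _) ((abs_nonneg _).trans (hK x))
    simp only [J]
    rw [abs_mul, abs_of_pos (Real.exp_pos (-b * ‖x‖ ^ 2))]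
    apply mul_le_mul_of_nonneg_right _ (Real.exp_pos _).le
    have q1 : |u n * p1 (u n * ‖x‖ ^ 2)| ≤ 1 * M1 := by
      rw [abs_mul]; exact mul_le_mul ku k1 (abs_nonneg _) (by norm_num)
    have q2 : |u n * p2 (u n * ‖x‖ ^ 2)| ≤ 1 * M2 := by
      rw [abs_mul]; exact mul_le_mul ku k2 (abs_nonneg _) (by norm_num)
    have q3 : |b * p1 (u n * ‖x‖ ^ 2)| ≤ b * M1 := by
      rw [abs_mul, abs_of_pos hb]; exact mul_le_mul_of_nonneg_left k1 hb.le
    have q4 : |b * p0 (u n * ‖x‖ ^ 2)| ≤ b * M0 := by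
      rw [abs_mul, abs_of_pos hb]; exact mul_le_mul_of_nonneg_left k0 hb.le
    have q5 : |u n * p2 (u n * ‖x‖ ^ 2) - b * p1 (u n * ‖x‖ ^ 2)| ≤ 1 * M2 + b * M1 :=
      (abs_sub _ _).trans (add_le_add q2 q3)
    have q6 : |u n * p1 (u n * ‖x‖ ^ 2) - b * p0 (u n * ‖x‖ ^ 2)| ≤ 1 * M1 + b * M0 :=
      (abs_sub _ _).trans (add_le_add q1 q4)
    have q7 : |u n * (u n * p2 (u n * ‖x‖ ^ 2) - b * p1 (u n * ‖x‖ ^ 2))|
        ≤ 1 * (1 * M2 + b * M1) := by
      rw [abs_mul]; exact mul_le_mul ku q5 (abs_nonneg _) (by norm_num)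
    have q8 : |b * (u n * p1 (u n * ‖x‖ ^ 2) - b * p0 (u n * ‖x‖ ^ 2))|
        ≤ b * (1 * M1 + b * M0) := by
      rw [abs_mul, abs_of_pos hb]; exact mul_le_mul_of_nonneg_left q6 hb.le
    have q9 := (abs_sub (u n * (u n * p2 (u n * ‖x‖ ^ 2) - b * p1 (u n * ‖x‖ ^ 2)))
      (b * (u n * p1 (u n * ‖x‖ ^ 2) - b * p0 (u n * ‖x‖ ^ 2)))).trans (add_le_add q7 q8)
    have q10 : |4 * ‖x‖ ^ 2 * (u n * (u n * p2 (u n * ‖x‖ ^ 2) - b * p1 (u n * ‖x‖ ^ 2))
        - b * (u n * p1 (u n * ‖x‖ ^ 2) - b * p0 (u n * ‖x‖ ^ 2)))|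
        ≤ 4 * ‖x‖ ^ 2 * (1 * (1 * M2 + b * M1) + b * (1 * M1 + b * M0)) := by
      rw [abs_mul, abs_of_nonneg (by positivity : (0 : ℝ) ≤ 4 * ‖x‖ ^ 2)]
      exact mul_le_mul_of_nonneg_left q9 (by positivity)
    have q11 : |2 * d * (u n * p1 (u n * ‖x‖ ^ 2) - b * p0 (u n * ‖x‖ ^ 2))|
        ≤ 2 * d * (1 * M1 + b * M0) := by
      rw [abs_mul, abs_of_nonneg (by positivity : (0 : ℝ) ≤ 2 * d)]
      exact mul_le_mul_of_nonneg_left q6 (by positivity)
    exact (abs_add_le _ _).trans (add_le_add ((abs_add_le _ _).trans (add_le_add q10 q11)) k0)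
  have hbint : Integrable (fun x : E =>
      K * ((4 * ‖x‖ ^ 2 * (1 * (1 * M2 + b * M1) + b * (1 * M1 + b * M0))
        + 2 * d * (1 * M1 + b * M0) + M0) * Real.exp (-b * ‖x‖ ^ 2))) := by
    apply Integrable.const_mul
    have j1 := (integrable_sq_mul_exp (E := E) hb).const_mul
      (4 * (1 * (1 * M2 + b * M1) + b * (1 * M1 + b * M0)))
    have j2 := (integrable_exp_neg_mul (E := E) hb).const_mul (2 * d * (1 * M1 + b * M0) + M0)
    refine (j1.add j2).congr (Eventually.of_forall fun x => ?_)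
    simp only [Pi.add_apply]
    ring
  have hlim : ∀ᵐ x : E, Tendsto (fun n => C x * J (u n) x) atTop (𝓝 (C x * J 0 x)) := by
    refine Eventually.of_forall fun x => ?_
    have c0 := hφ.continuous
    have c1 := hφ1.continuous
    have c2 := hφ2.continuous
    have hc : Continuous (fun ε => C x * J ε x) := by
      simp only [J]
      fun_prop
    exact (hc.tendsto 0).comp hulim
  have hfin := tendsto_integral_of_dominated_convergence _ hcont hbint hbound hlim
  have h0 : Tendsto (fun n : ℕ => (0 : ℝ)) atTop (𝓝 (∫ x, C x * J 0 x)) := by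
    refine hfin.congr (fun n => ?_)
    exact hzero n
  have h1 : ∫ x, C x * J 0 x = 0 := tendsto_nhds_unique h0 tendsto_const_nhds
  rw [← h1]
  refine integral_congr_ae (Eventually.of_forall fun x => ?_)
  simp only [J, zero_mul, hφ0]
  ring

end Berry67
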