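import Pool.Agent.Lib_helper67.Berry.Lipschitz

/-!
The kurtosis inequality for an eigenfunction of the Gaussian averages.
-/

namespace Berry67

set_option linter.unusedSectionVars false

open MeasureTheory ProbabilityTheory

variable {E : Type*} [NormedAddCommGroup E] [InnerProductSpace ℝ E] [FiniteDimensional ℝ E]
  [MeasurableSpace E] [BorelSpace E]
variable {Ω : Type*} [MeasurableSpace Ω] {P : Measure Ω} {T : E → Ω → Ω}

/-- `F² = e^{2ρ²} avg ρ (prodA ρ F)`. -/
lemma IsFlow.sq_rep [IsProbabilityMeasure P] (H : IsFlow P T) {F : Ω → ℝ}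
    (hm : Measurable F) (hF : Integrable F P) (hE : IsEigen P T F) (ρ : ℝ) :
    (fun ω => F ω ^ 2) =ᵐ[P] fun ω => Real.exp (2 * ρ ^ 2) * avg T ρ (prodA T ρ F) ω := by
  filter_upwards [H.avg_prodA ρ hm hF, hE (Real.sqrt 2 * ρ)] with ω h1 h2
  rw [h1, h2, mul_pow, ← Real.exp_nat_mul, ← mul_assoc, ← Real.exp_add]
  have : (2 : ℝ) * ρ ^ 2 + (2 : ℕ) * (-(Real.sqrt 2 * ρ) ^ 2 / 2) = 0 := by
    rw [mul_pow, Real.sq_sqrt (by norm_num)]; push_cast; ring
  rw [this]; simp

/-- Bernstein inequality for `F² - m - β F`. -/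
lemma IsFlow.bernstein [IsProbabilityMeasure P] (H : IsFlow P T) {F : Ω → ℝ}
    (hm : Measurable F) (hF : Integrable (fun ω => F ω ^ 4) P) (hE : IsEigen P T F)
    (m β q : ℝ) :
    ∫ ω, (F ω ^ 2 - m - β * F ω) ^ 2 ∂P
      ≤ Real.exp (4 * q ^ 2) * ∫ ω, avg T q (fun ω => F ω ^ 2 - m - β * F ω) ω ^ 2 ∂P := by
  have hF2 : MemLp F 2 P := memLp_two_of_four hm hF
  have hF1 : Integrable F P := hF2.integrable (by norm_num)
  -- the representing sequence
  set a : ℕ → Ω → ℝ := fun n ω => prodA T (q * Real.sqrt (n : ℕ)) F ω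
    - (Real.exp (-(2 * q ^ 2 * n)) * m) - (Real.exp (-(2 * q ^ 2 * n) + q ^ 2 * n / 2) * β) * F ω
    with ha
  have hma : ∀ n, Measurable (a n) := fun n =>
    (((H.prodA_stronglyMeasurable _ hm).measurable.sub_const _).sub (hm.const_mul _))
  have hLa : ∀ n, MemLp (a n) 2 P := fun n =>
    (((H.prodA_memLp _ hm hF).sub (memLp_const _)).sub (hF2.const_mul _))
  have hC : ∀ n, ∫ ω, a n ω ^ 2 ∂P
      ≤ 3 * (∫ ω, F ω ^ 4 ∂P + m ^ 2 + β ^ 2 * ∫ ω, F ω ^ 2 ∂P) := by
    intro n
    set c1 := Real.exp (-(2 * q ^ 2 * n)) with hc1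
    set c2 := Real.exp (-(2 * q ^ 2 * n) + q ^ 2 * n / 2) with hc2
    have hc1' : c1 ^ 2 ≤ 1 := by
      have h0 : 0 ≤ c1 := (Real.exp_pos _).le
      have h1 : c1 ≤ 1 := by
        rw [hc1]; apply Real.exp_le_one_iff.2
        have : (0 : ℝ) ≤ q ^ 2 * n := by positivity
        linarith
      nlinarith
    have hc2' : c2 ^ 2 ≤ 1 := by
      have h0 : 0 ≤ c2 := (Real.exp_pos _).le
      have h1 : c2 ≤ 1 := by
        rw [hc2]; apply Real.exp_le_one_iff.2
        have : (0 : ℝ) ≤ q ^ 2 * n := by positivity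
        linarith
      nlinarith
    have hpt : ∀ ω, a n ω ^ 2 ≤ 3 * (prodA T (q * Real.sqrt (n : ℕ)) F ω ^ 2 + m ^ 2
        + β ^ 2 * F ω ^ 2) := by
      intro ω
      have e : a n ω = prodA T (q * Real.sqrt (n : ℕ)) F ω - c1 * m - c2 * β * F ω := rfl
      rw [e]
      set x := prodA T (q * Real.sqrt (n : ℕ)) F ω
      have h1 : (x - c1 * m - c2 * β * F ω) ^ 2
          ≤ 3 * (x ^ 2 + (c1 * m) ^ 2 + (c2 * β * F ω) ^ 2) := by
        nlinarith [sq_nonneg (x + c1 * m), sq_nonneg (x + c2 * β * F ω),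
          sq_nonneg (c1 * m - c2 * β * F ω)]
      have h2 : (c1 * m) ^ 2 ≤ m ^ 2 := by
        rw [mul_pow]; nlinarith [sq_nonneg m]
      have h3 : (c2 * β * F ω) ^ 2 ≤ β ^ 2 * F ω ^ 2 := by
        rw [mul_pow, mul_pow]
        have : 0 ≤ β ^ 2 * F ω ^ 2 := by positivity
        nlinarith
      linarith
    have ip := (H.prodA_memLp (q * Real.sqrt (n : ℕ)) hm hF).integrable_sq
    have iF := hF2.integrable_sq
    have i1 : Integrable (fun ω => prodA T (q * Real.sqrt (n : ℕ)) F ω ^ 2 + m ^ 2) P :=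
      ip.add (integrable_const _)
    have i2 : Integrable (fun ω => prodA T (q * Real.sqrt (n : ℕ)) F ω ^ 2 + m ^ 2
        + β ^ 2 * F ω ^ 2) P := i1.add (iF.const_mul _)
    calc ∫ ω, a n ω ^ 2 ∂P
        ≤ ∫ ω, 3 * (prodA T (q * Real.sqrt (n : ℕ)) F ω ^ 2 + m ^ 2 + β ^ 2 * F ω ^ 2) ∂P :=
          integral_mono (hLa n).integrable_sq (i2.const_mul _) hpt
      _ = 3 * (∫ ω, prodA T (q * Real.sqrt (n : ℕ)) F ω ^ 2 ∂P + m ^ 2
            + β ^ 2 * ∫ ω, F ω ^ 2 ∂P) := by
          rw [integral_const_mul, integral_add i1 (iF.const_mul _),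
            integral_add ip (integrable_const _), integral_const_mul]
          simp
      _ ≤ _ := by
          have := H.integral_prodA_sq_le (q * Real.sqrt (n : ℕ)) hm hF
          linarith
  have hrep : ∀ n : ℕ, (fun ω => F ω ^ 2 - m - β * F ω) =ᵐ[P]
      fun ω => Real.exp (2 * q ^ 2) ^ n * avg T (q * Real.sqrt (n : ℕ)) (a n) ω := by
    intro n
    have h1 := H.sq_rep hm hF1 hE (q * Real.sqrt (n : ℕ))
    have h2 := hE (q * Real.sqrt (n : ℕ))
    have h3 := H.ae_integrable (q * Real.sqrt (n : ℕ))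
      ((H.prodA_memLp (q * Real.sqrt (n : ℕ)) hm hF).integrable (by norm_num))
    have h4 := H.ae_integrable (q * Real.sqrt (n : ℕ)) hF1
    filter_upwards [h1, h2, h3, h4] with ω e1 e2 e3 e4
    have hsq : (q * Real.sqrt (n : ℕ)) ^ 2 = q ^ 2 * n := by
      rw [mul_pow, Real.sq_sqrt (by positivity)]
    have e5 : avg T (q * Real.sqrt (n : ℕ)) (a n) ω
        = avg T (q * Real.sqrt (n : ℕ)) (prodA T (q * Real.sqrt (n : ℕ)) F) ω
          - (Real.exp (-(2 * q ^ 2 * n)) * m)
          - (Real.exp (-(2 * q ^ 2 * n) + q ^ 2 * n / 2) * β)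
            * avg T (q * Real.sqrt (n : ℕ)) F ω := by
      have i5 : Integrable (fun x : E => prodA T (q * Real.sqrt (n : ℕ)) F
          (T ((q * Real.sqrt (n : ℕ)) • x) ω) - Real.exp (-(2 * q ^ 2 * n)) * m)
          (stdGaussian E) := e3.sub (integrable_const _)
      simp only [avg, ha]
      rw [integral_sub i5 (e4.const_mul _),
        integral_sub e3 (integrable_const _), integral_const_mul]
      simp
      exact integral_const_mul _ _
    rw [e5, e2, mul_sub, mul_sub, ← Real.exp_nat_mul]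
    rw [e1]
    have k1 : Real.exp ((n : ℕ) * (2 * q ^ 2)) = Real.exp (2 * (q * Real.sqrt (n : ℕ)) ^ 2) := by
      congr 1; rw [hsq]; ring
    have k2 : Real.exp ((n : ℕ) * (2 * q ^ 2)) * (Real.exp (-(2 * q ^ 2 * n)) * m) = m := by
      rw [← mul_assoc, ← Real.exp_add]
      have : (n : ℝ) * (2 * q ^ 2) + -(2 * q ^ 2 * n) = 0 := by ring
      rw [this]; simp
    have k3 : Real.exp ((n : ℕ) * (2 * q ^ 2)) *
        (Real.exp (-(2 * q ^ 2 * n) + q ^ 2 * n / 2) * β *
          (Real.exp (-(q * Real.sqrt (n : ℕ)) ^ 2 / 2) * F ω)) = β * F ω := by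
      have : Real.exp ((n : ℕ) * (2 * q ^ 2)) *
        (Real.exp (-(2 * q ^ 2 * n) + q ^ 2 * n / 2) * β *
          (Real.exp (-(q * Real.sqrt (n : ℕ)) ^ 2 / 2) * F ω))
          = (Real.exp ((n : ℕ) * (2 * q ^ 2)) * Real.exp (-(2 * q ^ 2 * n) + q ^ 2 * n / 2)
            * Real.exp (-(q * Real.sqrt (n : ℕ)) ^ 2 / 2)) * (β * F ω) := by ring
      rw [this, ← Real.exp_add, ← Real.exp_add, hsq]
      have : (n : ℝ) * (2 * q ^ 2) + (-(2 * q ^ 2 * n) + q ^ 2 * n / 2) + -(q ^ 2 * n) / 2 = 0 := by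
        ring
      rw [this]; simp
    rw [k2, k3, k1]
  have := H.growth q (Real.exp (2 * q ^ 2)) _ a hma hLa hC hrep
  rw [← Real.exp_nat_mul] at this
  have e : ((2 : ℕ) : ℝ) * (2 * q ^ 2) = 4 * q ^ 2 := by push_cast; ring
  rw [e] at this
  exact this

/-- the mean vanishes -/
lemma IsFlow.integral_eq_zero [IsProbabilityMeasure P] (H : IsFlow P T) {F : Ω → ℝ}
    (hF : Integrable F P) (hE : IsEigen P T F) : ∫ ω, F ω ∂P = 0 := by
  have h1 := H.integral_avg 1 hF
  rw [integral_congr_ae (hE 1), integral_const_mul] at h1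
  have h2 : Real.exp (-(1 ^ 2) / 2) < 1 := by
    rw [Real.exp_lt_one_iff]; norm_num
  have h3 : (1 - Real.exp (-(1 ^ 2) / 2)) * ∫ ω, F ω ∂P = 0 := by linarith
  rcases mul_eq_zero.1 h3 with h | h
  · linarith
  · exact h

/-- The finite-scale inequality. -/
lemma IsFlow.finite_scale [IsProbabilityMeasure P] (H : IsFlow P T) {F : Ω → ℝ}
    (hm : Measurable F) (hF : Integrable (fun ω => F ω ^ 4) P) (hE : IsEigen P T F)
    (β q : ℝ) (hβ : β * ∫ ω, F ω ^ 2 ∂P = ∫ ω, F ω ^ 3 ∂P) :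
    ∫ ω, (F ω ^ 2) * (F ω ^ 2) ∂P - ∫ ω, F ω ^ 2 * avg T (Real.sqrt 2 * q) (fun ω => F ω ^ 2) ω ∂P
      ≤ (1 - Real.exp (-(q ^ 2))) * (β ^ 2 * ∫ ω, F ω ^ 2 ∂P)
        + (1 - Real.exp (-(4 * q ^ 2))) * (∫ ω, F ω ^ 4 ∂P - (∫ ω, F ω ^ 2 ∂P) ^ 2
          - β ^ 2 * ∫ ω, F ω ^ 2 ∂P) := by
  have hF2 : MemLp F 2 P := memLp_two_of_four hm hF
  have hF1 : Integrable F P := hF2.integrable (by norm_num)
  have hFF : MemLp (fun ω => F ω ^ 2) 2 P := memLp_sq_of_four hm hF
  have hFF1 : Integrable (fun ω => F ω ^ 2) P := hF2.integrable_sq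
  set m := ∫ ω, F ω ^ 2 ∂P with hmdef
  set M3 := ∫ ω, F ω ^ 3 ∂P with hM3
  set T4 := ∫ ω, F ω ^ 4 ∂P with hT4
  have hM1 : ∫ ω, F ω ∂P = 0 := H.integral_eq_zero hF1 hE
  have iF3 : Integrable (fun ω => F ω ^ 3) P := by
    refine (hFF.integrable_mul hF2).congr (Filter.Eventually.of_forall fun ω => ?_)
    simp only [Pi.mul_apply]
    ring
  -- the remainder
  set G : Ω → ℝ := fun ω => F ω ^ 2 - m - β * F ω with hG
  have hmG : Measurable G := ((hm.pow_const 2).sub_const _).sub (hm.const_mul _)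
  have hLG : MemLp G 2 P := (hFF.sub (memLp_const _)).sub (hF2.const_mul _)
  have hG1 : Integrable G P := hLG.integrable (by norm_num)
  have hGm : ∫ ω, G ω ∂P = 0 := by
    have i1 : Integrable (fun ω => F ω ^ 2 - m) P := hFF1.sub (integrable_const _)
    simp only [hG]
    rw [integral_sub i1 (hF1.const_mul _), integral_sub hFF1 (integrable_const _),
      integral_const_mul, hM1]
    simp [hmdef]
  have hGF : ∫ ω, G ω * F ω ∂P = 0 := by
    have e : (fun ω => G ω * F ω) = fun ω => (F ω ^ 3 - m * F ω) - β * F ω ^ 2 := by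
      funext ω; simp only [hG]; ring
    have i1 : Integrable (fun ω => F ω ^ 3 - m * F ω) P := iF3.sub (hF1.const_mul _)
    rw [e, integral_sub i1 (hFF1.const_mul _), integral_sub iF3 (hF1.const_mul _),
      integral_const_mul, integral_const_mul, hM1]
    linarith
  have hGG : ∫ ω, G ω ^ 2 ∂P = T4 - m ^ 2 - β ^ 2 * m := by
    have e : (fun ω => G ω ^ 2) = fun ω => (F ω ^ 4 - m * F ω ^ 2 - β * F ω ^ 3)
        - m * G ω - β * (G ω * F ω) := by
      funext ω; simp only [hG]; ring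
    have i0 : Integrable (fun ω => G ω * F ω) P := hLG.integrable_mul hF2
    have i1 : Integrable (fun ω => F ω ^ 4 - m * F ω ^ 2) P := hF.sub (hFF1.const_mul _)
    have i2 : Integrable (fun ω => F ω ^ 4 - m * F ω ^ 2 - β * F ω ^ 3) P :=
      i1.sub (iF3.const_mul _)
    have i3 : Integrable (fun ω => F ω ^ 4 - m * F ω ^ 2 - β * F ω ^ 3 - m * G ω) P :=
      i2.sub (hG1.const_mul _)
    rw [e, integral_sub i3 (i0.const_mul _), integral_sub i2 (hG1.const_mul _),
      integral_sub i1 (iF3.const_mul _), integral_sub hF (hFF1.const_mul _),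
      integral_const_mul, integral_const_mul, integral_const_mul, integral_const_mul, hGm, hGF,
      ← hM3, ← hβ]
    ring
  -- averages
  set r := Real.sqrt 2 * q with hr
  have hr2 : r ^ 2 = 2 * q ^ 2 := by rw [hr, mul_pow, Real.sq_sqrt (by norm_num)]
  have havgF : avg T r F =ᵐ[P] fun ω => Real.exp (-(q ^ 2)) * F ω := by
    have := hE r
    rw [hr2] at this
    have e : -(2 * q ^ 2) / 2 = -(q ^ 2) := by ring
    rw [e] at this
    exact this
  have havg : avg T r (fun ω => F ω ^ 2) =ᵐ[P]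
      fun ω => avg T r G ω + m + β * (Real.exp (-(q ^ 2)) * F ω) := by
    filter_upwards [havgF, H.ae_integrable r hG1, H.ae_integrable r hF1] with ω h1 h2 h3
    rw [← h1]
    have i1 : Integrable (fun x : E => G (T (r • x) ω) + m) (stdGaussian E) :=
      h2.add (integrable_const _)
    have : avg T r (fun ω => F ω ^ 2) ω
        = ∫ x : E, (G (T (r • x) ω) + m + β * F (T (r • x) ω)) ∂(stdGaussian E) := by
      refine integral_congr_ae (Filter.Eventually.of_forall fun x => ?_)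
      simp only [hG]
      ring
    rw [this, integral_add i1 (h3.const_mul _), integral_add h2 (integrable_const _),
      integral_const_mul]
    simp [avg]
  have hLaG : MemLp (avg T r G) 2 P := H.avg_memLp_two r hmG hLG
  have hcross : ∫ ω, F ω * avg T r G ω ∂P = 0 := by
    rw [← H.avg_symm r hm hmG hF2 hLG]
    have : ∫ ω, avg T r F ω * G ω ∂P = ∫ ω, Real.exp (-(q ^ 2)) * (G ω * F ω) ∂P := by
      refine integral_congr_ae ?_
      filter_upwards [havgF] with ω h1
      rw [h1]; ring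
    rw [this, integral_const_mul, hGF, mul_zero]
  have hmain : ∫ ω, F ω ^ 2 * avg T r (fun ω => F ω ^ 2) ω ∂P
      = ∫ ω, G ω * avg T r G ω ∂P + m ^ 2 + Real.exp (-(q ^ 2)) * (β ^ 2 * m) := by
    have e1 : ∫ ω, F ω ^ 2 * avg T r (fun ω => F ω ^ 2) ω ∂P
        = ∫ ω, ((((G ω * avg T r G ω + m * avg T r G ω) + β * (F ω * avg T r G ω)) + m * F ω ^ 2)
            + (β * Real.exp (-(q ^ 2))) * F ω ^ 3) ∂P := by
      refine integral_congr_ae ?_
      filter_upwards [havg] with ω h1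
      rw [h1]
      simp only [hG]
      ring
    have j1 : Integrable (fun ω => G ω * avg T r G ω) P := hLG.integrable_mul hLaG
    have j2 : Integrable (fun ω => m * avg T r G ω) P := (hLaG.integrable (by norm_num)).const_mul _
    have j3 : Integrable (fun ω => β * (F ω * avg T r G ω)) P :=
      (hF2.integrable_mul hLaG).const_mul _
    have j4 : Integrable (fun ω => m * F ω ^ 2) P := hFF1.const_mul _
    have j5 : Integrable (fun ω => (β * Real.exp (-(q ^ 2))) * F ω ^ 3) P := iF3.const_mul _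
    have j12 : Integrable (fun ω => G ω * avg T r G ω + m * avg T r G ω) P := j1.add j2
    have j123 : Integrable (fun ω => (G ω * avg T r G ω + m * avg T r G ω)
      + β * (F ω * avg T r G ω)) P := j12.add j3
    have j1234 : Integrable (fun ω => ((G ω * avg T r G ω + m * avg T r G ω)
      + β * (F ω * avg T r G ω)) + m * F ω ^ 2) P := j123.add j4
    rw [e1, integral_add j1234 j5, integral_add j123 j4, integral_add j12 j3, integral_add j1 j2,
      integral_const_mul, integral_const_mul, integral_const_mul, integral_const_mul,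
      H.integral_avg r hG1, hGm, hcross, ← hmdef, ← hM3, ← hβ]
    ring
  have hGavg : ∫ ω, avg T q G ω ^ 2 ∂P = ∫ ω, G ω * avg T r G ω ∂P := by
    simp_rw [pow_two (avg T q G _)]
    rw [H.inner_avg_avg q q hmG hLG]
    have : Real.sqrt (q ^ 2 + q ^ 2) = |r| := by
      rw [← Real.sqrt_sq_eq_abs, hr2]; ring_nf
    rw [this]
    rcases le_total 0 r with h | h
    · rw [abs_of_nonneg h]
    · rw [abs_of_nonpos h, H.avg_neg r hmG]
  have hB := H.bernstein hm hF hE m β q
  have hB' : Real.exp (-(4 * q ^ 2)) * (T4 - m ^ 2 - β ^ 2 * m) ≤ ∫ ω, G ω * avg T r G ω ∂P := by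
    rw [← hGavg, ← hGG]
    have h1 := mul_le_mul_of_nonneg_left hB (Real.exp_pos (-(4 * q ^ 2))).le
    rw [← mul_assoc, ← Real.exp_add] at h1
    have : -(4 * q ^ 2) + 4 * q ^ 2 = 0 := by ring
    rw [this, Real.exp_zero, one_mul] at h1
    exact h1
  have hT : ∫ ω, (F ω ^ 2) * (F ω ^ 2) ∂P = T4 := by
    refine integral_congr_ae (Filter.Eventually.of_forall fun ω => ?_)
    simp only
    ring
  rw [hT, hmain]
  linarith

/-- The algebraic identity at finite scale. -/
lemma IsFlow.scale_identity [IsProbabilityMeasure P] (H : IsFlow P T) {F : Ω → ℝ}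
    (hm : Measurable F) (hF : Integrable (fun ω => F ω ^ 4) P) (hE : IsEigen P T F) (q : ℝ) :
    (1 - Real.exp (-(q ^ 2))) * ∫ ω, F ω ^ 4 ∂P
      ≤ (3 / 4 : ℝ) * (∫ ω, (F ω ^ 2) * (F ω ^ 2) ∂P
          - ∫ ω, F ω ^ 2 * avg T (Real.sqrt 2 * q) (fun ω => F ω ^ 2) ω ∂P)
        + (16 * ∫ x : E, ‖x‖ ^ 4 ∂(stdGaussian E)) * (∫ ω, F ω ^ 4 ∂P) * (q ^ 2) ^ 2 := by
  have hF2 : MemLp F 2 P := memLp_two_of_four hm hF
  have hF1 : Integrable F P := hF2.integrable (by norm_num)
  have hFF : MemLp (fun ω => F ω ^ 2) 2 P := memLp_sq_of_four hm hF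
  set r := Real.sqrt 2 * q with hr
  have hr2 : r ^ 2 = 2 * q ^ 2 := by rw [hr, mul_pow, Real.sq_sqrt (by norm_num)]
  have havgF : avg T r F =ᵐ[P] fun ω => Real.exp (-(q ^ 2)) * F ω := by
    have := hE r
    rw [hr2] at this
    have e : -(2 * q ^ 2) / 2 = -(q ^ 2) := by ring
    rw [e] at this
    exact this
  set T4 := ∫ ω, F ω ^ 4 ∂P with hT4
  -- moments of the pair
  have m1 : Measurable (fun p : E × Ω => F (T (r • p.1) p.2)) := hm.comp (H.meas_smul r)
  have m2 : Measurable (fun p : E × Ω => F p.2) := hm.comp measurable_snd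
  have i1 : Integrable (fun p : E × Ω => F (T (r • p.1) p.2) ^ 4) ((stdGaussian E).prod P) :=
    H.integrable_comp r hF
  have i2 : Integrable (fun p : E × Ω => F p.2 ^ 4) ((stdGaussian E).prod P) :=
    measurePreserving_snd.integrable_comp_of_integrable hF
  have i12 := i1.add i2
  have i3 : Integrable (fun p : E × Ω => F (T (r • p.1) p.2) ^ 3 * F p.2)
      ((stdGaussian E).prod P) := by
    refine i12.mono' ((m1.pow_const 3).mul m2).aestronglyMeasurable
      (Filter.Eventually.of_forall fun p => ?_)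
    simp only [Pi.add_apply, Real.norm_eq_abs]
    rw [abs_le]
    set a := F (T (r • p.1) p.2)
    set b := F p.2
    constructor
    · nlinarith [sq_nonneg (a ^ 2 - b ^ 2), sq_nonneg (a * (a + b)), sq_nonneg (a ^ 2),
        sq_nonneg (b ^ 2), sq_nonneg (a * b)]
    · nlinarith [sq_nonneg (a ^ 2 - b ^ 2), sq_nonneg (a * (a - b)), sq_nonneg (a ^ 2),
        sq_nonneg (b ^ 2), sq_nonneg (a * b)]
  have i4 : Integrable (fun p : E × Ω => F (T (r • p.1) p.2) * F p.2 ^ 3)
      ((stdGaussian E).prod P) := by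
    refine i12.mono' (m1.mul (m2.pow_const 3)).aestronglyMeasurable
      (Filter.Eventually.of_forall fun p => ?_)
    simp only [Pi.add_apply, Real.norm_eq_abs]
    rw [abs_le]
    set a := F (T (r • p.1) p.2)
    set b := F p.2
    constructor
    · nlinarith [sq_nonneg (a ^ 2 - b ^ 2), sq_nonneg (b * (a + b)), sq_nonneg (a ^ 2),
        sq_nonneg (b ^ 2), sq_nonneg (a * b)]
    · nlinarith [sq_nonneg (a ^ 2 - b ^ 2), sq_nonneg (b * (a - b)), sq_nonneg (a ^ 2),
        sq_nonneg (b ^ 2), sq_nonneg (a * b)]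
  have i5 : Integrable (fun p : E × Ω => F (T (r • p.1) p.2) ^ 2 * F p.2 ^ 2)
      ((stdGaussian E).prod P) := by
    refine i12.mono' ((m1.pow_const 2).mul (m2.pow_const 2)).aestronglyMeasurable
      (Filter.Eventually.of_forall fun p => ?_)
    simp only [Pi.add_apply, Real.norm_eq_abs]
    rw [abs_of_nonneg (by positivity)]
    set a := F (T (r • p.1) p.2)
    set b := F p.2
    nlinarith [sq_nonneg (a ^ 2 - b ^ 2), sq_nonneg (a ^ 2), sq_nonneg (b ^ 2)]
  have i3' : Integrable (fun p : E × Ω => F p.2 ^ 3 * F (T (r • p.1) p.2))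
      ((stdGaussian E).prod P) := by
    refine i4.congr (Filter.Eventually.of_forall fun p => ?_)
    simp only
    ring
  -- values
  have v1 : ∫ p : E × Ω, F (T (r • p.1) p.2) ^ 4 ∂((stdGaussian E).prod P) = T4 := by
    rw [integral_prod_symm _ i1]
    exact H.integral_avg r hF
  have v2 : ∫ p : E × Ω, F p.2 ^ 4 ∂((stdGaussian E).prod P) = T4 := by
    rw [integral_prod_symm _ i2]
    simp [hT4]
  have v4 : ∫ p : E × Ω, F (T (r • p.1) p.2) * F p.2 ^ 3 ∂((stdGaussian E).prod P)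
      = Real.exp (-(q ^ 2)) * T4 := by
    rw [integral_prod_symm _ i4, hT4, ← integral_const_mul]
    refine integral_congr_ae ?_
    filter_upwards [havgF] with ω h1
    have : ∫ x : E, F (T (r • x) ω) * F ω ^ 3 ∂(stdGaussian E) = avg T r F ω * F ω ^ 3 := by
      rw [integral_mul_const]; rfl
    rw [this, h1]
    ring
  have v3 : ∫ p : E × Ω, F (T (r • p.1) p.2) ^ 3 * F p.2 ∂((stdGaussian E).prod P)
      = Real.exp (-(q ^ 2)) * T4 := by
    rw [integral_prod_symm _ i3]
    have h1 : ∫ ω, (∫ x : E, F (T (r • x) ω) ^ 3 * F ω ∂(stdGaussian E)) ∂P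
        = ∫ ω, avg T r (fun ω => F ω ^ 3) ω * F ω ∂P := by
      refine integral_congr_ae (Filter.Eventually.of_forall fun ω => ?_)
      simp only
      rw [integral_mul_const]; rfl
    rw [h1, H.avg_symm_aux r (hm.pow_const 3) hm i3 i3', hT4, ← integral_const_mul]
    refine integral_congr_ae ?_
    filter_upwards [havgF] with ω h1
    rw [h1]
    ring
  have v5 : ∫ p : E × Ω, F (T (r • p.1) p.2) ^ 2 * F p.2 ^ 2 ∂((stdGaussian E).prod P)
      = ∫ ω, F ω ^ 2 * avg T r (fun ω => F ω ^ 2) ω ∂P := by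
    rw [integral_prod_symm _ i5]
    refine integral_congr_ae (Filter.Eventually.of_forall fun ω => ?_)
    simp only
    rw [integral_mul_const, mul_comm]; rfl
  have iD : Integrable (fun p : E × Ω => (F (T (r • p.1) p.2) - F p.2) ^ 4)
      ((stdGaussian E).prod P) := by
    refine (i12.const_mul (8 : ℝ)).mono' ((m1.sub m2).pow_const 4).aestronglyMeasurable
      (Filter.Eventually.of_forall fun p => ?_)
    rw [Real.norm_of_nonneg (by positivity)]
    simp only [Pi.add_apply]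
    set a := F (T (r • p.1) p.2)
    set b := F p.2
    nlinarith [sq_nonneg (a + b), sq_nonneg (a - b),
      sq_nonneg (a ^ 2 - b ^ 2), sq_nonneg (a * b),
      mul_nonneg (sq_nonneg (a + b)) (sq_nonneg (a + b)),
      mul_nonneg (sq_nonneg (a + b)) (sq_nonneg (a - b))]
  have vD : ∫ p : E × Ω, (F (T (r • p.1) p.2) - F p.2) ^ 4 ∂((stdGaussian E).prod P)
      = 2 * T4 - 8 * (Real.exp (-(q ^ 2)) * T4)
        + 6 * ∫ ω, F ω ^ 2 * avg T r (fun ω => F ω ^ 2) ω ∂P := by
    have e : (fun p : E × Ω => (F (T (r • p.1) p.2) - F p.2) ^ 4)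
        = fun p => (((F (T (r • p.1) p.2) ^ 4 + F p.2 ^ 4)
          - 4 * (F (T (r • p.1) p.2) ^ 3 * F p.2)) - 4 * (F (T (r • p.1) p.2) * F p.2 ^ 3))
          + 6 * (F (T (r • p.1) p.2) ^ 2 * F p.2 ^ 2) := by
      funext p; ring
    have k1 : Integrable (fun p : E × Ω => F (T (r • p.1) p.2) ^ 4 + F p.2 ^ 4)
      ((stdGaussian E).prod P) := i12
    have k2 : Integrable (fun p : E × Ω => (F (T (r • p.1) p.2) ^ 4 + F p.2 ^ 4)
      - 4 * (F (T (r • p.1) p.2) ^ 3 * F p.2)) ((stdGaussian E).prod P) :=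
      k1.sub (i3.const_mul _)
    have k3 : Integrable (fun p : E × Ω => ((F (T (r • p.1) p.2) ^ 4 + F p.2 ^ 4)
      - 4 * (F (T (r • p.1) p.2) ^ 3 * F p.2)) - 4 * (F (T (r • p.1) p.2) * F p.2 ^ 3))
      ((stdGaussian E).prod P) := k2.sub (i4.const_mul _)
    rw [e, integral_add k3 (i5.const_mul _), integral_sub k2 (i4.const_mul _),
      integral_sub k1 (i3.const_mul _), integral_add i1 i2, integral_const_mul,
      integral_const_mul, integral_const_mul, v1, v2, v3, v4, v5]
    ring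
  have hDle : ∫ p : E × Ω, (F (T (r • p.1) p.2) - F p.2) ^ 4 ∂((stdGaussian E).prod P)
      ≤ (128 * ∫ x : E, ‖x‖ ^ 4 ∂(stdGaussian E)) * T4 * (q ^ 2) ^ 2 := by
    rw [integral_prod _ iD]
    calc ∫ x : E, ∫ ω, (F (T (r • x) ω) - F ω) ^ 4 ∂P ∂(stdGaussian E)
        ≤ ∫ x : E, (32 * r ^ 4 * T4) * ‖x‖ ^ 4 ∂(stdGaussian E) := by
          refine integral_mono iD.integral_prod_left (integrable_norm_pow_four.const_mul _) ?_
          intro x
          have := H.integral_increment_le hm hF hE (r • x)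
          simp only
          refine this.trans (le_of_eq ?_)
          rw [norm_smul, mul_pow, Real.norm_eq_abs]
          have : |r| ^ 4 = r ^ 4 := by
            rw [show (4 : ℕ) = 2 * 2 from rfl, pow_mul, pow_mul, sq_abs]
          rw [this]
          ring
      _ = _ := by
          rw [integral_const_mul]
          have : r ^ 4 = 4 * (q ^ 2) ^ 2 := by
            calc r ^ 4 = (r ^ 2) ^ 2 := by ring
              _ = _ := by rw [hr2]; ring
          rw [this]
          ring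
  have hT : ∫ ω, (F ω ^ 2) * (F ω ^ 2) ∂P = T4 := by
    refine integral_congr_ae (Filter.Eventually.of_forall fun ω => ?_)
    simp only
    ring
  rw [hT]
  rw [vD] at hDle
  linarith

/-- **The kurtosis inequality** (abstract form). -/
theorem IsFlow.kurtosis [IsProbabilityMeasure P] (H : IsFlow P T) {F : Ω → ℝ}
    (hm : Measurable F) (hF : Integrable (fun ω => F ω ^ 4) P) (hE : IsEigen P T F) :
    (3 / 2 : ℝ) * (∫ ω, F ω ^ 2 ∂P) ^ 3 + (9 / 8 : ℝ) * (∫ ω, F ω ^ 3 ∂P) ^ 2
      ≤ (∫ ω, F ω ^ 4 ∂P) * ∫ ω, F ω ^ 2 ∂P := by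
  have hF2 : MemLp F 2 P := memLp_two_of_four hm hF
  have hFF1 : Integrable (fun ω => F ω ^ 2) P := hF2.integrable_sq
  have hm0 : 0 ≤ ∫ ω, F ω ^ 2 ∂P := integral_nonneg fun ω => sq_nonneg _
  rcases hm0.eq_or_lt with h0 | hpos
  · have hz : (fun ω => F ω ^ 2) =ᵐ[P] 0 :=
      (integral_eq_zero_iff_of_nonneg (fun ω => sq_nonneg _) hFF1).1 h0.symm
    have h3 : ∫ ω, F ω ^ 3 ∂P = 0 := by
      rw [← integral_zero Ω ℝ]
      refine integral_congr_ae ?_
      filter_upwards [hz] with ω hω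
      have : F ω = 0 := by simpa using hω
      simp [this]
    rw [← h0, h3]
    simp
  · set m := ∫ ω, F ω ^ 2 ∂P with hmdef
    set M3 := ∫ ω, F ω ^ 3 ∂P with hM3
    set T4 := ∫ ω, F ω ^ 4 ∂P with hT4
    set M4 := ∫ x : E, ‖x‖ ^ 4 ∂(stdGaussian E) with hM4
    have hM4' : 0 ≤ M4 := integral_nonneg fun x => by positivity
    have hT4' : 0 ≤ T4 := integral_nonneg fun x => by positivity
    set β := M3 / m with hβdef
    have hβ : β * m = M3 := div_mul_cancel₀ _ hpos.ne'
    set B := β ^ 2 * m with hB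
    set V := T4 - m ^ 2 - B with hV
    have hB0 : 0 ≤ B := by positivity
    -- at scale zero: `V ≥ 0`
    have key : ∀ q : ℝ, (1 - Real.exp (-(q ^ 2))) * T4
        ≤ (3 / 4 : ℝ) * ((1 - Real.exp (-(q ^ 2))) * B + (1 - Real.exp (-(4 * q ^ 2))) * V)
          + 16 * M4 * T4 * (q ^ 2) ^ 2 := by
      intro q
      have h1 := H.scale_identity hm hF hE q
      have h2 := H.finite_scale hm hF hE β q hβ
      linarith
    have hV0 : 0 ≤ V := by
      have hFF : MemLp (fun ω => F ω ^ 2) 2 P := memLp_sq_of_four hm hF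
      have hF1 : Integrable F P := hF2.integrable (by norm_num)
      have hM1 : ∫ ω, F ω ∂P = 0 := H.integral_eq_zero hF1 hE
      have iF3 : Integrable (fun ω => F ω ^ 3) P := by
        refine (hFF.integrable_mul hF2).congr (Filter.Eventually.of_forall fun ω => ?_)
        simp only [Pi.mul_apply]
        ring
      have h1 : 0 ≤ ∫ ω, (F ω ^ 2 - m - β * F ω) ^ 2 ∂P := integral_nonneg fun ω => sq_nonneg _
      have e : (fun ω => (F ω ^ 2 - m - β * F ω) ^ 2)
          = fun ω => ((((F ω ^ 4 + (β ^ 2 - 2 * m) * F ω ^ 2) - (2 * β) * F ω ^ 3)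
            + (2 * m * β) * F ω) + m ^ 2) := by
        funext ω; ring
      have k1 : Integrable (fun ω => F ω ^ 4 + (β ^ 2 - 2 * m) * F ω ^ 2) P :=
        hF.add (hFF1.const_mul _)
      have k2 : Integrable (fun ω => (F ω ^ 4 + (β ^ 2 - 2 * m) * F ω ^ 2)
        - (2 * β) * F ω ^ 3) P := k1.sub (iF3.const_mul _)
      have k3 : Integrable (fun ω => ((F ω ^ 4 + (β ^ 2 - 2 * m) * F ω ^ 2)
        - (2 * β) * F ω ^ 3) + (2 * m * β) * F ω) P := k2.add (hF1.const_mul _)
      rw [e, integral_add k3 (integrable_const _), integral_add k2 (hF1.const_mul _),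
        integral_sub k1 (iF3.const_mul _), integral_add hF (hFF1.const_mul _),
        integral_const_mul, integral_const_mul, integral_const_mul, hM1, ← hM3, ← hmdef,
        ← hT4, ← hβ] at h1
      simp only [integral_const, probReal_univ, smul_eq_mul, one_mul, mul_zero, add_zero] at h1
      have : T4 + (β ^ 2 - 2 * m) * m - 2 * β * (β * m) + m ^ 2 = V := by
        rw [hV, hB]; ring
      linarith
    -- divide by `s = q²` and let `s → 0`
    have key2 : ∀ s : ℝ, 0 < s → T4 ≤ (3 / 4 : ℝ) * (B + 4 * V) + (16 * M4 * T4 + T4) * s := by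
      intro s hs
      rcases le_total s 1 with hs1 | hs1
      · have h1 := key (Real.sqrt s)
        rw [Real.sq_sqrt hs.le] at h1
        have h2 : s - s ^ 2 ≤ 1 - Real.exp (-s) := by
          have := Real.abs_exp_sub_one_sub_id_le (x := -s) (by
            rw [abs_neg, abs_of_pos hs]; exact hs1)
          have := (abs_le.1 this).2
          nlinarith
        have h3 : 1 - Real.exp (-s) ≤ s := by
          have := Real.add_one_le_exp (-s); linarith
        have h4 : 1 - Real.exp (-(4 * s)) ≤ 4 * s := by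
          have := Real.add_one_le_exp (-(4 * s)); linarith
        have h5 : (s - s ^ 2) * T4 ≤ (3 / 4 : ℝ) * (s * B + 4 * s * V)
            + 16 * M4 * T4 * s ^ 2 := by
          have a1 := mul_le_mul_of_nonneg_right h2 hT4'
          have a2 := mul_le_mul_of_nonneg_right h3 hB0
          have a3 := mul_le_mul_of_nonneg_right h4 hV0
          linarith
        have h6 : s * T4 ≤ s * ((3 / 4 : ℝ) * (B + 4 * V) + (16 * M4 * T4 + T4) * s) := by
          have : 0 ≤ s ^ 2 * T4 := by positivity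
          nlinarith
        exact le_of_mul_le_mul_left h6 hs
      · have : 0 ≤ (3 / 4 : ℝ) * (B + 4 * V) := by positivity
        have : 0 ≤ 16 * M4 * T4 * s := by positivity
        have : T4 ≤ T4 * s := by nlinarith
        nlinarith
    have hfinal : T4 ≤ (3 / 4 : ℝ) * (B + 4 * V) := by
      refine le_of_forall_pos_le_add fun ε hε => ?_
      have hK : 0 < 16 * M4 * T4 + T4 + 1 := by positivity
      have := key2 (ε / (16 * M4 * T4 + T4 + 1)) (div_pos hε hK)
      have h2 : (16 * M4 * T4 + T4) * (ε / (16 * M4 * T4 + T4 + 1)) ≤ ε := by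
        rw [← mul_div_assoc, div_le_iff₀ hK]
        nlinarith
      linarith
    have h7 : (3 / 2 : ℝ) * m ^ 2 + (9 / 8 : ℝ) * B ≤ T4 := by
      rw [hV] at hfinal; linarith
    have h8 := mul_le_mul_of_nonneg_right h7 hpos.le
    have h9 : B * m = M3 ^ 2 := by rw [hB, ← hβ]; ring
    calc (3 / 2 : ℝ) * m ^ 3 + (9 / 8 : ℝ) * M3 ^ 2
        = ((3 / 2 : ℝ) * m ^ 2 + (9 / 8 : ℝ) * B) * m := by rw [← h9]; ring
      _ ≤ T4 * m := h8

end Berry67
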