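import Pool.Agent.Lib_helper67.Berry.Bernstein

/-!
`L⁴` Lipschitz bound for an eigenfunction of the Gaussian averages.
-/

namespace Berry67

set_option linter.unusedSectionVars false

open MeasureTheory ProbabilityTheory

variable {E : Type*} [NormedAddCommGroup E] [InnerProductSpace ℝ E] [FiniteDimensional ℝ E]
  [MeasurableSpace E] [BorelSpace E]
variable {Ω : Type*} [MeasurableSpace Ω] {P : Measure Ω} {T : E → Ω → Ω}

/-- `F` is an eigenfunction of all Gaussian averages, with the eigenvalues of a field satisfying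
the Helmholtz equation. -/
def IsEigen (P : Measure Ω) (T : E → Ω → Ω) (F : Ω → ℝ) : Prop :=
  ∀ r : ℝ, avg T r F =ᵐ[P] fun ω => Real.exp (-(r ^ 2) / 2) * F ω

lemma memLp_two_of_four [IsProbabilityMeasure P] {F : Ω → ℝ} (hm : Measurable F)
    (hF : Integrable (fun ω => F ω ^ 4) P) : MemLp F 2 P := by
  rw [memLp_two_iff_integrable_sq hm.aestronglyMeasurable]
  refine ((integrable_const (1 : ℝ)).add hF).mono' (hm.pow_const 2).aestronglyMeasurable
    (Filter.Eventually.of_forall fun ω => ?_)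
  rw [Real.norm_of_nonneg (sq_nonneg _)]
  simp only [Pi.add_apply]
  nlinarith [sq_nonneg (F ω ^ 2 - 1), sq_nonneg (F ω)]

lemma memLp_sq_of_four {α : Type*} [MeasurableSpace α] {μ : Measure α} {F : α → ℝ}
    (hm : Measurable F) (hF : Integrable (fun ω => F ω ^ 4) μ) : MemLp (fun ω => F ω ^ 2) 2 μ := by
  rw [memLp_two_iff_integrable_sq (hm.pow_const 2).aestronglyMeasurable]
  refine hF.congr (Filter.Eventually.of_forall fun ω => ?_)
  ring

lemma IsFlow.increment_le [IsProbabilityMeasure P] (H : IsFlow P T) {F : Ω → ℝ}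
    (hm : Measurable F) (hF : Integrable (fun ω => F ω ^ 4) P) (hE : IsEigen P T F) (h : E) :
    ∀ᵐ ω ∂P, (F (T h ω) - F ω) ^ 4
      ≤ Real.exp 2 * ((Real.exp (‖h‖ ^ 2) - 1) ^ 2 * avg T 1 (fun ω => F ω ^ 4) ω) := by
  have hF2 : MemLp F 2 P := memLp_two_of_four hm hF
  have hE1 := hE 1
  have hE2 : ∀ᵐ ω ∂P, avg T 1 F (T h ω) = Real.exp (-(1 ^ 2) / 2) * F (T h ω) :=
    (H.mp h).quasiMeasurePreserving.ae hE1
  filter_upwards [hE1, hE2, H.ae_memLp_two 1 hm hF2, H.ae_integrable 1 hF] with ω h1 h2 h3 h4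
  set f : E → ℝ := fun x => F (T ((1 : ℝ) • x) ω) with hf
  have hmf : Measurable f :=
    hm.comp (H.meas.comp ((measurable_id.const_smul (1 : ℝ)).prodMk measurable_const))
  have i1 : Integrable f (stdGaussian E) := h3.integrable (by norm_num)
  have i2 : Integrable (fun x => f x * cm h x) (stdGaussian E) := h3.integrable_mul (memLp_cm h)
  have e1 : avg T 1 F (T h ω) = ∫ x, f x * cm h x ∂(stdGaussian E) := by
    rw [← integral_shift h f]
    refine integral_congr_ae (Filter.Eventually.of_forall fun x => ?_)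
    simp only [hf, H.add, one_smul]
  have e2 : avg T 1 F ω = ∫ x, f x ∂(stdGaussian E) := rfl
  have e3 : Real.exp (-(1 ^ 2) / 2) * (F (T h ω) - F ω)
      = ∫ x, f x * (cm h x - 1) ∂(stdGaussian E) := by
    rw [mul_sub, ← h2, ← h1, e1, e2, ← integral_sub i2 i1]
    refine integral_congr_ae (Filter.Eventually.of_forall fun x => ?_)
    simp only
    ring
  have c1 : (∫ x, f x * (cm h x - 1) ∂(stdGaussian E)) ^ 2
      ≤ (∫ x, f x ^ 2 ∂(stdGaussian E)) * (Real.exp (‖h‖ ^ 2) - 1) := by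
    rw [← integral_cm_sub_one_sq h]
    exact integral_mul_sq_le h3 (memLp_cm_sub_one h)
  have c2 : (∫ x, f x ^ 2 ∂(stdGaussian E)) ^ 2 ≤ ∫ x, f x ^ 4 ∂(stdGaussian E) := by
    have := integral_sq_le (μ := stdGaussian E) (f := fun x => f x ^ 2) (memLp_sq_of_four hmf h4)
    refine this.trans (le_of_eq ?_)
    refine integral_congr_ae (Filter.Eventually.of_forall fun x => ?_)
    simp only
    ring
  have c3 : 0 ≤ ∫ x, f x ^ 2 ∂(stdGaussian E) := integral_nonneg fun x => sq_nonneg _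
  have c4 : 0 ≤ Real.exp (‖h‖ ^ 2) - 1 := by
    have := Real.add_one_le_exp (‖h‖ ^ 2)
    nlinarith [sq_nonneg ‖h‖]
  have c5 : ((∫ x, f x * (cm h x - 1) ∂(stdGaussian E)) ^ 2) ^ 2
      ≤ (Real.exp (‖h‖ ^ 2) - 1) ^ 2 * ∫ x, f x ^ 4 ∂(stdGaussian E) := by
    calc ((∫ x, f x * (cm h x - 1) ∂(stdGaussian E)) ^ 2) ^ 2
        ≤ ((∫ x, f x ^ 2 ∂(stdGaussian E)) * (Real.exp (‖h‖ ^ 2) - 1)) ^ 2 :=
          pow_le_pow_left₀ (sq_nonneg _) c1 2
      _ = (Real.exp (‖h‖ ^ 2) - 1) ^ 2 * (∫ x, f x ^ 2 ∂(stdGaussian E)) ^ 2 := by ring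
      _ ≤ _ := mul_le_mul_of_nonneg_left c2 (sq_nonneg _)
  rw [← e3] at c5
  have hexp : Real.exp (-(1 ^ 2) / 2) ^ 4 * Real.exp 2 = 1 := by
    rw [← Real.exp_nat_mul, ← Real.exp_add]
    norm_num
  calc (F (T h ω) - F ω) ^ 4 = Real.exp 2 *
        ((Real.exp (-(1 ^ 2) / 2) * (F (T h ω) - F ω)) ^ 2) ^ 2 := by
        have : Real.exp 2 * ((Real.exp (-(1 ^ 2) / 2) * (F (T h ω) - F ω)) ^ 2) ^ 2
          = (Real.exp (-(1 ^ 2) / 2) ^ 4 * Real.exp 2) * (F (T h ω) - F ω) ^ 4 := by ring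
        rw [this, hexp, one_mul]
    _ ≤ _ := mul_le_mul_of_nonneg_left c5 (Real.exp_pos _).le

lemma integrable_increment [IsProbabilityMeasure P] (H : IsFlow P T) {F : Ω → ℝ}
    (hm : Measurable F) (hF : Integrable (fun ω => F ω ^ 4) P) (h : E) :
    Integrable (fun ω => (F (T h ω) - F ω) ^ 4) P := by
  have i1 : Integrable (fun ω => F (T h ω) ^ 4) P := (H.mp h).integrable_comp_of_integrable hF
  refine ((i1.add hF).const_mul (8 : ℝ)).mono'
    (((hm.comp (H.mp h).measurable).sub hm).pow_const 4).aestronglyMeasurable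
    (Filter.Eventually.of_forall fun ω => ?_)
  rw [Real.norm_of_nonneg (by positivity)]
  simp only [Pi.add_apply]
  nlinarith [sq_nonneg (F (T h ω) + F ω), sq_nonneg (F (T h ω) - F ω),
    sq_nonneg ((F (T h ω)) ^ 2 - F ω ^ 2), sq_nonneg (F (T h ω) * F ω),
    mul_nonneg (sq_nonneg (F (T h ω) + F ω)) (sq_nonneg (F (T h ω) + F ω)),
    mul_nonneg (sq_nonneg (F (T h ω) + F ω)) (sq_nonneg (F (T h ω) - F ω))]

/-- the fourth moment of the increments is `O(‖h‖⁴)` -/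
lemma IsFlow.integral_increment_le [IsProbabilityMeasure P] (H : IsFlow P T) {F : Ω → ℝ}
    (hm : Measurable F) (hF : Integrable (fun ω => F ω ^ 4) P) (hE : IsEigen P T F) (h : E) :
    ∫ ω, (F (T h ω) - F ω) ^ 4 ∂P ≤ 32 * ‖h‖ ^ 4 * ∫ ω, F ω ^ 4 ∂P := by
  have hT0 : 0 ≤ ∫ ω, F ω ^ 4 ∂P := integral_nonneg fun ω => by positivity
  rcases le_total ‖h‖ 1 with hh | hh
  · have i1 := H.avg_integrable 1 hF
    have step : ∫ ω, (F (T h ω) - F ω) ^ 4 ∂P
        ≤ Real.exp 2 * ((Real.exp (‖h‖ ^ 2) - 1) ^ 2 * ∫ ω, F ω ^ 4 ∂P) := by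
      calc ∫ ω, (F (T h ω) - F ω) ^ 4 ∂P
          ≤ ∫ ω, Real.exp 2 * ((Real.exp (‖h‖ ^ 2) - 1) ^ 2 * avg T 1 (fun ω => F ω ^ 4) ω) ∂P :=
            integral_mono_ae (integrable_increment H hm hF h) ((i1.const_mul _).const_mul _)
              (H.increment_le hm hF hE h)
        _ = _ := by
            rw [integral_const_mul, integral_const_mul, H.integral_avg 1 hF]
    have hu : (Real.exp (‖h‖ ^ 2) - 1) ^ 2 ≤ 4 * (‖h‖ ^ 2) ^ 2 :=
      exp_sub_one_sq_le (sq_nonneg _) (by nlinarith [norm_nonneg h])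
    have he : Real.exp 2 ≤ 8 := by
      have h1 : Real.exp 1 < 2.7182818286 := Real.exp_one_lt_d9
      have h2 : Real.exp 2 = Real.exp 1 * Real.exp 1 := by rw [← Real.exp_add]; norm_num
      have h3 : 0 < Real.exp 1 := Real.exp_pos 1
      rw [h2]; nlinarith
    calc ∫ ω, (F (T h ω) - F ω) ^ 4 ∂P
        ≤ Real.exp 2 * ((Real.exp (‖h‖ ^ 2) - 1) ^ 2 * ∫ ω, F ω ^ 4 ∂P) := step
      _ ≤ 8 * ((4 * (‖h‖ ^ 2) ^ 2) * ∫ ω, F ω ^ 4 ∂P) := by
          apply mul_le_mul he (mul_le_mul_of_nonneg_right hu hT0) (by positivity) (by norm_num)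
      _ = _ := by ring
  · have i1 : Integrable (fun ω => F (T h ω) ^ 4) P := (H.mp h).integrable_comp_of_integrable hF
    have hb : ∀ ω, (F (T h ω) - F ω) ^ 4 ≤ 8 * (F (T h ω) ^ 4 + F ω ^ 4) := by
      intro ω
      nlinarith [sq_nonneg (F (T h ω) + F ω), sq_nonneg (F (T h ω) - F ω),
        sq_nonneg ((F (T h ω)) ^ 2 - F ω ^ 2), sq_nonneg (F (T h ω) * F ω),
        mul_nonneg (sq_nonneg (F (T h ω) + F ω)) (sq_nonneg (F (T h ω) + F ω)),
        mul_nonneg (sq_nonneg (F (T h ω) + F ω)) (sq_nonneg (F (T h ω) - F ω))]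
    have e1 : ∫ ω, F (T h ω) ^ 4 ∂P = ∫ ω, F ω ^ 4 ∂P := by
      have h3 := integral_map (μ := P) (H.mp h).measurable.aemeasurable
        (f := fun ω => F ω ^ 4) (by rw [(H.mp h).map_eq]; exact hF.aestronglyMeasurable)
      rw [(H.mp h).map_eq] at h3
      exact h3.symm
    have h4 : (1 : ℝ) ≤ ‖h‖ ^ 4 := one_le_pow₀ hh
    calc ∫ ω, (F (T h ω) - F ω) ^ 4 ∂P ≤ ∫ ω, 8 * (F (T h ω) ^ 4 + F ω ^ 4) ∂P :=
          integral_mono (integrable_increment H hm hF h) ((i1.add hF).const_mul _) hb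
      _ = 16 * ∫ ω, F ω ^ 4 ∂P := by
          rw [integral_const_mul, integral_add i1 hF, e1]; ring
      _ ≤ 32 * ‖h‖ ^ 4 * ∫ ω, F ω ^ 4 ∂P := by
          apply mul_le_mul_of_nonneg_right _ hT0
          linarith

end Berry67
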