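import Pool.Agent.Lib_helper67.Berry.QMom

/-!
Riemannian metrics on `ℝ^d` given by their matrix.
-/

namespace Berry67

set_option linter.unusedSectionVars false

open InnerProductSpace Filter Topology MeasureTheory Matrix
open scoped ContDiff

variable {d : ℕ}

/-- `ℝ^d` -/
abbrev EE (d : ℕ) : Type := EuclideanSpace ℝ (Fin d)

/-- coordinate vectors -/
noncomputable abbrev ev (i : Fin d) : EE d := EuclideanSpace.single i (1 : ℝ)

lemma contDiff_det {g : EE d → Matrix (Fin d) (Fin d) ℝ}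
    (hg : ∀ i j, ContDiff ℝ ∞ (fun x => g x i j)) : ContDiff ℝ ∞ (fun x => (g x).det) := by
  simp only [Matrix.det_apply]
  refine ContDiff.sum fun σ _ => ?_
  refine ContDiff.const_smul _ ?_
  exact contDiff_prod fun i _ => hg _ _

lemma contDiff_adjugate {g : EE d → Matrix (Fin d) (Fin d) ℝ}
    (hg : ∀ i j, ContDiff ℝ ∞ (fun x => g x i j)) (i j : Fin d) :
    ContDiff ℝ ∞ (fun x => (g x).adjugate i j) := by
  simp only [Matrix.adjugate_apply]
  refine contDiff_det fun k l => ?_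
  by_cases h : k = j
  · subst h
    simp only [Matrix.updateRow_self]
    exact contDiff_const
  · simp only [Matrix.updateRow_ne h]
    exact hg k l

/-- the volume density -/
noncomputable def rho (g : EE d → Matrix (Fin d) (Fin d) ℝ) (x : EE d) : ℝ := Real.sqrt (g x).det

lemma contDiff_rho {g : EE d → Matrix (Fin d) (Fin d) ℝ}
    (hg : ∀ i j, ContDiff ℝ ∞ (fun x => g x i j)) (hp : ∀ x, (g x).PosDef) :
    ContDiff ℝ ∞ (rho g) :=
  (contDiff_det hg).sqrt fun x => (hp x).det_pos.ne'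

lemma rho_pos {g : EE d → Matrix (Fin d) (Fin d) ℝ} (hp : ∀ x, (g x).PosDef) (x : EE d) :
    0 < rho g x := Real.sqrt_pos.2 (hp x).det_pos

lemma contDiff_inv {g : EE d → Matrix (Fin d) (Fin d) ℝ}
    (hg : ∀ i j, ContDiff ℝ ∞ (fun x => g x i j)) (hp : ∀ x, (g x).PosDef) (i j : Fin d) :
    ContDiff ℝ ∞ (fun x => (g x)⁻¹ i j) := by
  have e : (fun x => (g x)⁻¹ i j) = fun x => ((g x).det)⁻¹ * (g x).adjugate i j := by
    funext x
    rw [Matrix.inv_def]
    simp [Ring.inverse_eq_inv']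
  rw [e]
  exact ((contDiff_det hg).inv fun x => (hp x).det_pos.ne').mul (contDiff_adjugate hg i j)

/-- the coefficients of the Laplace-Beltrami operator -/
noncomputable def coefOf (g : EE d → Matrix (Fin d) (Fin d) ℝ)
    (hg : ∀ i j, ContDiff ℝ ∞ (fun x => g x i j)) (hp : ∀ x, (g x).PosDef) :
    Coef (EE d) (Fin d) where
  e := ev
  H i j x := (g x)⁻¹ i j
  B j x := (∑ i, D (ev i) (fun y => rho g y * (g y)⁻¹ i j) x) / rho g x
  sH i j := contDiff_inv hg hp i j
  sB j := (ContDiff.sum fun i _ => contDiff_D ((contDiff_rho hg hp).mul (contDiff_inv hg hp i j)) _).div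
    (contDiff_rho hg hp) fun x => (rho_pos hp x).ne'
  symm i j x := by
    have h := (hp x).inv.1
    have := congrFun (congrFun h i) j
    simpa [Matrix.conjTranspose_apply] using this.symm

lemma isDiv_coefOf (g : EE d → Matrix (Fin d) (Fin d) ℝ)
    (hg : ∀ i j, ContDiff ℝ ∞ (fun x => g x i j)) (hp : ∀ x, (g x).PosDef) :
    (coefOf g hg hp).IsDiv (rho g) := by
  intro j x
  have := (rho_pos hp x).ne'
  simp only [coefOf]
  field_simp

/-- the Laplace-Beltrami operator in divergence form -/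
lemma Lo_coefOf (g : EE d → Matrix (Fin d) (Fin d) ℝ)
    (hg : ∀ i j, ContDiff ℝ ∞ (fun x => g x i j)) (hp : ∀ x, (g x).PosDef) {f : EE d → ℝ}
    (hf : ContDiff ℝ ∞ f) (x : EE d) :
    (coefOf g hg hp).Lo f x
      = (∑ i, D (ev i) (fun y => rho g y * ∑ j, (g y)⁻¹ i j * D (ev j) f y) x) / rho g x := by
  have hr := contDiff_rho hg hp
  have hr0 := (rho_pos hp x).ne'
  have s1 : ∀ i j, ContDiff ℝ ∞ (fun y => rho g y * (g y)⁻¹ i j) := fun i j =>
    hr.mul (contDiff_inv hg hp i j)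
  have e1 : ∀ i, D (ev i) (fun y => rho g y * ∑ j, (g y)⁻¹ i j * D (ev j) f y) x
      = ∑ j, (D (ev i) (fun y => rho g y * (g y)⁻¹ i j) x * D (ev j) f x
        + (rho g x * (g x)⁻¹ i j) * D (ev i) (D (ev j) f) x) := by
    intro i
    have e2 : (fun y => rho g y * ∑ j, (g y)⁻¹ i j * D (ev j) f y)
        = fun y => ∑ j, (rho g y * (g y)⁻¹ i j) * D (ev j) f y := by
      funext y
      rw [Finset.mul_sum]
      refine Finset.sum_congr rfl fun j _ => ?_
      ring
    rw [e2, D_add_fun _ _ fun j => (s1 i j).mul (contDiff_D hf _)]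
    simp only [D_mul (s1 i _) (contDiff_D hf _)]
  simp only [e1, Finset.sum_add_distrib]
  rw [Finset.sum_comm (f := fun i j => D (ev i) (fun y => rho g y * (g y)⁻¹ i j) x * D (ev j) f x)]
  simp only [← Finset.sum_mul]
  have e3 : ∑ i, ∑ j, (rho g x * (g x)⁻¹ i j) * D (ev i) (D (ev j) f) x
      = rho g x * ∑ i, ∑ j, (g x)⁻¹ i j * D (ev i) (D (ev j) f) x := by
    simp only [Finset.mul_sum]
    refine Finset.sum_congr rfl fun i _ => Finset.sum_congr rfl fun j _ => ?_
    ring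
  rw [e3]
  unfold Coef.Lo
  simp only [coefOf]
  rw [add_div, mul_div_cancel_left₀ _ hr0, Finset.sum_div, add_comm]
  congr 1
  refine Finset.sum_congr rfl fun j _ => ?_
  ring

/-- the derivative of an action map in coordinates -/
noncomputable def Jm {Γ : Type*} [Group Γ] [MulAction Γ (EE d)] (γ : Γ) (x : EE d) :
    Matrix (Fin d) (Fin d) ℝ := Matrix.of fun k i => (fderiv ℝ (fun y : EE d => γ • y) x (ev i)) k

section action

variable {Γ : Type*} [Group Γ] [MulAction Γ (EE d)] {g : EE d → Matrix (Fin d) (Fin d) ℝ}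

lemma det_Jm (γ : Γ) (x : EE d) :
    (Jm γ x).det = (fderiv ℝ (fun y : EE d => γ • y) x).det := by
  have h := LinearMap.det_toMatrix (EuclideanSpace.basisFun (Fin d) ℝ).toBasis
    ((fderiv ℝ (fun y : EE d => γ • y) x : EE d →L[ℝ] EE d) : EE d →ₗ[ℝ] EE d)
  rw [ContinuousLinearMap.det, ← h]
  congr 1

lemma isom_matrix (hiso : ∀ (γ : Γ) (x : EE d) (i j : Fin d),
      ∑ k, ∑ l, (fderiv ℝ (fun y : EE d => γ • y) x (ev i)) k * g (γ • x) k l
        * (fderiv ℝ (fun y : EE d => γ • y) x (ev j)) l = g x i j) (γ : Γ) (x : EE d) :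
    (Jm γ x)ᵀ * g (γ • x) * Jm γ x = g x := by
  ext i j
  rw [← hiso γ x i j]
  simp only [Matrix.mul_apply, Matrix.transpose_apply, Jm, Matrix.of_apply, Finset.sum_mul]
  rw [Finset.sum_comm]

lemma det_isom {γ : Γ} {x : EE d}
    (h : (Jm γ x)ᵀ * g (γ • x) * Jm γ x = g x) :
    |(Jm γ x).det| * rho g (γ • x) = rho g x := by
  have h1 := congrArg Matrix.det h
  rw [Matrix.det_mul, Matrix.det_mul, Matrix.det_transpose] at h1
  have h2 : (g x).det = ((Jm γ x).det) ^ 2 * (g (γ • x)).det := by rw [← h1]; ring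
  unfold rho
  rw [h2, Real.sqrt_mul (sq_nonneg _), Real.sqrt_sq_eq_abs]

lemma inv_isom (hp : ∀ x, (g x).PosDef) {γ : Γ} {x : EE d}
    (h : (Jm γ x)ᵀ * g (γ • x) * Jm γ x = g x) :
    Jm γ x * (g x)⁻¹ * (Jm γ x)ᵀ = (g (γ • x))⁻¹ := by
  have h1 := congrArg Matrix.det h
  rw [Matrix.det_mul, Matrix.det_mul, Matrix.det_transpose] at h1
  have hJ : (Jm γ x).det ≠ 0 := by
    intro h0
    rw [h0] at h1
    have := (hp x).det_pos
    rw [← h1] at this
    simp at this
  have hJu : IsUnit (Jm γ x).det := isUnit_iff_ne_zero.2 hJ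
  have hJtu : IsUnit (Jm γ x)ᵀ.det := by rw [Matrix.det_transpose]; exact hJu
  rw [← h, Matrix.mul_inv_rev, Matrix.mul_inv_rev]
  have e : Jm γ x * ((Jm γ x)⁻¹ * ((g (γ • x))⁻¹ * (Jm γ x)ᵀ⁻¹)) * (Jm γ x)ᵀ
      = (Jm γ x * (Jm γ x)⁻¹) * (g (γ • x))⁻¹ * ((Jm γ x)ᵀ⁻¹ * (Jm γ x)ᵀ) := by
    simp only [Matrix.mul_assoc]
  rw [e, Matrix.mul_nonsing_inv _ hJu, Matrix.nonsing_inv_mul _ hJtu, Matrix.one_mul,
    Matrix.mul_one]

/-- derivative of a function composed with the action -/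
lemma D_comp_smul (hsm : ∀ γ : Γ, ContDiff ℝ ∞ (fun x : EE d => γ • x)) {f : EE d → ℝ}
    (hf : ContDiff ℝ ∞ f) (γ : Γ) (x : EE d) (i : Fin d) :
    D (ev i) (fun y => f (γ • y)) x = ∑ k, Jm γ x k i * D (ev k) f (γ • x) := by
  have h1 : HasFDerivAt (fun y : EE d => γ • y) (fderiv ℝ (fun y : EE d => γ • y) x) x :=
    ((hsm γ).differentiable (by simp) x).hasFDerivAt
  have h2 : HasFDerivAt f (fderiv ℝ f (γ • x)) (γ • x) :=
    (hf.differentiable (by simp) _).hasFDerivAt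
  have h3 := h2.comp x h1
  have h4 : D (ev i) (fun y => f (γ • y)) x
      = fderiv ℝ f (γ • x) (fderiv ℝ (fun y : EE d => γ • y) x (ev i)) := by
    simp only [D]
    have : fderiv ℝ (fun y => f (γ • y)) x
        = (fderiv ℝ f (γ • x)).comp (fderiv ℝ (fun y : EE d => γ • y) x) := h3.fderiv
    rw [this]; rfl
  rw [h4]
  set u := fderiv ℝ (fun y : EE d => γ • y) x (ev i) with hu
  have h5 : u = ∑ k, u k • ev k := by
    have := (EuclideanSpace.basisFun (Fin d) ℝ).sum_repr u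
    simpa using this.symm
  conv_lhs => rw [h5]
  simp only [map_sum, map_smul, smul_eq_mul, D, Jm, Matrix.of_apply]
  rfl

/-- invariance of the carré du champ -/
lemma G_inv (hg : ∀ i j, ContDiff ℝ ∞ (fun x => g x i j)) (hp : ∀ x, (g x).PosDef)
    (hsm : ∀ γ : Γ, ContDiff ℝ ∞ (fun x : EE d => γ • x))
    {γ : Γ} {x : EE d} (h : (Jm γ x)ᵀ * g (γ • x) * Jm γ x = g x) {f u : EE d → ℝ}
    (hf : ContDiff ℝ ∞ f) (hu : ContDiff ℝ ∞ u) :
    (coefOf g hg hp).G (fun y => f (γ • y)) (fun y => u (γ • y)) x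
      = (coefOf g hg hp).G f u (γ • x) := by
  have h1 := inv_isom hp h
  have h2 : ∀ k l, (g (γ • x))⁻¹ k l
      = ∑ i, ∑ j, Jm γ x k i * (g x)⁻¹ i j * Jm γ x l j := by
    intro k l
    rw [← h1]
    simp only [Matrix.mul_apply, Matrix.transpose_apply, Finset.sum_mul]
    rw [Finset.sum_comm]
  unfold Coef.G
  simp only [coefOf, D_comp_smul hsm hf, D_comp_smul hsm hu, h2]
  simp only [Finset.sum_mul, Finset.mul_sum]
  -- reorder the quadruple sums
  have key : ∀ F : Fin d → Fin d → Fin d → Fin d → ℝ,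
      ∑ i, ∑ j, ∑ l, ∑ k, F i j l k = ∑ k, ∑ l, ∑ i, ∑ j, F i j l k := by
    intro F
    calc ∑ i, ∑ j, ∑ l, ∑ k, F i j l k = ∑ i, ∑ j, ∑ k, ∑ l, F i j l k := by
          refine Finset.sum_congr rfl fun i _ => Finset.sum_congr rfl fun j _ => ?_
          exact Finset.sum_comm
      _ = ∑ i, ∑ k, ∑ j, ∑ l, F i j l k := by
          refine Finset.sum_congr rfl fun i _ => ?_
          exact Finset.sum_comm
      _ = ∑ k, ∑ i, ∑ j, ∑ l, F i j l k := Finset.sum_comm
      _ = ∑ k, ∑ i, ∑ l, ∑ j, F i j l k := by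
          refine Finset.sum_congr rfl fun k _ => Finset.sum_congr rfl fun i _ => ?_
          exact Finset.sum_comm
      _ = ∑ k, ∑ l, ∑ i, ∑ j, F i j l k := by
          refine Finset.sum_congr rfl fun k _ => ?_
          exact Finset.sum_comm
  rw [key]
  refine Finset.sum_congr rfl fun k _ => Finset.sum_congr rfl fun l _ =>
    Finset.sum_congr rfl fun i _ => Finset.sum_congr rfl fun j _ => ?_
  ring

/-- the quotient data of a metric -/
theorem qdata_of_metric (hg : ∀ i j, ContDiff ℝ ∞ (fun x => g x i j)) (hp : ∀ x, (g x).PosDef)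
    (hsm : ∀ γ : Γ, ContDiff ℝ ∞ (fun x : EE d => γ • x))
    (hiso : ∀ (γ : Γ) (x : EE d) (i j : Fin d),
      ∑ k, ∑ l, (fderiv ℝ (fun y : EE d => γ • y) x (ev i)) k * g (γ • x) k l
        * (fderiv ℝ (fun y : EE d => γ • y) x (ev j)) l = g x i j)
    (hprop : ∀ K : Set (EE d), IsCompact K →
      {γ : Γ | ((fun x : EE d => γ • x) '' K ∩ K).Nonempty}.Finite)
    (hcoc : ∃ K : Set (EE d), IsCompact K ∧ ∀ x, ∃ γ : Γ, γ • x ∈ K) :
    QData (coefOf g hg hp) (rho g) Γ where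
  sρ := contDiff_rho hg hp
  ρpos := rho_pos hp
  hB := isDiv_coefOf g hg hp
  pd x ξ hξ := by
    have := (hp x).inv.dotProduct_mulVec_pos hξ
    simp only [dotProduct, Matrix.mulVec, star_trivial, Finset.mul_sum] at this
    refine this.trans_le (le_of_eq ?_)
    unfold Coef.qf
    refine Finset.sum_congr rfl fun i _ => Finset.sum_congr rfl fun j _ => ?_
    simp only [coefOf]
    ring
  sm := hsm
  inv γ f h hf hh x := G_inv hg hp hsm (isom_matrix hiso γ x) hf hh
  vol γ x := by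
    rw [← det_Jm]
    exact det_isom (isom_matrix hiso γ x)
  proper := hprop
  cocompact := hcoc

end action

end Berry67
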