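import Pool.Agent.Lib_helper67.Berry.Div
import Pool.Agent.Lib_helper67.Berry.Alg

/-!
The even moment inequality for an abstract 3-jet.
-/

namespace Berry67

set_option linter.unusedSectionVars false

open MeasureTheory ProbabilityTheory Filter Topology

/-! ### pointwise algebra -/

section pointwise

variable {ι : Type*} [Fintype ι]

/-- the energy density `F² + |v|²` -/
def Sf (F : ℝ) (v : ι → ℝ) : ℝ := F ^ 2 + ∑ j, v j ^ 2

/-- half the gradient of the energy density -/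
def Pf (F : ℝ) (v : ι → ℝ) (M : ι → ι → ℝ) (i : ι) : ℝ := F * v i + ∑ j, M i j * v j

/-- the derivative of `Pf i` in direction `i` -/
def DPf (F : ℝ) (v : ι → ℝ) (M K : ι → ι → ℝ) (i : ι) : ℝ :=
  v i * v i + F * M i i + ∑ j, (K i j * v j + M i j * M i j)

/-- the vector field -/
noncomputable def Xf (n : ℕ) (F : ℝ) (v : ι → ℝ) (M : ι → ι → ℝ) (i : ι) : ℝ :=
  aP n F (Sf F v) * v i + 2 * (cP n F (Sf F v) * ((Sf F v - F ^ 2) * Pf F v M i))

/-- its derivative in direction `i` -/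
noncomputable def DXf (n : ℕ) (F : ℝ) (v : ι → ℝ) (M K : ι → ι → ℝ) (i : ι) : ℝ :=
  (aF n F (Sf F v) * v i + aS n F (Sf F v) * (2 * Pf F v M i)) * v i
    + aP n F (Sf F v) * M i i
    + 2 * ((cF n F (Sf F v) * v i + cS n F (Sf F v) * (2 * Pf F v M i))
            * ((Sf F v - F ^ 2) * Pf F v M i)
          + cP n F (Sf F v) * ((2 * Pf F v M i - 2 * F * v i) * Pf F v M i
            + (Sf F v - F ^ 2) * DPf F v M K i))

/-- the nonnegative defect -/
noncomputable def Wf (n : ℕ) (F : ℝ) (v : ι → ℝ) (M : ι → ι → ℝ) : ℝ :=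
  -(2 * cP n F (Sf F v)) * ((Sf F v - F ^ 2) * (∑ i, ∑ j, M i j ^ 2) - ∑ i, (∑ j, M i j * v j) ^ 2)
    + (-(6 * cP n F (Sf F v)) - 4 * cS n F (Sf F v) * (Sf F v - F ^ 2)) * ∑ i, Pf F v M i ^ 2

lemma sum_DXf (n : ℕ) (F : ℝ) (v : ι → ℝ) (M K : ι → ι → ℝ) (hM : ∑ i, M i i = -F)
    (hK : ∀ j, ∑ i, K i j = -v j) :
    ∑ i, DXf n F v M K i = F ^ (2 * n) / cm2 n - Sf F v ^ n - Wf n F v M := by
  set S := Sf F v with hS
  set m : ι → ℝ := fun i => ∑ j, M i j * v j with hm
  have hP : ∀ i, Pf F v M i = F * v i + m i := fun i => rfl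
  have hY : ∑ j, v j ^ 2 = S - F ^ 2 := by rw [hS, Sf]; ring
  set q := ∑ i, v i * m i with hq
  set m2 := ∑ i, m i ^ 2 with hm2
  set h2 := ∑ i, ∑ j, M i j ^ 2 with hh2
  have e1 : ∀ i, DXf n F v M K i
      = aF n F S * v i ^ 2 + (2 * aS n F S + 2 * cF n F S * (S - F ^ 2)) * (F * v i ^ 2 + v i * m i)
        + aP n F S * M i i
        + (4 * cS n F S * (S - F ^ 2)) * Pf F v M i ^ 2
        + (4 * cP n F S) * (F * (v i * m i) + m i ^ 2)
        + (2 * cP n F S * (S - F ^ 2)) * DPf F v M K i := by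
    intro i
    simp only [DXf, hP, ← hS]
    ring
  have e2 : ∑ i, Pf F v M i ^ 2 = F ^ 2 * (S - F ^ 2) + 2 * F * q + m2 := by
    rw [← hY, hq, hm2, Finset.mul_sum, Finset.mul_sum, ← Finset.sum_add_distrib,
      ← Finset.sum_add_distrib]
    refine Finset.sum_congr rfl fun i _ => ?_
    rw [hP]; ring
  have e3 : ∑ i, DPf F v M K i = h2 - F ^ 2 := by
    have e4 : ∀ i, DPf F v M K i = v i ^ 2 + F * M i i + ∑ j, K i j * v j + ∑ j, M i j ^ 2 := by
      intro i
      simp only [DPf, Finset.sum_add_distrib]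
      have : ∀ j, M i j * M i j = M i j ^ 2 := fun j => by ring
      simp only [this]
      ring
    simp only [e4, Finset.sum_add_distrib, ← Finset.mul_sum]
    rw [hM, hY, Finset.sum_comm (f := fun i j => K i j * v j)]
    have e5 : ∀ j, ∑ i, K i j * v j = -v j ^ 2 := by
      intro j
      rw [← Finset.sum_mul, hK]; ring
    simp only [e5, Finset.sum_neg_distrib, hY]
    rw [← hh2]; ring
  simp only [e1, Finset.sum_add_distrib, ← Finset.mul_sum, e2, e3, hM, hY]
  rw [← hq, ← hm2]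
  simp only [Wf, ← hS, e2, ← hh2]
  have e6 : ∑ i, (∑ j, M i j * v j) ^ 2 = m2 := rfl
  rw [e6]
  have i1 := a_ident n F S
  have i2 := c_ident n F S
  linear_combination i1 - 2 * (F * (S - F ^ 2) + q) * i2

lemma Sf_nonneg (F : ℝ) (v : ι → ℝ) : 0 ≤ Sf F v :=
  add_nonneg (sq_nonneg _) (Finset.sum_nonneg fun _ _ => sq_nonneg _)

lemma Sf_sub (F : ℝ) (v : ι → ℝ) : Sf F v - F ^ 2 = ∑ j, v j ^ 2 := by simp [Sf]

lemma row_cs (v : ι → ℝ) (M : ι → ι → ℝ) :
    ∑ i, (∑ j, M i j * v j) ^ 2 ≤ (∑ j, v j ^ 2) * ∑ i, ∑ j, M i j ^ 2 := by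
  rw [Finset.mul_sum]
  refine Finset.sum_le_sum fun i _ => ?_
  rw [mul_comm]
  exact Finset.sum_mul_sq_le_sq_mul_sq _ _ _

lemma Wf_nonneg (n : ℕ) (F : ℝ) (v : ι → ℝ) (M : ι → ι → ℝ) : 0 ≤ Wf n F v M := by
  have hS := Sf_nonneg F v
  have h1 := cP_nonpos n F hS
  have h2 := cS_nonpos n F hS
  have h3 : 0 ≤ Sf F v - F ^ 2 := by
    rw [Sf_sub]; exact Finset.sum_nonneg fun _ _ => sq_nonneg _
  have h4 : 0 ≤ (Sf F v - F ^ 2) * (∑ i, ∑ j, M i j ^ 2) - ∑ i, (∑ j, M i j * v j) ^ 2 := by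
    rw [Sf_sub]
    have := row_cs v M
    linarith
  have h5 : 0 ≤ ∑ i, Pf F v M i ^ 2 := Finset.sum_nonneg fun _ _ => sq_nonneg _
  have h6 : 0 ≤ -(6 * cP n F (Sf F v)) - 4 * cS n F (Sf F v) * (Sf F v - F ^ 2) := by
    nlinarith [mul_nonneg (neg_nonneg.2 h2) h3]
  unfold Wf
  have h7 : 0 ≤ -(2 * cP n F (Sf F v)) := by linarith
  exact add_nonneg (mul_nonneg h7 h4) (mul_nonneg h6 h5)

/-- size of the jet -/
def Rf (F : ℝ) (v : ι → ℝ) (M K : ι → ι → ℝ) : ℝ :=
  |F| + ∑ i, |v i| + ∑ i, ∑ j, |M i j| + ∑ i, ∑ j, |K i j|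

lemma Rf_bounds (F : ℝ) (v : ι → ℝ) (M K : ι → ι → ℝ) :
    0 ≤ Rf F v M K ∧ |F| ≤ Rf F v M K ∧ (∀ i, |v i| ≤ Rf F v M K) ∧
    (∑ j, |v j| ≤ Rf F v M K) ∧ (∀ i j, |M i j| ≤ Rf F v M K) ∧
    (∀ i, ∑ j, |M i j| ≤ Rf F v M K) ∧ (∀ i j, |K i j| ≤ Rf F v M K) ∧
    |Sf F v| ≤ Rf F v M K ^ 2 ∧ |Sf F v - F ^ 2| ≤ Rf F v M K ^ 2 := by
  have h1 : 0 ≤ |F| := abs_nonneg _
  have h2 : 0 ≤ ∑ i, |v i| := Finset.sum_nonneg fun _ _ => abs_nonneg _
  have h3 : 0 ≤ ∑ i, ∑ j, |M i j| :=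
    Finset.sum_nonneg fun _ _ => Finset.sum_nonneg fun _ _ => abs_nonneg _
  have h4 : 0 ≤ ∑ i, ∑ j, |K i j| :=
    Finset.sum_nonneg fun _ _ => Finset.sum_nonneg fun _ _ => abs_nonneg _
  have hv : ∀ i, |v i| ≤ ∑ i, |v i| := fun i =>
    Finset.single_le_sum (f := fun i => |v i|) (fun _ _ => abs_nonneg _) (Finset.mem_univ i)
  have hM : ∀ i, ∑ j, |M i j| ≤ ∑ i, ∑ j, |M i j| := fun i =>
    Finset.single_le_sum (f := fun i => ∑ j, |M i j|)
      (fun _ _ => Finset.sum_nonneg fun _ _ => abs_nonneg _) (Finset.mem_univ i)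
  have hM2 : ∀ i j, |M i j| ≤ ∑ j, |M i j| := fun i j =>
    Finset.single_le_sum (f := fun j => |M i j|) (fun _ _ => abs_nonneg _) (Finset.mem_univ j)
  have hK : ∀ i, ∑ j, |K i j| ≤ ∑ i, ∑ j, |K i j| := fun i =>
    Finset.single_le_sum (f := fun i => ∑ j, |K i j|)
      (fun _ _ => Finset.sum_nonneg fun _ _ => abs_nonneg _) (Finset.mem_univ i)
  have hK2 : ∀ i j, |K i j| ≤ ∑ j, |K i j| := fun i j =>
    Finset.single_le_sum (f := fun j => |K i j|) (fun _ _ => abs_nonneg _) (Finset.mem_univ j)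
  have hR : Rf F v M K = |F| + ∑ i, |v i| + ∑ i, ∑ j, |M i j| + ∑ i, ∑ j, |K i j| := rfl
  have hss : ∑ j, v j ^ 2 ≤ (∑ i, |v i|) ^ 2 := by
    calc ∑ j, v j ^ 2 ≤ ∑ j, |v j| * ∑ i, |v i| := by
          refine Finset.sum_le_sum fun j _ => ?_
          rw [← sq_abs, pow_two]
          exact mul_le_mul_of_nonneg_left (hv j) (abs_nonneg _)
      _ = _ := by rw [← Finset.sum_mul, pow_two]
  have hss0 : 0 ≤ ∑ j, v j ^ 2 := Finset.sum_nonneg fun _ _ => sq_nonneg _
  have hRle : |F| + ∑ i, |v i| ≤ Rf F v M K := by rw [hR]; linarith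
  refine ⟨by rw [hR]; positivity, by rw [hR]; linarith, fun i => ?_, by rw [hR]; linarith,
    fun i j => ?_, fun i => ?_, fun i j => ?_, ?_, ?_⟩
  · have := hv i; rw [hR]; linarith
  · have := hM i; have := hM2 i j; rw [hR]; linarith
  · have := hM i; rw [hR]; linarith
  · have := hK i; have := hK2 i j; rw [hR]; linarith
  · rw [abs_of_nonneg (Sf_nonneg F v), Sf]
    calc F ^ 2 + ∑ j, v j ^ 2 ≤ |F| ^ 2 + (∑ i, |v i|) ^ 2 := by rw [sq_abs]; linarith
      _ ≤ (|F| + ∑ i, |v i|) ^ 2 := by nlinarith [mul_nonneg h1 h2]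
      _ ≤ _ := pow_le_pow_left₀ (by positivity) hRle 2
  · rw [Sf_sub, abs_of_nonneg hss0]
    calc ∑ j, v j ^ 2 ≤ (∑ i, |v i|) ^ 2 := hss
      _ ≤ (|F| + ∑ i, |v i|) ^ 2 := pow_le_pow_left₀ h2 (by linarith) 2
      _ ≤ _ := pow_le_pow_left₀ (by positivity) hRle 2

lemma X_bounds (n : ℕ) : ∃ C : ℝ, 0 ≤ C ∧ ∀ (F : ℝ) (v : ι → ℝ) (M K : ι → ι → ℝ) (i : ι),
    |Xf n F v M i| ≤ C * Rf F v M K ^ (2 * n) ∧ |DXf n F v M K i| ≤ C * Rf F v M K ^ (2 * n) := by
  obtain ⟨C, hC, hb⟩ := size_bound n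
  refine ⟨42 * C, by positivity, fun F v M K i => ?_⟩
  obtain ⟨hR, hF, hv, hvs, hM, hMs, hK, hS, hY⟩ := Rf_bounds F v M K
  set R := Rf F v M K with hRdef
  set S := Sf F v with hSdef
  obtain ⟨g1, g2, g3, e1, e2, e3, a1, a2, a3, c1, c2, c3⟩ := hb F S R hR hF hS
  set U := R ^ (2 * n) with hU
  have hU0 : 0 ≤ U := pow_nonneg hR _
  have hCU : 0 ≤ C * U := mul_nonneg hC hU0
  have hm : |∑ j, M i j * v j| ≤ R * R := by
    calc |∑ j, M i j * v j| ≤ ∑ j, |M i j * v j| := Finset.abs_sum_le_sum_abs _ _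
      _ ≤ ∑ j, R * |v j| := by
          refine Finset.sum_le_sum fun j _ => ?_
          rw [abs_mul]
          exact mul_le_mul_of_nonneg_right (hM i j) (abs_nonneg _)
      _ = R * ∑ j, |v j| := by rw [Finset.mul_sum]
      _ ≤ R * R := mul_le_mul_of_nonneg_left hvs hR
  have hP : |Pf F v M i| ≤ 2 * R ^ 2 := by
    have h1 : |F * v i| ≤ R * R := by
      rw [abs_mul]; exact mul_le_mul hF (hv i) (abs_nonneg _) hR
    have := abs_add_le (F * v i) (∑ j, M i j * v j)
    unfold Pf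
    nlinarith
  have hPm : |2 * Pf F v M i - 2 * F * v i| ≤ 2 * R ^ 2 := by
    have : 2 * Pf F v M i - 2 * F * v i = 2 * ∑ j, M i j * v j := by unfold Pf; ring
    rw [this, abs_mul, abs_of_nonneg (by norm_num : (0 : ℝ) ≤ 2)]
    nlinarith
  have hDP : |DPf F v M K i| ≤ 4 * R ^ 2 := by
    have h1 : |v i * v i| ≤ R * R := by
      rw [abs_mul]; exact mul_le_mul (hv i) (hv i) (abs_nonneg _) hR
    have h2 : |F * M i i| ≤ R * R := by
      rw [abs_mul]; exact mul_le_mul hF (hM i i) (abs_nonneg _) hR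
    have h3 : |∑ j, (K i j * v j + M i j * M i j)| ≤ R * R + R * R := by
      calc |∑ j, (K i j * v j + M i j * M i j)|
          ≤ ∑ j, |K i j * v j + M i j * M i j| := Finset.abs_sum_le_sum_abs _ _
        _ ≤ ∑ j, (R * |v j| + R * |M i j|) := by
            refine Finset.sum_le_sum fun j _ => ?_
            refine (abs_add_le _ _).trans ?_
            rw [abs_mul, abs_mul]
            exact add_le_add (mul_le_mul_of_nonneg_right (hK i j) (abs_nonneg _))
              (mul_le_mul_of_nonneg_right (hM i j) (abs_nonneg _))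
        _ = R * ∑ j, |v j| + R * ∑ j, |M i j| := by
            rw [Finset.sum_add_distrib, Finset.mul_sum, Finset.mul_sum]
        _ ≤ _ := add_le_add (mul_le_mul_of_nonneg_left hvs hR)
            (mul_le_mul_of_nonneg_left (hMs i) hR)
    have h4 := abs_add_le (v i * v i + F * M i i) (∑ j, (K i j * v j + M i j * M i j))
    have h5 := abs_add_le (v i * v i) (F * M i i)
    unfold DPf
    nlinarith
  have hYP : |(S - F ^ 2) * Pf F v M i| ≤ R ^ 2 * (2 * R ^ 2) := by
    rw [abs_mul]; exact mul_le_mul hY hP (abs_nonneg _) (by positivity)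
  constructor
  · -- X
    have h1 : |aP n F S * v i| ≤ C * U := by
      rw [abs_mul]
      exact (mul_le_mul_of_nonneg_left (hv i) (abs_nonneg _)).trans a1
    have h2 : |2 * (cP n F S * ((S - F ^ 2) * Pf F v M i))| ≤ 4 * (C * U) := by
      rw [abs_mul, abs_mul, abs_of_nonneg (by norm_num : (0 : ℝ) ≤ 2)]
      calc 2 * (|cP n F S| * |(S - F ^ 2) * Pf F v M i|)
          ≤ 2 * (|cP n F S| * (R ^ 2 * (2 * R ^ 2))) := by gcongr
        _ = 4 * (|cP n F S| * R ^ 4) := by ring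
        _ ≤ 4 * (C * U) := by linarith
    have h3 := abs_add_le (aP n F S * v i) (2 * (cP n F S * ((S - F ^ 2) * Pf F v M i)))
    unfold Xf
    rw [← hSdef]
    nlinarith
  · -- DX
    have d1 : |aF n F S * v i * v i| ≤ C * U := by
      rw [abs_mul, abs_mul]
      calc |aF n F S| * |v i| * |v i| ≤ |aF n F S| * R * R := by
            have := hv i
            gcongr
        _ = |aF n F S| * R ^ 2 := by ring
        _ ≤ _ := a2
    have d2 : |aS n F S * (2 * Pf F v M i) * v i| ≤ 4 * (C * U) := by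
      rw [abs_mul, abs_mul, abs_mul, abs_of_nonneg (by norm_num : (0 : ℝ) ≤ 2)]
      calc |aS n F S| * (2 * |Pf F v M i|) * |v i| ≤ |aS n F S| * (2 * (2 * R ^ 2)) * R := by
            have := hv i
            gcongr
        _ = 4 * (|aS n F S| * R ^ 3) := by ring
        _ ≤ _ := by linarith
    have d3 : |aP n F S * M i i| ≤ C * U := by
      rw [abs_mul]
      exact (mul_le_mul_of_nonneg_left (hM i i) (abs_nonneg _)).trans a1
    have d4 : |cF n F S * v i * ((S - F ^ 2) * Pf F v M i)| ≤ 2 * (C * U) := by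
      rw [abs_mul, abs_mul]
      calc |cF n F S| * |v i| * |(S - F ^ 2) * Pf F v M i|
          ≤ |cF n F S| * R * (R ^ 2 * (2 * R ^ 2)) := by
            have := hv i
            gcongr
        _ = 2 * (|cF n F S| * R ^ 5) := by ring
        _ ≤ _ := by linarith
    have d5 : |cS n F S * (2 * Pf F v M i) * ((S - F ^ 2) * Pf F v M i)| ≤ 8 * (C * U) := by
      rw [abs_mul, abs_mul, abs_mul, abs_of_nonneg (by norm_num : (0 : ℝ) ≤ 2)]
      calc |cS n F S| * (2 * |Pf F v M i|) * |(S - F ^ 2) * Pf F v M i|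
          ≤ |cS n F S| * (2 * (2 * R ^ 2)) * (R ^ 2 * (2 * R ^ 2)) := by gcongr
        _ = 8 * (|cS n F S| * R ^ 6) := by ring
        _ ≤ _ := by linarith
    have d6 : |cP n F S * ((2 * Pf F v M i - 2 * F * v i) * Pf F v M i)| ≤ 4 * (C * U) := by
      rw [abs_mul, abs_mul]
      calc |cP n F S| * (|2 * Pf F v M i - 2 * F * v i| * |Pf F v M i|)
          ≤ |cP n F S| * (2 * R ^ 2 * (2 * R ^ 2)) := by gcongr
        _ = 4 * (|cP n F S| * R ^ 4) := by ring
        _ ≤ _ := by linarith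
    have d7 : |cP n F S * ((S - F ^ 2) * DPf F v M K i)| ≤ 4 * (C * U) := by
      rw [abs_mul, abs_mul]
      calc |cP n F S| * (|S - F ^ 2| * |DPf F v M K i|)
          ≤ |cP n F S| * (R ^ 2 * (4 * R ^ 2)) := by gcongr
        _ = 4 * (|cP n F S| * R ^ 4) := by ring
        _ ≤ _ := by linarith
    have e : DXf n F v M K i = aF n F S * v i * v i + aS n F S * (2 * Pf F v M i) * v i
        + aP n F S * M i i + 2 * (cF n F S * v i * ((S - F ^ 2) * Pf F v M i))
        + 2 * (cS n F S * (2 * Pf F v M i) * ((S - F ^ 2) * Pf F v M i))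
        + 2 * (cP n F S * ((2 * Pf F v M i - 2 * F * v i) * Pf F v M i))
        + 2 * (cP n F S * ((S - F ^ 2) * DPf F v M K i)) := by
      unfold DXf
      rw [← hSdef]
      ring
    rw [e]
    have b1 := abs_le.1 d1
    have b2 := abs_le.1 d2
    have b3 := abs_le.1 d3
    have b4 := abs_le.1 d4
    have b5 := abs_le.1 d5
    have b6 := abs_le.1 d6
    have b7 := abs_le.1 d7
    rw [abs_le]
    constructor
    · linarith [b1.1, b2.1, b3.1, b4.1, b5.1, b6.1, b7.1]
    · linarith [b1.2, b2.2, b3.2, b4.2, b5.2, b6.2, b7.2]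

end pointwise

/-! ### the jet of a field -/

variable {E : Type*} [NormedAddCommGroup E] [InnerProductSpace ℝ E] [FiniteDimensional ℝ E]
  [MeasurableSpace E] [BorelSpace E]
variable {Ω : Type*} [MeasurableSpace Ω] {P : Measure Ω} {T : E → Ω → Ω}
variable {ι : Type*} [Fintype ι]

/-- The 3-jet of a solution of the Helmholtz equation. -/
structure IsJet (T : E → Ω → Ω) (e : ι → E) (F : Ω → ℝ) (v : ι → Ω → ℝ) (M K : ι → ι → Ω → ℝ) :
    Prop where
  mF : Measurable F
  mv : ∀ i, Measurable (v i)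
  mM : ∀ i j, Measurable (M i j)
  mK : ∀ i j, Measurable (K i j)
  dF : ∀ i, IsD T (e i) F (v i)
  dv : ∀ i j, IsD T (e i) (v j) (M i j)
  dM : ∀ i j, IsD T (e i) (M i j) (K i j)
  trM : ∀ ω, ∑ i, M i i ω = -F ω
  trK : ∀ j ω, ∑ i, K i j ω = -v j ω

lemma memLp_even_iff {α : Type*} [MeasurableSpace α] {μ : Measure α} {f : α → ℝ} {n : ℕ}
    (hn : n ≠ 0) (hm : Measurable f) :
    MemLp f ((2 * n : ℕ) : ENNReal) μ ↔ Integrable (fun x => f x ^ (2 * n)) μ := by
  have h0 : ((2 * n : ℕ) : ENNReal) ≠ 0 := by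
    simp [hn]
  rw [← integrable_norm_rpow_iff hm.aestronglyMeasurable h0 (ENNReal.natCast_ne_top _)]
  have : (fun x => ‖f x‖ ^ ((2 * n : ℕ) : ENNReal).toReal) = fun x => f x ^ (2 * n) := by
    funext x
    rw [ENNReal.toReal_natCast, Real.rpow_natCast, Real.norm_eq_abs, pow_mul, sq_abs, ← pow_mul]
  rw [this]

lemma measurable_poly_comp {α : Type*} [MeasurableSpace α] {F S : α → ℝ} (hF : Measurable F)
    (hS : Measurable S) (n : ℕ) :
    Measurable (fun x => gP n (F x) (S x)) ∧ Measurable (fun x => gF n (F x) (S x)) ∧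
    Measurable (fun x => gS n (F x) (S x)) ∧ Measurable (fun x => eP n (F x) (S x)) ∧
    Measurable (fun x => eF n (F x) (S x)) ∧ Measurable (fun x => eS n (F x) (S x)) ∧
    Measurable (fun x => aP n (F x) (S x)) ∧ Measurable (fun x => aF n (F x) (S x)) ∧
    Measurable (fun x => aS n (F x) (S x)) ∧ Measurable (fun x => cP n (F x) (S x)) ∧
    Measurable (fun x => cF n (F x) (S x)) ∧ Measurable (fun x => cS n (F x) (S x)) := by
  induction n with
  | zero => simp [gP, gF, gS, eP, eF, eS, aP, aF, aS, cP, cF, cS]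
  | succ n ih =>
    obtain ⟨h1, h2, h3, h4, h5, h6, h7, h8, h9, h10, h11, h12⟩ := ih
    simp only [gP, gF, gS, eP, eF, eS, aP, aF, aS, cP, cF, cS]
    refine ⟨?_, ?_, ?_, ?_, ?_, ?_, ?_, ?_, ?_, ?_, ?_, ?_⟩ <;> fun_prop

namespace IsJet

variable {e : ι → E} {F : Ω → ℝ} {v : ι → Ω → ℝ} {M K : ι → ι → Ω → ℝ}

lemma mS (J : IsJet T e F v M K) : Measurable (fun ω => Sf (F ω) (fun j => v j ω)) := by
  unfold Sf
  have := J.mF
  have := J.mv
  fun_prop

lemma mP (J : IsJet T e F v M K) (i : ι) :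
    Measurable (fun ω => Pf (F ω) (fun j => v j ω) (fun i j => M i j ω) i) := by
  unfold Pf
  have := J.mF
  have := J.mv
  have := J.mM
  fun_prop

lemma mDP (J : IsJet T e F v M K) (i : ι) :
    Measurable (fun ω => DPf (F ω) (fun j => v j ω) (fun i j => M i j ω) (fun i j => K i j ω) i) := by
  unfold DPf
  have := J.mF
  have := J.mv
  have := J.mM
  have := J.mK
  fun_prop

lemma mX (J : IsJet T e F v M K) (n : ℕ) (i : ι) :
    Measurable (fun ω => Xf n (F ω) (fun j => v j ω) (fun i j => M i j ω) i) := by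
  unfold Xf
  obtain ⟨h1, h2, h3, h4, h5, h6, h7, h8, h9, h10, h11, h12⟩ := measurable_poly_comp J.mF J.mS n
  have := J.mF
  have := J.mv i
  have := J.mS
  have := J.mP i
  fun_prop

lemma mDX (J : IsJet T e F v M K) (n : ℕ) (i : ι) :
    Measurable (fun ω => DXf n (F ω) (fun j => v j ω) (fun i j => M i j ω)
      (fun i j => K i j ω) i) := by
  unfold DXf
  obtain ⟨h1, h2, h3, h4, h5, h6, h7, h8, h9, h10, h11, h12⟩ := measurable_poly_comp J.mF J.mS n
  have := J.mF
  have := J.mv i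
  have := J.mM i i
  have := J.mS
  have := J.mP i
  have := J.mDP i
  fun_prop

lemma dS (J : IsJet T e F v M K) (H : IsFlow P T) (i : ι) :
    IsD T (e i) (fun ω => Sf (F ω) (fun j => v j ω))
      (fun ω => 2 * Pf (F ω) (fun j => v j ω) (fun i j => M i j ω) i) := by
  have h1 := H.isD_mul (J.dF i) (J.dF i)
  have h2 := IsD.sum Finset.univ (fun j _ => H.isD_mul (J.dv i j) (J.dv i j))
  have h3 := h1.add h2
  have e1 : (fun ω => Sf (F ω) (fun j => v j ω))
      = fun ω => F ω * F ω + ∑ j, v j ω * v j ω := by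
    funext ω
    simp only [Sf, pow_two]
  rw [e1]
  refine h3.congr_deriv fun ω => ?_
  simp only [Pf, mul_add, Finset.mul_sum]
  congr 1
  · ring
  · refine Finset.sum_congr rfl fun j _ => ?_
    ring

lemma dP (J : IsJet T e F v M K) (H : IsFlow P T) (i : ι) :
    IsD T (e i) (fun ω => Pf (F ω) (fun j => v j ω) (fun i j => M i j ω) i)
      (fun ω => DPf (F ω) (fun j => v j ω) (fun i j => M i j ω) (fun i j => K i j ω) i) := by
  have h1 := H.isD_mul (J.dF i) (J.dv i i)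
  have h2 := IsD.sum Finset.univ (fun j _ => H.isD_mul (J.dM i j) (J.dv i j))
  exact h1.add h2

lemma dX (J : IsJet T e F v M K) (H : IsFlow P T) (n : ℕ) (i : ι) :
    IsD T (e i) (fun ω => Xf n (F ω) (fun j => v j ω) (fun i j => M i j ω) i)
      (fun ω => DXf n (F ω) (fun j => v j ω) (fun i j => M i j ω) (fun i j => K i j ω) i) := by
  have hS := J.dS H i
  have hP := J.dP H i
  have ha : IsD T (e i) (fun ω => aP n (F ω) (Sf (F ω) (fun j => v j ω)))
      (fun ω => aF n (F ω) (Sf (F ω) (fun j => v j ω)) * v i ω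
        + aS n (F ω) (Sf (F ω) (fun j => v j ω))
          * (2 * Pf (F ω) (fun j => v j ω) (fun i j => M i j ω) i)) := by
    intro ω
    have := hasDerivAt_aP n (J.dF i ω) (hS ω)
    simp only [zero_smul, H.zero] at this
    exact this
  have hc : IsD T (e i) (fun ω => cP n (F ω) (Sf (F ω) (fun j => v j ω)))
      (fun ω => cF n (F ω) (Sf (F ω) (fun j => v j ω)) * v i ω
        + cS n (F ω) (Sf (F ω) (fun j => v j ω))
          * (2 * Pf (F ω) (fun j => v j ω) (fun i j => M i j ω) i)) := by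
    intro ω
    have := hasDerivAt_cP n (J.dF i ω) (hS ω)
    simp only [zero_smul, H.zero] at this
    exact this
  have hF2 := H.isD_mul (J.dF i) (J.dF i)
  have hY := hS.sub hF2
  have hYP := H.isD_mul hY hP
  have h1 := H.isD_mul ha (J.dv i i)
  have h2 := (H.isD_mul hc hYP).const_mul 2
  have h3 := h1.add h2
  have e1 : (fun ω => Xf n (F ω) (fun j => v j ω) (fun i j => M i j ω) i)
      = fun ω => aP n (F ω) (Sf (F ω) (fun j => v j ω)) * v i ω
        + 2 * (cP n (F ω) (Sf (F ω) (fun j => v j ω)) *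
          ((Sf (F ω) (fun j => v j ω) - F ω * F ω)
            * Pf (F ω) (fun j => v j ω) (fun i j => M i j ω) i)) := by
    funext ω
    simp only [Xf, pow_two]
  rw [e1]
  refine h3.congr_deriv fun ω => ?_
  simp only [DXf]
  ring

/-- **The energy identity.** -/
theorem energy [IsProbabilityMeasure P] (J : IsJet T e F v M K) (H : IsFlow P T) {n : ℕ}
    (hn : n ≠ 0)
    (iF : Integrable (fun ω => F ω ^ (2 * n)) P) (iv : ∀ i, Integrable (fun ω => v i ω ^ (2 * n)) P)
    (iM : ∀ i j, Integrable (fun ω => M i j ω ^ (2 * n)) P)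
    (iK : ∀ i j, Integrable (fun ω => K i j ω ^ (2 * n)) P) :
    Integrable (fun ω => Sf (F ω) (fun j => v j ω) ^ n) P ∧
    Integrable (fun ω => Wf n (F ω) (fun j => v j ω) (fun i j => M i j ω)) P ∧
    (∫ ω, F ω ^ (2 * n) ∂P) / cm2 n = ∫ ω, Sf (F ω) (fun j => v j ω) ^ n ∂P
      + ∫ ω, Wf n (F ω) (fun j => v j ω) (fun i j => M i j ω) ∂P := by
  -- the size
  set R : Ω → ℝ := fun ω => Rf (F ω) (fun j => v j ω) (fun i j => M i j ω) (fun i j => K i j ω)
    with hR
  have mR : Measurable R := by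
    rw [hR]; unfold Rf
    have h1 := J.mF
    have h2 := J.mv
    have h3 := J.mM
    have h4 := J.mK
    refine (((h1.abs).add ?_).add ?_).add ?_
    · exact Finset.measurable_sum _ fun i _ => (h2 i).abs
    · exact Finset.measurable_sum _ fun i _ => Finset.measurable_sum _ fun j _ => (h3 i j).abs
    · exact Finset.measurable_sum _ fun i _ => Finset.measurable_sum _ fun j _ => (h4 i j).abs
  have iR : Integrable (fun ω => R ω ^ (2 * n)) P := by
    rw [← memLp_even_iff hn mR]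
    have h1 := (memLp_even_iff hn J.mF).2 iF
    have h2 := fun i => (memLp_even_iff hn (J.mv i)).2 (iv i)
    have h3 := fun i j => (memLp_even_iff hn (J.mM i j)).2 (iM i j)
    have h4 := fun i j => (memLp_even_iff hn (J.mK i j)).2 (iK i j)
    rw [hR]; unfold Rf
    refine ((h1.norm.add ?_).add ?_).add ?_
    · exact memLp_finsetSum _ fun i _ => (h2 i).norm
    · exact memLp_finsetSum _ fun i _ => memLp_finsetSum _ fun j _ => (h3 i j).norm
    · exact memLp_finsetSum _ fun i _ => memLp_finsetSum _ fun j _ => (h4 i j).norm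
  obtain ⟨C, hC, hb⟩ := X_bounds (ι := ι) n
  have iX : ∀ i, Integrable (fun ω => Xf n (F ω) (fun j => v j ω) (fun i j => M i j ω) i) P := by
    intro i
    refine (iR.const_mul C).mono' (J.mX n i).aestronglyMeasurable
      (Eventually.of_forall fun ω => ?_)
    exact (hb (F ω) (fun j => v j ω) (fun i j => M i j ω) (fun i j => K i j ω) i).1
  have iDX : ∀ i, Integrable (fun ω => DXf n (F ω) (fun j => v j ω) (fun i j => M i j ω)
      (fun i j => K i j ω) i) P := by
    intro i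
    refine (iR.const_mul C).mono' (J.mDX n i).aestronglyMeasurable
      (Eventually.of_forall fun ω => ?_)
    exact (hb (F ω) (fun j => v j ω) (fun i j => M i j ω) (fun i j => K i j ω) i).2
  have iS : Integrable (fun ω => Sf (F ω) (fun j => v j ω) ^ n) P := by
    refine iR.mono' (J.mS.pow_const n).aestronglyMeasurable (Eventually.of_forall fun ω => ?_)
    have h1 := (Rf_bounds (F ω) (fun j => v j ω) (fun i j => M i j ω)
      (fun i j => K i j ω)).2.2.2.2.2.2.2.1
    rw [norm_pow, Real.norm_eq_abs, pow_mul]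
    exact pow_le_pow_left₀ (abs_nonneg _) h1 n
  have h0 : ∑ i, ∫ ω, DXf n (F ω) (fun j => v j ω) (fun i j => M i j ω)
      (fun i j => K i j ω) i ∂P = 0 := by
    refine Finset.sum_eq_zero fun i _ => ?_
    exact H.integral_isD_eq_zero (iX i) (iDX i) (J.dX H n i)
  rw [← integral_finsetSum _ fun i _ => iDX i] at h0
  have hpt : ∀ ω, ∑ i, DXf n (F ω) (fun j => v j ω) (fun i j => M i j ω) (fun i j => K i j ω) i
      = F ω ^ (2 * n) / cm2 n - Sf (F ω) (fun j => v j ω) ^ n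
        - Wf n (F ω) (fun j => v j ω) (fun i j => M i j ω) := fun ω =>
    sum_DXf n _ _ _ _ (J.trM ω) (fun j => J.trK j ω)
  have iSum : Integrable (fun ω => ∑ i, DXf n (F ω) (fun j => v j ω) (fun i j => M i j ω)
      (fun i j => K i j ω) i) P := integrable_finsetSum _ fun i _ => iDX i
  have iFS : Integrable (fun ω => F ω ^ (2 * n) / cm2 n - Sf (F ω) (fun j => v j ω) ^ n) P :=
    (iF.div_const _).sub iS
  have iW : Integrable (fun ω => Wf n (F ω) (fun j => v j ω) (fun i j => M i j ω)) P := by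
    refine (iFS.sub iSum).congr (Eventually.of_forall fun ω => ?_)
    simp only [Pi.sub_apply]
    rw [hpt]; ring
  refine ⟨iS, iW, ?_⟩
  simp_rw [hpt] at h0
  rw [integral_sub iFS iW, integral_sub (iF.div_const _) iS, integral_div] at h0
  linarith

end IsJet

end Berry67
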