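import Pool.Agent.Lib_helper67.Berry.Field

/-!
From a stationary random field with Helmholtz paths to a measure preserving action on the space
of solutions of the Helmholtz equation.
-/

namespace Berry67

set_option linter.unusedSectionVars false

open MeasureTheory ProbabilityTheory Filter Topology InnerProductSpace Laplacian

variable {E : Type*} [NormedAddCommGroup E] [InnerProductSpace ℝ E] [FiniteDimensional ℝ E]
  [MeasurableSpace E] [BorelSpace E]
variable {Ω : Type*} [MeasurableSpace Ω] {P : Measure Ω}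

/-- solutions of the Helmholtz equation, with the sigma-algebra induced by the product
sigma-algebra. -/
def HPath (E : Type*) [NormedAddCommGroup E] [InnerProductSpace ℝ E] [FiniteDimensional ℝ E] :
    Type _ :=
  {f : E → ℝ // ContDiff ℝ 2 f ∧ ∀ x, (Δ f) x = -f x}

instance : MeasurableSpace (HPath E) :=
  inferInstanceAs (MeasurableSpace {f : E → ℝ // ContDiff ℝ 2 f ∧ ∀ x, (Δ f) x = -f x})

lemma measurable_eval (x : E) : Measurable (fun f : HPath E => f.1 x) :=
  (measurable_pi_apply x).comp measurable_subtype_coe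

/-- evaluation is jointly measurable -/
lemma measurable_eval_joint : Measurable (fun p : HPath E × E => p.1.1 p.2) := by
  have h : Measurable (Function.uncurry fun (x : E) (f : HPath E) => f.1 x) := by
    refine measurable_uncurry_of_continuous_of_measurable ?_ ?_
    · intro f; exact f.2.1.continuous
    · intro x; exact measurable_eval x
  exact h.comp measurable_swap

lemma fderiv_shift (g : E → ℝ) (v x : E) :
    fderiv ℝ (fun y => g (y + v)) x = fderiv ℝ g (x + v) := by
  rw [fderiv_comp_add_right]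

lemma helm_shift {f : E → ℝ} (hf : ContDiff ℝ 2 f ∧ ∀ x, (Δ f) x = -f x) (v : E) :
    ContDiff ℝ 2 (fun x => f (x + v)) ∧ ∀ x, (Δ (fun x => f (x + v))) x = -f (x + v) := by
  have h1 : ContDiff ℝ 2 (fun x => f (x + v)) := hf.1.comp (contDiff_id.add contDiff_const)
  refine ⟨h1, fun x => ?_⟩
  rw [← hf.2 (x + v), laplacian_eq_sum_fderiv h1, laplacian_eq_sum_fderiv hf.1]
  refine Finset.sum_congr rfl fun i _ => ?_
  have e : (fun y => fderiv ℝ (fun x => f (x + v)) y (stdOrthonormalBasis ℝ E i))
      = fun y => (fun z => fderiv ℝ f z (stdOrthonormalBasis ℝ E i)) (y + v) := by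
    funext y
    rw [fderiv_comp_add_right]
  rw [e]
  rw [fderiv_shift (fun z => fderiv ℝ f z (stdOrthonormalBasis ℝ E i)) v x]

/-- shift of a path -/
def shift (v : E) (f : HPath E) : HPath E := ⟨fun x => f.1 (x + v), helm_shift f.2 v⟩

lemma measurable_shift : Measurable (Function.uncurry (shift : E → HPath E → HPath E)) := by
  refine Measurable.subtype_mk ?_
  refine measurable_pi_iff.2 fun x => ?_
  exact measurable_eval_joint.comp
    (measurable_snd.prodMk (measurable_const.add measurable_fst))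

/-- the law of a stationary field on the space of solutions -/
theorem exists_law [IsProbabilityMeasure P] (F : E → Ω → ℝ) (hm : ∀ x, Measurable (F x))
    (hstat : ∀ v : E, IdentDistrib (fun ω x => F (x + v) ω) (fun ω x => F x ω) P P)
    (hH : ∀ᵐ ω ∂P, ContDiff ℝ 2 (fun x => F x ω) ∧ ∀ x, (Δ (fun x => F x ω)) x = -F x ω) :
    ∃ Q : Measure (HPath E), IsProbabilityMeasure Q ∧ IsFlow Q (shift : E → HPath E → HPath E) ∧
      ∃ Φ : Ω → HPath E, MeasurePreserving Φ P Q ∧ ∀ᵐ ω ∂P, ∀ x, (Φ ω).1 x = F x ω := by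
  classical
  -- measurable null set
  set bad : Set Ω := toMeasurable P {ω | ¬ (ContDiff ℝ 2 (fun x => F x ω) ∧
    ∀ x, (Δ (fun x => F x ω)) x = -F x ω)} with hbad
  have hbadm : MeasurableSet bad := measurableSet_toMeasurable _ _
  have hbad0 : P bad = 0 := by rw [hbad, measure_toMeasurable]; exact hH
  have hgood : ∀ ω, ω ∉ bad → ContDiff ℝ 2 (fun x => F x ω) ∧
      ∀ x, (Δ (fun x => F x ω)) x = -F x ω := by
    intro ω hω
    by_contra hne
    exact hω (subset_toMeasurable _ _ hne)
  have hzero : ContDiff ℝ 2 (fun _ : E => (0 : ℝ)) ∧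
      ∀ x : E, (Δ (fun _ : E => (0 : ℝ))) x = -(fun _ : E => (0 : ℝ)) x := by
    refine ⟨contDiff_const, fun x => ?_⟩
    simp [laplacian_const]
  let Φ : Ω → HPath E := fun ω => if h : ω ∈ bad then ⟨fun _ => 0, hzero⟩
    else ⟨fun x => F x ω, hgood ω h⟩
  have hΦval : ∀ ω x, (Φ ω).1 x = if ω ∈ bad then 0 else F x ω := by
    intro ω x
    by_cases h : ω ∈ bad
    · simp [Φ, h]
    · simp [Φ, h]
  have hΦm : Measurable Φ := by
    have h1 : Measurable (fun ω => ((Φ ω).1 : E → ℝ)) := by
      refine measurable_pi_iff.2 fun x => ?_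
      simp_rw [hΦval]
      exact Measurable.ite hbadm measurable_const (hm x)
    exact Measurable.subtype_mk h1
  have hae : ∀ᵐ ω ∂P, ∀ x, (Φ ω).1 x = F x ω := by
    have : ∀ᵐ ω ∂P, ω ∉ bad := by rw [ae_iff]; simpa using hbad0
    filter_upwards [this] with ω hω
    intro x
    rw [hΦval, if_neg hω]
  refine ⟨P.map Φ, Measure.isProbabilityMeasure_map hΦm.aemeasurable, ⟨measurable_shift, ?_, ?_, ?_⟩,
    Φ, ⟨hΦm, rfl⟩, hae⟩
  · intro v
    have hsm : Measurable (shift v : HPath E → HPath E) :=
      measurable_shift.comp (measurable_const.prodMk measurable_id)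
    refine ⟨hsm, ?_⟩
    ext A hA
    obtain ⟨B, hB, rfl⟩ := hA
    rw [Measure.map_apply hsm ⟨B, hB, rfl⟩, Measure.map_apply hΦm (hsm ⟨B, hB, rfl⟩),
      Measure.map_apply hΦm ⟨B, hB, rfl⟩]
    have h1 : P (Φ ⁻¹' (shift v ⁻¹' (Subtype.val ⁻¹' B)))
        = P ((fun ω x => F (x + v) ω) ⁻¹' B) := by
      apply measure_congr
      filter_upwards [hae] with ω hω
      have : (fun x => F (x + v) ω) = ((shift v (Φ ω)).1 : E → ℝ) := by
        funext x; exact (hω (x + v)).symm
      apply propext
      change (shift v (Φ ω)).1 ∈ B ↔ (fun x => F (x + v) ω) ∈ B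
      rw [this]
    have h2 : P (Φ ⁻¹' (Subtype.val ⁻¹' B)) = P ((fun ω x => F x ω) ⁻¹' B) := by
      apply measure_congr
      filter_upwards [hae] with ω hω
      have : (fun x => F x ω) = ((Φ ω).1 : E → ℝ) := by
        funext x; exact (hω x).symm
      apply propext
      change (Φ ω).1 ∈ B ↔ (fun x => F x ω) ∈ B
      rw [this]
    exact h1.trans (((hstat v).measure_mem_eq hB).trans h2.symm)
  · intro x y f
    apply Subtype.ext
    funext z
    simp only [shift]
    rw [add_assoc]
  · intro f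
    apply Subtype.ext
    funext z
    simp only [shift, add_zero]

/-- **Kurtosis lower bound for stationary random fields.** -/
theorem kurtosis_random_field [IsProbabilityMeasure P] (F : E → Ω → ℝ)
    (hm : ∀ x, Measurable (F x))
    (hstat : ∀ v : E, IdentDistrib (fun ω x => F (x + v) ω) (fun ω x => F x ω) P P)
    (hH : ∀ᵐ ω ∂P, ContDiff ℝ 2 (fun x => F x ω) ∧ ∀ x, (Δ (fun x => F x ω)) x = -F x ω)
    (h4 : Integrable (fun ω => F 0 ω ^ 4) P) :
    (3 / 2 : ℝ) * (∫ ω, F 0 ω ^ 2 ∂P) ^ 3 + (9 / 8 : ℝ) * (∫ ω, F 0 ω ^ 3 ∂P) ^ 2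
      ≤ (∫ ω, F 0 ω ^ 4 ∂P) * ∫ ω, F 0 ω ^ 2 ∂P := by
  obtain ⟨Q, hQ, hflow, Φ, hΦ, hae⟩ := exists_law F hm hstat hH
  set F0 : HPath E → ℝ := fun f => f.1 0 with hF0
  have hF0m : Measurable F0 := measurable_eval 0
  have hae0 : (fun ω => F0 (Φ ω)) =ᵐ[P] F 0 := by
    filter_upwards [hae] with ω hω
    exact hω 0
  have hpow : ∀ n : ℕ, ∫ f, F0 f ^ n ∂Q = ∫ ω, F 0 ω ^ n ∂P := by
    intro n
    have h1 := integral_map (μ := P) hΦ.measurable.aemeasurable (f := fun f => F0 f ^ n)
      (hF0m.pow_const n).aestronglyMeasurable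
    rw [hΦ.map_eq] at h1
    rw [h1]
    refine integral_congr_ae ?_
    filter_upwards [hae0] with ω hω
    rw [hω]
  have hint : Integrable (fun f => F0 f ^ 4) Q := by
    rw [← hΦ.map_eq, integrable_map_measure (hF0m.pow_const 4).aestronglyMeasurable
      hΦ.measurable.aemeasurable]
    refine h4.congr ?_
    filter_upwards [hae0] with ω hω
    simp only [Function.comp_apply]
    rw [hω]
  have hpath : ∀ f : HPath E, (fun x => F0 (shift x f)) = f.1 := by
    intro f
    funext x
    simp only [hF0, shift, zero_add]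
  have := hflow.kurtosis_of_helmholtz hF0m hint (Eventually.of_forall fun f => by
    rw [hpath f]
    refine ⟨f.2.1, fun x => ?_⟩
    have h2 : F0 (shift x f) = f.1 x := congrFun (hpath f) x
    rw [h2]
    exact f.2.2 x)
  rw [hpow 2, hpow 3, hpow 4] at this
  exact this

end Berry67
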