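import Pool.Agent.Lib_helper67.Berry.Cone

/-!
Approximation of powers by polynomials in the cone.
-/

namespace Berry67

set_option linter.unusedSectionVars false

open MeasureTheory Filter Topology Polynomial

lemma close_of_deriv {g g' : ℝ → ℝ} {L B : ℝ} (hL : 0 ≤ L)
    (h : ∀ x, 0 ≤ x → HasDerivAt g (g' x) x) (h0 : g 0 = 0)
    (hb : ∀ x, 0 ≤ x → x ≤ L → |g' x| ≤ B) {y : ℝ} (hy : 0 ≤ y) (hyL : y ≤ L) :
    |g y| ≤ B * L := by
  have hB : 0 ≤ B := (abs_nonneg _).trans (hb 0 le_rfl hL)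
  have h1 := Convex.norm_image_sub_le_of_norm_hasDerivWithin_le (f := g) (f' := g') (C := B)
    (s := Set.Icc 0 L) (x := 0) (y := y) (fun x hx => (h x hx.1).hasDerivWithinAt)
    (fun x hx => hb x hx.1 hx.2) (convex_Icc 0 L) ⟨le_rfl, hL⟩ ⟨hy, hyL⟩
  rw [h0, sub_zero, sub_zero, Real.norm_eq_abs, Real.norm_eq_abs, abs_of_nonneg hy] at h1
  exact h1.trans (mul_le_mul_of_nonneg_left hyL hB)

section sums

variable (b : ℕ → ℝ) (M : ℕ)

noncomputable def G0 (y : ℝ) : ℝ := ∑ k ∈ Finset.range M, b k * y ^ k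
noncomputable def G1 (y : ℝ) : ℝ := ∑ k ∈ Finset.range M, b k / (k + 1) * y ^ (k + 1)
noncomputable def G2 (y : ℝ) : ℝ := ∑ k ∈ Finset.range M, b k / ((k + 1) * (k + 2)) * y ^ (k + 2)
noncomputable def G3 (y : ℝ) : ℝ :=
  ∑ k ∈ Finset.range M, b k / ((k + 1) * (k + 2) * (k + 3)) * y ^ (k + 3)

lemma hasDerivAt_G1 (y : ℝ) : HasDerivAt (G1 b M) (G0 b M y) y := by
  unfold G1 G0
  apply HasDerivAt.fun_sum
  intro k _
  refine ((hasDerivAt_pow (k + 1) y).const_mul _).congr_deriv ?_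
  rw [Nat.add_sub_cancel]
  have : (k : ℝ) + 1 ≠ 0 := by positivity
  push_cast
  field_simp

lemma hasDerivAt_G2 (y : ℝ) : HasDerivAt (G2 b M) (G1 b M y) y := by
  unfold G2 G1
  apply HasDerivAt.fun_sum
  intro k _
  refine ((hasDerivAt_pow (k + 2) y).const_mul _).congr_deriv ?_
  have h1 : (k : ℝ) + 1 ≠ 0 := by positivity
  have h2 : (k : ℝ) + 2 ≠ 0 := by positivity
  rw [show k + 2 - 1 = k + 1 by omega]
  push_cast
  field_simp

lemma hasDerivAt_G3 (y : ℝ) : HasDerivAt (G3 b M) (G2 b M y) y := by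
  unfold G3 G2
  apply HasDerivAt.fun_sum
  intro k _
  refine ((hasDerivAt_pow (k + 3) y).const_mul _).congr_deriv ?_
  have h1 : (k : ℝ) + 1 ≠ 0 := by positivity
  have h2 : (k : ℝ) + 2 ≠ 0 := by positivity
  have h3 : (k : ℝ) + 3 ≠ 0 := by positivity
  rw [show k + 3 - 1 = k + 2 by omega]
  push_cast
  field_simp

lemma G1_zero : G1 b M 0 = 0 := by simp [G1]
lemma G2_zero : G2 b M 0 = 0 := by simp [G2]
lemma G3_zero : G3 b M 0 = 0 := by simp [G3]

/-- coefficients -/
noncomputable def coe3 (f0 f1 f2 : ℝ) : ℕ → ℝ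
  | 0 => f0
  | 1 => f1
  | 2 => f2
  | k + 3 => b k / ((k + 1) * (k + 2) * (k + 3))

lemma sum_coe3 (f0 f1 f2 y : ℝ) : ∑ n ∈ Finset.range (M + 3), coe3 b f0 f1 f2 n * y ^ n
    = f0 + f1 * y + f2 * y ^ 2 + G3 b M y := by
  rw [Finset.sum_range_succ', Finset.sum_range_succ', Finset.sum_range_succ']
  unfold G3
  simp only [coe3, Nat.zero_add, pow_zero, mul_one, pow_one, Nat.reduceAdd]
  ring

lemma P2_coe3 (f0 f1 f2 y : ℝ) : P2 (coe3 b f0 f1 f2) (M + 3) y = 2 * f2 + G1 b M y := by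
  unfold P2
  rw [Finset.sum_range_succ', Finset.sum_range_succ', Finset.sum_range_succ']
  unfold G1
  simp only [coe3, Nat.zero_add, Nat.reduceAdd]
  have e : ∀ k : ℕ, b k / (((k : ℝ) + 1) * (k + 2) * (k + 3))
      * (((k + 1 + 1 + 1 : ℕ) : ℝ) * (((k + 1 + 1 + 1 : ℕ) : ℝ) - 1) * y ^ (k + 1 + 1 + 1 - 2))
      = b k / (k + 1) * y ^ (k + 1) := by
    intro k
    have h1 : (k : ℝ) + 1 ≠ 0 := by positivity
    have h2 : (k : ℝ) + 2 ≠ 0 := by positivity
    have h3 : (k : ℝ) + 3 ≠ 0 := by positivity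
    rw [show k + 1 + 1 + 1 - 2 = k + 1 by omega]
    push_cast
    field_simp
    ring
  simp only [e]
  norm_num
  ring

end sums

/-- exponents and signs -/
lemma uniform_rpow {q L δ : ℝ} (hq : 0 < q) (hδ : 0 < δ) :
    ∃ ε : ℝ, 0 < ε ∧ ∀ y, 0 ≤ y → y ≤ L → (y + ε) ^ q ≤ y ^ q + δ := by
  have hc : ContinuousOn (fun y : ℝ => y ^ q) (Set.Icc 0 (L + 1)) :=
    (Real.continuous_rpow_const hq.le).continuousOn
  have hu := isCompact_Icc.uniformContinuousOn_of_continuous hc
  rw [Metric.uniformContinuousOn_iff] at hu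
  obtain ⟨r, hr, h⟩ := hu δ hδ
  refine ⟨min (r / 2) 1, by positivity, fun y hy hyL => ?_⟩
  have h1 : min (r / 2) 1 ≤ 1 := min_le_right _ _
  have h2 : min (r / 2) 1 ≤ r / 2 := min_le_left _ _
  have h3 : 0 < min (r / 2) 1 := by positivity
  have h4 := h (y + min (r / 2) 1) ⟨by linarith, by linarith⟩ y ⟨hy, by linarith⟩ (by
    rw [Real.dist_eq, add_sub_cancel_left, abs_of_pos h3]
    linarith)
  rw [Real.dist_eq, abs_lt] at h4
  linarith [h4.2]

/-- **Approximation.** -/
theorem approx {q σ L δ : ℝ} (hq : 1 / 2 ≤ q) (hσ : σ = 1 ∨ σ = -1) (hs : 0 ≤ σ * (q * (q - 1)))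
    (hL : 0 < L) (hδ : 0 < δ) :
    ∃ (a : ℕ → ℝ) (N : ℕ), Cone a N L ∧
      (∀ y, 0 ≤ y → y ≤ L → |∑ n ∈ Finset.range N, a n * y ^ n - σ * y ^ q| ≤ δ) ∧
      (∀ y, 0 ≤ y → y ≤ L → y ^ 2 * P2 a N y ≤ σ * (q * (q - 1)) * y ^ q + δ) := by
  set c := σ * (q * (q - 1)) with hc
  have hq0 : 0 < q := by linarith
  obtain ⟨ε, hε, hεu⟩ := uniform_rpow (q := q) (L := L) (δ := δ / (2 * (1 + c))) hq0 (by positivity)
  set η := δ / (6 * (L ^ 3 + 1)) with hη
  have hη0 : 0 < η := by positivity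
  -- the function and its derivatives
  set f : ℝ → ℝ := fun y => σ * (y + ε) ^ q with hf
  set f1 : ℝ → ℝ := fun y => σ * (q * (y + ε) ^ (q - 1)) with hf1
  set f2 : ℝ → ℝ := fun y => c * (y + ε) ^ (q - 2) with hf2
  set f3 : ℝ → ℝ := fun y => c * ((q - 2) * (y + ε) ^ (q - 3)) with hf3
  have hpos : ∀ y, 0 ≤ y → 0 < y + ε := fun y hy => by linarith
  have d0 : ∀ y, 0 ≤ y → HasDerivAt f (f1 y) y := by
    intro y hy
    have h1 := ((hasDerivAt_id y).add_const ε).rpow_const (p := q) (Or.inl (hpos y hy).ne')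
    refine (h1.const_mul σ).congr_deriv ?_
    simp only [hf1, id]
    ring
  have d1 : ∀ y, 0 ≤ y → HasDerivAt f1 (f2 y) y := by
    intro y hy
    have h1 := ((hasDerivAt_id y).add_const ε).rpow_const (p := q - 1) (Or.inl (hpos y hy).ne')
    refine ((h1.const_mul q).const_mul σ).congr_deriv ?_
    simp only [hf2, id, hc, show q - 1 - 1 = q - 2 by ring]
    ring
  have d2 : ∀ y, 0 ≤ y → HasDerivAt f2 (f3 y) y := by
    intro y hy
    have h1 := ((hasDerivAt_id y).add_const ε).rpow_const (p := q - 2) (Or.inl (hpos y hy).ne')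
    refine (h1.const_mul c).congr_deriv ?_
    simp only [hf3, id, show q - 2 - 1 = q - 3 by ring]
    ring
  have cf3 : ContinuousOn f3 (Set.Icc 0 L) := by
    have h1 : ContinuousOn (fun y : ℝ => (y + ε) ^ (q - 3)) (Set.Icc 0 L) := by
      apply ContinuousOn.rpow_const (by fun_prop)
      intro y hy
      exact Or.inl (hpos y hy.1).ne'
    exact continuousOn_const.mul (continuousOn_const.mul h1)
  obtain ⟨p, hp⟩ := exists_polynomial_near_of_continuousOn 0 L f3 cf3 η hη0
  set b : ℕ → ℝ := fun k => p.coeff k with hb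
  set M := p.natDegree + 1 with hM
  have hG0 : ∀ y, G0 b M y = p.eval y := by
    intro y
    rw [Polynomial.eval_eq_sum_range]
    rfl
  -- closeness
  have k1 : ∀ y, 0 ≤ y → y ≤ L → |G1 b M y - (f2 y - f2 0)| ≤ η * L := by
    intro y hy hyL
    refine close_of_deriv (g := fun y => G1 b M y - (f2 y - f2 0))
      (g' := fun y => G0 b M y - f3 y) hL.le (fun x hx => ?_) ?_ (fun x hx hxL => ?_) hy hyL
    · exact (hasDerivAt_G1 b M x).sub ((d2 x hx).sub_const _)
    · simp only [G1_zero, sub_self]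
    · rw [hG0]; exact (hp x ⟨hx, hxL⟩).le
  have k2 : ∀ y, 0 ≤ y → y ≤ L → |G2 b M y - (f1 y - f1 0 - f2 0 * y)| ≤ η * L * L := by
    intro y hy hyL
    refine close_of_deriv (g := fun y => G2 b M y - (f1 y - f1 0 - f2 0 * y))
      (g' := fun y => G1 b M y - (f2 y - f2 0)) hL.le (fun x hx => ?_) ?_ (fun x hx hxL => ?_) hy hyL
    · refine ((hasDerivAt_G2 b M x).sub (((d1 x hx).sub_const _).sub
        ((hasDerivAt_id x).const_mul (f2 0)))).congr_deriv ?_
      ring
    · simp only [G2_zero, sub_self, mul_zero]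
    · exact k1 x hx hxL
  have k3 : ∀ y, 0 ≤ y → y ≤ L →
      |G3 b M y - (f y - f 0 - f1 0 * y - f2 0 / 2 * y ^ 2)| ≤ η * L * L * L := by
    intro y hy hyL
    refine close_of_deriv (g := fun y => G3 b M y - (f y - f 0 - f1 0 * y - f2 0 / 2 * y ^ 2))
      (g' := fun y => G2 b M y - (f1 y - f1 0 - f2 0 * y)) hL.le (fun x hx => ?_) ?_
      (fun x hx hxL => ?_) hy hyL
    · refine ((hasDerivAt_G3 b M x).sub ((((d0 x hx).sub_const _).sub
        ((hasDerivAt_id x).const_mul (f1 0))).sub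
        ((hasDerivAt_pow 2 x).const_mul (f2 0 / 2)))).congr_deriv ?_
      simp
      ring
    · simp only [G3_zero]; ring
    · exact k2 x hx hxL
  set κ := η * L with hκ
  have hκ0 : 0 < κ := by positivity
  set a := coe3 b (f 0) (f1 0) (f2 0 / 2 + κ) with ha
  have hP2 : ∀ y, P2 a (M + 3) y = f2 y + 2 * κ + (G1 b M y - (f2 y - f2 0)) := by
    intro y
    rw [ha, P2_coe3]
    ring
  have hf2nn : ∀ y, 0 ≤ y → 0 ≤ f2 y := fun y hy =>
    mul_nonneg hs (Real.rpow_nonneg (hpos y hy).le _)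
  refine ⟨a, M + 3, ⟨?_, ?_⟩, ?_, ?_⟩
  · -- nonnegativity
    intro y hy hyL
    rw [hP2]
    have h1 := (abs_le.1 (k1 y hy hyL)).1
    have h2 := hf2nn y hy
    linarith
  · -- monotonicity
    intro y1 y2 h1 h12 h2L
    have hmono : MonotoneOn (fun y => g32 y * P2 a (M + 3) y) (Set.Icc y1 L) := by
      have hd : ∀ y ∈ Set.Icc y1 L, HasDerivAt (fun y => g32 y * P2 a (M + 3) y)
          (Real.sqrt y * (3 / 2 * P2 a (M + 3) y + y * G0 b M y)) y := by
        intro y hy
        have hy0 : 0 < y := lt_of_lt_of_le h1 hy.1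
        have hP : HasDerivAt (P2 a (M + 3)) (G0 b M y) y := by
          have e : P2 a (M + 3) = fun y => 2 * (f2 0 / 2 + κ) + G1 b M y := by
            funext y; rw [ha, P2_coe3]
          rw [e]
          exact (hasDerivAt_G1 b M y).const_add _
        refine ((hasDerivAt_g32 hy0).mul hP).congr_deriv ?_
        unfold g32
        ring
      apply monotoneOn_of_deriv_nonneg (convex_Icc y1 L)
      · intro y hy
        exact (hd y hy).continuousAt.continuousWithinAt
      · intro y hy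
        exact (hd y (interior_subset hy)).differentiableAt.differentiableWithinAt
      · intro y hy
        have hy' := interior_subset hy
        have hy0 : 0 < y := lt_of_lt_of_le h1 hy'.1
        rw [(hd y hy').deriv]
        apply mul_nonneg (Real.sqrt_nonneg _)
        rw [hP2, hG0]
        have h2 := (abs_le.1 (k1 y hy0.le hy'.2)).1
        have h3 := (abs_le.1 (hp y ⟨hy0.le, hy'.2⟩).le).1
        have h4 : 0 ≤ 3 / 2 * f2 y + y * f3 y := by
          have hp0 := hpos y hy0.le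
          have e1 : (y + ε) ^ (q - 2) = (y + ε) ^ (q - 3) * (y + ε) := by
            rw [show q - 2 = (q - 3) + 1 by ring, Real.rpow_add_one hp0.ne']
          have e2 : 3 / 2 * f2 y + y * f3 y
              = c * ((y + ε) ^ (q - 3) * ((q - 1 / 2) * y + 3 / 2 * ε)) := by
            simp only [hf2, hf3, e1]
            ring
          rw [e2]
          apply mul_nonneg hs
          apply mul_nonneg (Real.rpow_nonneg hp0.le _)
          have : 0 ≤ (q - 1 / 2) * y := mul_nonneg (by linarith) hy0.le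
          positivity
        have h5 : -(L * η) ≤ y * (eval y p - f3 y) := by
          have h6 : y * η ≤ L * η := mul_le_mul_of_nonneg_right hy'.2 hη0.le
          have h7 : y * (-η) ≤ y * (eval y p - f3 y) := mul_le_mul_of_nonneg_left h3 hy0.le
          linarith
        have h8 : κ = L * η := by rw [hκ]; ring
        nlinarith
    exact hmono ⟨le_rfl, h12.trans h2L⟩ ⟨h12, h2L⟩ h12
  · -- values
    intro y hy hyL
    have h1 := k3 y hy hyL
    have h2 := hεu y hy hyL
    have h3 : y ^ q ≤ (y + ε) ^ q := Real.rpow_le_rpow hy (by linarith) hq0.le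
    have e : ∑ n ∈ Finset.range (M + 3), a n * y ^ n - σ * y ^ q
        = κ * y ^ 2 + (G3 b M y - (f y - f 0 - f1 0 * y - f2 0 / 2 * y ^ 2))
          + σ * ((y + ε) ^ q - y ^ q) := by
      rw [ha, sum_coe3]
      simp only [hf]
      ring
    rw [e]
    have hc1 : δ / (2 * (1 + c)) ≤ δ / 2 := by
      apply div_le_div_of_nonneg_left hδ.le (by norm_num) (by linarith)
    have h4 : |σ * ((y + ε) ^ q - y ^ q)| ≤ δ / 2 := by
      rw [abs_mul]
      have : |σ| = 1 := by rcases hσ with h | h <;> rw [h] <;> simp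
      rw [this, one_mul, abs_of_nonneg (by linarith)]
      linarith
    have h5 : |κ * y ^ 2| ≤ η * L * L * L := by
      rw [abs_of_nonneg (by positivity), hκ]
      have : y ^ 2 ≤ L ^ 2 := pow_le_pow_left₀ hy hyL 2
      have := mul_le_mul_of_nonneg_left this (mul_pos hη0 hL).le
      nlinarith
    have h6 : η * L * L * L ≤ δ / 6 := by
      have : η * L * L * L = δ * L ^ 3 / (6 * (L ^ 3 + 1)) := by rw [hη]; ring
      rw [this, div_le_div_iff₀ (by positivity) (by norm_num)]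
      nlinarith [pow_pos hL 3]
    have h7 := abs_add_le (κ * y ^ 2 + (G3 b M y - (f y - f 0 - f1 0 * y - f2 0 / 2 * y ^ 2)))
      (σ * ((y + ε) ^ q - y ^ q))
    have h8 := abs_add_le (κ * y ^ 2) (G3 b M y - (f y - f 0 - f1 0 * y - f2 0 / 2 * y ^ 2))
    linarith
  · -- second derivative
    intro y hy hyL
    rw [hP2]
    have h1 := (abs_le.1 (k1 y hy hyL)).2
    have h2 := hεu y hy hyL
    have hp0 := hpos y hy
    have h3 : y ^ 2 * f2 y ≤ c * (y + ε) ^ q := by
      have e1 : (y + ε) ^ q = (y + ε) ^ (q - 2) * (y + ε) ^ 2 := by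
        rw [← Real.rpow_natCast, ← Real.rpow_add hp0]
        congr 1
        push_cast
        ring
      rw [e1]
      simp only [hf2]
      have h4 : y ^ 2 ≤ (y + ε) ^ 2 := pow_le_pow_left₀ hy (by linarith) 2
      have h5 : 0 ≤ c * (y + ε) ^ (q - 2) := mul_nonneg hs (Real.rpow_nonneg hp0.le _)
      nlinarith
    have h4 : c * (y + ε) ^ q ≤ c * y ^ q + δ / 2 := by
      have h5 := mul_le_mul_of_nonneg_left h2 hs
      have h6 : c * (δ / (2 * (1 + c))) ≤ δ / 2 := by
        rw [← mul_div_assoc, div_le_div_iff₀ (by positivity) (by norm_num)]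
        nlinarith
      linarith
    have h5 : y ^ 2 * (3 * κ) ≤ δ / 2 := by
      have h6 : y ^ 2 ≤ L ^ 2 := pow_le_pow_left₀ hy hyL 2
      have h7 : y ^ 2 * (3 * κ) ≤ L ^ 2 * (3 * κ) := mul_le_mul_of_nonneg_right h6 (by positivity)
      have h8 : L ^ 2 * (3 * κ) = δ * L ^ 3 / (2 * (L ^ 3 + 1)) := by rw [hκ, hη]; field_simp; ring
      have h9 : δ * L ^ 3 / (2 * (L ^ 3 + 1)) ≤ δ / 2 := by
        rw [div_le_div_iff₀ (by positivity) (by norm_num)]
        nlinarith [pow_pos hL 3]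
      linarith
    have h6 : y ^ 2 * (f2 y + 2 * κ + (G1 b M y - (f2 y - f2 0))) ≤ y ^ 2 * (f2 y + 3 * κ) := by
      apply mul_le_mul_of_nonneg_left _ (sq_nonneg y)
      linarith
    refine h6.trans ?_
    rw [mul_add]
    linarith

end Berry67
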