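import Pool.Agent.Lib_helper67.Berry.Alg

/-!
Integral representation of the multiplier polynomials.
-/

namespace Berry67

set_option linter.unusedSectionVars false

open MeasureTheory Filter Topology

/-- uniform measure on `(0, 1]` -/
noncomputable def μI : Measure ℝ := volume.restrict (Set.Ioc (0 : ℝ) 1)

instance : IsProbabilityMeasure μI := ⟨by simp [μI]⟩

lemma integral_μI (f : ℝ → ℝ) : ∫ x, f x ∂μI = ∫ x in (0 : ℝ)..1, f x := by
  rw [intervalIntegral.integral_of_le zero_le_one]; rfl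

lemma ae_μI : ∀ᵐ x ∂μI, 0 < x ∧ x ≤ 1 := by
  rw [μI, ae_restrict_iff' measurableSet_Ioc]
  exact Eventually.of_forall fun x hx => hx

/-- evaluation of an integral by a primitive vanishing at both ends -/
lemma integral_of_prim {f g : ℝ → ℝ} {c : ℝ} (hg : Continuous g)
    (h : ∀ x, HasDerivAt f (g x) x) (hc : f 1 - f 0 = c) : ∫ x, g x ∂μI = c := by
  rw [integral_μI, intervalIntegral.integral_eq_sub_of_hasDerivAt (fun x _ => h x) (hg.intervalIntegrable _ _), hc]

lemma integrable_μI {f : ℝ → ℝ} (hf : Continuous f) : Integrable f μI := by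
  have := (hf.integrableOn_Icc (a := (0 : ℝ)) (b := 1) (μ := volume)).mono_set
    Set.Ioc_subset_Icc_self
  exact this

/-! ### one dimensional integrals -/

lemma integral_one_sub_sq_pow (m : ℕ) : ∫ z, (1 - z ^ 2) ^ m ∂μI = An m := by
  induction m with
  | zero => simp [An, cm2]
  | succ m ih =>
    have h : ∫ z, ((2 * m + 3) * (1 - z ^ 2) ^ (m + 1) - (2 * m + 2) * (1 - z ^ 2) ^ m) ∂μI
        = (0 : ℝ) := by
      refine integral_of_prim (f := fun z => z * (1 - z ^ 2) ^ (m + 1)) (by fun_prop) (fun z => ?_)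
        (by simp)
      have h1 : HasDerivAt (fun z : ℝ => 1 - z ^ 2) (-(2 * z)) z := by
        simpa using (hasDerivAt_pow 2 z).const_sub 1
      have h2 := (hasDerivAt_id z).mul (h1.pow (m + 1))
      refine h2.congr_deriv ?_
      simp only [id, Nat.add_sub_cancel, Pi.pow_apply, Pi.mul_apply]
      push_cast
      ring
    have i1 : Integrable (fun z : ℝ => (1 - z ^ 2) ^ (m + 1)) μI := integrable_μI (by fun_prop)
    have i2 : Integrable (fun z : ℝ => (1 - z ^ 2) ^ m) μI := integrable_μI (by fun_prop)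
    rw [integral_sub (i1.const_mul _) (i2.const_mul _), integral_const_mul, integral_const_mul,
      ih] at h
    have hc := cm2_pos m
    have h3 : (2 * (m : ℝ) + 3) * ∫ z, (1 - z ^ 2) ^ (m + 1) ∂μI = (2 * m + 2) * An m := by
      linarith
    have h4 : (2 * (m : ℝ) + 3) * An (m + 1) = (2 * m + 2) * An m := by
      unfold An
      rw [cm2]
      push_cast
      field_simp
      ring
    have h5 : (0 : ℝ) < 2 * (m : ℝ) + 3 := by positivity
    exact mul_left_cancel₀ h5.ne' (h3.trans h4.symm)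

lemma integral_eta (F S : ℝ) (m : ℕ) :
    ∫ η, η * (S - η * (S - F ^ 2)) ^ m ∂μI = gP m F S / ((m + 1) * (m + 2)) := by
  induction m with
  | zero =>
    have : ∫ η, η * (S - η * (S - F ^ 2)) ^ 0 ∂μI = (1 / 2 : ℝ) := by
      refine integral_of_prim (f := fun z => z ^ 2 / 2) (by fun_prop) (fun z => ?_) (by norm_num)
      refine ((hasDerivAt_pow 2 z).div_const 2).congr_deriv ?_
      simp
    rw [this]; norm_num [gP]
  | succ m ih =>
    have h : ∫ η, ((m + 3) * (η * (S - η * (S - F ^ 2)) ^ (m + 1))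
        - ((m + 1) * S) * (η * (S - η * (S - F ^ 2)) ^ m)) ∂μI = F ^ (2 * m + 2) := by
      refine integral_of_prim (f := fun η => η ^ 2 * (S - η * (S - F ^ 2)) ^ (m + 1)) (by fun_prop)
        (fun η => ?_) ?_
      · have h1 : HasDerivAt (fun η : ℝ => S - η * (S - F ^ 2)) (-(S - F ^ 2)) η := by
          refine (((hasDerivAt_id η).mul_const (S - F ^ 2)).const_sub S).congr_deriv ?_
          ring
        have h2 := (hasDerivAt_pow 2 η).mul (h1.pow (m + 1))
        refine h2.congr_deriv ?_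
        simp only [Nat.add_sub_cancel, Pi.pow_apply, Pi.mul_apply]
        push_cast
        ring
      · simp
        ring
    have i1 : Integrable (fun η : ℝ => η * (S - η * (S - F ^ 2)) ^ (m + 1)) μI :=
      integrable_μI (by fun_prop)
    have i2 : Integrable (fun η : ℝ => η * (S - η * (S - F ^ 2)) ^ m) μI :=
      integrable_μI (by fun_prop)
    rw [integral_sub (i1.const_mul _) (i2.const_mul _), integral_const_mul, integral_const_mul,
      ih] at h
    have h3 : (m : ℝ) + 3 ≠ 0 := by positivity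
    have h4 : ((m : ℝ) + 3) * ∫ η, η * (S - η * (S - F ^ 2)) ^ (m + 1) ∂μI
        = F ^ (2 * m + 2) + (m + 1) * S * (gP m F S / ((m + 1) * (m + 2))) := by linarith
    have h5 : ((m : ℝ) + 3) * (gP (m + 1) F S / (((m + 1 : ℕ) + 1) * ((m + 1 : ℕ) + 2)))
        = F ^ (2 * m + 2) + (m + 1) * S * (gP m F S / ((m + 1) * (m + 2))) := by
      simp only [gP]
      push_cast
      field_simp
      ring
    exact mul_left_cancel₀ h3 (h4.trans h5.symm)

/-- first inner integral -/
noncomputable def hh (m : ℕ) (S T : ℝ) : ℝ := ∫ u, (m + 1) * (T + u * (S - T)) ^ m ∂μI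

/-- second inner integral -/
noncomputable def HH (m : ℕ) (S T : ℝ) : ℝ :=
  ∫ u, u * ((m + 2) * (m + 1) * (T + u * (S - T)) ^ m) ∂μI

lemma hh_zero (S T : ℝ) : hh 0 S T = 1 := by simp [hh]

lemma HH_zero (S T : ℝ) : HH 0 S T = 1 := by
  have : ∫ u, u * (((0 : ℕ) + 2) * ((0 : ℕ) + 1) * (T + u * (S - T)) ^ 0) ∂μI = (1 : ℝ) := by
    refine integral_of_prim (f := fun z => z ^ 2) (by fun_prop) (fun z => ?_) (by norm_num)
    refine (hasDerivAt_pow 2 z).congr_deriv ?_
    simp
    ring
  exact this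

lemma hasDerivAt_lin (S T u : ℝ) : HasDerivAt (fun u : ℝ => T + u * (S - T)) (S - T) u := by
  refine (((hasDerivAt_id u).mul_const (S - T)).const_add T).congr_deriv ?_
  ring

lemma hh_succ (m : ℕ) (S T : ℝ) : hh (m + 1) S T = S * hh m S T + T ^ (m + 1) := by
  have h : ∫ u, (S * ((m + 1) * (T + u * (S - T)) ^ m)
      - ((m + 1 : ℕ) + 1) * (T + u * (S - T)) ^ (m + 1)) ∂μI = -T ^ (m + 1) := by
    refine integral_of_prim (f := fun u => (1 - u) * (T + u * (S - T)) ^ (m + 1)) (by fun_prop)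
      (fun u => ?_) (by simp)
    have h2 := ((hasDerivAt_id u).const_sub 1).mul ((hasDerivAt_lin S T u).pow (m + 1))
    refine h2.congr_deriv ?_
    simp only [id, Nat.add_sub_cancel, Pi.pow_apply, Pi.mul_apply]
    push_cast
    ring
  have i1 : Integrable (fun u : ℝ => (m + 1) * (T + u * (S - T)) ^ m) μI :=
    integrable_μI (by fun_prop)
  have i2 : Integrable (fun u : ℝ => ((m + 1 : ℕ) + 1) * (T + u * (S - T)) ^ (m + 1)) μI :=
    integrable_μI (by fun_prop)
  rw [integral_sub (i1.const_mul _) i2, integral_const_mul] at h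
  unfold hh
  linarith

lemma HH_succ (m : ℕ) (S T : ℝ) : HH (m + 1) S T = S * HH m S T + hh (m + 1) S T := by
  have h : ∫ u, (u * (((m + 1 : ℕ) + 2) * ((m + 1 : ℕ) + 1) * (T + u * (S - T)) ^ (m + 1))
      - (S * (u * ((m + 2) * (m + 1) * (T + u * (S - T)) ^ m))
        + ((m + 1 : ℕ) + 1) * (T + u * (S - T)) ^ (m + 1))) ∂μI = (0 : ℝ) := by
    refine integral_of_prim
      (f := fun u => -((m + 2) * ((u * (1 - u)) * (T + u * (S - T)) ^ (m + 1)))) (by fun_prop)
      (fun u => ?_) (by simp)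
    have h1 := (hasDerivAt_id u).mul ((hasDerivAt_id u).const_sub 1)
    have h2 := ((h1.mul ((hasDerivAt_lin S T u).pow (m + 1))).const_mul ((m : ℝ) + 2)).neg
    refine h2.congr_deriv ?_
    simp only [id, Nat.add_sub_cancel, Pi.pow_apply, Pi.mul_apply]
    push_cast
    ring
  have i0 : Integrable (fun u : ℝ => u * (((m + 1 : ℕ) + 2) * ((m + 1 : ℕ) + 1)
      * (T + u * (S - T)) ^ (m + 1))) μI := integrable_μI (by fun_prop)
  have i1 : Integrable (fun u : ℝ => u * ((m + 2) * (m + 1) * (T + u * (S - T)) ^ m)) μI :=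
    integrable_μI (by fun_prop)
  have i2 : Integrable (fun u : ℝ => ((m + 1 : ℕ) + 1) * (T + u * (S - T)) ^ (m + 1)) μI :=
    integrable_μI (by fun_prop)
  have i3 : Integrable (fun u : ℝ => S * (u * ((m + 2) * (m + 1) * (T + u * (S - T)) ^ m))
      + ((m + 1 : ℕ) + 1) * (T + u * (S - T)) ^ (m + 1)) μI := (i1.const_mul S).add i2
  rw [integral_sub i0 i3, integral_add (i1.const_mul _) i2, integral_const_mul] at h
  unfold HH hh
  linarith

lemma continuous_hh (m : ℕ) (S : ℝ) : Continuous (hh m S) := by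
  induction m with
  | zero => rw [show hh 0 S = fun _ => 1 from funext (hh_zero S)]; exact continuous_const
  | succ m ih =>
    rw [show hh (m + 1) S = fun T => S * hh m S T + T ^ (m + 1) from funext (hh_succ m S)]
    fun_prop

lemma continuous_HH (m : ℕ) (S : ℝ) : Continuous (HH m S) := by
  induction m with
  | zero => rw [show HH 0 S = fun _ => 1 from funext (HH_zero S)]; exact continuous_const
  | succ m ih =>
    rw [show HH (m + 1) S = fun T => S * HH m S T + hh (m + 1) S T from funext (HH_succ m S)]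
    have := continuous_hh (m + 1) S
    fun_prop

/-! ### the double integral -/

lemma integrable_μ2 {f : ℝ × ℝ → ℝ} (hf : Continuous f) : Integrable f (μI.prod μI) := by
  have e : μI.prod μI = (volume : Measure (ℝ × ℝ)).restrict (Set.Ioc 0 1 ×ˢ Set.Ioc 0 1) := by
    rw [μI, Measure.prod_restrict]; rfl
  rw [e]
  have : IntegrableOn f (Set.Icc (0 : ℝ) 1 ×ˢ Set.Icc (0 : ℝ) 1) volume :=
    hf.continuousOn.integrableOn_compact (isCompact_Icc.prod isCompact_Icc)
  exact this.mono_set (Set.prod_mono Set.Ioc_subset_Icc_self Set.Ioc_subset_Icc_self)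

/-- `T = (S - η (S - F²)) (1 - z²)` -/
def Tf (F S : ℝ) (p : ℝ × ℝ) : ℝ := (S - p.1 * (S - F ^ 2)) * (1 - p.2 ^ 2)

lemma continuous_Tf (F S : ℝ) : Continuous (Tf F S) := by unfold Tf; fun_prop

lemma integral_T_pow (F S : ℝ) (m : ℕ) :
    ∫ p, p.1 * Tf F S p ^ m ∂(μI.prod μI) = 2 * (kn m * gP m F S) := by
  have e : ∀ p : ℝ × ℝ, p.1 * Tf F S p ^ m
      = (p.1 * (S - p.1 * (S - F ^ 2)) ^ m) * (1 - p.2 ^ 2) ^ m := by
    intro p; unfold Tf; rw [mul_pow]; ring
  simp only [e]
  rw [integral_prod_mul (fun η : ℝ => η * (S - η * (S - F ^ 2)) ^ m) (fun z => (1 - z ^ 2) ^ m),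
    integral_eta, integral_one_sub_sq_pow]
  unfold kn
  have h1 : ((m : ℝ) + 1) ≠ 0 := by positivity
  have h2 : ((m : ℝ) + 2) ≠ 0 := by positivity
  field_simp

lemma eP_rep (F S : ℝ) (m : ℕ) :
    eP (m + 1) F S = -(1 / 2) * ∫ p, p.1 * hh m S (Tf F S p) ∂(μI.prod μI) := by
  induction m with
  | zero =>
    have h := integral_T_pow F S 0
    simp only [pow_zero, mul_one] at h
    simp only [hh_zero, mul_one, h, eP]
    ring
  | succ m ih =>
    have h := integral_T_pow F S (m + 1)
    have i1 : Integrable (fun p : ℝ × ℝ => p.1 * hh m S (Tf F S p)) (μI.prod μI) :=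
      integrable_μ2 (continuous_fst.mul ((continuous_hh m S).comp (continuous_Tf F S)))
    have i2 : Integrable (fun p : ℝ × ℝ => p.1 * Tf F S p ^ (m + 1)) (μI.prod μI) :=
      integrable_μ2 (continuous_fst.mul ((continuous_Tf F S).pow _))
    have e : ∀ p : ℝ × ℝ, p.1 * hh (m + 1) S (Tf F S p)
        = S * (p.1 * hh m S (Tf F S p)) + p.1 * Tf F S p ^ (m + 1) := by
      intro p; rw [hh_succ]; ring
    simp only [e]
    rw [integral_add (i1.const_mul _) i2, integral_const_mul, h]
    rw [eP, ih]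
    ring

lemma cP_rep (F S : ℝ) (m : ℕ) :
    cP (m + 2) F S = -(1 / 2) * ∫ p, p.1 * HH m S (Tf F S p) ∂(μI.prod μI) := by
  induction m with
  | zero =>
    have h := eP_rep F S 0
    simp only [hh_zero] at h
    simp only [HH_zero, ← h]
    simp [cP, eP]
  | succ m ih =>
    have h := eP_rep F S (m + 1)
    have i1 : Integrable (fun p : ℝ × ℝ => p.1 * HH m S (Tf F S p)) (μI.prod μI) :=
      integrable_μ2 (continuous_fst.mul ((continuous_HH m S).comp (continuous_Tf F S)))
    have i2 : Integrable (fun p : ℝ × ℝ => p.1 * hh (m + 1) S (Tf F S p)) (μI.prod μI) :=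
      integrable_μ2 (continuous_fst.mul ((continuous_hh (m + 1) S).comp (continuous_Tf F S)))
    have e : ∀ p : ℝ × ℝ, p.1 * HH (m + 1) S (Tf F S p)
        = S * (p.1 * HH m S (Tf F S p)) + p.1 * hh (m + 1) S (Tf F S p) := by
      intro p; rw [HH_succ]; ring
    simp only [e]
    rw [integral_add (i1.const_mul _) i2, integral_const_mul]
    have e2 : cP (m + 1 + 2) F S = S * cP (m + 2) F S + eP (m + 1 + 1) F S := rfl
    rw [e2, ih, h]
    ring

end Berry67
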