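import Pool.Agent.Lib_helper67.Berry.Quot
import Pool.Agent.Lib_helper67.Berry.Eig

/-!
Even moments of eigenfunctions on compact quotients.
-/

namespace Berry67

set_option linter.unusedSectionVars false

open InnerProductSpace Filter Topology MeasureTheory
open scoped ContDiff

variable {E : Type*} [NormedAddCommGroup E] [InnerProductSpace ℝ E] [FiniteDimensional ℝ E]
  [MeasurableSpace E] [BorelSpace E]
variable {ι : Type*} [Fintype ι]

namespace QData

variable {c : Coef E ι} {ρ : E → ℝ} {Γ : Type*} [Group Γ] [MulAction Γ E]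

lemma G_eq_qf (f : E → ℝ) (x : E) : c.G f f x = c.qf x (fun i => D (c.e i) f x) := rfl

lemma G_nonneg (Q : QData c ρ Γ) (x : E) (f : E → ℝ) : 0 ≤ c.G f f x := by
  rw [G_eq_qf]
  by_cases h : (fun i => D (c.e i) f x) = 0
  · rw [h]; simp [Coef.qf]
  · exact (Q.pd x _ h).le

theorem moments (Q : QData c ρ Γ) (n : ℕ) :
    ∃ C : ℝ, 0 ≤ C ∧ ∀ D0 : Set E, IsFundamentalDomain Γ D0 (volume : Measure E) →
      ∀ lam : ℝ, 0 < lam → ∀ f : E → ℝ, ContDiff ℝ ∞ f → (∀ (γ : Γ) x, f (γ • x) = f x) →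
        (∀ x, c.Lo f x = -lam * f x) →
        cm2 (n + 1) * (1 - C / lam) * (2 * ∫ x in D0, f x ^ 2 ∂(vμ ρ)) ^ (n + 1)
          ≤ (∫ _x in D0, (1 : ℝ) ∂(vμ ρ)) ^ n * ∫ x in D0, f x ^ (2 * (n + 1)) ∂(vμ ρ) := by
  obtain ⟨χ, hχ⟩ := Q.exists_part
  obtain ⟨K, hK, hKb⟩ := c.exists_curv_bound Q.pd hχ.cs
  obtain ⟨C, hC, hCb⟩ := Coef.cP_bound (n + 1)
  refine ⟨2 * K * C, by positivity, fun D0 hD0 lam hlam f hf hinv hL => ?_⟩
  have hL' : c.Lo f = fun x => -lam * f x := funext hL
  have ss : ContDiff ℝ ∞ (c.En lam f) := c.smooth_En hf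
  have iG : ∀ (γ : Γ) x, c.G f f (γ • x) = c.G f f x := by
    intro γ x
    rw [← Q.inv γ hf hf x]
    have : (fun y => f (γ • y)) = f := funext (hinv γ)
    rw [this]
  have iE : ∀ (γ : Γ) x, c.En lam f (γ • x) = c.En lam f x := by
    intro γ x
    unfold Coef.En
    rw [hinv, iG]
  have scp := contDiff_poly hf ss (n + 1)
  have sb : ContDiff ℝ ∞ (Coef.bP (n + 1) f (c.En lam f)) := by
    unfold Coef.bP
    exact scp.2.2.2.mul (ss.sub (hf.mul hf))
  have ib : ∀ (γ : Γ) x, Coef.bP (n + 1) f (c.En lam f) (γ • x)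
      = Coef.bP (n + 1) f (c.En lam f) x := by
    intro γ x
    unfold Coef.bP
    rw [hinv, iE]
  have hwc : Continuous (fun x => χ x * ρ x) := hχ.sm.continuous.mul Q.sρ.continuous
  have hws : HasCompactSupport (fun x => χ x * ρ x) := hχ.cs.mul_right
  have hw : ∀ x, 0 ≤ χ x * ρ x := fun x => mul_nonneg (hχ.nonneg x) (Q.ρpos x).le
  have hCD : ∀ x, 0 < χ x * ρ x → ∀ f : E → ℝ, ContDiff ℝ ∞ f →
      0 ≤ c.G2 f f x + K * c.G f f x := by
    intro x hx f hf
    have hx' : x ∈ tsupport χ := by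
      apply subset_tsupport
      intro h
      rw [h, zero_mul] at hx
      exact lt_irrefl _ hx
    rw [c.G2_eq_Qf hf, G_eq_qf]
    exact hKb x hx' _ _
  have hG1 : ∫ x, (χ x * ρ x) * (f x * c.Lo f x + c.G f f x) = 0 :=
    Q.green_inv hχ hf hf hinv hinv
  have hGa := Q.green_inv hχ (b := fun x => aP (n + 1) (f x) (c.En lam f x)) (s := f)
    scp.2.2.1 hf (fun γ x => by simp only [hinv, iE]) hinv
  have hGb := Q.green_inv hχ sb ss ib iE
  have hG2 : ∫ x, (χ x * ρ x) * c.Zf (n + 1) lam f x = 0 := by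
    have e : ∀ x, (χ x * ρ x) * c.Zf (n + 1) lam f x
        = (χ x * ρ x) * (aP (n + 1) (f x) (c.En lam f x) * c.Lo f x
            + c.G (fun x => aP (n + 1) (f x) (c.En lam f x)) f x)
          + (χ x * ρ x) * (Coef.bP (n + 1) f (c.En lam f) x * c.Lo (c.En lam f) x
            + c.G (Coef.bP (n + 1) f (c.En lam f)) (c.En lam f) x) := by
      intro x
      unfold Coef.Zf
      ring
    simp only [e]
    rw [integral_add, hGa, hGb, add_zero]
    · have h1 := (c.smooth_Lo hf).continuous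
      have h2 := (c.smooth_G scp.2.2.1 hf).continuous
      exact (hwc.mul ((scp.2.2.1.continuous.mul h1).add h2)).integrable_of_hasCompactSupport
        hws.mul_right
    · have h3 := (c.smooth_Lo ss).continuous
      have h4 := (c.smooth_G sb ss).continuous
      exact (hwc.mul ((sb.continuous.mul h3).add h4)).integrable_of_hasCompactSupport
        hws.mul_right
  have hmain := c.moments_of_green hC hK hCb hwc hws hw Q.G_nonneg hCD hf hlam hL' hG1 hG2
  -- unfolding
  have unf : ∀ g : E → ℝ, Continuous g → (∀ x, 0 ≤ g x) → (∀ (γ : Γ) x, g (γ • x) = g x) →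
      ∫ x, (χ x * ρ x) * g x = ∫ x in D0, g x ∂(vμ ρ) := by
    intro g hg g0 gi
    rw [← Q.integral_part hχ hD0 hg g0 gi, Q.integral_vμ]
    refine integral_congr_ae (Eventually.of_forall fun x => ?_)
    simp only
    ring
  have u0 := unf (fun _ => 1) continuous_const (fun _ => zero_le_one) (fun _ _ => rfl)
  have u1 := unf (fun x => f x ^ 2) (hf.continuous.pow _) (fun x => sq_nonneg _)
    (fun γ x => by simp only [hinv])
  have u2 := unf (fun x => f x ^ (2 * (n + 1))) (hf.continuous.pow _)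
    (fun x => by simp only [pow_mul]; positivity) (fun γ x => by simp only [hinv])
  simp only [mul_one] at u0
  rw [u0, u1, u2] at hmain
  exact hmain

end QData

end Berry67
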