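import Pool.Agent.Lib_helper67.Berry.RealMom

/-!
Moments of real order of eigenfunctions on compact quotients.
-/

namespace Berry67

set_option linter.unusedSectionVars false

open InnerProductSpace Filter Topology MeasureTheory
open scoped ContDiff

variable {E : Type*} [NormedAddCommGroup E] [InnerProductSpace ℝ E] [FiniteDimensional ℝ E]
  [MeasurableSpace E] [BorelSpace E]
variable {ι : Type*} [Fintype ι]

namespace QData

variable {c : Coef E ι} {ρ : E → ℝ} {Γ : Type*} [Group Γ] [MulAction Γ E]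

/-- Green identities and the energy inequality on the quotient. -/
theorem energy (Q : QData c ρ Γ) : ∃ K : ℝ, 0 ≤ K ∧ ∀ D0 : Set E,
    IsFundamentalDomain Γ D0 (volume : Measure E) →
      ∀ lam : ℝ, 0 < lam → ∀ f : E → ℝ, ContDiff ℝ ∞ f → (∀ (γ : Γ) x, f (γ • x) = f x) →
        (∀ x, c.Lo f x = -lam * f x) → ∃ (w : E → ℝ) (s : E → ℝ), Continuous w ∧
          HasCompactSupport w ∧ (∀ x, 0 ≤ w x) ∧ Continuous s ∧ (∀ x, 0 ≤ s x) ∧
          (∫ x, w x * s x = 2 * ∫ x, w x * f x ^ 2) ∧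
          (∀ g : E → ℝ, Continuous g → (∀ x, 0 ≤ g x) → (∀ (γ : Γ) x, g (γ • x) = g x) →
            ∫ x, w x * g x = ∫ x in D0, g x ∂(vμ ρ)) ∧
          ∀ q σ : ℝ, 1 / 2 ≤ q → (σ = 1 ∧ 1 ≤ q ∨ σ = -1 ∧ q ≤ 1) →
            σ * (msin q * ∫ x, w x * s x ^ q) ≤ σ * (∫ x, w x * (f x ^ 2) ^ q)
              + 2 * K * (σ * (q * (q - 1))) / lam * ∫ x, w x * s x ^ q := by
  obtain ⟨χ, hχ⟩ := Q.exists_part
  obtain ⟨K, hK, hKb⟩ := c.exists_curv_bound Q.pd hχ.cs
  refine ⟨K, hK, fun D0 hD0 lam hlam f hf hinv hL => ?_⟩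
  have hL' : c.Lo f = fun x => -lam * f x := funext hL
  have ss : ContDiff ℝ ∞ (c.En lam f) := c.smooth_En hf
  have iG : ∀ (γ : Γ) x, c.G f f (γ • x) = c.G f f x := by
    intro γ x
    rw [← Q.inv γ hf hf x]
    have : (fun y => f (γ • y)) = f := funext (hinv γ)
    rw [this]
  have iE : ∀ (γ : Γ) x, c.En lam f (γ • x) = c.En lam f x := by
    intro γ x
    unfold Coef.En
    rw [hinv, iG]
  have hwc : Continuous (fun x => χ x * ρ x) := hχ.sm.continuous.mul Q.sρ.continuous
  have hws : HasCompactSupport (fun x => χ x * ρ x) := hχ.cs.mul_right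
  have hw : ∀ x, 0 ≤ χ x * ρ x := fun x => mul_nonneg (hχ.nonneg x) (Q.ρpos x).le
  have hCD : ∀ x, 0 < χ x * ρ x → ∀ f : E → ℝ, ContDiff ℝ ∞ f →
      0 ≤ c.G2 f f x + K * c.G f f x := by
    intro x hx f hf
    have hx' : x ∈ tsupport χ := by
      apply subset_tsupport
      intro h
      rw [h, zero_mul] at hx
      exact lt_irrefl _ hx
    rw [c.G2_eq_Qf hf, G_eq_qf]
    exact hKb x hx' _ _
  have hG1 : ∫ x, (χ x * ρ x) * (f x * c.Lo f x + c.G f f x) = 0 :=
    Q.green_inv hχ hf hf hinv hinv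
  have hG2 : ∀ n, ∫ x, (χ x * ρ x) * c.Zf n lam f x = 0 := by
    intro n
    have scp := contDiff_poly hf ss n
    have sb : ContDiff ℝ ∞ (Coef.bP n f (c.En lam f)) := by
      unfold Coef.bP
      exact scp.2.2.2.mul (ss.sub (hf.mul hf))
    have ib : ∀ (γ : Γ) x, Coef.bP n f (c.En lam f) (γ • x)
        = Coef.bP n f (c.En lam f) x := by
      intro γ x
      unfold Coef.bP
      rw [hinv, iE]
    have hGa := Q.green_inv hχ (b := fun x => aP n (f x) (c.En lam f x)) (s := f)
      scp.2.2.1 hf (fun γ x => by simp only [hinv, iE]) hinv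
    have hGb := Q.green_inv hχ sb ss ib iE
    have e : ∀ x, (χ x * ρ x) * c.Zf n lam f x
        = (χ x * ρ x) * (aP n (f x) (c.En lam f x) * c.Lo f x
            + c.G (fun x => aP n (f x) (c.En lam f x)) f x)
          + (χ x * ρ x) * (Coef.bP n f (c.En lam f) x * c.Lo (c.En lam f) x
            + c.G (Coef.bP n f (c.En lam f)) (c.En lam f) x) := by
      intro x
      unfold Coef.Zf
      ring
    simp only [e]
    rw [integral_add, hGa, hGb, add_zero]
    · have h1 := (c.smooth_Lo hf).continuous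
      have h2 := (c.smooth_G scp.2.2.1 hf).continuous
      exact (hwc.mul ((scp.2.2.1.continuous.mul h1).add h2)).integrable_of_hasCompactSupport
        hws.mul_right
    · have h3 := (c.smooth_Lo ss).continuous
      have h4 := (c.smooth_G sb ss).continuous
      exact (hwc.mul ((sb.continuous.mul h3).add h4)).integrable_of_hasCompactSupport
        hws.mul_right
  refine ⟨fun x => χ x * ρ x, c.En lam f, hwc, hws, hw, ss.continuous, ?_, ?_, ?_, ?_⟩
  · intro x
    unfold Coef.En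
    exact add_nonneg (mul_self_nonneg _) (mul_nonneg (inv_nonneg.2 hlam.le) (Q.G_nonneg x f))
  · -- mean of the energy
    have integ : ∀ {g : E → ℝ}, Continuous g → Integrable (fun x => (χ x * ρ x) * g x) :=
      fun {g} hg => (hwc.mul hg).integrable_of_hasCompactSupport hws.mul_right
    have iS : Integrable (fun x => (χ x * ρ x) * c.En lam f x) := integ ss.continuous
    have iF2 : Integrable (fun x => (χ x * ρ x) * f x ^ 2) := integ (hf.continuous.pow _)
    have e1 : (fun x => (χ x * ρ x) * (f x * c.Lo f x + c.G f f x))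
        = fun x => lam * ((χ x * ρ x) * c.En lam f x) - (2 * lam) * ((χ x * ρ x) * f x ^ 2) := by
      funext x
      rw [hL']; unfold Coef.En
      field_simp
      ring
    rw [e1, integral_sub (iS.const_mul _) (iF2.const_mul _), integral_const_mul,
      integral_const_mul] at hG1
    have h1 : lam * ((∫ x, (χ x * ρ x) * c.En lam f x) - 2 * ∫ x, (χ x * ρ x) * f x ^ 2) = 0 := by
      linarith
    rcases mul_eq_zero.1 h1 with h | h
    · exact absurd h hlam.ne'
    · linarith
  · intro g hg g0 gi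
    rw [← Q.integral_part hχ hD0 hg g0 gi, Q.integral_vμ]
    refine integral_congr_ae (Eventually.of_forall fun x => ?_)
    simp only
    ring
  · intro q σ hq hσ
    exact c.energy_rpow hq hσ hK hwc hws hw Q.G_nonneg hCD hf hlam hL' hG2

/-- **Moments of real order.** -/
theorem moments_real (Q : QData c ρ Γ) : ∃ K : ℝ, 0 ≤ K ∧ ∀ D0 : Set E,
    IsFundamentalDomain Γ D0 (volume : Measure E) →
      ∀ lam : ℝ, 0 < lam → ∀ f : E → ℝ, ContDiff ℝ ∞ f → (∀ (γ : Γ) x, f (γ • x) = f x) →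
        (∀ x, c.Lo f x = -lam * f x) → 0 < (∫ _x in D0, (1 : ℝ) ∂(vμ ρ)) →
        ∀ q σ : ℝ, 1 / 2 ≤ q → (σ = 1 ∧ 1 ≤ q ∨ σ = -1 ∧ q ≤ 1) →
          σ * ((msin q - K * (q * (q - 1)) / lam)
            * (2 * ((∫ x in D0, f x ^ 2 ∂(vμ ρ)) / ∫ _x in D0, (1 : ℝ) ∂(vμ ρ))) ^ q)
          ≤ σ * ((∫ x in D0, (f x ^ 2) ^ q ∂(vμ ρ)) / ∫ _x in D0, (1 : ℝ) ∂(vμ ρ)) := by
  obtain ⟨K, hK, h⟩ := Q.energy
  refine ⟨2 * K, by positivity, fun D0 hD0 lam hlam f hf hinv hL hV q σ hq hσ => ?_⟩
  obtain ⟨w, s, hwc, hws, hw, hsc, hs0, hmean, unf, hen⟩ := h D0 hD0 lam hlam f hf hinv hL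
  have hq0 : 0 < q := by linarith
  have crp := Real.continuous_rpow_const hq0.le
  have u0 := unf (fun _ => 1) continuous_const (fun _ => zero_le_one) (fun _ _ => rfl)
  have u1 := unf (fun x => f x ^ 2) (hf.continuous.pow _) (fun x => sq_nonneg _)
    (fun γ x => by simp only [hinv])
  have u2 := unf (fun x => (f x ^ 2) ^ q) (crp.comp (hf.continuous.pow _))
    (fun x => Real.rpow_nonneg (sq_nonneg _) _) (fun γ x => by simp only [hinv])
  simp only [mul_one] at u0
  rw [← u0] at hV ⊢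
  rw [← u1, ← u2]
  set V := ∫ x, w x with hVd
  have integ : ∀ {g : E → ℝ}, Continuous g → Integrable (fun x => w x * g x) :=
    fun {g} hg => (hwc.mul hg).integrable_of_hasCompactSupport hws.mul_right
  have i0 : Integrable w := hwc.integrable_of_hasCompactSupport hws
  have hj := jensen_rpow (w := w) (S := s) hq0 hσ hw hs0 i0 (integ hsc) (integ (crp.comp hsc)) hV
  have he := hen q σ hq hσ
  rw [hmean, ← hVd] at hj
  have e0 : 2 * ∫ x, w x * f x ^ 2 = 2 * ∫ x, w x * f x ^ 2 := rfl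
  have e1 : (2 * ∫ x, w x * f x ^ 2) / V = 2 * ((∫ x, w x * f x ^ 2) / V) := by ring
  rw [e1] at hj
  set A := (2 * ((∫ x, w x * f x ^ 2) / V)) ^ q with hA
  set I := ∫ x, w x * s x ^ q with hI
  set B := ∫ x, w x * (f x ^ 2) ^ q with hB
  have hI0 : 0 ≤ I := integral_nonneg fun x => mul_nonneg (hw x) (Real.rpow_nonneg (hs0 x) _)
  have hB0 : 0 ≤ B := integral_nonneg fun x =>
    mul_nonneg (hw x) (Real.rpow_nonneg (sq_nonneg _) _)
  have hA0 : 0 ≤ A := by
    apply Real.rpow_nonneg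
    have : 0 ≤ ∫ x, w x * f x ^ 2 := integral_nonneg fun x => mul_nonneg (hw x) (sq_nonneg _)
    positivity
  have hms := (msin_pos hq0).le
  set m := msin q - 2 * K * (q * (q - 1)) / lam with hm
  have he' : σ * (m * I) ≤ σ * B := by
    have e2 : σ * (m * I) = σ * (msin q * I) - 2 * K * (σ * (q * (q - 1))) / lam * I := by
      rw [hm]; ring
    rw [e2]
    linarith
  have he2 : σ * (m * (I / V)) ≤ σ * (B / V) := by
    have := div_le_div_of_nonneg_right he' hV.le
    have e3 : σ * (m * (I / V)) = σ * (m * I) / V := by ring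
    have e4 : σ * (B / V) = σ * B / V := by ring
    rw [e3, e4]; exact this
  rcases hσ with ⟨h1, h2⟩ | ⟨h1, h2⟩
  · rw [h1] at hj he2 ⊢
    simp only [one_mul] at hj he2 ⊢
    rcases le_total m 0 with hneg | hpos
    · exact (mul_nonpos_of_nonpos_of_nonneg hneg hA0).trans (div_nonneg hB0 hV.le)
    · exact (mul_le_mul_of_nonneg_left hj hpos).trans he2
  · rw [h1] at hj he2 ⊢
    have hpos : 0 ≤ m := by
      have : 0 ≤ 2 * K * (q * (1 - q)) / lam := by
        have := mul_nonneg hq0.le (sub_nonneg.2 h2)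
        positivity
      rw [hm]
      have e5 : 2 * K * (q * (q - 1)) / lam = -(2 * K * (q * (1 - q)) / lam) := by ring
      rw [e5]
      linarith
    have h3 : I / V ≤ A := by linarith
    have h4 := mul_le_mul_of_nonneg_left h3 hpos
    linarith

end QData

end Berry67
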