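import Pool.Agent.Lib_helper67.Berry.Curv

/-!
Green's identities on a compact quotient of a Euclidean space by a group of isometries of a
Riemannian metric.
-/

namespace Berry67

set_option linter.unusedSectionVars false

open InnerProductSpace Filter Topology MeasureTheory
open scoped ContDiff

variable {E : Type*} [NormedAddCommGroup E] [InnerProductSpace ℝ E] [FiniteDimensional ℝ E]
  [MeasurableSpace E] [BorelSpace E]
variable {ι : Type*} [Fintype ι]

/-- the integral of a derivative of a compactly supported function vanishes -/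
lemma integral_D_eq_zero {F : E → ℝ} (hF : ContDiff ℝ ∞ F) (hs : HasCompactSupport F) (v : E) :
    ∫ x, D v F x = 0 := by
  have cF : Continuous F := hF.continuous
  have cD : Continuous (D v F) := (contDiff_D hF v).continuous
  have sD : HasCompactSupport (D v F) := hs.fderiv_apply (𝕜 := ℝ) v
  have i1 : Integrable (D v F) := cD.integrable_of_hasCompactSupport sD
  have i2 : Integrable F := cF.integrable_of_hasCompactSupport hs
  have h := integral_mul_fderiv_eq_neg_fderiv_mul_of_integrable (μ := (volume : Measure E)) (𝕜 := ℝ)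
    (f := fun _ => (1 : ℝ)) (g := F) (v := v) (by simp) (by simp only [one_mul]; exact i1) (by simpa using i2)
    (fun x _ => differentiableAt_const _) (fun x _ => (hF.differentiable (by simp)) x)
  simpa [D] using h

namespace Coef

variable (c : Coef E ι)

/-- the divergence structure -/
def IsDiv (ρ : E → ℝ) : Prop :=
  ∀ j x, ρ x * c.B j x = ∑ i, D (c.e i) (fun y => ρ y * c.H i j y) x

variable {c}

/-- **Green's identity** for a compactly supported function. -/
lemma green {ρ : E → ℝ} (sρ : ContDiff ℝ ∞ ρ) (hB : c.IsDiv ρ) {w u : E → ℝ}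
    (hw : ContDiff ℝ ∞ w) (hws : HasCompactSupport w) (hu : ContDiff ℝ ∞ u) :
    ∫ x, ρ x * (w x * c.Lo u x + c.G w u x) = 0 := by
  have s1 : ∀ i j, ContDiff ℝ ∞ (fun y => ρ y * c.H i j y) := fun i j => sρ.mul (c.sH i j)
  have s2 : ∀ i j, ContDiff ℝ ∞ (fun y => (ρ y * c.H i j y) * D (c.e j) u y) := fun i j =>
    (s1 i j).mul (contDiff_D hu _)
  have s3 : ∀ i, ContDiff ℝ ∞ (fun y => ∑ j, (ρ y * c.H i j y) * D (c.e j) u y) := fun i =>
    ContDiff.sum fun j _ => s2 i j
  have s4 : ∀ i, ContDiff ℝ ∞ (fun y => w y * ∑ j, (ρ y * c.H i j y) * D (c.e j) u y) := fun i =>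
    hw.mul (s3 i)
  have hc : ∀ i, HasCompactSupport (fun y => w y * ∑ j, (ρ y * c.H i j y) * D (c.e j) u y) :=
    fun i => hws.mul_right
  have e1 : ∀ x, ρ x * (w x * c.Lo u x + c.G w u x)
      = ∑ i, D (c.e i) (fun y => w y * ∑ j, (ρ y * c.H i j y) * D (c.e j) u y) x := by
    intro x
    have e2 : ∀ i, D (c.e i) (fun y => w y * ∑ j, (ρ y * c.H i j y) * D (c.e j) u y) x
        = D (c.e i) w x * ∑ j, (ρ x * c.H i j x) * D (c.e j) u x
          + w x * ∑ j, (D (c.e i) (fun y => ρ y * c.H i j y) x * D (c.e j) u x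
            + (ρ x * c.H i j x) * D (c.e i) (D (c.e j) u) x) := by
      intro i
      rw [D_mul hw (s3 i), D_add_fun _ _ (s2 i)]
      simp only [D_mul (s1 i _) (contDiff_D hu _)]
    simp only [e2, Finset.sum_add_distrib, ← Finset.mul_sum]
    have e3 : ∑ i, ∑ j, D (c.e i) (fun y => ρ y * c.H i j y) x * D (c.e j) u x
        = ρ x * ∑ j, c.B j x * D (c.e j) u x := by
      rw [Finset.sum_comm, Finset.mul_sum]
      refine Finset.sum_congr rfl fun j _ => ?_
      rw [← Finset.sum_mul, ← hB j x]; ring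
    have e4 : ∑ i, ∑ j, ρ x * c.H i j x * D (c.e i) (D (c.e j) u) x
        = ρ x * ∑ i, ∑ j, c.H i j x * D (c.e i) (D (c.e j) u) x := by
      simp only [Finset.mul_sum]
      refine Finset.sum_congr rfl fun i _ => Finset.sum_congr rfl fun j _ => ?_
      ring
    have e5 : ∑ i, D (c.e i) w x * ∑ j, ρ x * c.H i j x * D (c.e j) u x
        = ρ x * c.G w u x := by
      unfold G
      simp only [Finset.mul_sum]
      refine Finset.sum_congr rfl fun i _ => Finset.sum_congr rfl fun j _ => ?_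
      ring
    rw [e3, e4, e5]
    unfold Lo
    ring
  simp only [e1]
  rw [integral_finsetSum]
  · exact Finset.sum_eq_zero fun i _ => integral_D_eq_zero (s4 i) (hc i) _
  · intro i _
    exact ((contDiff_D (s4 i) _).continuous).integrable_of_hasCompactSupport
      ((hc i).fderiv_apply (𝕜 := ℝ) _)

end Coef

/-- Compact quotient data: a group `Γ` acts on `E` smoothly, properly and cocompactly by
isometries of the Riemannian metric with inverse metric `c.H` and volume density `ρ`. -/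
structure QData (c : Coef E ι) (ρ : E → ℝ) (Γ : Type*) [Group Γ] [MulAction Γ E] : Prop where
  sρ : ContDiff ℝ ∞ ρ
  ρpos : ∀ x, 0 < ρ x
  hB : c.IsDiv ρ
  pd : ∀ x, ∀ ξ : ι → ℝ, ξ ≠ 0 → 0 < c.qf x ξ
  sm : ∀ γ : Γ, ContDiff ℝ ∞ (fun x : E => γ • x)
  inv : ∀ (γ : Γ) {f h : E → ℝ}, ContDiff ℝ ∞ f → ContDiff ℝ ∞ h → ∀ x,
    c.G (fun y => f (γ • y)) (fun y => h (γ • y)) x = c.G f h (γ • x)
  vol : ∀ (γ : Γ) (x : E), |(fderiv ℝ (fun y : E => γ • y) x).det| * ρ (γ • x) = ρ x
  proper : ∀ K : Set E, IsCompact K → {γ : Γ | ((fun x : E => γ • x) '' K ∩ K).Nonempty}.Finite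
  cocompact : ∃ K : Set E, IsCompact K ∧ ∀ x, ∃ γ : Γ, γ • x ∈ K

namespace QData

variable {c : Coef E ι} {ρ : E → ℝ} {Γ : Type*} [Group Γ] [MulAction Γ E]

/-- Riemannian volume -/
noncomputable def vμ (ρ : E → ℝ) : Measure E := volume.withDensity (fun x => ENNReal.ofReal (ρ x))

lemma cont (Q : QData c ρ Γ) (γ : Γ) : Continuous (fun x : E => γ • x) := (Q.sm γ).continuous

lemma mp (Q : QData c ρ Γ) (γ : Γ) : MeasurePreserving (fun x : E => γ • x) (vμ ρ) (vμ ρ) := by
  have hc := Q.cont γ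
  refine ⟨hc.measurable, ?_⟩
  ext A hA
  have hρ : Measurable (fun x => ENNReal.ofReal (ρ x)) :=
    ENNReal.measurable_ofReal.comp Q.sρ.continuous.measurable
  have hinj : Function.Injective (fun x : E => γ • x) := MulAction.injective γ
  have hsurj : (fun x : E => γ • x) '' Set.univ = Set.univ :=
    Set.image_univ_of_surjective (MulAction.surjective γ)
  have h := lintegral_image_eq_lintegral_abs_det_fderiv_mul (volume : Measure E)
    (f := fun x : E => γ • x) (f' := fun x => fderiv ℝ (fun y : E => γ • y) x)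
    MeasurableSet.univ
    (fun x _ => ((Q.sm γ).differentiable (by simp) x).hasFDerivAt.hasFDerivWithinAt)
    hinj.injOn (fun y => ENNReal.ofReal (ρ y) * A.indicator 1 y)
  rw [hsurj] at h
  simp only [Measure.restrict_univ] at h
  rw [Measure.map_apply hc.measurable hA, vμ, withDensity_apply _ (hc.measurable hA),
    withDensity_apply _ hA, ← lintegral_indicator hA, ← lintegral_indicator (hc.measurable hA)]
  have e1 : ∀ y, A.indicator (fun x => ENNReal.ofReal (ρ x)) y
      = ENNReal.ofReal (ρ y) * A.indicator 1 y := by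
    intro y
    by_cases hy : y ∈ A
    · simp [hy]
    · simp [hy]
  simp only [e1]
  rw [h]
  refine lintegral_congr fun x => ?_
  by_cases hx : γ • x ∈ A
  · have h1 : ((fun x : E => γ • x) ⁻¹' A).indicator (fun x => ENNReal.ofReal (ρ x)) x
        = ENNReal.ofReal (ρ x) :=
      Set.indicator_of_mem (show x ∈ (fun x : E => γ • x) ⁻¹' A from hx) _
    rw [h1, Set.indicator_of_mem hx]
    simp only [Pi.one_apply, mul_one]
    rw [← ENNReal.ofReal_mul (abs_nonneg _), Q.vol]
  · have h1 : ((fun x : E => γ • x) ⁻¹' A).indicator (fun x => ENNReal.ofReal (ρ x)) x = 0 :=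
      Set.indicator_of_notMem (show x ∉ (fun x : E => γ • x) ⁻¹' A from hx) _
    rw [h1, Set.indicator_of_notMem hx]
    simp

lemma integral_vμ (Q : QData c ρ Γ) (F : E → ℝ) : ∫ x, F x ∂(vμ ρ) = ∫ x, ρ x * F x := by
  rw [vμ, integral_withDensity_eq_integral_toReal_smul₀]
  · refine integral_congr_ae (Eventually.of_forall fun x => ?_)
    simp only [ENNReal.toReal_ofReal (Q.ρpos x).le, smul_eq_mul]
  · exact (ENNReal.measurable_ofReal.comp Q.sρ.continuous.measurable).aemeasurable
  · exact Eventually.of_forall fun x => ENNReal.ofReal_lt_top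

lemma integrable_cs (Q : QData c ρ Γ) {F : E → ℝ} (hF : Continuous F) (hs : HasCompactSupport F) :
    Integrable F (vμ ρ) := by
  have : IsLocallyFiniteMeasure (vμ ρ : Measure E) :=
    IsLocallyFiniteMeasure.withDensity_ofReal Q.sρ.continuous
  exact hF.integrable_of_hasCompactSupport hs

lemma integral_comp (Q : QData c ρ Γ) (γ : Γ) {F : E → ℝ} (hF : Continuous F) :
    ∫ x, F (γ • x) ∂(vμ ρ) = ∫ x, F x ∂(vμ ρ) := by
  have h := integral_map (μ := vμ ρ) (Q.mp γ).measurable.aemeasurable (f := F)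
    (by rw [(Q.mp γ).map_eq]; exact hF.aestronglyMeasurable)
  rw [(Q.mp γ).map_eq] at h
  exact h.symm

/-- the finite set of group elements which do not move `K` off itself -/
noncomputable def fin (Q : QData c ρ Γ) {K : Set E} (hK : IsCompact K) : Finset Γ :=
  (Q.proper K hK).toFinset

lemma mem_fin (Q : QData c ρ Γ) {K : Set E} (hK : IsCompact K) {γ : Γ} {x : E} (hx : x ∈ K)
    (hγ : γ • x ∈ K) : γ ∈ Q.fin hK := by
  rw [fin, Set.Finite.mem_toFinset]
  exact ⟨γ • x, ⟨x, hx, rfl⟩, hγ⟩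

lemma inv_mem_fin (Q : QData c ρ Γ) {K : Set E} (hK : IsCompact K) {γ : Γ}
    (h : γ ∈ Q.fin hK) : γ⁻¹ ∈ Q.fin hK := by
  rw [fin, Set.Finite.mem_toFinset] at h
  obtain ⟨y, ⟨x, hx, rfl⟩, hy⟩ := h
  exact Q.mem_fin hK hy (by simpa using hx)

/-- a smooth partition function -/
structure IsPart (Γ : Type*) [Group Γ] [MulAction Γ E] (χ : E → ℝ) : Prop where
  sm : ContDiff ℝ ∞ χ
  cs : HasCompactSupport χ
  nonneg : ∀ x, 0 ≤ χ x
  sum : ∀ x, ∑ᶠ γ : Γ, χ (γ • x) = 1

lemma part_sum (Q : QData c ρ Γ) {χ : E → ℝ} (hχ : IsPart Γ χ) {K : Set E} (hK : IsCompact K)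
    (hsub : tsupport χ ⊆ K) {x : E} (hx : x ∈ K) : ∑ γ ∈ Q.fin hK, χ (γ • x) = 1 := by
  rw [← hχ.sum x]
  symm
  apply finsum_eq_sum_of_support_subset
  intro γ hγ
  have h1 : γ • x ∈ tsupport χ := subset_tsupport _ hγ
  exact Q.mem_fin hK hx (hsub h1)

/-- **Green's identity on the quotient.** -/
theorem green_inv (Q : QData c ρ Γ) {χ : E → ℝ} (hχ : IsPart Γ χ) {b s : E → ℝ}
    (hb : ContDiff ℝ ∞ b) (hs : ContDiff ℝ ∞ s) (ib : ∀ (γ : Γ) x, b (γ • x) = b x)
    (is : ∀ (γ : Γ) x, s (γ • x) = s x) :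
    ∫ x, (χ x * ρ x) * (b x * c.Lo s x + c.G b s x) = 0 := by
  -- a compact neighbourhood of the support
  obtain ⟨K, hK, hKsub⟩ := exists_compact_superset hχ.cs
  have hsub : tsupport χ ⊆ K := hKsub.trans interior_subset
  set Fs := Q.fin hK with hFs
  have hsymm : ∀ Ψ : Γ → ℝ, ∑ γ ∈ Fs, Ψ γ⁻¹ = ∑ γ ∈ Fs, Ψ γ := by
    intro Ψ
    refine Finset.sum_nbij' (fun γ => γ⁻¹) (fun γ => γ⁻¹) (fun γ hγ => Q.inv_mem_fin hK hγ)
      (fun γ hγ => Q.inv_mem_fin hK hγ) (fun γ _ => inv_inv γ) (fun γ _ => inv_inv γ)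
      (fun γ _ => rfl)
  -- the derivative of the partition of unity
  have sγ : ∀ γ : Γ, ContDiff ℝ ∞ (fun y => χ (γ • y)) := fun γ => hχ.sm.comp (Q.sm γ)
  have hD : ∀ v, ∀ x ∈ tsupport χ, ∑ γ ∈ Fs, D v (fun y => χ (γ • y)) x = 0 := by
    intro v x hx
    have h1 : ∀ᶠ y in 𝓝 x, (fun y => ∑ γ ∈ Fs, χ (γ • y)) y = (fun _ => (1 : ℝ)) y := by
      filter_upwards [isOpen_interior.mem_nhds (hKsub hx)] with y hy
      exact Q.part_sum hχ hK hsub (interior_subset hy)
    have h2 : D v (fun y => ∑ γ ∈ Fs, χ (γ • y)) x = 0 := by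
      have : (fun y => ∑ γ ∈ Fs, χ (γ • y)) =ᶠ[𝓝 x] fun _ => (1 : ℝ) := h1
      simp only [D]
      rw [this.fderiv_eq]; simp
    have h3 := congrFun (D_add_fun Fs (fun γ y => χ (γ • y)) sγ v) x
    rw [← h3]; exact h2
  have hGsum : ∀ x ∈ tsupport χ, ∑ γ ∈ Fs, c.G (fun y => χ (γ • y)) s x = 0 := by
    intro x hx
    have e1 : ∑ γ ∈ Fs, c.G (fun y => χ (γ • y)) s x
        = ∑ i, ∑ j, c.H i j x * ((∑ γ ∈ Fs, D (c.e i) (fun y => χ (γ • y)) x) * D (c.e j) s x) := by
      simp only [Coef.G, Finset.sum_mul, Finset.mul_sum]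
      rw [Finset.sum_comm]
      refine Finset.sum_congr rfl fun i _ => ?_
      rw [Finset.sum_comm]
    rw [e1]
    refine Finset.sum_eq_zero fun i _ => Finset.sum_eq_zero fun j _ => ?_
    rw [hD _ x hx]; ring
  -- the function to be integrated
  set F0 : E → ℝ := fun x => b x * c.G χ s x with hF0
  have sF0 : ContDiff ℝ ∞ F0 := hb.mul (c.smooth_G hχ.sm hs)
  have F0zero : ∀ x, x ∉ tsupport χ → F0 x = 0 := by
    intro x hx
    have hz : ∀ v, D v χ x = 0 := by
      intro v
      have h1 : fderiv ℝ χ x = 0 := by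
        by_contra hne
        exact hx (support_fderiv_subset (𝕜 := ℝ) hne)
      simp only [D, h1]; simp
    simp only [hF0, Coef.G, hz, zero_mul, mul_zero, Finset.sum_const_zero]
  have cF0 : Continuous F0 := sF0.continuous
  have F0cs : HasCompactSupport F0 := HasCompactSupport.intro hχ.cs F0zero
  have hcs : ∀ g : E → ℝ, Continuous g → Integrable (fun x => g x * F0 x) (vμ ρ) := fun g hg =>
    Q.integrable_cs (hg.mul cF0) F0cs.mul_left
  have hJ : ∫ x, F0 x ∂(vμ ρ) = 0 := by
    have e1 : ∀ x, F0 x = ∑ γ ∈ Fs, χ (γ • x) * F0 x := by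
      intro x
      by_cases hx : x ∈ tsupport χ
      · rw [← Finset.sum_mul, Q.part_sum hχ hK hsub (hsub hx), one_mul]
      · rw [F0zero x hx]; simp
    have e2 : ∀ γ : Γ, ∫ x, χ (γ • x) * F0 x ∂(vμ ρ)
        = ∫ x, χ x * (b x * c.G (fun y => χ (γ⁻¹ • y)) s x) ∂(vμ ρ) := by
      intro γ
      have h1 := Q.integral_comp γ (F := fun y => χ y * F0 (γ⁻¹ • y))
        (hχ.sm.continuous.mul (cF0.comp (Q.cont γ⁻¹)))
      simp only [inv_smul_smul] at h1
      rw [h1]
      refine integral_congr_ae (Eventually.of_forall fun x => ?_)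
      simp only [hF0]
      rw [ib γ⁻¹ x, ← Q.inv γ⁻¹ hχ.sm hs x]
      have : (fun y => s (γ⁻¹ • y)) = s := funext (is γ⁻¹)
      rw [this]
    calc ∫ x, F0 x ∂(vμ ρ) = ∫ x, ∑ γ ∈ Fs, χ (γ • x) * F0 x ∂(vμ ρ) :=
          integral_congr_ae (Eventually.of_forall e1)
      _ = ∑ γ ∈ Fs, ∫ x, χ (γ • x) * F0 x ∂(vμ ρ) :=
          integral_finsetSum _ fun γ _ => hcs _ (sγ γ).continuous
      _ = ∑ γ ∈ Fs, ∫ x, χ x * (b x * c.G (fun y => χ (γ⁻¹ • y)) s x) ∂(vμ ρ) :=
          Finset.sum_congr rfl fun γ _ => e2 γ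
      _ = ∑ γ ∈ Fs, ∫ x, χ x * (b x * c.G (fun y => χ (γ • y)) s x) ∂(vμ ρ) :=
          hsymm (fun γ => ∫ x, χ x * (b x * c.G (fun y => χ (γ • y)) s x) ∂(vμ ρ))
      _ = ∫ x, ∑ γ ∈ Fs, χ x * (b x * c.G (fun y => χ (γ • y)) s x) ∂(vμ ρ) := by
          rw [integral_finsetSum]
          intro γ _
          exact Q.integrable_cs (hχ.sm.continuous.mul
            (hb.continuous.mul (c.smooth_G (sγ γ) hs).continuous)) hχ.cs.mul_right
      _ = 0 := by
          rw [integral_eq_zero_of_ae]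
          refine Eventually.of_forall fun x => ?_
          simp only [← Finset.mul_sum, Pi.zero_apply]
          by_cases hx : x ∈ tsupport χ
          · rw [hGsum x hx]; ring
          · rw [image_eq_zero_of_notMem_tsupport hx]; ring
  have hgr := Coef.green Q.sρ Q.hB (hχ.sm.mul hb) (hχ.cs.mul_right) hs
  have e3 : ∀ x, ρ x * (χ x * b x * c.Lo s x + c.G (fun y => χ y * b y) s x)
      = (χ x * ρ x) * (b x * c.Lo s x + c.G b s x) + ρ x * F0 x := by
    intro x
    rw [c.G_mul_left s hχ.sm hb]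
    simp only [hF0]
    ring
  rw [Q.integral_vμ] at hJ
  simp only [e3] at hgr
  rw [integral_add, hJ, add_zero] at hgr
  · exact hgr
  · have h1 : Continuous (fun x => (χ x * ρ x) * (b x * c.Lo s x + c.G b s x)) :=
      (hχ.sm.continuous.mul Q.sρ.continuous).mul
        ((hb.continuous.mul (c.smooth_Lo hs).continuous).add (c.smooth_G hb hs).continuous)
    exact h1.integrable_of_hasCompactSupport (hχ.cs.mul_right.mul_right)
  · exact (Q.sρ.continuous.mul cF0).integrable_of_hasCompactSupport F0cs.mul_left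

/-! ### existence of a partition function -/

theorem exists_part (Q : QData c ρ Γ) : ∃ χ : E → ℝ, IsPart Γ χ := by
  classical
  obtain ⟨K0, hK0, hcov⟩ := Q.cocompact
  obtain ⟨R, hR⟩ := hK0.isBounded.subset_closedBall (0 : E)
  have hRR : K0 ⊆ Metric.closedBall 0 (max R 1) :=
    hR.trans (Metric.closedBall_subset_closedBall (le_max_left _ _))
  have hpos : 0 < max R 1 := lt_of_lt_of_le one_pos (le_max_right _ _)
  let β : ContDiffBump (0 : E) := ⟨max R 1, max R 1 + 1, hpos, by linarith⟩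
  set η : E → ℝ := fun x => β x with hη
  have sη : ContDiff ℝ ∞ η := β.contDiff
  have η0 : ∀ x, 0 ≤ η x := fun x => β.nonneg
  have ηcs : HasCompactSupport η := β.hasCompactSupport
  have η1 : ∀ x ∈ K0, η x = 1 := fun x hx => β.one_of_mem_closedBall (hRR hx)
  have ηsub : tsupport η ⊆ Metric.closedBall 0 (max R 1 + 1) := by
    have : tsupport η = Metric.closedBall 0 (max R 1 + 1) := β.tsupport_eq
    rw [this]
  set N : E → ℝ := fun x => ∑ᶠ γ : Γ, η (γ • x) with hN
  -- local formula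
  have hloc : ∀ r : ℝ, max R 1 + 1 ≤ r → ∀ x ∈ Metric.closedBall (0 : E) r,
      N x = ∑ γ ∈ Q.fin (isCompact_closedBall (0 : E) r), η (γ • x) := by
    intro r hr x hx
    apply finsum_eq_sum_of_support_subset
    intro γ hγ
    have h1 : γ • x ∈ tsupport η := subset_tsupport _ hγ
    exact Q.mem_fin _ hx (Metric.closedBall_subset_closedBall hr (ηsub h1))
  have sN : ContDiff ℝ ∞ N := by
    rw [contDiff_iff_contDiffAt]
    intro x
    set r := max (max R 1 + 1) (‖x‖ + 1) with hr
    have h1 : ContDiffAt ℝ ∞ (fun y => ∑ γ ∈ Q.fin (isCompact_closedBall (0 : E) r), η (γ • y)) x :=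
      (ContDiff.sum fun γ _ => sη.comp (Q.sm γ)).contDiffAt
    refine h1.congr_of_eventuallyEq ?_
    have h2 : Metric.ball (0 : E) r ∈ 𝓝 x := by
      apply Metric.isOpen_ball.mem_nhds
      rw [mem_ball_zero_iff]
      exact lt_of_lt_of_le (lt_add_one _) (le_max_right _ _)
    filter_upwards [h2] with y hy
    exact hloc r (le_max_left _ _) y (Metric.ball_subset_closedBall hy)
  have Npos : ∀ x, 0 < N x := by
    intro x
    set r := max (max R 1 + 1) (‖x‖ + 1) with hr
    have hx : x ∈ Metric.closedBall (0 : E) r := by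
      rw [mem_closedBall_zero_iff]
      exact (lt_add_one _).le.trans (le_max_right _ _)
    rw [hloc r (le_max_left _ _) x hx]
    obtain ⟨γ, hγ⟩ := hcov x
    have hmem : γ ∈ Q.fin (isCompact_closedBall (0 : E) r) := by
      apply Q.mem_fin _ hx
      exact Metric.closedBall_subset_closedBall
        (((lt_add_one _).le).trans (le_max_left _ _)) (hRR hγ)
    refine Finset.sum_pos' (fun γ _ => η0 _) ⟨γ, hmem, ?_⟩
    rw [η1 _ hγ]; exact one_pos
  have Ninv : ∀ (γ : Γ) x, N (γ • x) = N x := by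
    intro γ x
    simp only [hN]
    have : ∀ γ' : Γ, η (γ' • γ • x) = (fun γ'' : Γ => η (γ'' • x)) (Equiv.mulRight γ γ') := by
      intro γ'
      simp only [Equiv.coe_mulRight, mul_smul]
    simp only [this]
    exact finsum_comp_equiv (Equiv.mulRight γ) (f := fun γ'' : Γ => η (γ'' • x))
  refine ⟨fun x => η x / N x, ⟨sη.div sN fun x => (Npos x).ne', ?_, fun x =>
    div_nonneg (η0 x) (Npos x).le, fun x => ?_⟩⟩
  · refine HasCompactSupport.intro ηcs fun x hx => ?_
    rw [image_eq_zero_of_notMem_tsupport hx, zero_div]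
  · simp only [Ninv]
    set r := max (max R 1 + 1) (‖x‖ + 1) with hr
    have hx : x ∈ Metric.closedBall (0 : E) r := by
      rw [mem_closedBall_zero_iff]
      exact (lt_add_one _).le.trans (le_max_right _ _)
    have h1 : ∑ᶠ γ : Γ, η (γ • x) / N x
        = ∑ γ ∈ Q.fin (isCompact_closedBall (0 : E) r), η (γ • x) / N x := by
      apply finsum_eq_sum_of_support_subset
      intro γ hγ
      have h2 : η (γ • x) ≠ 0 := by
        intro h
        apply hγ
        simp only [h, zero_div]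
      have h1 : γ • x ∈ tsupport η := subset_tsupport _ h2
      exact Q.mem_fin _ hx (Metric.closedBall_subset_closedBall (le_max_left _ _) (ηsub h1))
    rw [h1, ← Finset.sum_div, ← hloc r (le_max_left _ _) x hx, div_self (Npos x).ne']

/-- the group is countable -/
lemma countable (Q : QData c ρ Γ) : Countable Γ := by
  have h : ∀ γ : Γ, ∃ k : ℕ, γ ∈ Q.fin (isCompact_closedBall (0 : E) (k : ℝ)) := by
    intro γ
    obtain ⟨k, hk⟩ := exists_nat_ge (max 0 ‖γ • (0 : E)‖)
    refine ⟨k, Q.mem_fin _ (x := 0) ?_ ?_⟩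
    · rw [mem_closedBall_zero_iff, norm_zero]
      exact (le_max_left _ _).trans hk
    · rw [mem_closedBall_zero_iff]
      exact (le_max_right _ _).trans hk
  choose k hk using h
  have hinj : Function.Injective (fun γ : Γ =>
      (⟨k γ, ⟨γ, hk γ⟩⟩ : Σ m : ℕ, (Q.fin (isCompact_closedBall (0 : E) (m : ℝ)) : Set Γ))) := by
    intro γ γ' h
    simp only [Sigma.mk.injEq] at h
    obtain ⟨h1, h2⟩ := h
    have key : ∀ (m m' : ℕ) (a : (Q.fin (isCompact_closedBall (0 : E) (m : ℝ)) : Set Γ))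
        (a' : (Q.fin (isCompact_closedBall (0 : E) (m' : ℝ)) : Set Γ)), m = m' → HEq a a' →
        a.1 = a'.1 := by
      intro m m' a a' hm ha
      subst hm
      rw [eq_of_heq ha]
    exact key _ _ _ _ h1 h2
  exact hinj.countable

/-- **Unfolding.** -/
theorem integral_part (Q : QData c ρ Γ) {χ : E → ℝ} (hχ : IsPart Γ χ) {D0 : Set E}
    (hD : IsFundamentalDomain Γ D0 (volume : Measure E)) {f : E → ℝ} (hf : Continuous f)
    (f0 : ∀ x, 0 ≤ f x) (fi : ∀ (γ : Γ) x, f (γ • x) = f x) :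
    ∫ x, χ x * f x ∂(vμ ρ) = ∫ x in D0, f x ∂(vμ ρ) := by
  have := Q.countable
  have hac : (vμ ρ : Measure E) ≪ volume := withDensity_absolutelyContinuous _ _
  have hD' : IsFundamentalDomain Γ D0 (vμ ρ : Measure E) :=
    ⟨hD.nullMeasurableSet.mono_ac hac, hac.ae_le hD.ae_covers, fun a b hab => hac (hD.aedisjoint hab)⟩
  have i1 : MeasurableConstSMul Γ E := ⟨fun γ => (Q.cont γ).measurable⟩
  have i2 : SMulInvariantMeasure Γ E (vμ ρ) := ⟨fun γ s hs => (Q.mp γ).measure_preimage hs.nullMeasurableSet⟩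
  have cχ := hχ.sm.continuous
  have h1 : ∫⁻ x, ENNReal.ofReal (χ x * f x) ∂(vμ ρ) = ∫⁻ x in D0, ENNReal.ofReal (f x) ∂(vμ ρ) := by
    rw [hD'.lintegral_eq_tsum'', ← lintegral_tsum]
    · refine lintegral_congr fun x => ?_
      have e1 : ∀ γ : Γ, ENNReal.ofReal (χ (γ • x) * f (γ • x))
          = ENNReal.ofReal (χ (γ • x)) * ENNReal.ofReal (f x) := by
        intro γ
        rw [fi, ENNReal.ofReal_mul (hχ.nonneg _)]
      simp only [e1]
      rw [ENNReal.tsum_mul_right]
      have hfin : (Function.support fun γ : Γ => χ (γ • x)).Finite := by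
        by_contra hinf
        have := finsum_of_infinite_support (f := fun γ : Γ => χ (γ • x)) hinf
        rw [hχ.sum x] at this
        exact one_ne_zero this
      have e2 : ∑' γ : Γ, ENNReal.ofReal (χ (γ • x)) = 1 := by
        rw [tsum_eq_sum (s := hfin.toFinset), ← ENNReal.ofReal_sum_of_nonneg]
        · rw [← finsum_eq_sum _ hfin, hχ.sum x, ENNReal.ofReal_one]
        · intro γ _; exact hχ.nonneg _
        · intro γ hγ
          have : χ (γ • x) = 0 := by simpa using hγ
          rw [this, ENNReal.ofReal_zero]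
      rw [e2, one_mul]
    · intro γ
      exact (ENNReal.measurable_ofReal.comp
        ((cχ.mul hf).comp (Q.cont γ)).measurable).aemeasurable
  rw [integral_eq_lintegral_of_nonneg_ae, integral_eq_lintegral_of_nonneg_ae, h1]
  · exact Eventually.of_forall f0
  · exact hf.aestronglyMeasurable
  · exact Eventually.of_forall fun x => mul_nonneg (hχ.nonneg x) (f0 x)
  · exact (cχ.mul hf).aestronglyMeasurable

end QData

end Berry67
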