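import Pool.Agent.Lib_helper67.Berry.Cone
import Pool.Agent.Lib_helper67.Berry.Eig

/-!
Averaging over the angle, and the pointwise inequality for polynomials in the cone.
-/

namespace Berry67

set_option linter.unusedSectionVars false

open InnerProductSpace Filter Topology MeasureTheory
open scoped ContDiff

/-! ### averages over the angle -/

lemma cm2_integral (n : ℕ) : cm2 n = (∫ t in (0 : ℝ)..Real.pi, (Real.sin t ^ 2) ^ n) / Real.pi := by
  have h : ∫ t in (0 : ℝ)..Real.pi, (Real.sin t ^ 2) ^ n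
      = Real.pi * ∏ i ∈ Finset.range n, (2 * (i : ℝ) + 1) / (2 * i + 2) := by
    rw [← integral_sin_pow_even]
    congr 1
    funext t
    rw [pow_mul]
  rw [h, mul_div_cancel_left₀ _ Real.pi_pos.ne']
  induction n with
  | zero => simp [cm2]
  | succ n ih =>
    rw [cm2, Finset.prod_range_succ, ← ih]
    · ring
    · rw [← integral_sin_pow_even]
      congr 1
      funext t
      rw [pow_mul]

lemma avg_sum (a : ℕ → ℝ) (N : ℕ) (X : ℕ → ℝ) : ∑ n ∈ Finset.range N, (a n * cm2 n) * X n
    = (∫ t in (0 : ℝ)..Real.pi, ∑ n ∈ Finset.range N, (a n * (Real.sin t ^ 2) ^ n) * X n)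
      / Real.pi := by
  rw [intervalIntegral.integral_finsetSum]
  · rw [Finset.sum_div]
    refine Finset.sum_congr rfl fun n _ => ?_
    rw [cm2_integral]
    have e : ∀ t : ℝ, (a n * (Real.sin t ^ 2) ^ n) * X n = (a n * X n) * (Real.sin t ^ 2) ^ n := by
      intro t; ring
    simp only [e]
    rw [intervalIntegral.integral_const_mul]
    ring
  · intro n _
    apply Continuous.intervalIntegrable
    fun_prop

lemma avg_le (a : ℕ → ℝ) (N : ℕ) (X : ℕ → ℝ) (B : ℝ)
    (h : ∀ s, 0 ≤ s → s ≤ 1 → ∑ n ∈ Finset.range N, (a n * s ^ n) * X n ≤ B) :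
    ∑ n ∈ Finset.range N, (a n * cm2 n) * X n ≤ B := by
  rw [avg_sum, div_le_iff₀ Real.pi_pos]
  have h1 : ∫ t in (0 : ℝ)..Real.pi, ∑ n ∈ Finset.range N, (a n * (Real.sin t ^ 2) ^ n) * X n
      ≤ ∫ _t in (0 : ℝ)..Real.pi, B := by
    apply intervalIntegral.integral_mono_on Real.pi_pos.le
    · apply Continuous.intervalIntegrable
      fun_prop
    · exact intervalIntegrable_const
    · intro t _
      exact h _ (sq_nonneg _) (Real.sin_sq_le_one t)
  refine h1.trans (le_of_eq ?_)
  rw [intervalIntegral.integral_const, sub_zero, smul_eq_mul, mul_comm]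

variable {a : ℕ → ℝ} {N : ℕ} {L : ℝ}

lemma Cone.avg_nonpos (h : Cone a N L) {F S : ℝ} (hFS : F ^ 2 ≤ S) (hSL : S ≤ L) :
    ∑ n ∈ Finset.range N, (a n * cm2 n) * cP n F S ≤ 0 :=
  avg_le a N _ 0 fun _ hs hs1 => (h.scale hs hs1).nonpos hFS hSL

lemma Cone.avg_deriv (h : Cone a N L) {F S : ℝ} (hFS : F ^ 2 ≤ S) (hSL : S < L) :
    3 / 2 * ∑ n ∈ Finset.range N, (a n * cm2 n) * cP n F S
      + (S - F ^ 2) * ∑ n ∈ Finset.range N, (a n * cm2 n) * cS n F S ≤ 0 := by
  have h1 := avg_le a N (fun n => 3 / 2 * cP n F S + (S - F ^ 2) * cS n F S) 0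
    (fun s hs hs1 => by
      have := (h.scale hs hs1).deriv hFS hSL
      refine le_trans (le_of_eq ?_) this
      rw [Finset.mul_sum, Finset.mul_sum, ← Finset.sum_add_distrib]
      refine Finset.sum_congr rfl fun n _ => ?_
      ring)
  refine le_trans (le_of_eq ?_) h1
  rw [Finset.mul_sum, Finset.mul_sum, ← Finset.sum_add_distrib]
  refine Finset.sum_congr rfl fun n _ => ?_
  ring

lemma Cone.avg_bound (h : Cone a N L) {F S : ℝ} (hFS : F ^ 2 ≤ S) (hS : 0 < S) (hSL : S ≤ L) :
    -∑ n ∈ Finset.range N, (a n * cm2 n) * cP n F S ≤ P2 a N S := by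
  have h1 := avg_le a N (fun n => -cP n F S) (P2 a N S) (fun s hs hs1 => by
    have h2 := (h.scale hs hs1).bound hFS hS hSL
    have h3 : P2 (fun n => a n * s ^ n) N S ≤ P2 a N S := by
      rw [P2_scale]
      rcases hs.eq_or_lt with h0 | h0
      · rw [← h0]; simpa using h.nn S hS.le hSL
      · have hsS : s * S ≤ S := by nlinarith
        have h4 := h.mono (s * S) S (mul_pos h0 hS) hsS hSL
        rw [g32_mul hs] at h4
        have hgS := g32_pos hS
        have h5 : g32 s * P2 a N (s * S) ≤ P2 a N S := by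
          have h6 : g32 S * (g32 s * P2 a N (s * S)) ≤ g32 S * P2 a N S := by linarith
          exact le_of_mul_le_mul_left h6 hgS
        have h7 : s ^ 2 ≤ g32 s := by
          unfold g32
          rw [pow_two]
          exact mul_le_mul_of_nonneg_left (Real.le_sqrt_of_sq_le (by nlinarith)) hs
        have h8 := h.nn (s * S) (mul_pos h0 hS).le (hsS.trans hSL)
        exact (mul_le_mul_of_nonneg_right h7 h8).trans h5
    refine le_trans (le_of_eq ?_) (h2.trans h3)
    rw [← Finset.sum_neg_distrib]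
    refine Finset.sum_congr rfl fun n _ => ?_
    ring)
  refine le_trans (le_of_eq ?_) h1
  rw [← Finset.sum_neg_distrib]
  refine Finset.sum_congr rfl fun n _ => ?_
  ring

/-! ### the pointwise inequality -/

variable {E : Type*} [NormedAddCommGroup E] [InnerProductSpace ℝ E] [FiniteDimensional ℝ E]
variable {ι : Type*} [Fintype ι]

namespace Coef

variable (c : Coef E ι) {lam : ℝ} {f : E → ℝ}

/-- **Pointwise inequality for polynomials in the cone.** -/
theorem Zsum_le {x : E} {K : ℝ} (hpos : ∀ f : E → ℝ, 0 ≤ c.G f f x)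
    (hCD : ∀ f : E → ℝ, ContDiff ℝ ∞ f → 0 ≤ c.G2 f f x + K * c.G f f x)
    (hf : ContDiff ℝ ∞ f) (hlam : 0 < lam) (hL : c.Lo f = fun x => -lam * f x)
    (h : Cone a N L) (hK : 0 ≤ K) (hSL : c.En lam f x < L) :
    ∑ n ∈ Finset.range N, (a n * cm2 n) * c.Zf n lam f x
      ≤ lam * (∑ n ∈ Finset.range N, a n * (f x ^ 2) ^ n
          - ∑ n ∈ Finset.range N, (a n * cm2 n) * c.En lam f x ^ n)
        + 2 * K * (c.En lam f x ^ 2 * P2 a N (c.En lam f x)) := by
  set s := c.En lam f with hs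
  have ss : ContDiff ℝ ∞ s := c.smooth_En hf
  have sff := c.smooth_G hf hf
  -- values
  have hG : c.G f f x = lam * (s x - f x ^ 2) := by
    rw [hs]; unfold En
    field_simp
    ring
  have hY0 : 0 ≤ s x - f x ^ 2 := by
    have h1 := hpos f
    rw [hG] at h1
    exact nonneg_of_mul_nonneg_right h1 hlam
  have hLs : c.Lo s x = -2 * lam * f x ^ 2 + 2 / lam * c.G2 f f x := by
    have e1 : c.Lo s = fun x => (f x * c.Lo f x + f x * c.Lo f x + 2 * c.G f f x)
        + lam⁻¹ * c.Lo (c.G f f) x := by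
      rw [hs]; unfold En
      rw [c.Lo_add (hf.mul hf) (contDiff_const.mul sff), c.Lo_mul hf hf, c.Lo_const_mul sff]
    have e2 : c.Lo (c.G f f) x = 2 * c.G2 f f x - 2 * lam * c.G f f x := by
      unfold G2
      rw [hL, c.G_const_mul_right f hf]
      ring
    rw [e1]
    simp only [e2, hL]
    field_simp
    ring
  -- the gradient of `Γ(f, f)`
  have hgg : c.G (c.G f f) (c.G f f) x
      = lam ^ 2 * (c.G s s x - 4 * f x * c.G f s x + 4 * f x ^ 2 * c.G f f x) := by
    have e1 : c.G f f = fun x => lam * s x + (-lam) * (f x * f x) := by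
      funext y
      rw [hs]; unfold En
      field_simp
      ring
    have hD : ∀ v, D v (c.G f f) x = lam * D v s x + (-(2 * lam * f x)) * D v f x := by
      intro v
      rw [e1, D_add (contDiff_const.mul ss) (contDiff_const.mul (hf.mul hf)), D_const_mul ss,
        D_const_mul (hf.mul hf), D_mul hf hf]
      ring
    have e2 : ∀ u, c.G (c.G f f) u x = lam * c.G s u x + (-(2 * lam * f x)) * c.G f u x :=
      fun u => c.G_of_D hD
    have e3 : ∀ w, c.G w (c.G f f) x = lam * c.G w s x + (-(2 * lam * f x)) * c.G w f x := by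
      intro w
      rw [c.G_symm w, e2, c.G_symm w s, c.G_symm w f]
    rw [e2, e3, e3, c.G_symm s f]
    ring
  have hbak := c.bakry hpos hCD hf
  rw [hgg] at hbak
  have hGs := hpos s
  set F := f x with hF
  set S := s x with hS
  set Q2 := c.G2 f f x
  set g1 := c.G f s x
  set g2 := c.G s s x
  rw [hG] at hbak
  set Y := S - F ^ 2 with hY
  set M1 := Y * (-2 * lam * F ^ 2 + 2 / lam * Q2) + g2 + 2 * F * g1 with hM1
  -- each term
  have hZ : ∀ n, c.Zf n lam f x = lam * (F ^ (2 * n) / cm2 n - S ^ n) + cP n F S * M1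
      + cS n F S * (Y * g2) := by
    intro n
    have ha : c.G (fun x => aP n (f x) (s x)) f x
        = aF n F S * c.G f f x + aS n F S * c.G f s x := by
      rw [c.G_of_D (fun v => D_aP hf ss n v x), c.G_symm s f]
    have hc : ∀ u, c.G (fun x => cP n (f x) (s x)) u x
        = cF n F S * c.G f u x + cS n F S * c.G s u x := fun u =>
      c.G_of_D (fun v => D_cP hf ss n v x)
    have hb : c.G (bP n f s) s x = (S - F ^ 2) * (cF n F S * c.G f s x
        + cS n F S * c.G s s x)
        + cP n F S * (c.G s s x - 2 * F * c.G f s x) := by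
      unfold bP
      have scp := (contDiff_poly hf ss n).2.2.2
      rw [c.G_mul_left s scp (ss.sub (hf.mul hf))]
      have e1 : c.G (fun x => s x - f x * f x) s x = c.G s s x - 2 * f x * c.G f s x := by
        have hD : ∀ v, D v (fun x => s x - f x * f x) x
            = 1 * D v s x + (-(2 * f x)) * D v f x := by
          intro v
          rw [D_sub ss (hf.mul hf), D_mul hf hf]
          ring
        rw [c.G_of_D hD]
        ring
      simp only [e1, hc]
      ring
    have i1 := a_ident n F S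
    have i2 := c_ident n F S
    have hZ0 : c.Zf n lam f x = aP n F S * (-lam * F) + (aF n F S * c.G f f x + aS n F S * g1)
        + (cP n F S * (S - F * F) * (-2 * lam * F ^ 2 + 2 / lam * Q2)
          + ((S - F ^ 2) * (cF n F S * g1 + cS n F S * g2) + cP n F S * (g2 - 2 * F * g1))) := by
      unfold Zf
      rw [← hs, ha, hb, hLs, hL]
      rfl
    rw [hZ0, hG, ← i1, ← i2, hM1, hY]
    ring
  -- sum
  set C := ∑ n ∈ Finset.range N, (a n * cm2 n) * cP n F S with hC
  set CS := ∑ n ∈ Finset.range N, (a n * cm2 n) * cS n F S with hCS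
  have hsum : ∑ n ∈ Finset.range N, (a n * cm2 n) * c.Zf n lam f x
      = lam * (∑ n ∈ Finset.range N, a n * (F ^ 2) ^ n
          - ∑ n ∈ Finset.range N, (a n * cm2 n) * S ^ n) + C * M1 + CS * (Y * g2) := by
    rw [hC, hCS, Finset.sum_mul, Finset.sum_mul, ← Finset.sum_sub_distrib, Finset.mul_sum,
      ← Finset.sum_add_distrib, ← Finset.sum_add_distrib]
    refine Finset.sum_congr rfl fun n _ => ?_
    rw [hZ]
    have hcm := cm2_pos n
    rw [← pow_mul]
    field_simp
  rw [hsum]
  have hFS : F ^ 2 ≤ S := by linarith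
  have c1 : C ≤ 0 := h.avg_nonpos hFS hSL.le
  have c2 : 3 / 2 * C + Y * CS ≤ 0 := h.avg_deriv hFS hSL
  have c3 : (-C) * Y ^ 2 ≤ S ^ 2 * P2 a N S := by
    have hS0 : 0 ≤ S := (sq_nonneg F).trans hFS
    rcases hS0.eq_or_lt with h0 | h0
    · have hF0 : F ^ 2 = 0 := le_antisymm (h0 ▸ hFS) (sq_nonneg F)
      rw [hY, hF0, ← h0]; simp
    · have h1 := h.avg_bound hFS h0 hSL.le
      have h2 : Y ^ 2 ≤ S ^ 2 := pow_le_pow_left₀ hY0 (by linarith [sq_nonneg F]) 2
      have h3 : 0 ≤ P2 a N S := h.nn S hS0 hSL.le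
      calc (-C) * Y ^ 2 ≤ P2 a N S * Y ^ 2 := mul_le_mul_of_nonneg_right h1 (sq_nonneg _)
        _ ≤ P2 a N S * S ^ 2 := mul_le_mul_of_nonneg_left h2 h3
        _ = _ := by ring
  -- Bakry
  have h1 : (-C) * (3 / 2 * g2 - 2 * K * Y ^ 2) ≤ (-C) * M1 := by
    apply mul_le_mul_of_nonneg_left _ (by linarith)
    have hl2 : 0 < 2 * lam ^ 2 := by positivity
    have h3 : 2 * lam ^ 2 * ((g2 - 4 * F * g1 + 4 * F ^ 2 * (lam * Y)) / 2)
        ≤ 2 * lam ^ 2 * (2 / lam * (Y * Q2) + 2 * K * Y ^ 2) := by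
      have e1 : 2 * lam ^ 2 * (2 / lam * (Y * Q2) + 2 * K * Y ^ 2)
          = 4 * (lam * Y) * (Q2 + K * (lam * Y)) := by
        field_simp
        ring
      rw [e1]
      linarith
    have h4 := le_of_mul_le_mul_left h3 hl2
    have e2 : Y * (-2 * lam * F ^ 2 + 2 / lam * Q2)
        = -2 * lam * F ^ 2 * Y + 2 / lam * (Y * Q2) := by ring
    rw [hM1, e2]
    linarith
  have h2 : (3 / 2 * C + Y * CS) * g2 ≤ 0 := mul_nonpos_of_nonpos_of_nonneg c2 hGs
  have h4 : 2 * K * ((-C) * Y ^ 2) ≤ 2 * K * (S ^ 2 * P2 a N S) :=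
    mul_le_mul_of_nonneg_left c3 (by positivity)
  nlinarith [h1, h2, h4]

end Coef

end Berry67
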