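import Pool.Agent.Lib_helper67.Berry.PolyApprox
import Pool.Agent.Lib_helper67.Berry.Zsum
import Pool.Agent.Lib_helper67.Berry.QMom

/-!
Moments of real order of eigenfunctions on compact quotients.
-/

namespace Berry67

set_option linter.unusedSectionVars false

open InnerProductSpace Filter Topology MeasureTheory
open scoped ContDiff

/-! ### the constants -/

/-- the mean of `(sin² t) ^ q` -/
noncomputable def msin (q : ℝ) : ℝ := (∫ t in (0 : ℝ)..Real.pi, (Real.sin t ^ 2) ^ q) / Real.pi

lemma intervalIntegrable_msin {q : ℝ} (hq : 0 < q) (y : ℝ) :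
    IntervalIntegrable (fun t => (y * Real.sin t ^ 2) ^ q) volume 0 Real.pi := by
  apply Continuous.intervalIntegrable
  exact (Real.continuous_rpow_const hq.le).comp (by fun_prop)

lemma msin_pos {q : ℝ} (hq : 0 < q) : 0 < msin q := by
  unfold msin
  apply div_pos _ Real.pi_pos
  apply intervalIntegral.intervalIntegral_pos_of_pos_on
  · have := intervalIntegrable_msin hq 1
    simpa using this
  · intro t ht
    exact Real.rpow_pos_of_pos (pow_pos (Real.sin_pos_of_pos_of_lt_pi ht.1 ht.2) 2) _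
  · exact Real.pi_pos

lemma msin_scale {q y : ℝ} (hy : 0 ≤ y) :
    (∫ t in (0 : ℝ)..Real.pi, (y * Real.sin t ^ 2) ^ q) / Real.pi = msin q * y ^ q := by
  unfold msin
  have e : ∀ t : ℝ, (y * Real.sin t ^ 2) ^ q = y ^ q * (Real.sin t ^ 2) ^ q := fun t =>
    Real.mul_rpow hy (sq_nonneg _)
  simp only [e]
  rw [intervalIntegral.integral_const_mul]
  ring

/-- comparison of the averaged polynomial -/
lemma avg_poly_ge {a : ℕ → ℝ} {N : ℕ} {q σ L δ y : ℝ} (hq : 0 < q)
    (h : ∀ y, 0 ≤ y → y ≤ L → |∑ n ∈ Finset.range N, a n * y ^ n - σ * y ^ q| ≤ δ)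
    (hy : 0 ≤ y) (hyL : y ≤ L) :
    σ * (msin q * y ^ q) - δ ≤ ∑ n ∈ Finset.range N, (a n * cm2 n) * y ^ n := by
  rw [avg_sum, ← msin_scale hy, ← mul_div_assoc, sub_le_iff_le_add, div_add' _ _ _ Real.pi_pos.ne',
    div_le_div_iff_of_pos_right Real.pi_pos]
  have e : ∀ t : ℝ, ∑ n ∈ Finset.range N, (a n * (Real.sin t ^ 2) ^ n) * y ^ n
      = ∑ n ∈ Finset.range N, a n * (y * Real.sin t ^ 2) ^ n := by
    intro t
    refine Finset.sum_congr rfl fun n _ => ?_
    rw [mul_pow]; ring
  simp only [e]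
  rw [← intervalIntegral.integral_const_mul]
  have h1 : ∫ t in (0 : ℝ)..Real.pi, (σ * (y * Real.sin t ^ 2) ^ q - δ)
      ≤ ∫ t in (0 : ℝ)..Real.pi, ∑ n ∈ Finset.range N, a n * (y * Real.sin t ^ 2) ^ n := by
    apply intervalIntegral.integral_mono_on Real.pi_pos.le
    · exact ((intervalIntegrable_msin hq y).const_mul σ).sub intervalIntegrable_const
    · apply Continuous.intervalIntegrable
      fun_prop
    · intro t _
      have h0 : 0 ≤ y * Real.sin t ^ 2 := mul_nonneg hy (sq_nonneg _)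
      have hL : y * Real.sin t ^ 2 ≤ L := by
        have := Real.sin_sq_le_one t
        nlinarith
      have := (abs_le.1 (h _ h0 hL)).1
      linarith
  rw [intervalIntegral.integral_sub ((intervalIntegrable_msin hq y).const_mul σ)
    intervalIntegrable_const, intervalIntegral.integral_const, sub_zero, smul_eq_mul] at h1
  linarith

/-! ### Jensen -/

lemma tangent_rpow {q σ : ℝ} (hq : 0 < q) (hσ : σ = 1 ∧ 1 ≤ q ∨ σ = -1 ∧ q ≤ 1) {t y : ℝ}
    (ht : 0 < t) (hy : 0 ≤ y) : σ * (t ^ q + q * t ^ (q - 1) * (y - t)) ≤ σ * y ^ q := by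
  have hs : -1 ≤ y / t - 1 := by
    have : 0 ≤ y / t := div_nonneg hy ht.le
    linarith
  have e1 : t ^ q * (y / t) ^ q = y ^ q := by
    rw [← Real.mul_rpow ht.le (div_nonneg hy ht.le), mul_div_cancel₀ _ ht.ne']
  have e2 : t ^ q * (1 + q * (y / t - 1)) = t ^ q + q * t ^ (q - 1) * (y - t) := by
    have : t ^ q = t ^ (q - 1) * t := by
      rw [Real.rpow_sub_one ht.ne']
      field_simp
    rw [this]
    field_simp
  have ht0 : 0 ≤ t ^ q := Real.rpow_nonneg ht.le q
  rcases hσ with ⟨h1, h2⟩ | ⟨h1, h2⟩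
  · have h3 := one_add_mul_self_le_rpow_one_add hs h2
    rw [add_sub_cancel] at h3
    have h4 := mul_le_mul_of_nonneg_left h3 ht0
    rw [e1, e2] at h4
    rw [h1]
    linarith
  · have h3 := rpow_one_add_le_one_add_mul_self hs hq.le h2
    rw [add_sub_cancel] at h3
    have h4 := mul_le_mul_of_nonneg_left h3 ht0
    rw [e1, e2] at h4
    rw [h1]
    linarith

/-- Jensen for real powers with respect to a weight of positive mass -/
lemma jensen_rpow {α : Type*} [MeasurableSpace α] {μ : Measure α} {w S : α → ℝ} {q σ : ℝ}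
    (hq : 0 < q) (hσ : σ = 1 ∧ 1 ≤ q ∨ σ = -1 ∧ q ≤ 1)
    (hw : ∀ x, 0 ≤ w x) (hS : ∀ x, 0 ≤ S x) (i0 : Integrable w μ)
    (i1 : Integrable (fun x => w x * S x) μ)
    (i2 : Integrable (fun x => w x * S x ^ q) μ) (hV : 0 < ∫ x, w x ∂μ) :
    σ * ((∫ x, w x * S x ∂μ) / (∫ x, w x ∂μ)) ^ q
      ≤ σ * ((∫ x, w x * S x ^ q ∂μ) / ∫ x, w x ∂μ) := by
  set V := ∫ x, w x ∂μ with hVd
  set I := ∫ x, w x * S x ∂μ with hI
  have hwS : ∀ x, 0 ≤ w x * S x := fun x => mul_nonneg (hw x) (hS x)
  have hI0 : 0 ≤ I := integral_nonneg hwS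
  rcases hI0.eq_or_lt with h0 | hIpos
  · -- zero energy
    have h1 : (fun x => w x * S x) =ᵐ[μ] 0 := (integral_eq_zero_iff_of_nonneg hwS i1).1 h0.symm
    have h2 : ∫ x, w x * S x ^ q ∂μ = 0 := by
      have : (fun x => w x * S x ^ q) =ᵐ[μ] fun _ => 0 := by
        filter_upwards [h1] with x hx
        rcases mul_eq_zero.1 hx with h | h
        · rw [h, zero_mul]
        · rw [h, Real.zero_rpow hq.ne', mul_zero]
      rw [integral_congr_ae this, integral_zero]
    rw [h2, ← h0, zero_div, Real.zero_rpow hq.ne']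
  · set t := I / V with ht
    have ht0 : 0 < t := div_pos hIpos hV
    have hpt : ∀ x, σ * (t ^ q * w x + q * t ^ (q - 1) * (w x * S x - t * w x))
        ≤ σ * (w x * S x ^ q) := by
      intro x
      have h1 := mul_le_mul_of_nonneg_left (tangent_rpow hq hσ ht0 (hS x)) (hw x)
      calc σ * (t ^ q * w x + q * t ^ (q - 1) * (w x * S x - t * w x))
          = w x * (σ * (t ^ q + q * t ^ (q - 1) * (S x - t))) := by ring
        _ ≤ w x * (σ * S x ^ q) := h1
        _ = _ := by ring
    have i4 : Integrable (fun x => w x * S x - t * w x) μ := i1.sub (i0.const_mul _)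
    have i5 : Integrable (fun x => q * t ^ (q - 1) * (w x * S x - t * w x)) μ := i4.const_mul _
    have i3 : Integrable (fun x => t ^ q * w x + q * t ^ (q - 1) * (w x * S x - t * w x)) μ :=
      (i0.const_mul _).add i5
    have h4 := integral_mono (i3.const_mul σ) (i2.const_mul σ) hpt
    rw [integral_const_mul, integral_const_mul, integral_add (i0.const_mul _) i5,
      integral_const_mul, integral_const_mul,
      integral_sub i1 (i0.const_mul _), integral_const_mul, ← hVd, ← hI] at h4
    have hIt : I - t * V = 0 := by rw [ht]; field_simp; ring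
    rw [hIt, mul_zero, add_zero] at h4
    have h5 : σ * t ^ q = (σ * (t ^ q * V)) / V := by field_simp
    have h6 : σ * ((∫ x, w x * S x ^ q ∂μ) / V) = (σ * ∫ x, w x * S x ^ q ∂μ) / V := by ring
    rw [h5, h6]
    exact div_le_div_of_nonneg_right h4 hV.le

/-! ### the integral inequality -/

variable {E : Type*} [NormedAddCommGroup E] [InnerProductSpace ℝ E] [FiniteDimensional ℝ E]
  [MeasurableSpace E] [BorelSpace E]
variable {ι : Type*} [Fintype ι]

namespace Coef

variable (c : Coef E ι) {lam : ℝ} {f : E → ℝ}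

lemma continuous_Zf (hf : ContDiff ℝ ∞ f) (n : ℕ) : Continuous (c.Zf n lam f) := by
  have ss : ContDiff ℝ ∞ (c.En lam f) := c.smooth_En hf
  have scp := contDiff_poly hf ss n
  have sb : ContDiff ℝ ∞ (bP n f (c.En lam f)) := by
    unfold bP
    exact scp.2.2.2.mul (ss.sub (hf.mul hf))
  unfold Zf
  have h1 := (c.smooth_Lo hf).continuous
  have h2 := (c.smooth_G scp.2.2.1 hf).continuous
  have h3 := (c.smooth_Lo ss).continuous
  have h4 := (c.smooth_G sb ss).continuous
  exact ((scp.2.2.1.continuous.mul h1).add h2).add ((sb.continuous.mul h3).add h4)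

/-- **The inequality between the power of the energy and the power of the function.** -/
theorem energy_rpow {q σ K : ℝ} (hq : 1 / 2 ≤ q) (hσ : σ = 1 ∧ 1 ≤ q ∨ σ = -1 ∧ q ≤ 1)
    (hK : 0 ≤ K) {w : E → ℝ} (hwc : Continuous w) (hws : HasCompactSupport w)
    (hw : ∀ x, 0 ≤ w x) (hpos : ∀ x, ∀ f : E → ℝ, 0 ≤ c.G f f x)
    (hCD : ∀ x, 0 < w x → ∀ f : E → ℝ, ContDiff ℝ ∞ f → 0 ≤ c.G2 f f x + K * c.G f f x)
    (hf : ContDiff ℝ ∞ f) (hlam : 0 < lam) (hL : c.Lo f = fun x => -lam * f x)
    (hG2 : ∀ n, ∫ x, w x * c.Zf n lam f x = 0) :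
    σ * (msin q * ∫ x, w x * c.En lam f x ^ q)
      ≤ σ * (∫ x, w x * (f x ^ 2) ^ q)
        + 2 * K * (σ * (q * (q - 1))) / lam * ∫ x, w x * c.En lam f x ^ q := by
  set s := c.En lam f with hs
  have ss : ContDiff ℝ ∞ s := c.smooth_En hf
  have hq0 : 0 < q := by linarith
  have hσ' : σ = 1 ∨ σ = -1 := by rcases hσ with h | h <;> simp [h.1]
  have hsg : 0 ≤ σ * (q * (q - 1)) := by
    rcases hσ with ⟨h1, h2⟩ | ⟨h1, h2⟩
    · rw [h1, one_mul]; exact mul_nonneg hq0.le (by linarith)
    · rw [h1]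
      have := mul_nonneg hq0.le (sub_nonneg.2 h2)
      linarith
  have hFS : ∀ x, f x ^ 2 ≤ s x := by
    intro x
    rw [hs]; unfold En
    have := mul_nonneg (inv_nonneg.2 hlam.le) (hpos x f)
    nlinarith
  have hs0 : ∀ x, 0 ≤ s x := fun x => (sq_nonneg _).trans (hFS x)
  have integ : ∀ {g : E → ℝ}, Continuous g → Integrable (fun x => w x * g x) := fun {g} hg =>
    (hwc.mul hg).integrable_of_hasCompactSupport hws.mul_right
  have cf := hf.continuous
  have cs := ss.continuous
  have crp := Real.continuous_rpow_const hq0.le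
  have i0 : Integrable w := hwc.integrable_of_hasCompactSupport hws
  have iSq : Integrable (fun x => w x * s x ^ q) := integ (crp.comp cs)
  have iFq : Integrable (fun x => w x * (f x ^ 2) ^ q) := integ (crp.comp (cf.pow 2))
  -- a bound for the energy on the support
  obtain ⟨L0, hL0⟩ := (hws.isCompact.image cs).isBounded.bddAbove
  set L := max L0 0 + 1 with hLd
  have hLpos : 0 < L := by
    have := le_max_right L0 0
    linarith
  have hsL : ∀ x, 0 < w x → s x < L := by
    intro x hx
    have h1 : x ∈ tsupport w := subset_tsupport _ hx.ne'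
    have h2 := hL0 ⟨x, h1, rfl⟩
    have := le_max_left L0 0
    linarith
  set V := ∫ x, w x with hV
  have hV0 : 0 ≤ V := integral_nonneg hw
  -- the inequality up to `δ`
  have key : ∀ δ : ℝ, 0 < δ → σ * (msin q * ∫ x, w x * s x ^ q)
      ≤ σ * (∫ x, w x * (f x ^ 2) ^ q)
        + 2 * K * (σ * (q * (q - 1))) / lam * (∫ x, w x * s x ^ q)
        + (2 + 2 * K / lam) * V * δ := by
    intro δ hδ
    obtain ⟨a, N, hcone, ha, ha2⟩ := approx (L := L) (δ := δ) hq hσ' hsg hLpos hδ
    have hZ : ∫ x, ∑ n ∈ Finset.range N, (a n * cm2 n) * (w x * c.Zf n lam f x) = 0 := by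
      rw [integral_finsetSum]
      · apply Finset.sum_eq_zero
        intro n _
        rw [integral_const_mul, hG2, mul_zero]
      · intro n _
        exact (integ (c.continuous_Zf hf n)).const_mul _
    have hpt : ∀ x, ∑ n ∈ Finset.range N, (a n * cm2 n) * (w x * c.Zf n lam f x)
        ≤ lam * (σ * (w x * (f x ^ 2) ^ q)) - lam * (σ * (msin q * (w x * s x ^ q)))
          + 2 * K * (σ * (q * (q - 1))) * (w x * s x ^ q) + (2 * lam + 2 * K) * δ * w x := by
      intro x
      rcases (hw x).eq_or_lt with h | h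
      · rw [← h]; simp
      · have e : ∑ n ∈ Finset.range N, (a n * cm2 n) * (w x * c.Zf n lam f x)
            = w x * ∑ n ∈ Finset.range N, (a n * cm2 n) * c.Zf n lam f x := by
          rw [Finset.mul_sum]
          refine Finset.sum_congr rfl fun n _ => ?_
          ring
        rw [e]
        have h1 := c.Zsum_le (hpos x) (hCD x h) hf hlam hL hcone hK (hsL x h)
        rw [← hs] at h1
        have h2 := (abs_le.1 (ha (f x ^ 2) (sq_nonneg _) ((hFS x).trans (hsL x h).le))).2
        have h3 := avg_poly_ge hq0 ha (hs0 x) (hsL x h).le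
        have h4 := ha2 (s x) (hs0 x) (hsL x h).le
        have h5 := mul_le_mul_of_nonneg_left (a := lam) (show
          ∑ n ∈ Finset.range N, a n * (f x ^ 2) ^ n
            - ∑ n ∈ Finset.range N, (a n * cm2 n) * s x ^ n
          ≤ σ * (f x ^ 2) ^ q - σ * (msin q * s x ^ q) + 2 * δ by linarith) hlam.le
        have h6 := mul_le_mul_of_nonneg_left h4 (show 0 ≤ 2 * K by positivity)
        have h7 := mul_le_mul_of_nonneg_left (h1.trans (add_le_add h5 h6)) h.le
        refine h7.trans (le_of_eq ?_)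
        ring
    have iZ : Integrable (fun x => ∑ n ∈ Finset.range N, (a n * cm2 n) * (w x * c.Zf n lam f x)) :=
      integrable_finsetSum _ fun n _ => (integ (c.continuous_Zf hf n)).const_mul _
    have j1 : Integrable (fun x => lam * (σ * (w x * (f x ^ 2) ^ q))) :=
      (iFq.const_mul _).const_mul _
    have j2 : Integrable (fun x => lam * (σ * (msin q * (w x * s x ^ q)))) :=
      ((iSq.const_mul _).const_mul _).const_mul _
    have j3 : Integrable (fun x => 2 * K * (σ * (q * (q - 1))) * (w x * s x ^ q)) :=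
      iSq.const_mul _
    have j4 : Integrable (fun x => (2 * lam + 2 * K) * δ * w x) := i0.const_mul _
    have j5 : Integrable (fun x => lam * (σ * (w x * (f x ^ 2) ^ q))
        - lam * (σ * (msin q * (w x * s x ^ q)))) := j1.sub j2
    have j6 : Integrable (fun x => lam * (σ * (w x * (f x ^ 2) ^ q))
        - lam * (σ * (msin q * (w x * s x ^ q)))
        + 2 * K * (σ * (q * (q - 1))) * (w x * s x ^ q)) := j5.add j3
    have h8 := integral_mono iZ (j6.add j4) hpt
    have h9 : ∫ x, (lam * (σ * (w x * (f x ^ 2) ^ q)) - lam * (σ * (msin q * (w x * s x ^ q)))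
          + 2 * K * (σ * (q * (q - 1))) * (w x * s x ^ q) + (2 * lam + 2 * K) * δ * w x)
        = lam * (σ * ∫ x, w x * (f x ^ 2) ^ q) - lam * (σ * (msin q * ∫ x, w x * s x ^ q))
          + 2 * K * (σ * (q * (q - 1))) * (∫ x, w x * s x ^ q) + (2 * lam + 2 * K) * δ * V := by
      rw [integral_add j6 j4, integral_add j5 j3, integral_sub j1 j2]
      simp only [integral_const_mul]
      rw [← hV]
    have h10 : (0 : ℝ) ≤ lam * (σ * ∫ x, w x * (f x ^ 2) ^ q)
        - lam * (σ * (msin q * ∫ x, w x * s x ^ q))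
          + 2 * K * (σ * (q * (q - 1))) * (∫ x, w x * s x ^ q) + (2 * lam + 2 * K) * δ * V := by
      rw [← h9, ← hZ]
      exact h8
    have h11 := mul_nonneg (inv_nonneg.2 hlam.le) h10
    have e : lam⁻¹ * (lam * (σ * ∫ x, w x * (f x ^ 2) ^ q)
        - lam * (σ * (msin q * ∫ x, w x * s x ^ q))
          + 2 * K * (σ * (q * (q - 1))) * (∫ x, w x * s x ^ q) + (2 * lam + 2 * K) * δ * V)
        = (σ * (∫ x, w x * (f x ^ 2) ^ q)
        + 2 * K * (σ * (q * (q - 1))) / lam * (∫ x, w x * s x ^ q)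
        + (2 + 2 * K / lam) * V * δ) - σ * (msin q * ∫ x, w x * s x ^ q) := by
      field_simp
      ring
    rw [e] at h11
    linarith
  -- the limit
  refine le_of_forall_pos_le_add fun ε hε => ?_
  set W := (2 + 2 * K / lam) * V + 1 with hW
  have hWpos : 0 < W := by positivity
  have h1 := key (ε / W) (div_pos hε hWpos)
  have h2 : (2 + 2 * K / lam) * V * (ε / W) ≤ ε := by
    rw [← mul_div_assoc, div_le_iff₀ hWpos]
    nlinarith
  linarith

end Coef

end Berry67
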