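import Pool.Agent.Lib_helper67.Berry.Path
import Pool.Agent.Lib_helper67.Berry.Moments
import Pool.Agent.Lib_helper67.Berry.Calc

/-!
The space of smooth solutions of the Helmholtz equation, with its derivations.
-/

namespace Berry67

set_option linter.unusedSectionVars false

open MeasureTheory ProbabilityTheory Filter Topology InnerProductSpace Laplacian
open scoped ContDiff

variable {E : Type*} [NormedAddCommGroup E] [InnerProductSpace ℝ E] [FiniteDimensional ℝ E]
  [MeasurableSpace E] [BorelSpace E]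
variable {Ω : Type*} [MeasurableSpace Ω] {P : Measure Ω}

/-- smooth solutions of the Helmholtz equation, with the sigma-algebra induced by the product
sigma-algebra. -/
def SPath (E : Type*) [NormedAddCommGroup E] [InnerProductSpace ℝ E] [FiniteDimensional ℝ E] :
    Type _ :=
  {f : E → ℝ // Helm f}

instance : MeasurableSpace (SPath E) :=
  inferInstanceAs (MeasurableSpace {f : E → ℝ // Helm f})

lemma Helm.contDiff_two {f : E → ℝ} (hf : Helm f) : ContDiff ℝ 2 f := by
  exact_mod_cast contDiff_infty.1 hf.1 2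

lemma s_measurable_eval (x : E) : Measurable (fun f : SPath E => f.1 x) :=
  (measurable_pi_apply x).comp measurable_subtype_coe

lemma s_measurable_eval_joint : Measurable (fun p : SPath E × E => p.1.1 p.2) := by
  have h : Measurable (Function.uncurry fun (x : E) (f : SPath E) => f.1 x) := by
    refine measurable_uncurry_of_continuous_of_measurable ?_ ?_
    · intro f; exact f.2.1.continuous
    · intro x; exact s_measurable_eval x
  exact h.comp measurable_swap

lemma Helm.shift {f : E → ℝ} (hf : Helm f) (v : E) : Helm (fun x => f (x + v)) := by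
  refine ⟨hf.1.comp (contDiff_id.add contDiff_const), ?_⟩
  exact (helm_shift ⟨hf.contDiff_two, hf.2⟩ v).2

lemma D_shift (f : E → ℝ) (v w x : E) : D v (fun y => f (y + w)) x = D v f (x + w) := by
  simp only [D]
  rw [fderiv_comp_add_right]

/-- shift of a path -/
def sshift (v : E) (f : SPath E) : SPath E := ⟨fun x => f.1 (x + v), f.2.shift v⟩

/-- derivative of a path -/
noncomputable def dmap (v : E) (f : SPath E) : SPath E := ⟨D v f.1, f.2.D v⟩

lemma measurable_sshift : Measurable (Function.uncurry (sshift : E → SPath E → SPath E)) := by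
  refine Measurable.subtype_mk ?_
  refine measurable_pi_iff.2 fun x => ?_
  exact s_measurable_eval_joint.comp
    (measurable_snd.prodMk (measurable_const.add measurable_fst))

lemma measurable_dmap (v : E) : Measurable (dmap v : SPath E → SPath E) := by
  refine Measurable.subtype_mk ?_
  refine measurable_pi_iff.2 fun x => ?_
  refine measurable_of_tendsto_metrizable (f := fun (k : ℕ) (f : SPath E) =>
    ((k : ℝ) + 1) * (f.1 (x + (1 / ((k : ℝ) + 1)) • v) - f.1 x)) (fun k => ?_) ?_
  · exact ((s_measurable_eval _).sub (s_measurable_eval _)).const_mul _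
  · rw [tendsto_pi_nhds]
    intro f
    have h1 : HasFDerivAt f.1 (fderiv ℝ f.1 x) x :=
      ((f.2.1.differentiable (by simp)) x).hasFDerivAt
    have h2 : HasDerivAt (fun t : ℝ => f.1 (x + t • v)) (fderiv ℝ f.1 x v) 0 := by
      have h3 : HasDerivAt (fun t : ℝ => x + t • v) v 0 := by
        simpa using ((hasDerivAt_id (0 : ℝ)).smul_const v).const_add x
      have h4 : HasFDerivAt f.1 (fderiv ℝ f.1 x) (x + (0 : ℝ) • v) := by simpa using h1
      exact h4.comp_hasDerivAt (0 : ℝ) h3
    have h5 := h2.tendsto_slope_zero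
    have h6 : Tendsto (fun k : ℕ => 1 / ((k : ℝ) + 1)) atTop (𝓝[≠] 0) := by
      rw [tendsto_nhdsWithin_iff]
      refine ⟨tendsto_one_div_add_atTop_nhds_zero_nat, Eventually.of_forall fun k => ?_⟩
      have : (0 : ℝ) < 1 / ((k : ℝ) + 1) := by positivity
      exact this.ne'
    refine (h5.comp h6).congr fun k => ?_
    simp only [Function.comp_apply, zero_add, zero_smul, add_zero, smul_eq_mul, one_div, inv_inv]

lemma dmap_sshift (v w : E) (f : SPath E) : dmap v (sshift w f) = sshift w (dmap v f) := by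
  apply Subtype.ext
  funext x
  exact D_shift f.1 v w x

/-- evaluation at the origin -/
def ev0 (f : SPath E) : ℝ := f.1 0

lemma measurable_ev0 : Measurable (ev0 : SPath E → ℝ) := s_measurable_eval 0

lemma ev0_sshift (x : E) (f : SPath E) : ev0 (sshift x f) = f.1 x := by
  simp only [ev0, sshift, zero_add]

/-- derivative of a field obtained from an equivariant map -/
lemma isD_ev0 {L : SPath E → SPath E} (hL : ∀ w f, L (sshift w f) = sshift w (L f)) (e : E) :
    IsD (sshift : E → SPath E → SPath E) e (fun f => ev0 (L f)) (fun f => ev0 (dmap e (L f))) := by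
  intro f
  have h1 : HasFDerivAt (L f).1 (fderiv ℝ (L f).1 0) 0 :=
    (((L f).2.1.differentiable (by simp)) 0).hasFDerivAt
  have h3 : HasDerivAt (fun t : ℝ => t • e) e 0 := by
    simpa using (hasDerivAt_id (0 : ℝ)).smul_const e
  have h4 : HasFDerivAt (L f).1 (fderiv ℝ (L f).1 0) ((0 : ℝ) • e) := by simpa using h1
  have h5 := h4.comp_hasDerivAt (0 : ℝ) h3
  refine HasDerivAt.congr_of_eventuallyEq h5 (Eventually.of_forall fun t => ?_)
  simp only [Function.comp_apply]
  rw [hL, ev0_sshift]

lemma eigen_ev0 {Q : Measure (SPath E)} [IsProbabilityMeasure Q]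
    (H : IsFlow Q (sshift : E → SPath E → SPath E))
    {L : SPath E → SPath E} (hLm : Measurable L) (hL : ∀ w f, L (sshift w f) = sshift w (L f))
    (h4 : Integrable (fun f => ev0 (L f) ^ 4) Q) :
    IsEigen Q (sshift : E → SPath E → SPath E) (fun f => ev0 (L f)) := by
  refine H.isEigen (measurable_ev0.comp hLm) h4 (Eventually.of_forall fun f => ?_)
  have e : (fun x => ev0 (L (sshift x f))) = (L f).1 := by
    funext x
    rw [hL, ev0_sshift]
  rw [e]
  refine ⟨(L f).2.contDiff_two, fun x => ?_⟩
  rw [(L f).2.2 x, hL, ev0_sshift]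

lemma moment_step {Q : Measure (SPath E)} [IsProbabilityMeasure Q]
    (H : IsFlow Q (sshift : E → SPath E → SPath E))
    {L : SPath E → SPath E} (hLm : Measurable L) (hL : ∀ w f, L (sshift w f) = sshift w (L f))
    {n : ℕ} (hn : 2 ≤ n) (hi : Integrable (fun f => ev0 (L f) ^ (2 * n)) Q) {e : E} (he : ‖e‖ ≤ 1) :
    Integrable (fun f => ev0 (dmap e (L f)) ^ (2 * n)) Q := by
  have h4 : Integrable (fun f => ev0 (L f) ^ 4) Q :=
    integrable_even_of_le (m := 2) (measurable_ev0.comp hLm) hn hi
  exact H.integrable_deriv_pow n hn he (measurable_ev0.comp hLm)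
    (measurable_ev0.comp ((measurable_dmap e).comp hLm)) hi (eigen_ev0 H hLm hL h4)
    (isD_ev0 hL e)

lemma isJet_path (E : Type*) [NormedAddCommGroup E] [InnerProductSpace ℝ E]
    [FiniteDimensional ℝ E] [MeasurableSpace E] [BorelSpace E] :
    IsJet (sshift : E → SPath E → SPath E) (fun i => bE E i) ev0
      (fun i f => ev0 (dmap (bE E i) f))
      (fun i j f => ev0 (dmap (bE E i) (dmap (bE E j) f)))
      (fun i j f => ev0 (dmap (bE E i) (dmap (bE E i) (dmap (bE E j) f)))) where
  mF := measurable_ev0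
  mv i := measurable_ev0.comp (measurable_dmap _)
  mM i j := measurable_ev0.comp ((measurable_dmap _).comp (measurable_dmap _))
  mK i j := measurable_ev0.comp
    ((measurable_dmap _).comp ((measurable_dmap _).comp (measurable_dmap _)))
  dF i := isD_ev0 (L := fun f => f) (fun w f => rfl) (bE E i)
  dv i j := isD_ev0 (L := fun f => dmap (bE E j) f) (fun w f => dmap_sshift _ _ _) (bE E i)
  dM i j := isD_ev0 (L := fun f => dmap (bE E i) (dmap (bE E j) f))
    (fun w f => by rw [dmap_sshift, dmap_sshift]) (bE E i)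
  trM f := by
    have h1 := f.2.2 0
    rw [laplacian_eq_sum_D f.2.1] at h1
    exact h1
  trK j f := by
    have h1 := (dmap (bE E j) f).2.2 0
    rw [laplacian_eq_sum_D (dmap (bE E j) f).2.1] at h1
    exact h1

/-- **Energy identity on path space.** -/
theorem energy_path {Q : Measure (SPath E)} [IsProbabilityMeasure Q]
    (H : IsFlow Q (sshift : E → SPath E → SPath E)) {n : ℕ} (hn : 2 ≤ n)
    (hi : Integrable (fun f : SPath E => ev0 f ^ (2 * n)) Q) {m : ℕ} (hm : m ≠ 0) (hmn : m ≤ n) :
    Integrable (fun f : SPath E => Sf (ev0 f) (fun j => ev0 (dmap (bE E j) f)) ^ m) Q ∧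
    Integrable (fun f : SPath E => Wf m (ev0 f) (fun j => ev0 (dmap (bE E j) f))
      (fun i j => ev0 (dmap (bE E i) (dmap (bE E j) f)))) Q ∧
    (∫ f : SPath E, ev0 f ^ (2 * m) ∂Q) / cm2 m
      = ∫ f : SPath E, Sf (ev0 f) (fun j => ev0 (dmap (bE E j) f)) ^ m ∂Q
      + ∫ f : SPath E, Wf m (ev0 f) (fun j => ev0 (dmap (bE E j) f))
      (fun i j => ev0 (dmap (bE E i) (dmap (bE E j) f))) ∂Q := by
  have hb : ∀ i, ‖bE E i‖ ≤ 1 := fun i => ((bE E).orthonormal.1 i).le
  have iv : ∀ i, Integrable (fun f : SPath E => ev0 (dmap (bE E i) f) ^ (2 * n)) Q := fun i =>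
    moment_step H (L := fun f => f) measurable_id (fun w f => rfl) hn hi (hb i)
  have iM : ∀ i j, Integrable (fun f : SPath E =>
      ev0 (dmap (bE E i) (dmap (bE E j) f)) ^ (2 * n)) Q := fun i j =>
    moment_step H (L := fun f => dmap (bE E j) f) (measurable_dmap _)
      (fun w f => dmap_sshift _ _ _) hn (iv j) (hb i)
  have iK : ∀ i j, Integrable (fun f : SPath E =>
      ev0 (dmap (bE E i) (dmap (bE E i) (dmap (bE E j) f))) ^ (2 * n)) Q := fun i j =>
    moment_step H (L := fun f => dmap (bE E i) (dmap (bE E j) f))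
      ((measurable_dmap _).comp (measurable_dmap _))
      (fun w f => by rw [dmap_sshift, dmap_sshift]) hn (iM i j) (hb i)
  have J := isJet_path E
  exact J.energy H hm (integrable_even_of_le J.mF hmn hi)
    (fun i => integrable_even_of_le (J.mv i) hmn (iv i))
    (fun i j => integrable_even_of_le (J.mM i j) hmn (iM i j))
    (fun i j => integrable_even_of_le (J.mK i j) hmn (iK i j))

lemma Wf_one {ι : Type*} [Fintype ι] (F : ℝ) (v : ι → ℝ) (M : ι → ι → ℝ) : Wf 1 F v M = 0 := by
  simp [Wf, cP, cS, eP, eS]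

/-- the energy density of a path at the origin -/
noncomputable def energyDensity (f : SPath E) : ℝ := Sf (ev0 f) (fun j => ev0 (dmap (bE E j) f))

lemma energyDensity_eq (f : SPath E) :
    energyDensity f = f.1 0 ^ 2 + ‖gradient f.1 0‖ ^ 2 := by
  have h1 : ‖gradient f.1 0‖ ^ 2 = ∑ j, ev0 (dmap (bE E j) f) ^ 2 := by
    rw [← (bE E).sum_sq_norm_inner_right (gradient f.1 0)]
    refine Finset.sum_congr rfl fun j _ => ?_
    rw [Real.norm_eq_abs, sq_abs]
    congr 1
    simp only [ev0, dmap, D, gradient]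
    rw [real_inner_comm]
    simp
  rw [h1]
  rfl

theorem moments_path {Q : Measure (SPath E)} [IsProbabilityMeasure Q]
    (H : IsFlow Q (sshift : E → SPath E → SPath E)) {n : ℕ} (hn : 2 ≤ n)
    (hi : Integrable (fun f : SPath E => ev0 f ^ (2 * n)) Q) :
    Integrable (fun f : SPath E => energyDensity f ^ n) Q ∧
    ∫ f : SPath E, energyDensity f ∂Q = 2 * ∫ f : SPath E, ev0 f ^ 2 ∂Q ∧
    (∫ f : SPath E, energyDensity f ∂Q) ^ n ≤ ∫ f : SPath E, energyDensity f ^ n ∂Q ∧
    cm2 n * ∫ f : SPath E, energyDensity f ^ n ∂Q ≤ ∫ f : SPath E, ev0 f ^ (2 * n) ∂Q := by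
  obtain ⟨i1, _, h1⟩ := energy_path H hn hi (m := 1) one_ne_zero (by omega)
  obtain ⟨i2, _, h2⟩ := energy_path H hn hi (m := n) (by omega) le_rfl
  have hc := cm2_pos n
  have i1' : Integrable (fun f : SPath E => energyDensity f) Q := by
    refine i1.congr (Eventually.of_forall fun f => ?_)
    simp only [pow_one]
    rfl
  refine ⟨i2, ?_, ?_, ?_⟩
  · simp only [Wf_one, integral_zero, add_zero, pow_one, mul_one] at h1
    have e : cm2 1 = 1 / 2 := by norm_num [cm2]
    rw [e] at h1
    have e2 : ∫ f : SPath E, energyDensity f ∂Q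
        = ∫ f : SPath E, Sf (ev0 f) (fun j => ev0 (dmap (bE E j) f)) ∂Q := rfl
    rw [e2, ← h1]; ring
  · have hcvx : ConvexOn ℝ (Set.Ici (0 : ℝ)) (fun x : ℝ => x ^ n) := convexOn_pow n
    have hcont : ContinuousOn (fun x : ℝ => x ^ n) (Set.Ici (0 : ℝ)) :=
      (continuous_pow n).continuousOn
    exact hcvx.map_integral_le hcont isClosed_Ici
      (Eventually.of_forall fun f => Sf_nonneg _ _) i1' i2
  · have hW : 0 ≤ ∫ f : SPath E, Wf n (ev0 f) (fun j => ev0 (dmap (bE E j) f))
      (fun i j => ev0 (dmap (bE E i) (dmap (bE E j) f))) ∂Q :=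
      integral_nonneg fun f => Wf_nonneg n _ _ _
    have h3 : ∫ f : SPath E, energyDensity f ^ n ∂Q ≤ (∫ f : SPath E, ev0 f ^ (2 * n) ∂Q) / cm2 n := by
      rw [h2]
      have e2 : ∫ f : SPath E, energyDensity f ^ n ∂Q
        = ∫ f : SPath E, Sf (ev0 f) (fun j => ev0 (dmap (bE E j) f)) ^ n ∂Q := rfl
      rw [e2]; linarith
    rw [le_div_iff₀ hc] at h3
    linarith

end Berry67
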